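import Pool.Agent.Lib.MP_1ad228_ntY.RtSum
import Pool.Agent.Lib.MP_1ad228_ntN.Alpha

/-!
LEAF AlphaY.  Near points with the weight `rt / pn Del (1 + nD/Z^e)`.  Model: `Lib/MP_1ad228_ntQ/AlphaD.lean`.
PROOF.  `t = (n+1) H q`.  `nD ≤ (t/B)^e pn(Del)`, `nD ≤ (2 t B)^e`; the cells `(I, j)` have at most `C H^(en)` elements (`alphaCell`); the number
of `j` is at most `C (log2 B + 2)^e`.  The ideals that occur have norm `≤ (2 t B)^e = (2 (n+1) q H B)^e ≤ ((C1 Q)^e)^4`,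
`C1 = 2 (n+1) q` (`H B ≤ Q^4`): `rtSum` with `(C1 Q)^e` gives `∑ rt/N ≤ C (C1 Q)^e` and `∑ rt ≤ (2 t B)^e C (C1 Q)^e`.
First part: `(t/B)^e C H^(en) (log)^e ∑ rt/N ≤ C (log)^e (H^(n+1) Q/B)^e`.  Second part (weight `rt nD/(pn Del Z^e) ≤ rt (t/B)^e/Z^e`):
`(t/B)^e C H^(en) (log)^e (2tB)^e C Q^e/Z^e ≤ C (log)^e (H^(n+2) Q/Z)^e`.
Both are at most `C (log)^e (B^(n-1) Lam)^e`: the first two terms of `Lam` times `B^(n-1)` are `H^(n+1) Q/B` and `H^(n+2) Q/Z`.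
-/

namespace Pool.Agent.Lib.MP_1ad228_ntY

open NumberField Classical
open Pool.Agent.Lib.MP_1ad228_ntN
open Pool.Agent.Lib.MP_219881_nt (mn)

set_option linter.unusedSectionVars false

variable {K : Type} [Field K] [NumberField K]

/-- The linear forms at one near point. -/
private theorem AlphaY_pt {n B H q : ℕ} {o : Fin (n + 1)} (hB : 1 ≤ B) {x y : Vc n (𝓞 K)}
    (hx : x ∈ GG K B H q o) (f : Vc n (𝓞 K)) (h0 : lin f x = 0)
    (hb : ∀ i, ∀ v : InfinitePlace K, v (f i : K) ≤ (H : ℝ)) (v : InfinitePlace K) :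
    v ((lin f y : 𝓞 K) : K) ≤ (((n + 1) * H * q : ℕ) : ℝ) / B * Del o x y v := by
  have hB0 : (0 : ℝ) < B := by exact_mod_cast hB
  have h1 := apBd B H q o hB x y hx f h0 hb v
  have h2 : (((n + 1) * H * q : ℕ) : ℝ) / B * Del o x y v =
      ((n + 1) * H * q * Del o x y v) / B := by
    push_cast
    ring
  rw [h2, le_div_iff₀ hB0, mul_comm]
  exact h1

private theorem AlphaY_log (B : ℕ) (hB : 1 ≤ B) :
    ((Nat.log 2 (2 * B ^ 2) : ℕ) : ℝ) + 2 ≤ 3 * ((Nat.log 2 B : ℝ) + 2) := by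
  have h1 : B < 2 ^ (Nat.log 2 B + 1) := Nat.lt_pow_succ_log_self (by norm_num) B
  have h2 : 2 * B ^ 2 < 2 ^ (2 * Nat.log 2 B + 3) := by
    have h3 : B ^ 2 < (2 ^ (Nat.log 2 B + 1)) ^ 2 := Nat.pow_lt_pow_left h1 (by norm_num)
    calc 2 * B ^ 2 < 2 * (2 ^ (Nat.log 2 B + 1)) ^ 2 := by omega
      _ = 2 ^ (2 * Nat.log 2 B + 3) := by ring
  have h3 : Nat.log 2 (2 * B ^ 2) < 2 * Nat.log 2 B + 3 := Nat.log_lt_of_lt_pow (by positivity) h2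
  have h4 : Nat.log 2 (2 * B ^ 2) + 2 ≤ 3 * (Nat.log 2 B + 2) := by omega
  exact_mod_cast h4

/-- The final inequality. -/
private theorem AlphaY_fin (e n : ℕ) (hn : 1 ≤ n) (B H Q Z c₀ : ℝ) (hB : 0 < B) (hH : 1 ≤ H)
    (hQ : 1 ≤ Q) (hZ : 1 ≤ Z) (hc : 1 ≤ c₀) (Λ : ℝ)
    (hΛ : Λ = H ^ (n + 1) * Q / B ^ n + H ^ (n + 2) * Q / (B ^ (n - 1) * Z) + Q / Z) :
    (c₀ * H / B) ^ e * (1 + (2 * (c₀ * H) * B) ^ e / Z ^ e) * (H ^ (e * n) * Q ^ e) ≤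
      (c₀ ^ e + (2 * c₀ ^ 2) ^ e) * (B ^ (n - 1) * Λ) ^ e := by
  obtain ⟨k, rfl⟩ : ∃ k, n = k + 1 := ⟨n - 1, by omega⟩
  rw [Nat.add_sub_cancel] at hΛ ⊢
  have h0 : B ^ k * Λ = H ^ (k + 2) * Q / B + H ^ (k + 3) * Q / Z + B ^ k * (Q / Z) := by
    rw [hΛ]
    field_simp
    ring
  have hp1 : 0 ≤ H ^ (k + 2) * Q / B := by positivity
  have hp2 : 0 ≤ H ^ (k + 3) * Q / Z := by positivity
  have hp3 : 0 ≤ B ^ k * (Q / Z) := by positivity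
  have h1 : (H ^ (k + 2) * Q / B) ^ e ≤ (B ^ k * Λ) ^ e :=
    pow_le_pow_left₀ hp1 (by linarith) e
  have h2 : (H ^ (k + 3) * Q / Z) ^ e ≤ (B ^ k * Λ) ^ e :=
    pow_le_pow_left₀ hp2 (by linarith) e
  have h3 : (c₀ * H / B) ^ e * (1 + (2 * (c₀ * H) * B) ^ e / Z ^ e) * (H ^ (e * (k + 1)) * Q ^ e) =
      c₀ ^ e * (H ^ (k + 2) * Q / B) ^ e + (2 * c₀ ^ 2) ^ e * (H ^ (k + 3) * Q / Z) ^ e := by
    rw [mul_comm e (k + 1), pow_mul H, ← mul_pow (H ^ (k + 1)), ← div_pow, mul_add, mul_one, add_mul,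
      ← mul_pow, ← mul_pow, ← mul_pow, ← mul_pow, ← mul_pow]
    congr 1
    · congr 1
      ring
    · congr 1
      field_simp
      ring
  rw [h3, add_mul]
  exact add_le_add (mul_le_mul_of_nonneg_left h1 (by positivity))
    (mul_le_mul_of_nonneg_left h2 (by positivity))

variable (K) in
theorem alphaY (n q r : ℕ) (hn : 1 ≤ n) (hq : 1 ≤ q) (hr : 1 ≤ r) : ∃ C : ℝ, 1 ≤ C ∧
    ∀ (B H Q Z : ℕ) (o : Fin (n + 1)), 1 ≤ B → 1 ≤ H → H ≤ B → 1 ≤ Q → 1 ≤ Z → H * B ≤ Q ^ 4 →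
    ∀ x ∈ GG K B H q o,
    ∑ y ∈ (GG K B H q o).filter (fun y => ¬ Prp x y ∧ pn (Del o x y) ≤ nD x y * (B : ℝ) ^ eK K),
      (rt r (Dd x y) : ℝ) / pn (Del o x y) * (1 + nD x y / (Z : ℝ) ^ eK K) ≤
        C * ((Nat.log 2 B : ℝ) + 2) ^ eK K * ((B : ℝ) ^ (n - 1) * Lam n B H Q Z) ^ eK K := by
  obtain ⟨C1, hC1, hcell⟩ := alphaCell (K := K) n q hq
  obtain ⟨C2, hC2, hrt⟩ := rtSum K r hr
  set κ : ℝ := CK K n with hκ
  have hκ1 : 1 ≤ κ := CK_one_le K n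
  have hq1 : (1 : ℝ) ≤ q := by exact_mod_cast hq
  set c₀ : ℝ := ((n + 1 : ℕ) * q : ℝ) with hc₀
  have hc0 : 1 ≤ c₀ := by
    have : (1 : ℝ) ≤ (n + 1 : ℕ) := by exact_mod_cast Nat.succ_le_succ (Nat.zero_le n)
    rw [hc₀]
    exact one_le_mul_of_one_le_of_one_le this hq1
  refine ⟨C1 * κ * C2 * 3 ^ eK K * (2 * c₀) ^ eK K * (c₀ ^ eK K + (2 * c₀ ^ 2) ^ eK K), ?_, ?_⟩
  · have h2 : (1 : ℝ) ≤ 3 ^ eK K := one_le_pow₀ (by norm_num)
    have h3 : (1 : ℝ) ≤ (2 * c₀) ^ eK K := one_le_pow₀ (by linarith)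
    have h4 : (1 : ℝ) ≤ c₀ ^ eK K := one_le_pow₀ hc0
    have h5 : (0 : ℝ) ≤ (2 * c₀ ^ 2) ^ eK K := by positivity
    exact one_le_mul_of_one_le_of_one_le (one_le_mul_of_one_le_of_one_le
      (one_le_mul_of_one_le_of_one_le (one_le_mul_of_one_le_of_one_le
        (one_le_mul_of_one_le_of_one_le hC1 hκ1) hC2) h2) h3) (by linarith)
  intro B H Q Z o hB hH hHB hQ hZ hHBQ x hx
  set Y := (GG K B H q o).filter (fun y => ¬ Prp x y ∧ pn (Del o x y) ≤ nD x y * (B : ℝ) ^ eK K)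
    with hY
  have hB0 : (0 : ℝ) < B := by exact_mod_cast hB
  have hB1 : (1 : ℝ) ≤ B := by exact_mod_cast hB
  have hH1 : (1 : ℝ) ≤ H := by exact_mod_cast hH
  have hQ1 : (1 : ℝ) ≤ Q := by exact_mod_cast hQ
  have hZ1 : (1 : ℝ) ≤ Z := by exact_mod_cast hZ
  have hZ0 : (0 : ℝ) < Z := by linarith
  obtain ⟨f, hf, h0, hb⟩ := GG_good hx
  set t : ℝ := (((n + 1) * H * q : ℕ) : ℝ) with ht
  have ht1 : 1 ≤ t := by
    rw [ht]
    exact_mod_cast Nat.mul_pos (Nat.mul_pos (Nat.succ_pos n) hH) hq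
  have ht0 : 0 < t := by linarith
  have htc : t = c₀ * H := by
    rw [ht, hc₀]
    push_cast
    ring
  have hxo := GG_ne hB hx
  -- the norm of the ideal
  have hnD : ∀ y ∈ Y, nD x y ≤ (t / B) ^ eK K * pn (Del o x y) := by
    intro y hy
    obtain ⟨hyG, hp, hd⟩ := Finset.mem_filter.1 hy
    obtain ⟨s, hs⟩ := apNe B H q o hB x y hx hp f hf h0
    have h1 : nD x y ≤ pn (fun v : InfinitePlace K => v ((lin (f s) y : 𝓞 K) : K)) :=
      absNorm_le_pn (apDvd x y (GG_uni hx) (f s) (h0 s)) hs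
    refine h1.trans ?_
    rw [← pn_const_mul]
    exact pn_mono (fun v => v_nonneg v _) fun v => AlphaY_pt hB hx (f s) (h0 s) (hb s) v
  have hpD : ∀ y ∈ Y, 0 < pn (Del o x y) := fun y hy =>
    lt_of_lt_of_le one_pos (one_le_pn_Del hxo (Finset.mem_filter.1 hy).2.1)
  have hDne : ∀ y ∈ Y, Dd x y ≠ ⊥ := fun y hy => Dd_ne_bot (Finset.mem_filter.1 hy).2.1
  have hD1 : ∀ y ∈ Y, (1 : ℝ) ≤ nD x y := fun y hy => by
    rw [nD]
    exact one_le_absNorm (hDne y hy)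
  have hD2 : ∀ y ∈ Y, nD x y ≤ (2 * t * B) ^ eK K := by
    intro y hy
    obtain ⟨hyG, hp, hd⟩ := Finset.mem_filter.1 hy
    have h1 : pn (Del o x y) ≤ (2 * (B : ℝ) ^ 2) ^ eK K := by
      rw [← pn_const]
      exact pn_mono (fun v => (Del_pos hxo hp v).le) fun v => Del_le hx hyG v
    have h2 : (t / B) ^ eK K * pn (Del o x y) ≤ (t / B) ^ eK K * (2 * (B : ℝ) ^ 2) ^ eK K :=
      mul_le_mul_of_nonneg_left h1 (by positivity)
    refine (hnD y hy).trans (h2.trans (le_of_eq ?_))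
    rw [← mul_pow]
    congr 1
    field_simp
  have hterm : ∀ y ∈ Y, (rt r (Dd x y) : ℝ) / pn (Del o x y) * (1 + nD x y / (Z : ℝ) ^ eK K) ≤
      (t / B) ^ eK K * (1 + (2 * t * B) ^ eK K / (Z : ℝ) ^ eK K) *
        ((rt r (Dd x y) : ℝ) / Ideal.absNorm (Dd x y)) := by
    intro y hy
    have h1 : (0 : ℝ) < Ideal.absNorm (Dd x y) := lt_of_lt_of_le one_pos (hD1 y hy)
    have h2 := hnD y hy
    have h3 : (rt r (Dd x y) : ℝ) / pn (Del o x y) ≤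
        (t / B) ^ eK K * ((rt r (Dd x y) : ℝ) / Ideal.absNorm (Dd x y)) := by
      rw [mul_div_assoc', div_le_div_iff₀ (hpD y hy) h1]
      calc (rt r (Dd x y) : ℝ) * Ideal.absNorm (Dd x y)
          ≤ (rt r (Dd x y) : ℝ) * ((t / B) ^ eK K * pn (Del o x y)) :=
            mul_le_mul_of_nonneg_left h2 (Nat.cast_nonneg _)
        _ = (t / B) ^ eK K * (rt r (Dd x y) : ℝ) * pn (Del o x y) := by ring
    have h4 : 1 + nD x y / (Z : ℝ) ^ eK K ≤ 1 + (2 * t * B) ^ eK K / (Z : ℝ) ^ eK K :=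
      add_le_add le_rfl (div_le_div_of_nonneg_right (hD2 y hy) (by positivity))
    have h5 : 0 ≤ 1 + nD x y / (Z : ℝ) ^ eK K := by
      have := hD1 y hy
      positivity
    calc (rt r (Dd x y) : ℝ) / pn (Del o x y) * (1 + nD x y / (Z : ℝ) ^ eK K)
        ≤ ((t / B) ^ eK K * ((rt r (Dd x y) : ℝ) / Ideal.absNorm (Dd x y))) *
          (1 + (2 * t * B) ^ eK K / (Z : ℝ) ^ eK K) := mul_le_mul h3 h4 h5 (by positivity)
      _ = _ := by ring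
  -- the ideals
  obtain ⟨c, hc⟩ : ∃ c : ℕ, c = 2 * ((n + 1) * q) := ⟨_, rfl⟩
  have hc1 : 1 ≤ c := by
    rw [hc]
    exact Nat.succ_le_of_lt (by positivity)
  have hcr : (c : ℝ) = 2 * c₀ := by
    rw [hc, hc₀]
    push_cast
    ring
  have hids : ∀ I ∈ Y.image (fun y => Dd x y), I ≠ ⊥ ∧
      (Ideal.absNorm I : ℝ) ≤ (((c * Q) ^ eK K : ℕ) : ℝ) ^ 4 := by
    intro I hI
    obtain ⟨y, hy, rfl⟩ := Finset.mem_image.1 hI
    refine ⟨hDne y hy, ?_⟩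
    refine (hD2 y hy).trans ?_
    have h1 : 2 * t * B = (((c * (H * B) : ℕ)) : ℝ) := by
      rw [ht, hc]
      push_cast
      ring
    have h2 : c * (H * B) ≤ (c * Q) ^ 4 := by
      calc c * (H * B) ≤ c ^ 4 * Q ^ 4 :=
            Nat.mul_le_mul (Nat.le_self_pow (by norm_num) c) hHBQ
        _ = (c * Q) ^ 4 := (mul_pow _ _ _).symm
    have h3 : (((c * Q) ^ eK K : ℕ) : ℝ) ^ 4 = ((((c * Q) ^ 4 : ℕ)) : ℝ) ^ eK K := by
      push_cast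
      rw [← pow_mul, ← pow_mul, mul_comm (eK K) 4]
    rw [h1, h3]
    exact pow_le_pow_left₀ (Nat.cast_nonneg _) (by exact_mod_cast h2) _
  have hX1 : 1 ≤ (c * Q) ^ eK K := Nat.one_le_pow _ _ (Nat.mul_pos hc1 hQ)
  have hrtS : ∑ I ∈ Y.image (fun y => Dd x y), (rt r I : ℝ) / Ideal.absNorm I ≤
      C2 * (2 * c₀) ^ eK K * (Q : ℝ) ^ eK K := by
    refine (hrt _ hX1 _ hids).trans (le_of_eq ?_)
    push_cast
    rw [hcr, mul_pow]
    ring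
  -- the pairs
  set T : Finset (Ideal (𝓞 K) × (InfinitePlace K → ℤ)) :=
    (Y.image fun y => Dd x y) ×ˢ (JJ K (2 * B ^ 2)) with hT
  have hmaps : ∀ y ∈ Y, (Dd x y, jv (Del o x y)) ∈ T := by
    intro y hy
    obtain ⟨hyG, hp, hd⟩ := Finset.mem_filter.1 hy
    refine Finset.mem_product.2 ⟨Finset.mem_image_of_mem _ hy, ?_⟩
    have hR : 1 ≤ 2 * B ^ 2 := Nat.succ_le_of_lt (by positivity)
    refine mem_JJ hR (Del_pos hxo hp) (fun v => ?_)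
      (one_le_pn_Del hxo hp)
    have := Del_le hx hyG v
    push_cast
    exact this
  have hYsum : ∑ y ∈ Y, (rt r (Dd x y) : ℝ) / Ideal.absNorm (Dd x y) ≤
      ∑ b ∈ T, C1 * (H : ℝ) ^ (eK K * n) * ((rt r b.1 : ℝ) / Ideal.absNorm b.1) := by
    rw [← Finset.sum_fiberwise_of_maps_to hmaps]
    refine Finset.sum_le_sum fun b _ => ?_
    have h2 := hcell B H o hB hH x hx b.1 b.2
    have h3 : (Y.filter fun y => (Dd x y, jv (Del o x y)) = b) ⊆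
        (GG K B H q o).filter fun y =>
          (¬ Prp x y ∧ pn (Del o x y) ≤ nD x y * (B : ℝ) ^ eK K) ∧ Dd x y = b.1 ∧
            jv (Del o x y) = b.2 := by
      intro y hy
      obtain ⟨hy1, hy2⟩ := Finset.mem_filter.1 hy
      obtain ⟨hyG, hp⟩ := Finset.mem_filter.1 hy1
      exact Finset.mem_filter.2 ⟨hyG, hp, congrArg Prod.fst hy2, congrArg Prod.snd hy2⟩
    have h4 : ((Y.filter fun y => (Dd x y, jv (Del o x y)) = b).card : ℝ) ≤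
        C1 * (H : ℝ) ^ (eK K * n) := le_trans (by exact_mod_cast Finset.card_le_card h3) h2
    calc ∑ y ∈ Y with (Dd x y, jv (Del o x y)) = b, (rt r (Dd x y) : ℝ) / Ideal.absNorm (Dd x y)
        = ∑ y ∈ Y with (Dd x y, jv (Del o x y)) = b, (rt r b.1 : ℝ) / Ideal.absNorm b.1 := by
          refine Finset.sum_congr rfl fun y hy => ?_
          rw [← congrArg Prod.fst (Finset.mem_filter.1 hy).2]
      _ = ((Y.filter fun y => (Dd x y, jv (Del o x y)) = b).card : ℝ) *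
          ((rt r b.1 : ℝ) / Ideal.absNorm b.1) := by rw [Finset.sum_const, nsmul_eq_mul]
      _ ≤ C1 * (H : ℝ) ^ (eK K * n) * ((rt r b.1 : ℝ) / Ideal.absNorm b.1) :=
          mul_le_mul_of_nonneg_right h4 (by positivity)
  have hTsum : ∑ b ∈ T, C1 * (H : ℝ) ^ (eK K * n) * ((rt r b.1 : ℝ) / Ideal.absNorm b.1) =
      C1 * (H : ℝ) ^ (eK K * n) * (((JJ K (2 * B ^ 2)).card : ℝ) *
        ∑ I ∈ Y.image (fun y => Dd x y), (rt r I : ℝ) / Ideal.absNorm I) := by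
    rw [← Finset.mul_sum, hT, Finset.sum_product_right]
    simp only [Finset.sum_const, nsmul_eq_mul]
  have hJ : ((JJ K (2 * B ^ 2)).card : ℝ) ≤ κ * (3 * ((Nat.log 2 B : ℝ) + 2)) ^ eK K := by
    refine (JJ_up K n (2 * B ^ 2)).trans ?_
    exact mul_le_mul_of_nonneg_left (pow_le_pow_left₀ (by positivity) (AlphaY_log B hB) _)
      (by linarith)
  have hfin := AlphaY_fin (eK K) n hn B H Q Z c₀ hB0 hH1 hQ1 hZ1 hc0 (Lam n B H Q Z) rfl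
  obtain ⟨L, hL⟩ : ∃ L : ℝ, L = (Nat.log 2 B : ℝ) + 2 := ⟨_, rfl⟩
  have hL0 : 0 ≤ L := by rw [hL]; positivity
  rw [← hL] at hJ ⊢
  calc ∑ y ∈ Y, (rt r (Dd x y) : ℝ) / pn (Del o x y) * (1 + nD x y / (Z : ℝ) ^ eK K)
      ≤ ∑ y ∈ Y, (t / B) ^ eK K * (1 + (2 * t * B) ^ eK K / (Z : ℝ) ^ eK K) *
          ((rt r (Dd x y) : ℝ) / Ideal.absNorm (Dd x y)) :=
        Finset.sum_le_sum hterm
    _ = (t / B) ^ eK K * (1 + (2 * t * B) ^ eK K / (Z : ℝ) ^ eK K) *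
          ∑ y ∈ Y, (rt r (Dd x y) : ℝ) / Ideal.absNorm (Dd x y) := by
        rw [Finset.mul_sum]
    _ ≤ (t / B) ^ eK K * (1 + (2 * t * B) ^ eK K / (Z : ℝ) ^ eK K) *
          (C1 * (H : ℝ) ^ (eK K * n) * ((κ * (3 * L) ^ eK K) *
            (C2 * (2 * c₀) ^ eK K * (Q : ℝ) ^ eK K))) := by
        refine mul_le_mul_of_nonneg_left (hYsum.trans ?_) (by positivity)
        rw [hTsum]
        refine mul_le_mul_of_nonneg_left ?_ (by positivity)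
        refine mul_le_mul hJ hrtS ?_ (by positivity)
        exact Finset.sum_nonneg fun I _ => by positivity
    _ = (C1 * κ * C2 * 3 ^ eK K * (2 * c₀) ^ eK K * L ^ eK K) *
          ((c₀ * H / B) ^ eK K * (1 + (2 * (c₀ * H) * B) ^ eK K / (Z : ℝ) ^ eK K) *
            ((H : ℝ) ^ (eK K * n) * (Q : ℝ) ^ eK K)) := by
        rw [htc, mul_pow 3 L]
        ring
    _ ≤ (C1 * κ * C2 * 3 ^ eK K * (2 * c₀) ^ eK K * L ^ eK K) *
          ((c₀ ^ eK K + (2 * c₀ ^ 2) ^ eK K) * ((B : ℝ) ^ (n - 1) * Lam n B H Q Z) ^ eK K) :=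
        mul_le_mul_of_nonneg_left hfin (by positivity)
    _ = _ := by ring

end Pool.Agent.Lib.MP_1ad228_ntY
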