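import Pool.Agent.Lib.MP_1ad228_ntY.RtSum
import Pool.Agent.Lib.MP_1ad228_ntN.Beta
import Pool.Agent.Lib.MP_1ad228_ntN.CntY

/-!
LEAF BetaY.  Far points.  Model: `Lib/MP_1ad228_ntQ/BetaD.lean`.
PROOF.  `betaY`: the model with `rt`, `rtTail`.  `betaY2`: weight `rt * nD / pn Del`: group by `(I, j)`: the sum is at most
`C (B/B^n)^e ∑_I rt(I) N(I)/N(I)^n ∑_j pn(2^j)^(n-1)`; `geoPn` with `Zv = 2 B^2`: `≤ C (B/B^n)^e (B^2)^(e(n-1)) = C (B^(n-1))^e`, and
`∑_I rt(I)/N(I)^(n-1) ≤ ∑_I rt(I)/N(I)` (`n ≥ 2`) `≤ C (2 Q)^e` by `rtSum` with `(2 Q)^e`, since the far ideals have norm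
`≤ (2B)^e ≤ ((2 Q)^e)^4` (`nD B^e < pn(Del) ≤ (2B^2)^e`; `B ≤ H B ≤ Q^4`).
-/

namespace Pool.Agent.Lib.MP_1ad228_ntY

open NumberField Classical
open Pool.Agent.Lib.MP_1ad228_ntN
open Pool.Agent.Lib.MP_219881_nt (mn)

set_option linter.unusedSectionVars false

variable {K : Type} [Field K] [NumberField K]

private theorem BetaY_alg (n m : ℕ) (hm : n = m + 2) (C0 E Bq P N t : ℝ) (hC0 : 0 ≤ C0)
    (hE : 0 ≤ E) (hBq : 0 ≤ Bq) (hP : 0 < P) (hN : 1 ≤ N) (ht : 0 ≤ t) :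
    C0 * Bq * (E * P / N) ^ n * (t / P) ≤ C0 * E ^ n * Bq * (t / N ^ 2 * P ^ (n - 1)) := by
  subst hm
  have hN0 : 0 < N := by linarith
  have e0 : m + 2 - 1 = m + 1 := by omega
  have hms : (1 : ℝ) ≤ N ^ m := one_le_pow₀ hN
  have e1 : C0 * Bq * (E * P / N) ^ (m + 2) * (t / P) =
      C0 * E ^ (m + 2) * Bq * (t / N ^ 2 * P ^ (m + 1)) * (1 / N ^ m) := by
    rw [div_pow, mul_pow]
    have e3 : N ^ (m + 2) = N ^ 2 * N ^ m := by
      rw [← pow_add]
      congr 1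
      ring
    have e4 : P ^ (m + 2) = P * P ^ (m + 1) := by
      rw [← pow_succ']
    rw [e3, e4]
    have p4 : N ^ m ≠ 0 := by positivity
    generalize N ^ m = u8 at p4
    generalize P ^ (m + 1) = u4
    generalize E ^ (m + 2) = u5
    field_simp
  rw [e1, e0]
  have h8 : (1 : ℝ) / N ^ m ≤ 1 := by
    rw [div_le_one (by positivity)]
    exact hms
  exact mul_le_of_le_one_right (by positivity) h8

variable (K) in
theorem betaY (n q r : ℕ) (hn : 2 ≤ n) (hq : 1 ≤ q) (hr : 1 ≤ r) : ∃ C : ℝ, 1 ≤ C ∧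
    ∀ (B H w : ℕ) (Zv : InfinitePlace K → ℝ) (o : Fin (n + 1)), 1 ≤ B → (∀ v, 0 ≤ Zv v) →
    ∀ x ∈ GG K B H q o,
    ∑ y ∈ (GG K B H q o).filter (fun y => ¬ Prp x y ∧
        nD x y * (B : ℝ) ^ eK K < pn (Del o x y) ∧ (w : ℝ) < nD x y ∧ ∀ v, Del o x y v ≤ Zv v),
      (rt r (Dd x y) : ℝ) / pn (Del o x y) ≤
        C * (pn Zv ^ (n - 1) * ((B : ℝ) / (B : ℝ) ^ n) ^ eK K / ((Nat.sqrt w : ℝ) + 1)) := by
  obtain ⟨C0, hC0, hcnt⟩ := cntY (K := K) n q hq
  obtain ⟨C1, hC1, htail⟩ := rtTail K r hr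
  have hC00 : 0 ≤ C0 := by linarith
  have h2e : (1 : ℝ) ≤ 2 ^ eK K := one_le_pow₀ (by norm_num)
  refine ⟨C0 * (2 ^ eK K) ^ n * (C1 * 2 ^ eK K), ?_, ?_⟩
  · exact one_le_mul_of_one_le_of_one_le
      (one_le_mul_of_one_le_of_one_le hC0 (one_le_pow₀ h2e))
      (one_le_mul_of_one_le_of_one_le hC1 h2e)
  intro B H w Zv o hB hZ x hx
  have hB0 : (0 : ℝ) < B := by exact_mod_cast hB
  have hxo := GG_ne hB hx
  set Y := (GG K B H q o).filter (fun y => ¬ Prp x y ∧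
        nD x y * (B : ℝ) ^ eK K < pn (Del o x y) ∧ (w : ℝ) < nD x y ∧
        ∀ v, Del o x y v ≤ Zv v) with hY
  have hYmem : ∀ y, y ∈ Y ↔ y ∈ GG K B H q o ∧ ¬ Prp x y ∧
        nD x y * (B : ℝ) ^ eK K < pn (Del o x y) ∧ (w : ℝ) < nD x y ∧
        ∀ v, Del o x y v ≤ Zv v := fun y => by rw [hY, Finset.mem_filter]
  set Bq : ℝ := ((B : ℝ) / (B : ℝ) ^ n) ^ eK K with hBq
  have hBq0 : 0 ≤ Bq := by positivity
  set K0 : ℝ := C0 * (2 ^ eK K) ^ n * Bq with hK0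
  have hK0pos : 0 ≤ K0 := by positivity
  let SI : Finset (Ideal (𝓞 K)) := Y.image fun y => Dd x y
  let SJ : InfinitePlace K → Finset ℤ := fun v => Y.image fun y => jv (Del o x y) v
  have hmaps : ∀ y ∈ Y, (fun y => (Dd x y, jv (Del o x y))) y ∈ SI ×ˢ Fintype.piFinset SJ := by
    intro y hy
    rw [Finset.mem_product, Fintype.mem_piFinset]
    exact ⟨Finset.mem_image_of_mem _ hy,
      fun v => Finset.mem_image_of_mem (fun y => jv (Del o x y) v) hy⟩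
  rw [← Finset.sum_fiberwise_of_maps_to hmaps]
  have hfib : ∀ p ∈ SI ×ˢ Fintype.piFinset SJ,
      ∑ y ∈ Y.filter (fun y => (Dd x y, jv (Del o x y)) = p),
        (rt r (Dd x y) : ℝ) / pn (Del o x y) ≤
      K0 * (((rt r p.1 : ℝ) / (Ideal.absNorm p.1 : ℝ) ^ 2) * pn (fun v => (2 : ℝ) ^ p.2 v) ^ (n - 1)) := by
    rintro ⟨I, j⟩ _
    simp only
    rcases (Y.filter (fun y => (Dd x y, jv (Del o x y)) = (I, j))).eq_empty_or_nonempty
      with he | ⟨y0, hy0⟩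
    · rw [he, Finset.sum_empty]
      have : 0 ≤ pn (fun v => (2 : ℝ) ^ j v) := pn_nonneg fun v => by positivity
      positivity
    · have hP0 : 0 < pn (fun v => (2 : ℝ) ^ j v) := pn_pos fun v => by positivity
      have hfacts : ∀ y ∈ Y.filter (fun y => (Dd x y, jv (Del o x y)) = (I, j)),
          y ∈ GG K B H q o ∧ ¬ Prp x y ∧ Dd x y = I ∧
            (Ideal.absNorm I : ℝ) * (B : ℝ) ^ eK K < pn (Del o x y) ∧
            (∀ v, (2 : ℝ) ^ j v ≤ Del o x y v) ∧ ∀ v, Del o x y v ≤ 2 * (2 : ℝ) ^ j v := by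
        intro y hy
        rw [Finset.mem_filter, Prod.mk.injEq] at hy
        obtain ⟨hyY, hyD, hyL⟩ := hy
        obtain ⟨hyG, hyx, h1, h2, h3⟩ := (hYmem y).mp hyY
        refine ⟨hyG, hyx, hyD, ?_, ?_, ?_⟩
        · rw [← hyD]
          exact h1
        · intro v
          rw [← hyL]
          exact jv_le (Del_pos hxo hyx v)
        · intro v
          rw [← hyL]
          exact (lt_jv v).le
      obtain ⟨g1, g2, g3, g4, g5, g6⟩ := hfacts y0 hy0
      have hI : I ≠ ⊥ := by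
        rw [← g3]
        exact Dd_ne_bot g2
      have hN1 : (1 : ℝ) ≤ Ideal.absNorm I := one_le_absNorm hI
      have hN0 : (0 : ℝ) < Ideal.absNorm I := by linarith
      have hpd : pn (fun v => 2 * (2 : ℝ) ^ j v) = 2 ^ eK K * pn (fun v => (2 : ℝ) ^ j v) :=
        pn_const_mul _ _
      have hDpn : pn (Del o x y0) ≤ pn (fun v => 2 * (2 : ℝ) ^ j v) :=
        pn_mono (fun v => Del_nonneg o x y0 v) g6
      have hDB : pn (Del o x y0) ≤ (2 * (B : ℝ)) ^ eK K * (B : ℝ) ^ eK K := by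
        have h1 : pn (Del o x y0) ≤ pn (fun _ : InfinitePlace K => 2 * (B : ℝ) ^ 2) :=
          pn_mono (fun v => Del_nonneg o x y0 v) fun v => Del_le hx g1 v
        rw [pn_const] at h1
        refine h1.trans (le_of_eq ?_)
        rw [← mul_pow]
        congr 1
        ring
      have hNB : (Ideal.absNorm I : ℝ) ≤ (2 * B) ^ eK K := by
        have h1 : (Ideal.absNorm I : ℝ) * (B : ℝ) ^ eK K < (2 * (B : ℝ)) ^ eK K * (B : ℝ) ^ eK K :=
          lt_of_lt_of_le g4 hDB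
        exact (lt_of_mul_lt_mul_right h1 (by positivity)).le
      have hcard := hcnt B H o hB x hx I (fun v => 2 * (2 : ℝ) ^ j v) hI
        (fun v => by positivity) hNB (g4.le.trans hDpn)
      have hsub : Y.filter (fun y => (Dd x y, jv (Del o x y)) = (I, j)) ⊆
          (VBox K n B).filter fun y => (∀ i j, mn x y i j ∈ I) ∧
            ∀ v, Del o x y v ≤ 2 * (2 : ℝ) ^ j v := by
        intro y hy
        obtain ⟨k1, k2, k3, k4, k5, k6⟩ := hfacts y hy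
        rw [Finset.mem_filter]
        refine ⟨(Finset.mem_filter.1 k1).1, ?_, k6⟩
        intro i j'
        rw [← k3]
        exact mn_mem_Dd x y i j'
      have hcard2 : ((Y.filter (fun y => (Dd x y, jv (Del o x y)) = (I, j))).card : ℝ) ≤
          C0 * Bq * (2 ^ eK K * pn (fun v => (2 : ℝ) ^ j v) / Ideal.absNorm I) ^ n := by
        refine (Nat.cast_le.mpr (Finset.card_le_card hsub)).trans (hcard.trans (le_of_eq ?_))
        rw [hpd]
      have hterm : ∀ y ∈ Y.filter (fun y => (Dd x y, jv (Del o x y)) = (I, j)),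
          (rt r (Dd x y) : ℝ) / pn (Del o x y) ≤ (rt r I : ℝ) / pn (fun v => (2 : ℝ) ^ j v) := by
        intro y hy
        obtain ⟨k1, k2, k3, k4, k5, k6⟩ := hfacts y hy
        rw [k3]
        have k7 : pn (fun v => (2 : ℝ) ^ j v) ≤ pn (Del o x y) :=
          pn_mono (fun v => by positivity) k5
        have k8 : 0 < pn (Del o x y) := lt_of_lt_of_le hP0 k7
        exact div_le_div_of_nonneg_left (Nat.cast_nonneg _) hP0 k7
      refine (Finset.sum_le_card_nsmul _ _ _ hterm).trans ?_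
      rw [nsmul_eq_mul]
      refine (mul_le_mul_of_nonneg_right hcard2 (by positivity)).trans ?_
      exact BetaY_alg n (n - 2) (by omega) C0 (2 ^ eK K) Bq _ _ _ hC00 (by positivity) hBq0 hP0
        hN1 (Nat.cast_nonneg _)
  refine (Finset.sum_le_sum hfib).trans ?_
  rw [← Finset.mul_sum, Finset.sum_product]
  have e5 : ∑ I ∈ SI, ∑ j ∈ Fintype.piFinset SJ,
      (rt r I : ℝ) / (Ideal.absNorm I : ℝ) ^ 2 * pn (fun v => (2 : ℝ) ^ j v) ^ (n - 1) =
      (∑ I ∈ SI, (rt r I : ℝ) / (Ideal.absNorm I : ℝ) ^ 2) *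
        ∑ j ∈ Fintype.piFinset SJ, pn (fun v => (2 : ℝ) ^ j v) ^ (n - 1) := by
    rw [Finset.sum_mul]
    refine Finset.sum_congr rfl fun I _ => ?_
    rw [Finset.mul_sum]
  rw [e5]
  have h10 : ∑ I ∈ SI, (rt r I : ℝ) / (Ideal.absNorm I : ℝ) ^ 2 ≤ C1 / ((Nat.sqrt w : ℝ) + 1) := by
    refine htail w SI fun I hI => ?_
    obtain ⟨y, hy, rfl⟩ := Finset.mem_image.1 hI
    have hy' := (hYmem y).1 hy
    exact ⟨Dd_ne_bot hy'.2.1, hy'.2.2.2.1⟩
  have h11 : ∑ j ∈ Fintype.piFinset SJ, pn (fun v => (2 : ℝ) ^ j v) ^ (n - 1) ≤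
      2 ^ eK K * pn Zv ^ (n - 1) := by
    refine geoPn SJ Zv (n - 1) (by omega) hZ fun v j hj => ?_
    obtain ⟨y, hy, rfl⟩ := Finset.mem_image.1 hj
    obtain ⟨hyG, hyx, h1, h2, h3⟩ := (hYmem y).mp hy
    exact (jv_le (Del_pos hxo hyx v)).trans (h3 v)
  have h15 : 0 ≤ ∑ j ∈ Fintype.piFinset SJ, pn (fun v => (2 : ℝ) ^ j v) ^ (n - 1) :=
    Finset.sum_nonneg fun j _ => pow_nonneg (pn_nonneg fun v => by positivity) _
  have hC10 : 0 ≤ C1 := by linarith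
  have h16 := mul_le_mul h10 h11 h15 (by positivity)
  refine (mul_le_mul_of_nonneg_left h16 hK0pos).trans (le_of_eq ?_)
  rw [hK0]
  ring

private theorem BetaY_alg2 (n m : ℕ) (hm : n = m + 2) (C0 E Bq P N t : ℝ) (hC0 : 0 ≤ C0)
    (hE : 0 ≤ E) (hBq : 0 ≤ Bq) (hP : 0 < P) (hN : 1 ≤ N) (ht : 0 ≤ t) :
    C0 * Bq * (E * P / N) ^ n * (t / P * N) ≤ C0 * E ^ n * Bq * (t / N * P ^ (n - 1)) := by
  subst hm
  have hN0 : 0 < N := by linarith
  have e0 : m + 2 - 1 = m + 1 := by omega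
  have hms : (1 : ℝ) ≤ N ^ m := one_le_pow₀ hN
  have e1 : C0 * Bq * (E * P / N) ^ (m + 2) * (t / P * N) =
      C0 * E ^ (m + 2) * Bq * (t / N * P ^ (m + 1)) * (1 / N ^ m) := by
    rw [div_pow, mul_pow]
    have e3 : N ^ (m + 2) = N ^ 2 * N ^ m := by
      rw [← pow_add]
      congr 1
      ring
    have e4 : P ^ (m + 2) = P * P ^ (m + 1) := by
      rw [← pow_succ']
    rw [e3, e4]
    have p4 : N ^ m ≠ 0 := by positivity
    generalize N ^ m = u8 at p4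
    generalize P ^ (m + 1) = u4
    generalize E ^ (m + 2) = u5
    field_simp
  rw [e1, e0]
  have h8 : (1 : ℝ) / N ^ m ≤ 1 := by
    rw [div_le_one (by positivity)]
    exact hms
  exact mul_le_of_le_one_right (by positivity) h8

private theorem BetaY_fin (e m : ℕ) (B Q C0 C1 : ℝ) (hB : 0 < B) :
    C0 * (2 ^ e) ^ (m + 2) * (B / B ^ (m + 2)) ^ e *
      (C1 * (2 * Q) ^ e * (2 ^ e * ((2 * B ^ 2) ^ e) ^ (m + 1))) =
    C0 * (2 ^ e) ^ (m + 2) * (C1 * 2 ^ e) * (2 ^ e * (2 ^ e) ^ (m + 1)) *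
      (B ^ (m + 1) * Q) ^ e := by
  have h1 : (B / B ^ (m + 2)) ^ e * ((B ^ 2) ^ e) ^ (m + 1) = (B ^ (m + 1)) ^ e := by
    have h2 : ((B ^ 2) ^ e) ^ (m + 1) = ((B ^ 2) ^ (m + 1)) ^ e :=
      pow_right_comm (B ^ 2) e (m + 1)
    rw [h2, ← mul_pow]
    congr 1
    have h3 : B ^ (m + 2) ≠ 0 := by positivity
    field_simp
    ring
  rw [mul_pow 2 Q e, mul_pow 2 (B ^ 2) e, mul_pow (2 ^ e) ((B ^ 2) ^ e) (m + 1),
    mul_pow (B ^ (m + 1)) Q e, ← h1]
  ring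

variable (K) in
theorem betaY2 (n q r : ℕ) (hn : 2 ≤ n) (hq : 1 ≤ q) (hr : 1 ≤ r) : ∃ C : ℝ, 1 ≤ C ∧
    ∀ (B H Q : ℕ) (o : Fin (n + 1)), 1 ≤ B → 1 ≤ Q → B ≤ Q ^ 4 → ∀ x ∈ GG K B H q o,
    ∑ y ∈ (GG K B H q o).filter (fun y => ¬ Prp x y ∧ nD x y * (B : ℝ) ^ eK K < pn (Del o x y)),
      (rt r (Dd x y) : ℝ) / pn (Del o x y) * nD x y ≤ C * ((B : ℝ) ^ (n - 1) * Q) ^ eK K := by
  obtain ⟨C0, hC0, hcnt⟩ := cntY (K := K) n q hq
  obtain ⟨C1, hC1, hsum⟩ := rtSum K r hr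
  have hC00 : 0 ≤ C0 := by linarith
  have h2e : (1 : ℝ) ≤ 2 ^ eK K := one_le_pow₀ (by norm_num)
  refine ⟨C0 * (2 ^ eK K) ^ n * (C1 * 2 ^ eK K) * (2 ^ eK K * (2 ^ eK K) ^ (n - 1)), ?_, ?_⟩
  · exact one_le_mul_of_one_le_of_one_le (one_le_mul_of_one_le_of_one_le
      (one_le_mul_of_one_le_of_one_le hC0 (one_le_pow₀ h2e))
      (one_le_mul_of_one_le_of_one_le hC1 h2e))
      (one_le_mul_of_one_le_of_one_le h2e (one_le_pow₀ h2e))
  intro B H Q o hB hQ hBQ x hx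
  have hB0 : (0 : ℝ) < B := by exact_mod_cast hB
  have hxo := GG_ne hB hx
  set Y := (GG K B H q o).filter (fun y => ¬ Prp x y ∧
        nD x y * (B : ℝ) ^ eK K < pn (Del o x y)) with hY
  have hYmem : ∀ y, y ∈ Y ↔ y ∈ GG K B H q o ∧ ¬ Prp x y ∧
        nD x y * (B : ℝ) ^ eK K < pn (Del o x y) := fun y => by rw [hY, Finset.mem_filter]
  set Bq : ℝ := ((B : ℝ) / (B : ℝ) ^ n) ^ eK K with hBq
  have hBq0 : 0 ≤ Bq := by positivity
  set K0 : ℝ := C0 * (2 ^ eK K) ^ n * Bq with hK0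
  have hK0pos : 0 ≤ K0 := by positivity
  have hNBall : ∀ y ∈ Y, (Ideal.absNorm (Dd x y) : ℝ) ≤ (2 * B) ^ eK K := by
    intro y hy
    obtain ⟨g1, g2, g4⟩ := (hYmem y).1 hy
    have hDB : pn (Del o x y) ≤ (2 * (B : ℝ)) ^ eK K * (B : ℝ) ^ eK K := by
      have h1 : pn (Del o x y) ≤ pn (fun _ : InfinitePlace K => 2 * (B : ℝ) ^ 2) :=
        pn_mono (fun v => Del_nonneg o x y v) fun v => Del_le hx g1 v
      rw [pn_const] at h1
      refine h1.trans (le_of_eq ?_)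
      rw [← mul_pow]
      congr 1
      ring
    have h1 : (Ideal.absNorm (Dd x y) : ℝ) * (B : ℝ) ^ eK K <
        (2 * (B : ℝ)) ^ eK K * (B : ℝ) ^ eK K := lt_of_lt_of_le g4 hDB
    exact (lt_of_mul_lt_mul_right h1 (by positivity)).le
  let SI : Finset (Ideal (𝓞 K)) := Y.image fun y => Dd x y
  let SJ : InfinitePlace K → Finset ℤ := fun v => Y.image fun y => jv (Del o x y) v
  have hmaps : ∀ y ∈ Y, (fun y => (Dd x y, jv (Del o x y))) y ∈ SI ×ˢ Fintype.piFinset SJ := by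
    intro y hy
    rw [Finset.mem_product, Fintype.mem_piFinset]
    exact ⟨Finset.mem_image_of_mem _ hy,
      fun v => Finset.mem_image_of_mem (fun y => jv (Del o x y) v) hy⟩
  rw [← Finset.sum_fiberwise_of_maps_to hmaps]
  have hfib : ∀ p ∈ SI ×ˢ Fintype.piFinset SJ,
      ∑ y ∈ Y.filter (fun y => (Dd x y, jv (Del o x y)) = p),
        (rt r (Dd x y) : ℝ) / pn (Del o x y) * nD x y ≤
      K0 * (((rt r p.1 : ℝ) / (Ideal.absNorm p.1 : ℝ)) *
        pn (fun v => (2 : ℝ) ^ p.2 v) ^ (n - 1)) := by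
    rintro ⟨I, j⟩ _
    simp only
    rcases (Y.filter (fun y => (Dd x y, jv (Del o x y)) = (I, j))).eq_empty_or_nonempty
      with he | ⟨y0, hy0⟩
    · rw [he, Finset.sum_empty]
      have : 0 ≤ pn (fun v => (2 : ℝ) ^ j v) := pn_nonneg fun v => by positivity
      positivity
    · have hP0 : 0 < pn (fun v => (2 : ℝ) ^ j v) := pn_pos fun v => by positivity
      have hfacts : ∀ y ∈ Y.filter (fun y => (Dd x y, jv (Del o x y)) = (I, j)),
          y ∈ GG K B H q o ∧ ¬ Prp x y ∧ Dd x y = I ∧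
            (Ideal.absNorm I : ℝ) * (B : ℝ) ^ eK K < pn (Del o x y) ∧
            (∀ v, (2 : ℝ) ^ j v ≤ Del o x y v) ∧ ∀ v, Del o x y v ≤ 2 * (2 : ℝ) ^ j v := by
        intro y hy
        rw [Finset.mem_filter, Prod.mk.injEq] at hy
        obtain ⟨hyY, hyD, hyL⟩ := hy
        obtain ⟨hyG, hyx, h1⟩ := (hYmem y).mp hyY
        refine ⟨hyG, hyx, hyD, ?_, ?_, ?_⟩
        · rw [← hyD]
          exact h1
        · intro v
          rw [← hyL]
          exact jv_le (Del_pos hxo hyx v)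
        · intro v
          rw [← hyL]
          exact (lt_jv v).le
      obtain ⟨g1, g2, g3, g4, g5, g6⟩ := hfacts y0 hy0
      have hI : I ≠ ⊥ := by
        rw [← g3]
        exact Dd_ne_bot g2
      have hN1 : (1 : ℝ) ≤ Ideal.absNorm I := one_le_absNorm hI
      have hN0 : (0 : ℝ) < Ideal.absNorm I := by linarith
      have hpd : pn (fun v => 2 * (2 : ℝ) ^ j v) = 2 ^ eK K * pn (fun v => (2 : ℝ) ^ j v) :=
        pn_const_mul _ _
      have hDpn : pn (Del o x y0) ≤ pn (fun v => 2 * (2 : ℝ) ^ j v) :=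
        pn_mono (fun v => Del_nonneg o x y0 v) g6
      have hNB : (Ideal.absNorm I : ℝ) ≤ (2 * B) ^ eK K := by
        rw [← g3]
        exact hNBall y0 (Finset.mem_filter.1 hy0).1
      have hcard := hcnt B H o hB x hx I (fun v => 2 * (2 : ℝ) ^ j v) hI
        (fun v => by positivity) hNB (g4.le.trans hDpn)
      have hsub : Y.filter (fun y => (Dd x y, jv (Del o x y)) = (I, j)) ⊆
          (VBox K n B).filter fun y => (∀ i j, mn x y i j ∈ I) ∧
            ∀ v, Del o x y v ≤ 2 * (2 : ℝ) ^ j v := by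
        intro y hy
        obtain ⟨k1, k2, k3, k4, k5, k6⟩ := hfacts y hy
        rw [Finset.mem_filter]
        refine ⟨(Finset.mem_filter.1 k1).1, ?_, k6⟩
        intro i j'
        rw [← k3]
        exact mn_mem_Dd x y i j'
      have hcard2 : ((Y.filter (fun y => (Dd x y, jv (Del o x y)) = (I, j))).card : ℝ) ≤
          C0 * Bq * (2 ^ eK K * pn (fun v => (2 : ℝ) ^ j v) / Ideal.absNorm I) ^ n := by
        refine (Nat.cast_le.mpr (Finset.card_le_card hsub)).trans (hcard.trans (le_of_eq ?_))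
        rw [hpd]
      have hterm : ∀ y ∈ Y.filter (fun y => (Dd x y, jv (Del o x y)) = (I, j)),
          (rt r (Dd x y) : ℝ) / pn (Del o x y) * nD x y ≤
            (rt r I : ℝ) / pn (fun v => (2 : ℝ) ^ j v) * Ideal.absNorm I := by
        intro y hy
        obtain ⟨k1, k2, k3, k4, k5, k6⟩ := hfacts y hy
        have k9 : nD x y = (Ideal.absNorm I : ℝ) := by
          rw [← k3]
          rfl
        rw [k9, k3]
        have k7 : pn (fun v => (2 : ℝ) ^ j v) ≤ pn (Del o x y) :=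
          pn_mono (fun v => by positivity) k5
        have k8 : 0 < pn (Del o x y) := lt_of_lt_of_le hP0 k7
        exact mul_le_mul_of_nonneg_right
          (div_le_div_of_nonneg_left (Nat.cast_nonneg _) hP0 k7) hN0.le
      refine (Finset.sum_le_card_nsmul _ _ _ hterm).trans ?_
      rw [nsmul_eq_mul]
      refine (mul_le_mul_of_nonneg_right hcard2 (by positivity)).trans ?_
      exact BetaY_alg2 n (n - 2) (by omega) C0 (2 ^ eK K) Bq _ _ _ hC00 (by positivity) hBq0 hP0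
        hN1 (Nat.cast_nonneg _)
  refine (Finset.sum_le_sum hfib).trans ?_
  rw [← Finset.mul_sum, Finset.sum_product]
  have e5 : ∑ I ∈ SI, ∑ j ∈ Fintype.piFinset SJ,
      (rt r I : ℝ) / (Ideal.absNorm I : ℝ) * pn (fun v => (2 : ℝ) ^ j v) ^ (n - 1) =
      (∑ I ∈ SI, (rt r I : ℝ) / (Ideal.absNorm I : ℝ)) *
        ∑ j ∈ Fintype.piFinset SJ, pn (fun v => (2 : ℝ) ^ j v) ^ (n - 1) := by
    rw [Finset.sum_mul]
    refine Finset.sum_congr rfl fun I _ => ?_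
    rw [Finset.mul_sum]
  rw [e5]
  have hQR : (1 : ℝ) ≤ Q := by exact_mod_cast hQ
  have h10 : ∑ I ∈ SI, (rt r I : ℝ) / (Ideal.absNorm I : ℝ) ≤ C1 * (2 * (Q : ℝ)) ^ eK K := by
    have h := hsum ((2 * Q) ^ eK K) (Nat.one_le_pow _ _ (by omega)) SI fun I hI => by
      obtain ⟨y, hy, rfl⟩ := Finset.mem_image.1 hI
      have hy' := (hYmem y).1 hy
      refine ⟨Dd_ne_bot hy'.2.1, (hNBall y hy).trans ?_⟩
      push_cast
      rw [← pow_mul, mul_comm (eK K) 4, pow_mul]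
      refine pow_le_pow_left₀ (by positivity) ?_ _
      have h1 : (B : ℝ) ≤ (Q : ℝ) ^ 4 := by exact_mod_cast hBQ
      have h2 : (0 : ℝ) ≤ (Q : ℝ) ^ 4 := by positivity
      rw [mul_pow]
      linarith
    push_cast at h
    exact h
  have h11 : ∑ j ∈ Fintype.piFinset SJ, pn (fun v => (2 : ℝ) ^ j v) ^ (n - 1) ≤
      2 ^ eK K * ((2 * (B : ℝ) ^ 2) ^ eK K) ^ (n - 1) := by
    have h := geoPn SJ (fun _ => 2 * (B : ℝ) ^ 2) (n - 1) (by omega)
      (fun v => by positivity) fun v j hj => by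
        obtain ⟨y, hy, rfl⟩ := Finset.mem_image.1 hj
        obtain ⟨hyG, hyx, h1⟩ := (hYmem y).mp hy
        exact (jv_le (Del_pos hxo hyx v)).trans (Del_le hx hyG v)
    rw [pn_const] at h
    exact h
  have h15 : 0 ≤ ∑ j ∈ Fintype.piFinset SJ, pn (fun v => (2 : ℝ) ^ j v) ^ (n - 1) :=
    Finset.sum_nonneg fun j _ => pow_nonneg (pn_nonneg fun v => by positivity) _
  have hC10 : 0 ≤ C1 := by linarith
  have h16 := mul_le_mul h10 h11 h15 (by positivity)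
  refine (mul_le_mul_of_nonneg_left h16 hK0pos).trans (le_of_eq ?_)
  rw [hK0, hBq]
  obtain ⟨m, rfl⟩ : ∃ m, n = m + 2 := ⟨n - 2, by omega⟩
  have e0 : m + 2 - 1 = m + 1 := by omega
  rw [e0]
  exact BetaY_fin (eK K) m B Q C0 C1 hB0

end Pool.Agent.Lib.MP_1ad228_ntY
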