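import Pool.Agent.Lib.MP_1ad228_ntY.Defs
import Pool.Agent.Lib.MP_1ad228_ntN.Psi

/-!
LEAF ChebY.  Chebyshev.  Model: `Lib/MP_1ad228_ntQ/ChebQ.lean`.
-/

namespace Pool.Agent.Lib.MP_1ad228_ntY

open NumberField Classical
open Pool.Agent.Lib.MP_1ad228_ntN

set_option linter.unusedSectionVars false

variable {K : Type} [Field K] [NumberField K]

theorem chebY {r n d : ℕ} (B H q Z W κ A : ℕ) (hA : 1 ≤ A) (o : Fin (n + 1)) (l : ℝ) (hl : 0 ≤ l)
    (T : Finset (Ten n d (𝓞 K))) (hT : ∀ a ∈ T, a ∈ Box K n d A ∧ Ny r B H q Z o a = 0 ∧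
      l ≤ Ly r B H q Z o W κ A a) :
    (T.card : ℝ) * l ^ 2 ≤ 2 * Qy K r n d B H q Z o W κ A := by
  have hsub : T ⊆ Box K n d (2 * A) := by
    intro a ha
    have h1 := (hT a ha).1
    rw [mem_Box] at h1 ⊢
    have hA0 : (0 : ℝ) ≤ A := Nat.cast_nonneg A
    exact fun s v => (h1 s v).trans (by linarith)
  have h1 : ∑ a ∈ T, psi A a * ((Ny r B H q Z o a : ℝ) - Ly r B H q Z o W κ A a) ^ 2 ≤
      Qy K r n d B H q Z o W κ A := by
    unfold Qy
    refine Finset.sum_le_sum_of_subset_of_nonneg hsub fun a _ _ => ?_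
    exact mul_nonneg (psi_nonneg A a) (sq_nonneg _)
  have h2 : ∑ _a ∈ T, (1 / 2 * l ^ 2) ≤
      ∑ a ∈ T, psi A a * ((Ny r B H q Z o a : ℝ) - Ly r B H q Z o W κ A a) ^ 2 := by
    refine Finset.sum_le_sum fun a ha => ?_
    obtain ⟨hb, hN, hL⟩ := hT a ha
    rw [hN]
    have h3 : (((0 : ℕ) : ℝ) - Ly r B H q Z o W κ A a) ^ 2 = (Ly r B H q Z o W κ A a) ^ 2 := by
      rw [Nat.cast_zero]
      ring
    rw [h3]
    exact mul_le_mul (psi_half hA hb) (pow_le_pow_left₀ hl hL 2) (by positivity) (psi_nonneg A a)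
  rw [Finset.sum_const, nsmul_eq_mul] at h2
  linarith

end Pool.Agent.Lib.MP_1ad228_ntY
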