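import Pool.Agent.Lib.MP_1ad228_ntQ.Defs

/-!
MP_1ad228_nt, THEOREM CC: Fano cyclic covers `w ^ r = f (x_0, .., x_n)` over number fields, `f` of degree `d = r * m`.
The case `r = 2` is the library `Lib/MP_1ad228_ntQ` (v1), the model of every file of this folder.
Page: team-store T10_CC_helper82.md.
-/

namespace Pool.Agent.Lib.MP_1ad228_ntY

open NumberField Classical
open Pool.Agent.Lib.MP_1ad228_ntN

export Pool.Agent.Lib.MP_1ad228_ntQ (GP scQ)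

/-- Largest number of `r`-th roots of an element of `R ⧸ I`. -/
noncomputable def rt {R : Type*} [CommRing R] (r : ℕ) (I : Ideal R) : ℕ :=
  sSup (Set.range fun t : R ⧸ I => Nat.card {z : R ⧸ I // z ^ r = t})

/-- Number of pairs `(x, w)`, `x` unimodular, with `a x = w ^ r`, over a finite ring. -/
noncomputable def smY (r : ℕ) {R : Type*} [CommRing R] {n d : ℕ} (a : Ten n d R) : ℕ :=
  Nat.card {p : Vc n R × R // Uni p.1 ∧ ev a p.1 = p.2 ^ r}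

/-- The error term of the variance. -/
noncomputable def Lam (n B H Q Z : ℕ) : ℝ :=
  (H : ℝ) ^ (n + 1) * Q / (B : ℝ) ^ n + (H : ℝ) ^ (n + 2) * Q / ((B : ℝ) ^ (n - 1) * Z) + (Q : ℝ) / Z

variable {K : Type} [Field K] [NumberField K]

/-- Number of pairs modulo the ideal `I`. -/
noncomputable def smYI (r : ℕ) {n d : ℕ} (I : Ideal (𝓞 K)) (a : Ten n d (𝓞 K)) : ℕ :=
  smY r (tmap (Ideal.Quotient.mk I) a)

/-- Number of test pairs on the cyclic cover. -/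
noncomputable def Ny (r : ℕ) {n d : ℕ} (B H q Z : ℕ) (o : Fin (n + 1)) (a : Ten n d (𝓞 K)) : ℕ :=
  ((GP K B H q Z o).filter fun p => ev a p.1 = p.2 ^ r).card

/-- The local condition at the pair `p`. -/
def Locy (r : ℕ) {n d : ℕ} (W κ A : ℕ) (o : Fin (n + 1)) (a : Ten n d (𝓞 K))
    (p : Vc n (𝓞 K) × 𝓞 K) : Prop := LV d W κ A o p.1 (ev a p.1 - p.2 ^ r)

/-- Local prediction. -/
noncomputable def Ly (r : ℕ) {n d : ℕ} (B H q Z : ℕ) (o : Fin (n + 1)) (W κ A : ℕ)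
    (a : Ten n d (𝓞 K)) : ℝ :=
  ∑ p ∈ (GP K B H q Z o).filter (fun p => Locy r W κ A o a p),
    1 / ((MS d W κ A o p.1).card : ℝ)

variable (K) in
/-- The weighted variance. -/
noncomputable def Qy (r n d : ℕ) (B H q Z : ℕ) (o : Fin (n + 1)) (W κ A : ℕ) : ℝ :=
  ∑ a ∈ Box K n d (2 * A), psi A a * ((Ny r B H q Z o a : ℝ) - Ly r B H q Z o W κ A a) ^ 2

/-- Average over the allowed values at the first point. -/
noncomputable def TTy (r : ℕ) {n : ℕ} (d : ℕ) (o : Fin (n + 1)) (W κ A : ℕ)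
    (p p' : Vc n (𝓞 K) × 𝓞 K) : ℝ :=
  (1 / ((MS d W κ A o p.1).card : ℝ)) *
    ∑ m ∈ MS d W κ A o p.1, sl d A p.1 p'.1 (p.2 ^ r + m) (p'.2 ^ r)

/-- Average over the allowed values at the second point. -/
noncomputable def TSy (r : ℕ) {n : ℕ} (d : ℕ) (o : Fin (n + 1)) (W κ A : ℕ)
    (p p' : Vc n (𝓞 K) × 𝓞 K) : ℝ :=
  (1 / ((MS d W κ A o p'.1).card : ℝ)) *
    ∑ m' ∈ MS d W κ A o p'.1, sl d A p.1 p'.1 (p.2 ^ r) (p'.2 ^ r + m')

/-- Average over the allowed values at both points. -/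
noncomputable def UUy (r : ℕ) {n : ℕ} (d : ℕ) (o : Fin (n + 1)) (W κ A : ℕ)
    (p p' : Vc n (𝓞 K) × 𝓞 K) : ℝ :=
  (1 / ((MS d W κ A o p.1).card : ℝ)) * (1 / ((MS d W κ A o p'.1).card : ℝ)) *
    ∑ m ∈ MS d W κ A o p.1, ∑ m' ∈ MS d W κ A o p'.1,
      sl d A p.1 p'.1 (p.2 ^ r + m) (p'.2 ^ r + m')

/-- Contribution of a pair of test pairs to the variance. -/
noncomputable def EEy (r : ℕ) {n : ℕ} (d : ℕ) (o : Fin (n + 1)) (W κ A : ℕ)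
    (p p' : Vc n (𝓞 K) × 𝓞 K) : ℝ :=
  sl d A p.1 p'.1 (p.2 ^ r) (p'.2 ^ r) - TTy r d o W κ A p p' - TSy r d o W κ A p p'
    + UUy r d o W κ A p p'

/-- Solubility modulo all powers of all prime ideals. -/
def PSolY (r : ℕ) {n d : ℕ} (a : Ten n d (𝓞 K)) : Prop :=
  ∀ P : Ideal (𝓞 K), P.IsPrime → P ≠ ⊥ → ∀ j : ℕ, ∃ (x : Vc n (𝓞 K)) (w : 𝓞 K),
    (∃ i, x i ∉ P) ∧ ev a x - w ^ r ∈ P ^ j

/-- Point of the cyclic cover in the completion at the infinite place `v`. -/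
def RSolY (r : ℕ) {n d : ℕ} (v : InfinitePlace K) (a : Ten n d (𝓞 K)) : Prop :=
  ∃ (x : Vc n ℂ) (w : ℂ), (∀ l, x l ∈ KK v) ∧ x ≠ 0 ∧ w ∈ KK v ∧ ev (tmap (em v) a) x = w ^ r

/-- Robust solubility of the tensor `α` at the infinite place `v`, with pivot `o`. -/
def RobY (r : ℕ) {n d : ℕ} (v : InfinitePlace K) (o : Fin (n + 1)) (ρ : ℝ) (α : Ten n d ℂ) : Prop :=
  ∃ (ξ : Vc n ℂ) (ω : ℂ), (∀ l, ξ l ∈ KK v) ∧ ω ∈ KK v ∧ (∀ l, ‖ξ l‖ ≤ 1 / 2) ∧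
    2 * ρ ≤ ‖ξ o‖ ∧ 2 * ρ ≤ ‖ω‖ ∧ ev α ξ = ω ^ r

section main
variable (K)

/-- Almost all everywhere locally soluble cyclic covers have a small integral point. -/
def MainY (n r m : ℕ) : Prop :=
  ∀ ε : ℝ, 0 < ε → ∃ M A0 : ℕ, ∀ A : ℕ, A0 ≤ A →
    (((Box K n (r * m) A).filter fun a => (∀ v, RSolY r v a) ∧ PSolY r a ∧
        ¬ ∃ (x : Vc n (𝓞 K)) (w : 𝓞 K), x ≠ 0 ∧
          (∀ i, ∀ v : InfinitePlace K,
            (v (x i : K)) ^ (r * (n + 1 - (r - 1) * m)) ≤ (M : ℝ) * (A : ℝ) ^ (r - 1)) ∧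
          ev a x = w ^ r).card : ℝ) ≤ ε * (A : ℝ) ^ (eK K * (n + 1) ^ (r * m))

/-- A positive proportion of the cyclic covers has an integral point. -/
def PosY (n r m : ℕ) : Prop :=
  ∃ δ : ℝ, 0 < δ ∧ ∃ A0 : ℕ, ∀ A : ℕ, A0 ≤ A → δ * (A : ℝ) ^ (eK K * (n + 1) ^ (r * m)) ≤
    (((Box K n (r * m) A).filter fun a => ∃ (x : Vc n (𝓞 K)) (w : 𝓞 K), x ≠ 0 ∧
      ev a x = w ^ r).card : ℝ)

end main

end Pool.Agent.Lib.MP_1ad228_ntY
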