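import Pool.Agent.Lib.MP_1ad228_ntY.Defs
import Pool.Agent.Lib.MP_1ad228_ntQ.Compat
import Pool.Agent.Lib.MP_1ad228_ntQ.MsCls
import Pool.Agent.Lib.MP_1ad228_ntN.GGf
import Pool.Agent.Lib.MP_1ad228_ntN.EEle

/-!
LEAF DiagY.  Proportional pairs.  Model: `Lib/MP_1ad228_ntQ/DiagD.lean`.
PROOF.  `slPrp`: `(z x_o^m)^r = (w y_o^m)^r`, so for each `w` at most `r` elements `z` (roots of `X^r - u` in the field `K`, `r ≥ 1`,
`x_o ≠ 0`).  The rest as in the model; `(Z^e)^2 (κ W)^e/(A B^d)^e ≤ R^e (κ W)^e Z^(2e)/Z^(re) ≤ R^e Z^e` (`r ≥ 2`, `κ W ≤ Z`).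
-/

namespace Pool.Agent.Lib.MP_1ad228_ntY

open NumberField Classical
open Pool.Agent.Lib.MP_1ad228_ntN
open Pool.Agent.Lib.MP_1ad228_ntQ (slPrp msLow msCls)
open Pool.Agent.Lib.MP_219881_nt (mn)

set_option linter.unusedSectionVars false

variable {K : Type} [Field K] [NumberField K]

theorem DiagY_uniq (a b : 𝓞 K) (ha : a ≠ 0) (T : Finset (𝓞 K))
    (hT : ∀ z ∈ T, z * a = b) : T.card ≤ 1 := by
  refine Finset.card_le_one.2 fun z hz w hw => ?_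
  exact mul_right_cancel₀ ha ((hT z hz).trans (hT w hw).symm)

/-- A nonnegative function bounded by `M` and supported on at most one point. -/
theorem DiagY_one (S : Finset (𝓞 K)) (f : 𝓞 K → ℝ) (M : ℝ) (hM : 0 ≤ M)
    (h1 : ∀ z, f z ≤ M) (a b : 𝓞 K) (ha : a ≠ 0) (hs : ∀ z, f z ≠ 0 → z * a = b) :
    ∑ z ∈ S, f z ≤ M := by
  have e1 : ∑ z ∈ S, f z = ∑ z ∈ S.filter (fun z => f z ≠ 0), f z :=
    (Finset.sum_filter_ne_zero S).symm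
  have hc : (S.filter fun z => f z ≠ 0).card ≤ 1 :=
    DiagY_uniq a b ha _ fun z hz => hs z (Finset.mem_filter.1 hz).2
  rw [e1]
  calc ∑ z ∈ S.filter (fun z => f z ≠ 0), f z ≤ ∑ _z ∈ S.filter (fun z => f z ≠ 0), M :=
        Finset.sum_le_sum fun z _ => h1 z
    _ = ((S.filter fun z => f z ≠ 0).card : ℝ) * M := by rw [Finset.sum_const, nsmul_eq_mul]
    _ ≤ 1 * M := mul_le_mul_of_nonneg_right (by exact_mod_cast hc) hM
    _ = M := one_mul M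

/-- A nonnegative function bounded by `M` and supported on at most `r` points. -/
theorem DiagY_many {r : ℕ} (hr : 0 < r) (S : Finset (𝓞 K)) (f : 𝓞 K → ℝ) (M : ℝ) (hM : 0 ≤ M)
    (h1 : ∀ z, f z ≤ M) (a b : 𝓞 K) (ha : a ≠ 0) (hs : ∀ z, f z ≠ 0 → (z * a) ^ r = b) :
    ∑ z ∈ S, f z ≤ r * M := by
  have e1 : ∑ z ∈ S, f z = ∑ z ∈ S.filter (fun z => f z ≠ 0), f z :=
    (Finset.sum_filter_ne_zero S).symm
  have hc : (S.filter fun z => f z ≠ 0).card ≤ r := by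
    have h2 : (S.filter fun z => f z ≠ 0).card ≤ (Polynomial.nthRoots r b).toFinset.card := by
      refine Finset.card_le_card_of_injOn (fun z => z * a) ?_ ?_
      · intro z hz
        have hz' := Finset.mem_filter.1 (Finset.mem_coe.1 hz)
        refine Finset.mem_coe.2 (Multiset.mem_toFinset.2 ?_)
        rw [Polynomial.mem_nthRoots hr]
        exact hs z hz'.2
      · intro z _ w _ h
        exact mul_right_cancel₀ ha h
    exact (h2.trans (Multiset.toFinset_card_le _)).trans (Polynomial.card_nthRoots r b)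
  rw [e1]
  calc ∑ z ∈ S.filter (fun z => f z ≠ 0), f z ≤ ∑ _z ∈ S.filter (fun z => f z ≠ 0), M :=
        Finset.sum_le_sum fun z _ => h1 z
    _ = ((S.filter fun z => f z ≠ 0).card : ℝ) * M := by rw [Finset.sum_const, nsmul_eq_mul]
    _ ≤ r * M := mul_le_mul_of_nonneg_right (by exact_mod_cast hc) hM

/-- Averages of a nonnegative bounded function. -/
theorem DiagY_avg (s : Finset (𝓞 K)) (f : 𝓞 K → ℝ) {C : ℝ} (hC : 0 ≤ C)
    (h1 : ∀ m, f m ≤ C) :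
    (1 / (s.card : ℝ)) * ∑ m ∈ s, f m ≤ C := by
  rcases Nat.eq_zero_or_pos s.card with hc | hc
  · rw [hc, Nat.cast_zero, div_zero, zero_mul]
    exact hC
  · have hc' : (0 : ℝ) < (s.card : ℝ) := by exact_mod_cast hc
    rw [one_div, inv_mul_le_iff₀ hc']
    calc ∑ m ∈ s, f m ≤ ∑ _m ∈ s, C := Finset.sum_le_sum fun m _ => h1 m
      _ = (s.card : ℝ) * C := by rw [Finset.sum_const, nsmul_eq_mul]

theorem DiagY_sl {n d A : ℕ} {C0 : ℝ} (hC0 : 1 ≤ C0)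
    (hsl : ∀ (A : ℕ), 1 ≤ A → ∀ (x y : Vc n (𝓞 K)) (m m' : 𝓞 K),
      sl d A x y m m' ≤ C0 * (n2 d x y A : ℝ)) (hA : 1 ≤ A) (x y : Vc n (𝓞 K)) (s t : 𝓞 K) :
    sl d A x y s t ≤ C0 * (n1 d x A : ℝ) := by
  refine (hsl A hA x y s t).trans (mul_le_mul_of_nonneg_left ?_ (by linarith))
  exact_mod_cast n2_le_n1 d x y (A : ℝ)

theorem DiagY_diag {n m q B H A r : ℕ} (hr : 2 ≤ r) {o : Fin (n + 1)} {C0 : ℝ} (hC0 : 1 ≤ C0)
    (hsl : ∀ (A : ℕ), 1 ≤ A → ∀ (x y : Vc n (𝓞 K)) (m' m'' : 𝓞 K),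
      sl (r * m) A x y m' m'' ≤ C0 * (n2 (r * m) x y A : ℝ)) (hB : 1 ≤ B) (hA : 1 ≤ A) {Z : ℕ}
    (hZ : 1 ≤ Z) {x y : Vc n (𝓞 K)} (hx : x ∈ GG K B H q o) (hp : Prp x y) :
    ∑ w ∈ OBox K (Z : ℝ), ∑ z ∈ OBox K (Z : ℝ), sl (r * m) A x y (w ^ r) (z ^ r) ≤
      r * C0 * CK K 0 * (n1 (r * m) x A : ℝ) * (Z : ℝ) ^ eK K := by
  have hxo := GG_ne hB hx
  have hn0 : (0 : ℝ) ≤ (n1 (r * m) x A : ℝ) := Nat.cast_nonneg _
  have hM : (0 : ℝ) ≤ C0 * (n1 (r * m) x A : ℝ) := mul_nonneg (by linarith) hn0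
  have hin : ∀ w ∈ OBox K (Z : ℝ), ∑ z ∈ OBox K (Z : ℝ), sl (r * m) A x y (w ^ r) (z ^ r) ≤
      r * (C0 * (n1 (r * m) x A : ℝ)) := by
    intro w _
    refine DiagY_many (by omega) (OBox K (Z : ℝ)) (fun z => sl (r * m) A x y (w ^ r) (z ^ r)) _ hM
      (fun z => DiagY_sl hC0 hsl hA x y _ _) (x o ^ m) ((w * y o ^ m) ^ r)
      (pow_ne_zero m hxo) ?_
    intro z hz
    have h1 := slPrp o hp hz
    have e1 : (z * x o ^ m) ^ r = z ^ r * x o ^ (r * m) := by rw [mul_pow, ← pow_mul, mul_comm m r]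
    have e2 : (w * y o ^ m) ^ r = w ^ r * y o ^ (r * m) := by rw [mul_pow, ← pow_mul, mul_comm m r]
    show (z * x o ^ m) ^ r = (w * y o ^ m) ^ r
    rw [e1, e2]
    exact h1
  have hZ1 : (1 : ℝ) ≤ (Z : ℝ) := by exact_mod_cast hZ
  calc ∑ w ∈ OBox K (Z : ℝ), ∑ z ∈ OBox K (Z : ℝ), sl (r * m) A x y (w ^ r) (z ^ r)
      ≤ ∑ _w ∈ OBox K (Z : ℝ), r * (C0 * (n1 (r * m) x A : ℝ)) := Finset.sum_le_sum hin
    _ = ((OBox K (Z : ℝ)).card : ℝ) * (r * (C0 * (n1 (r * m) x A : ℝ))) := by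
        rw [Finset.sum_const, nsmul_eq_mul]
    _ ≤ (CK K 0 * (Z : ℝ) ^ eK K) * (r * (C0 * (n1 (r * m) x A : ℝ))) :=
        mul_le_mul_of_nonneg_right (OBox_up K 0 hZ1) (mul_nonneg (Nat.cast_nonneg _) hM)
    _ = _ := by ring

variable (K) in
theorem diagSlY (r n m q : ℕ) (hr : 2 ≤ r) : ∃ C : ℝ, 1 ≤ C ∧
    ∀ (B H A Z : ℕ) (o : Fin (n + 1)), 1 ≤ B → 1 ≤ A →
    1 ≤ Z → ∀ x ∈ GG K B H q o, ∀ y ∈ GG K B H q o, Prp x y →
    ∑ w ∈ OBox K (Z : ℝ), ∑ z ∈ OBox K (Z : ℝ), sl (r * m) A x y (w ^ r) (z ^ r) ≤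
      C * (n1 (r * m) x A : ℝ) * (Z : ℝ) ^ eK K := by
  obtain ⟨C0, hC0, hsl, -⟩ := slice K n (r * m)
  have hCK := CK_one_le K 0
  refine ⟨r * C0 * CK K 0, ?_, ?_⟩
  · have hr1 : (1 : ℝ) ≤ (r : ℝ) := by exact_mod_cast (by omega : 1 ≤ r)
    exact one_le_mul_of_one_le_of_one_le (one_le_mul_of_one_le_of_one_le hr1 hC0) hCK
  intro B H A Z o hB hA hZ x hx y _ hp
  exact DiagY_diag hr hC0 hsl hB hA hZ hx hp

variable (K) in
theorem diagY (r n m q R : ℕ) (hr : 2 ≤ r) (hq : 1 ≤ q) : ∃ C : ℝ, 1 ≤ C ∧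
    ∀ (B H A Z W κ : ℕ) (o : Fin (n + 1)), 1 ≤ B → 1 ≤ A → 1 ≤ W → 1 ≤ κ → 1 ≤ Z → κ * W ≤ Z →
    (Z : ℝ) ^ r ≤ R * ((A : ℝ) * (B : ℝ) ^ (r * m)) →
    C * (κ * W : ℝ) ≤ (A : ℝ) * (B : ℝ) ^ (r * m) →
    ∀ x ∈ GG K B H q o, ∀ y ∈ GG K B H q o, Prp x y →
    ∑ w ∈ OBox K (Z : ℝ), ∑ z ∈ OBox K (Z : ℝ), EEy r (r * m) o W κ A (x, w) (y, z) ≤
      C * (n1 (r * m) x A : ℝ) * (Z : ℝ) ^ eK K := by
  obtain ⟨C0, hC0, hsl, -⟩ := slice K n (r * m)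
  obtain ⟨C1, hC1, hlow⟩ := msLow K n (r * m) q hq
  have hCK := CK_one_le K 0
  have hCK0 : 0 ≤ CK K 0 := by linarith
  obtain ⟨Q, hQ⟩ : ∃ Q, Q = CK K 0 ^ 2 * C0 * C1 * (R : ℝ) ^ eK K := ⟨_, rfl⟩
  have hQ0 : 0 ≤ Q := by
    rw [hQ]
    have h1 : (0 : ℝ) ≤ (R : ℝ) ^ eK K := by positivity
    exact mul_nonneg (mul_nonneg (mul_nonneg (sq_nonneg _) (by linarith)) (by linarith)) h1
  have h2C : (1 : ℝ) ≤ r * C0 * CK K 0 := by
    have hr1 : (1 : ℝ) ≤ (r : ℝ) := by exact_mod_cast (by omega : 1 ≤ r)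
    exact one_le_mul_of_one_le_of_one_le (one_le_mul_of_one_le_of_one_le hr1 hC0) hCK
  refine ⟨r * C0 * CK K 0 + Q + C1, by linarith, ?_⟩
  intro B H A Z W κ o hB hA hW hκ hZ hκW hZr hC x hx y hy hp
  have hr1 : (1 : ℝ) ≤ (r : ℝ) := by exact_mod_cast (by omega : 1 ≤ r)
  have hxo := GG_ne hB hx
  have hW0 : (0 : ℝ) < W := by exact_mod_cast hW
  have hκ0 : (0 : ℝ) < κ := by exact_mod_cast hκ
  have hB0 : (0 : ℝ) < B := by exact_mod_cast hB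
  have hA0 : (0 : ℝ) < A := by exact_mod_cast hA
  have hZ1 : (1 : ℝ) ≤ (Z : ℝ) := by exact_mod_cast hZ
  have hP : (0 : ℝ) < (κ : ℝ) * W := mul_pos hκ0 hW0
  obtain ⟨D, hD⟩ : ∃ D, D = (A : ℝ) * (B : ℝ) ^ (r * m) := ⟨_, rfl⟩
  have hD0 : 0 < D := by rw [hD]; positivity
  have hh : C1 * (κ * W : ℝ) ≤ (A : ℝ) * (B : ℝ) ^ (r * m) := by
    refine le_trans (mul_le_mul_of_nonneg_right ?_ hP.le) hC
    linarith
  have hn0 : (0 : ℝ) ≤ (n1 (r * m) x A : ℝ) := Nat.cast_nonneg _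
  have hM : (0 : ℝ) ≤ C0 * (n1 (r * m) x A : ℝ) := mul_nonneg (by linarith) hn0
  have hslb : ∀ s t, sl (r * m) A x y s t ≤ C0 * (n1 (r * m) x A : ℝ) := fun s t =>
    DiagY_sl hC0 hsl hA x y s t
  obtain ⟨μ, hμ⟩ : ∃ μ, μ = ((MS (r * m) W κ A o y).card : ℝ) := ⟨_, rfl⟩
  have hμlow : (D / (κ * W)) ^ eK K ≤ C1 * μ := by
    rw [hμ, hD]
    exact hlow W κ A B o hW hκ hB hh y (Finset.mem_filter.1 hy).1 (fun v => GG_pivot hy v)
  have hDP : 0 < (D / (κ * W)) ^ eK K := by positivity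
  have hμ0 : 0 < μ := by
    rcases (show 0 ≤ μ by rw [hμ]; exact Nat.cast_nonneg _).lt_or_eq with h0 | h0
    · exact h0
    · rw [← h0, mul_zero] at hμlow
      linarith
  have hUU : ∀ w z, UUy r (r * m) o W κ A (x, w) (y, z) ≤ C0 * (n1 (r * m) x A : ℝ) / μ := by
    intro w z
    have e2 : UUy r (r * m) o W κ A (x, w) (y, z) =
        (1 / ((MS (r * m) W κ A o x).card : ℝ)) * ∑ m1 ∈ MS (r * m) W κ A o x,
          ((1 / μ) * ∑ m' ∈ MS (r * m) W κ A o y,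
            sl (r * m) A x y (w ^ r + m1) (z ^ r + m')) := by
      unfold UUy
      rw [← Finset.mul_sum, hμ]
      ring
    rw [e2]
    refine DiagY_avg _ _ (div_nonneg hM hμ0.le) fun m1 => ?_
    rw [one_div, inv_mul_le_iff₀ hμ0]
    have e3 : μ * (C0 * (n1 (r * m) x A : ℝ) / μ) = C0 * (n1 (r * m) x A : ℝ) := by
      field_simp
    rw [e3]
    refine DiagY_one (MS (r * m) W κ A o y) (fun m' => sl (r * m) A x y (w ^ r + m1) (z ^ r + m'))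
      _ hM (fun m' => hslb _ _) (x o ^ (r * m))
      ((w ^ r + m1) * y o ^ (r * m) - z ^ r * x o ^ (r * m)) (pow_ne_zero _ hxo) ?_
    intro m' hm'
    have h1 := slPrp o hp hm'
    rw [← h1]
    ring
  have hEE : ∀ w z, EEy r (r * m) o W κ A (x, w) (y, z) ≤
      sl (r * m) A x y (w ^ r) (z ^ r) + C0 * (n1 (r * m) x A : ℝ) / μ := by
    intro w z
    have h1 : 0 ≤ TTy r (r * m) o W κ A (x, w) (y, z) := by
      unfold TTy
      exact mul_nonneg (by positivity) (Finset.sum_nonneg fun m1 _ => sl_nonneg _ _ _ _ _ _)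
    have h2 : 0 ≤ TSy r (r * m) o W κ A (x, w) (y, z) := by
      unfold TSy
      exact mul_nonneg (by positivity) (Finset.sum_nonneg fun m1 _ => sl_nonneg _ _ _ _ _ _)
    have h3 := hUU w z
    have e1 : EEy r (r * m) o W κ A (x, w) (y, z) = sl (r * m) A x y (w ^ r) (z ^ r) -
        TTy r (r * m) o W κ A (x, w) (y, z) - TSy r (r * m) o W κ A (x, w) (y, z) +
        UUy r (r * m) o W κ A (x, w) (y, z) := rfl
    rw [e1]
    linarith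
  have hcard := OBox_up K 0 hZ1
  have hc0 : (0 : ℝ) ≤ ((OBox K (Z : ℝ)).card : ℝ) := Nat.cast_nonneg _
  have hdiag := DiagY_diag (n := n) (m := m) hr hC0 hsl hB hA hZ hx hp
  have hinv : 1 / μ ≤ C1 * ((κ : ℝ) * W) ^ eK K / D ^ eK K := by
    rw [div_le_div_iff₀ hμ0 (by positivity), one_mul]
    rw [div_pow, div_le_iff₀ (by positivity)] at hμlow
    linarith [hμlow, show C1 * μ * ((κ : ℝ) * W) ^ eK K = C1 * ((κ : ℝ) * W) ^ eK K * μ by ring]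
  have hZe : ((Z : ℝ) ^ eK K) ^ 2 ≤ (R : ℝ) ^ eK K * D ^ eK K := by
    have h1 : ((Z : ℝ) ^ eK K) ^ 2 = ((Z : ℝ) ^ 2) ^ eK K := by rw [← pow_mul, ← pow_mul, mul_comm]
    rw [h1, ← mul_pow, hD]
    have hZ2 : (Z : ℝ) ^ 2 ≤ R * ((A : ℝ) * (B : ℝ) ^ (r * m)) :=
      (pow_le_pow_right₀ hZ1 hr).trans hZr
    exact pow_le_pow_left₀ (by positivity) hZ2 _
  have hκe : ((κ : ℝ) * W) ^ eK K ≤ (Z : ℝ) ^ eK K := by
    refine pow_le_pow_left₀ hP.le ?_ _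
    exact_mod_cast hκW
  have hUsum : ((OBox K (Z : ℝ)).card : ℝ) * (((OBox K (Z : ℝ)).card : ℝ) *
      (C0 * (n1 (r * m) x A : ℝ) / μ)) ≤ Q * (n1 (r * m) x A : ℝ) * (Z : ℝ) ^ eK K := by
    have h1 : ((OBox K (Z : ℝ)).card : ℝ) * ((OBox K (Z : ℝ)).card : ℝ) ≤
        (CK K 0 * (Z : ℝ) ^ eK K) * (CK K 0 * (Z : ℝ) ^ eK K) :=
      mul_le_mul hcard hcard hc0 (by positivity)
    have h2 : (CK K 0 * (Z : ℝ) ^ eK K) * (CK K 0 * (Z : ℝ) ^ eK K) ≤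
        CK K 0 ^ 2 * ((R : ℝ) ^ eK K * D ^ eK K) := by
      have e1 : (CK K 0 * (Z : ℝ) ^ eK K) * (CK K 0 * (Z : ℝ) ^ eK K) =
        CK K 0 ^ 2 * ((Z : ℝ) ^ eK K) ^ 2 := by ring
      rw [e1]
      exact mul_le_mul_of_nonneg_left hZe (sq_nonneg _)
    have h3 : 1 / μ ≤ C1 * (Z : ℝ) ^ eK K / D ^ eK K := by
      refine hinv.trans ?_
      refine div_le_div_of_nonneg_right ?_ (by positivity)
      exact mul_le_mul_of_nonneg_left hκe (by linarith)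
    have h4 : (0 : ℝ) ≤ 1 / μ := by positivity
    have hRD : 0 ≤ CK K 0 ^ 2 * ((R : ℝ) ^ eK K * D ^ eK K) := by positivity
    calc ((OBox K (Z : ℝ)).card : ℝ) * (((OBox K (Z : ℝ)).card : ℝ) *
          (C0 * (n1 (r * m) x A : ℝ) / μ))
        = (((OBox K (Z : ℝ)).card : ℝ) * ((OBox K (Z : ℝ)).card : ℝ)) * (1 / μ) *
          (C0 * (n1 (r * m) x A : ℝ)) := by ring
      _ ≤ (CK K 0 ^ 2 * ((R : ℝ) ^ eK K * D ^ eK K)) * (C1 * (Z : ℝ) ^ eK K / D ^ eK K) *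
          (C0 * (n1 (r * m) x A : ℝ)) := by
          refine mul_le_mul_of_nonneg_right ?_ hM
          exact mul_le_mul (h1.trans h2) h3 h4 hRD
      _ = Q * (n1 (r * m) x A : ℝ) * (Z : ℝ) ^ eK K := by
          rw [hQ]
          have hDe : D ^ eK K ≠ 0 := (pow_pos hD0 _).ne'
          field_simp
  calc ∑ w ∈ OBox K (Z : ℝ), ∑ z ∈ OBox K (Z : ℝ), EEy r (r * m) o W κ A (x, w) (y, z)
      ≤ ∑ w ∈ OBox K (Z : ℝ), ∑ z ∈ OBox K (Z : ℝ), (sl (r * m) A x y (w ^ r) (z ^ r) +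
          C0 * (n1 (r * m) x A : ℝ) / μ) :=
        Finset.sum_le_sum fun w _ => Finset.sum_le_sum fun z _ => hEE w z
    _ = ∑ w ∈ OBox K (Z : ℝ), ∑ z ∈ OBox K (Z : ℝ), sl (r * m) A x y (w ^ r) (z ^ r) +
        ((OBox K (Z : ℝ)).card : ℝ) * (((OBox K (Z : ℝ)).card : ℝ) *
          (C0 * (n1 (r * m) x A : ℝ) / μ)) := by
        rw [← nsmul_eq_mul, ← nsmul_eq_mul, ← Finset.sum_const, ← Finset.sum_const,
          ← Finset.sum_add_distrib]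
        refine Finset.sum_congr rfl fun w _ => ?_
        rw [Finset.sum_add_distrib]
    _ ≤ r * C0 * CK K 0 * (n1 (r * m) x A : ℝ) * (Z : ℝ) ^ eK K +
        Q * (n1 (r * m) x A : ℝ) * (Z : ℝ) ^ eK K := add_le_add hdiag hUsum
    _ ≤ _ := by
        have h1 : 0 ≤ C1 * (n1 (r * m) x A : ℝ) * (Z : ℝ) ^ eK K :=
          mul_nonneg (mul_nonneg (by linarith) hn0) (by positivity)
        have e1 : (r * C0 * CK K 0 + Q + C1) * (n1 (r * m) x A : ℝ) * (Z : ℝ) ^ eK K =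
          r * C0 * CK K 0 * (n1 (r * m) x A : ℝ) * (Z : ℝ) ^ eK K +
          Q * (n1 (r * m) x A : ℝ) * (Z : ℝ) ^ eK K +
          C1 * (n1 (r * m) x A : ℝ) * (Z : ℝ) ^ eK K := by ring
        rw [e1]
        linarith

end Pool.Agent.Lib.MP_1ad228_ntY
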