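import Pool.Agent.Lib.MP_1ad228_ntY.Defs
import Pool.Agent.Lib.MP_1ad228_ntQ.Compat
import Pool.Agent.Lib.MP_1ad228_ntQ.SliceD
import Pool.Agent.Lib.MP_1ad228_ntN.Near
import Pool.Agent.Lib.MP_1ad228_ntN.EEle

/-!
LEAF EEgoodY.  Good pairs.  Model: `Lib/MP_1ad228_ntQ/EEgoodD.lean` (the same proof with `^ r`).
-/

namespace Pool.Agent.Lib.MP_1ad228_ntY

open NumberField Classical
open Pool.Agent.Lib.MP_1ad228_ntN
open Pool.Agent.Lib.MP_1ad228_ntQ (sliceD exLam evLam slCompat)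
open Pool.Agent.Lib.MP_219881_nt (mn)

set_option linter.unusedSectionVars false

variable {K : Type} [Field K] [NumberField K]

private theorem EEgoodY_avg {ι : Type*} (s : Finset ι) (f : ι → ℝ) (S δ : ℝ) (hs : s.Nonempty)
    (h : ∀ m ∈ s, |f m - S| ≤ δ) : |(1 / (s.card : ℝ)) * ∑ m ∈ s, f m - S| ≤ δ := by
  have hc : (0 : ℝ) < (s.card : ℝ) := by exact_mod_cast hs.card_pos
  have h1 : (1 / (s.card : ℝ)) * ∑ m ∈ s, f m - S
      = (1 / (s.card : ℝ)) * ∑ m ∈ s, (f m - S) := by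
    rw [Finset.sum_sub_distrib, Finset.sum_const, nsmul_eq_mul]
    field_simp
  rw [h1, abs_mul, abs_of_pos (one_div_pos.mpr hc)]
  have h2 : |∑ m ∈ s, (f m - S)| ≤ (s.card : ℝ) * δ := by
    refine (Finset.abs_sum_le_sum_abs _ _).trans ?_
    calc ∑ m ∈ s, |f m - S| ≤ ∑ _m ∈ s, δ := Finset.sum_le_sum h
      _ = (s.card : ℝ) * δ := by rw [Finset.sum_const, nsmul_eq_mul]
  calc 1 / (s.card : ℝ) * |∑ m ∈ s, (f m - S)| ≤ 1 / (s.card : ℝ) * ((s.card : ℝ) * δ) := by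
        gcongr
    _ = δ := by field_simp

private theorem EEgoodY_zero {n d W κ A : ℕ} {o : Fin (n + 1)} {x : Vc n (𝓞 K)} :
    (0 : 𝓞 K) ∈ MS d W κ A o x := by
  have hh : 0 ≤ hs (x o : K) := hs_nonneg _
  unfold MS
  rw [Finset.mem_filter]
  refine ⟨zero_mem_OBox (by positivity), dvd_zero _, fun v => ?_⟩
  have h1 : v ((0 : 𝓞 K) : K) = 0 := by simp
  rw [h1, mul_zero]
  exact mul_nonneg (Nat.cast_nonneg _) (pow_nonneg (v_nonneg v _) _)

private theorem EEgoodY_mem {n d W κ A : ℕ} {o : Fin (n + 1)} {x : Vc n (𝓞 K)} {m : 𝓞 K}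
    {I : Ideal (𝓞 K)} (hm : m ∈ MS d W κ A o x) (hW : ((W : ℕ) : 𝓞 K) ∈ I) : m ∈ I := by
  obtain ⟨⟨t, ht⟩, -⟩ := (Finset.mem_filter.1 hm).2
  rw [ht]
  exact Ideal.mul_mem_right _ _ hW

private theorem EEgoodY_bd (s : Finset (𝓞 K)) (f : 𝓞 K → ℝ) {C : ℝ} (hC : 0 ≤ C)
    (h0 : ∀ m, 0 ≤ f m) (h1 : ∀ m, f m ≤ C) :
    0 ≤ (1 / (s.card : ℝ)) * ∑ m ∈ s, f m ∧ (1 / (s.card : ℝ)) * ∑ m ∈ s, f m ≤ C := by
  have hs : 0 ≤ ∑ m ∈ s, f m := Finset.sum_nonneg fun m _ => h0 m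
  refine ⟨mul_nonneg (by positivity) hs, ?_⟩
  rcases Nat.eq_zero_or_pos s.card with hc | hc
  · rw [hc, Nat.cast_zero, div_zero, zero_mul]
    exact hC
  · have hc' : (0 : ℝ) < (s.card : ℝ) := by exact_mod_cast hc
    rw [one_div, inv_mul_le_iff₀ hc']
    calc ∑ m ∈ s, f m ≤ ∑ _m ∈ s, C := Finset.sum_le_sum fun m _ => h1 m
      _ = (s.card : ℝ) * C := by rw [Finset.sum_const, nsmul_eq_mul]

private theorem EEgoodY_UU {r n : ℕ} (d : ℕ) (o : Fin (n + 1)) (W κ A : ℕ)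
    (p p' : Vc n (𝓞 K) × 𝓞 K) : UUy r d o W κ A p p' =
      (1 / ((MS d W κ A o p.1).card : ℝ)) * ∑ m ∈ MS d W κ A o p.1,
        ((1 / ((MS d W κ A o p'.1).card : ℝ)) *
          ∑ m' ∈ MS d W κ A o p'.1, sl d A p.1 p'.1 (p.2 ^ r + m) (p'.2 ^ r + m')) := by
  unfold UUy
  rw [← Finset.mul_sum, mul_assoc]

variable (K) in
theorem EEgoodY (r n d : ℕ) (hd : 2 ≤ d) : ∃ C : ℝ, 1 ≤ C ∧
    ∀ (B H q : ℕ) (o : Fin (n + 1)) (k A W : ℕ), 1 ≤ B → 1 ≤ k → 1 ≤ A →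
    C * (H : ℝ) ^ 2 * k ≤ A →
    ∀ x ∈ GG K B H q o, ∀ y ∈ GG K B H q o, ¬ Prp x y → ((W : ℕ) : 𝓞 K) ∈ Dd x y →
    (∀ v, (B : ℝ) ^ 2 ≤ k * Del o x y v) →
    ∀ w z lam : 𝓞 K, (∀ i, y i - lam * x i ∈ Dd x y) →
    (z ^ r - lam ^ d * w ^ r ∉ Dd x y → EEy r d o W (k ^ 2) A (x, w) (y, z) = 0) ∧
    |EEy r d o W (k ^ 2) A (x, w) (y, z)| ≤ C / (k : ℝ) * (n2 d x y A : ℝ) := by
  obtain ⟨Cn, hCn1, hnear⟩ := near (K := K) n d hd
  obtain ⟨Cs, hCs1, hsl1, -⟩ := slice K n d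
  obtain ⟨Cd, hCd1, hsl2⟩ := sliceD K n d
  obtain ⟨C0, hC0⟩ : ∃ C0 : ℝ, C0 = Cn + Cs + Cd := ⟨_, rfl⟩
  have hC01 : 1 ≤ C0 := by linarith
  have hCn : Cn ≤ C0 := by linarith
  have hCs : Cs ≤ C0 := by linarith
  have hCd : Cd ≤ C0 := by linarith
  have hC0C : C0 ≤ 4 * (C0 * C0) := by nlinarith
  refine ⟨4 * (C0 * C0), hC01.trans hC0C, ?_⟩
  intro B H q o k A W hB hk hA1 hA x hx y hy hxy hD hΔ w z lam hlam
  have hk0 : (0 : ℝ) < (k : ℝ) := by exact_mod_cast hk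
  have hAr : (0 : ℝ) < (A : ℝ) := by exact_mod_cast hA1
  have hN : (0 : ℝ) ≤ (n2 d x y A : ℝ) := Nat.cast_nonneg _
  constructor
  · intro hnot
    have hz : ∀ m ∈ Dd x y, ∀ m' ∈ Dd x y, sl d A x y (w ^ r + m) (z ^ r + m') = 0 := by
      intro m hm m' hm'
      by_contra h0
      have h1 := slCompat hlam h0
      apply hnot
      have h2 : z ^ r - lam ^ d * w ^ r =
          (z ^ r + m' - lam ^ d * (w ^ r + m)) + (lam ^ d * m - m') := by ring
      rw [h2]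
      exact Ideal.add_mem _ h1 (Ideal.sub_mem _ (Ideal.mul_mem_left _ _ hm) hm')
    have h0 : (0 : 𝓞 K) ∈ Dd x y := Ideal.zero_mem _
    have e0 : sl d A x y (w ^ r) (z ^ r) = 0 := by
      have := hz 0 h0 0 h0
      rwa [add_zero, add_zero] at this
    have e1 : TTy r d o W (k ^ 2) A (x, w) (y, z) = 0 := by
      unfold TTy
      rw [Finset.sum_eq_zero, mul_zero]
      intro m hm
      have := hz m (EEgoodY_mem hm hD) 0 h0
      rwa [add_zero] at this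
    have e2 : TSy r d o W (k ^ 2) A (x, w) (y, z) = 0 := by
      unfold TSy
      rw [Finset.sum_eq_zero, mul_zero]
      intro m' hm'
      have := hz 0 h0 m' (EEgoodY_mem hm' hD)
      rwa [add_zero] at this
    have e3 : UUy r d o W (k ^ 2) A (x, w) (y, z) = 0 := by
      unfold UUy
      rw [Finset.sum_eq_zero, mul_zero]
      intro m hm
      exact Finset.sum_eq_zero fun m' hm' => hz m (EEgoodY_mem hm hD) m' (EEgoodY_mem hm' hD)
    unfold EEy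
    rw [e1, e2, e3]
    show sl d A x y (w ^ r) (z ^ r) - 0 - 0 + 0 = 0
    rw [e0]
    ring
  · have hsl0 : ∀ m m', 0 ≤ sl d A x y m m' := fun m m' => sl_nonneg d A x y m m'
    have hslM : ∀ m m', sl d A x y m m' ≤ C0 * (n2 d x y A : ℝ) := fun m m' =>
      (hsl1 A hA1 x y m m').trans (mul_le_mul_of_nonneg_right hCs hN)
    have hM0 : 0 ≤ C0 * (n2 d x y A : ℝ) := mul_nonneg (by linarith) hN
    by_cases hk2 : (k : ℝ) ≤ C0
    · have t1 : 0 ≤ TTy r d o W (k ^ 2) A (x, w) (y, z) ∧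
          TTy r d o W (k ^ 2) A (x, w) (y, z) ≤ C0 * (n2 d x y A : ℝ) :=
        EEgoodY_bd _ (fun m => sl d A x y (w ^ r + m) (z ^ r)) hM0 (fun m => hsl0 _ _)
          (fun m => hslM _ _)
      have t2 : 0 ≤ TSy r d o W (k ^ 2) A (x, w) (y, z) ∧
          TSy r d o W (k ^ 2) A (x, w) (y, z) ≤ C0 * (n2 d x y A : ℝ) :=
        EEgoodY_bd _ (fun m' => sl d A x y (w ^ r) (z ^ r + m')) hM0 (fun m => hsl0 _ _)
          (fun m => hslM _ _)
      have t3 : 0 ≤ UUy r d o W (k ^ 2) A (x, w) (y, z) ∧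
          UUy r d o W (k ^ 2) A (x, w) (y, z) ≤ C0 * (n2 d x y A : ℝ) := by
        rw [EEgoodY_UU]
        have t4 := fun m => EEgoodY_bd (MS d W (k ^ 2) A o y)
          (fun m' => sl d A x y (w ^ r + m) (z ^ r + m')) hM0 (fun m' => hsl0 _ _)
          (fun m' => hslM _ _)
        exact EEgoodY_bd (MS d W (k ^ 2) A o x) (fun m => (1 / ((MS d W (k ^ 2) A o y).card : ℝ)) *
          ∑ m' ∈ MS d W (k ^ 2) A o y, sl d A x y (w ^ r + m) (z ^ r + m')) hM0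
          (fun m => (t4 m).1) (fun m => (t4 m).2)
      have t0 := hsl0 (w ^ r) (z ^ r)
      have t0' := hslM (w ^ r) (z ^ r)
      have hE : |EEy r d o W (k ^ 2) A (x, w) (y, z)| ≤ 2 * (C0 * (n2 d x y A : ℝ)) := by
        have e : EEy r d o W (k ^ 2) A (x, w) (y, z) = sl d A x y (w ^ r) (z ^ r) -
          TTy r d o W (k ^ 2) A (x, w) (y, z) - TSy r d o W (k ^ 2) A (x, w) (y, z) +
          UUy r d o W (k ^ 2) A (x, w) (y, z) := rfl
        rw [e, abs_le]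
        constructor <;> linarith [t1.1, t1.2, t2.1, t2.2, t3.1, t3.2]
      refine hE.trans ?_
      have h1 : 2 * C0 ≤ 4 * (C0 * C0) / (k : ℝ) := by
        rw [le_div_iff₀ hk0]
        have := mul_le_mul_of_nonneg_left hk2 (by linarith : 0 ≤ 2 * C0)
        nlinarith
      calc 2 * (C0 * (n2 d x y A : ℝ)) = (2 * C0) * (n2 d x y A : ℝ) := by ring
        _ ≤ _ := mul_le_mul_of_nonneg_right h1 hN
    · have hk3 : C0 < k := not_le.1 hk2
      have key : ∀ m ∈ MS d W (k ^ 2) A o x, ∀ m' ∈ MS d W (k ^ 2) A o y,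
          |sl d A x y (w ^ r + m) (z ^ r + m') - sl d A x y (w ^ r) (z ^ r)| ≤
            C0 / (2 * (k : ℝ)) * (C0 * (n2 d x y A : ℝ)) := by
        intro m hm m' hm'
        have hAi : Cn * (H : ℝ) ^ 2 * k ≤ A := by
          refine le_trans ?_ hA
          have h1 : 0 ≤ (H : ℝ) ^ 2 * k := by positivity
          have h2 := mul_le_mul_of_nonneg_right (hCn.trans hC0C) h1
          linarith
        obtain ⟨a0, h1, h2, h3⟩ := hnear B H q o k A W hB hk hAi x hx y hy hxy hD hΔ m hm m' hm'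
        have h3' : (k : ℝ) * tn a0 ≤ C0 * A := h3.trans (mul_le_mul_of_nonneg_right hCn hAr.le)
        have h4 : tn a0 ≤ A := by
          by_contra hcon
          push Not at hcon
          have h5 : (k : ℝ) * A < k * tn a0 := mul_lt_mul_of_pos_left hcon hk0
          have h6 : C0 * A < k * A := mul_lt_mul_of_pos_right hk3 hAr
          linarith
        have h5 := hsl2 A hA1 x y (w ^ r) (z ^ r) a0 h4
        rw [h1, h2] at h5
        refine h5.trans ?_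
        have h6 : tn a0 / (2 * (A : ℝ)) ≤ C0 / (2 * (k : ℝ)) := by
          rw [div_le_div_iff₀ (by positivity) (by positivity)]
          nlinarith
        exact mul_le_mul h6 (mul_le_mul_of_nonneg_right hCd hN)
          (mul_nonneg (by linarith) hN) (by positivity)
      have z1 : (0 : 𝓞 K) ∈ MS d W (k ^ 2) A o x := EEgoodY_zero
      have z2 : (0 : 𝓞 K) ∈ MS d W (k ^ 2) A o y := EEgoodY_zero
      have g1 : |TTy r d o W (k ^ 2) A (x, w) (y, z) - sl d A x y (w ^ r) (z ^ r)| ≤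
          C0 / (2 * (k : ℝ)) * (C0 * (n2 d x y A : ℝ)) :=
        EEgoodY_avg (MS d W (k ^ 2) A o x) (fun m => sl d A x y (w ^ r + m) (z ^ r)) _ _ ⟨0, z1⟩
          fun m hm => by
            have := key m hm 0 z2
            rwa [add_zero] at this
      have g2 : |TSy r d o W (k ^ 2) A (x, w) (y, z) - sl d A x y (w ^ r) (z ^ r)| ≤
          C0 / (2 * (k : ℝ)) * (C0 * (n2 d x y A : ℝ)) :=
        EEgoodY_avg (MS d W (k ^ 2) A o y) (fun m' => sl d A x y (w ^ r) (z ^ r + m')) _ _ ⟨0, z2⟩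
          fun m' hm' => by
            have := key 0 z1 m' hm'
            rwa [add_zero] at this
      have g3 : |UUy r d o W (k ^ 2) A (x, w) (y, z) - sl d A x y (w ^ r) (z ^ r)| ≤
          C0 / (2 * (k : ℝ)) * (C0 * (n2 d x y A : ℝ)) := by
        rw [EEgoodY_UU]
        exact EEgoodY_avg (MS d W (k ^ 2) A o x) (fun m => (1 / ((MS d W (k ^ 2) A o y).card : ℝ)) *
          ∑ m' ∈ MS d W (k ^ 2) A o y, sl d A x y (w ^ r + m) (z ^ r + m')) _ _ ⟨0, z1⟩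
          fun m hm => EEgoodY_avg (MS d W (k ^ 2) A o y)
            (fun m' => sl d A x y (w ^ r + m) (z ^ r + m')) _ _ ⟨0, z2⟩
            fun m' hm' => key m hm m' hm'
      have hE : |EEy r d o W (k ^ 2) A (x, w) (y, z)| ≤
          3 * (C0 / (2 * (k : ℝ)) * (C0 * (n2 d x y A : ℝ))) := by
        have e : EEy r d o W (k ^ 2) A (x, w) (y, z) = sl d A x y (w ^ r) (z ^ r) -
          TTy r d o W (k ^ 2) A (x, w) (y, z) - TSy r d o W (k ^ 2) A (x, w) (y, z) +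
          UUy r d o W (k ^ 2) A (x, w) (y, z) := rfl
        rw [e]
        rw [abs_le] at g1 g2 g3 ⊢
        constructor <;> linarith [g1.1, g1.2, g2.1, g2.2, g3.1, g3.2]
      refine hE.trans ?_
      have h1 : 3 * (C0 / (2 * (k : ℝ)) * C0) ≤ 4 * (C0 * C0) / (k : ℝ) := by
        have e : 3 * (C0 / (2 * (k : ℝ)) * C0) = (3 / 2 * (C0 * C0)) / (k : ℝ) := by
          field_simp
        rw [e]
        apply div_le_div_of_nonneg_right _ hk0.le
        nlinarith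
      calc 3 * (C0 / (2 * (k : ℝ)) * (C0 * (n2 d x y A : ℝ))) =
          (3 * (C0 / (2 * (k : ℝ)) * C0)) * (n2 d x y A : ℝ) := by ring
        _ ≤ _ := mul_le_mul_of_nonneg_right h1 hN

end Pool.Agent.Lib.MP_1ad228_ntY
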