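import Pool.Agent.Lib.MP_1ad228_ntN.NB_Ideals

/-!
LEAF EulerI.  Upper bound for a sum of a multiplicative function over ideals by a finite Euler product.
PROOF.  `vI P I` is the exponent of the prime `P` in `I`.  The map `I ↦ (P ↦ vI P I)` from `S` to `Fintype.piFinset`-like functions
`T → {0, .., J}` is injective (`I` is the product of `P ^ vI P I` over `P ∈ T`, because every prime factor of `I` is in `T`;
`Associates`/`normalizedFactors` and `Ideal` normalization is trivial: `Ideal.prod_normalizedFactors_eq_self`).  Expand the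
product with `Finset.prod_sum` (or `Finset.prod_univ_sum` over the subtype of `T`); all terms are `≥ 0`.
-/

namespace Pool.Agent.Lib.MP_1ad228_ntY

open NumberField Classical
open Pool.Agent.Lib.MP_1ad228_ntN

set_option linter.unusedSectionVars false

variable {K : Type} [Field K] [NumberField K]

/-- The exponent of the prime ideal `P` in `I`. -/
noncomputable def vI (P I : Ideal (𝓞 K)) : ℕ :=
  (UniqueFactorizationMonoid.normalizedFactors I).count P

private lemma EulerI_inj (T : Finset (Ideal (𝓞 K))) {I I' : Ideal (𝓞 K)} (hI : I ≠ ⊥) (hI' : I' ≠ ⊥)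
    (h : ∀ P : Ideal (𝓞 K), P.IsPrime → P ≠ ⊥ → I ≤ P → P ∈ T)
    (h' : ∀ P : Ideal (𝓞 K), P.IsPrime → P ≠ ⊥ → I' ≤ P → P ∈ T)
    (e : ∀ P ∈ T, vI P I = vI P I') : I = I' := by
  have key : ∀ {L : Ideal (𝓞 K)}, L ≠ ⊥ →
      (∀ P : Ideal (𝓞 K), P.IsPrime → P ≠ ⊥ → L ≤ P → P ∈ T) →
      ∀ Q, Q ∉ T → vI Q L = 0 := by
    intro L hL hLT Q hQ
    unfold vI
    rw [Multiset.count_eq_zero]
    intro hQ'
    have hpr := UniqueFactorizationMonoid.prime_of_normalized_factor Q hQ'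
    exact hQ (hLT Q (Ideal.isPrime_of_prime hpr) hpr.ne_zero
      (Ideal.le_of_dvd (UniqueFactorizationMonoid.dvd_of_mem_normalizedFactors hQ')))
  have hm : UniqueFactorizationMonoid.normalizedFactors I
      = UniqueFactorizationMonoid.normalizedFactors I' := by
    refine Multiset.ext.2 (fun Q => ?_)
    by_cases hQ : Q ∈ T
    · exact e Q hQ
    · exact (key hI h Q hQ).trans (key hI' h' Q hQ).symm
  rw [← Ideal.prod_normalizedFactors_eq_self hI, hm, Ideal.prod_normalizedFactors_eq_self hI']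

theorem eulerI (S T : Finset (Ideal (𝓞 K))) (J : ℕ) (hS : ∀ I ∈ S, I ≠ ⊥)
    (hT : ∀ P ∈ T, P.IsPrime ∧ P ≠ ⊥)
    (hST : ∀ I ∈ S, ∀ P : Ideal (𝓞 K), P.IsPrime → P ≠ ⊥ → I ≤ P → P ∈ T)
    (hJ : ∀ I ∈ S, ∀ P ∈ T, vI P I ≤ J) (φ : Ideal (𝓞 K) → ℕ → ℝ) (h0 : ∀ P j, 0 ≤ φ P j) :
    ∑ I ∈ S, ∏ P ∈ T, φ P (vI P I) ≤ ∏ P ∈ T, ∑ j ∈ Finset.range (J + 1), φ P j := by
  rw [Finset.prod_sum]
  have hinj : Set.InjOn (fun (I : Ideal (𝓞 K)) => fun (P : Ideal (𝓞 K)) (_ : P ∈ T) => vI P I)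
      (S : Set (Ideal (𝓞 K))) := by
    intro I hI I' hI' e
    refine EulerI_inj T (hS I hI) (hS I' hI') (hST I hI) (hST I' hI') (fun P hP => ?_)
    exact congrFun (congrFun e P) hP
  have hsub : S.image (fun (I : Ideal (𝓞 K)) => fun (P : Ideal (𝓞 K)) (_ : P ∈ T) => vI P I)
      ⊆ T.pi (fun _ => Finset.range (J + 1)) := by
    intro p hp
    obtain ⟨I, hI, rfl⟩ := Finset.mem_image.1 hp
    refine Finset.mem_pi.2 (fun P hP => ?_)
    exact Finset.mem_range.2 (Nat.lt_succ_of_le (hJ I hI P hP))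
  calc ∑ I ∈ S, ∏ P ∈ T, φ P (vI P I)
      = ∑ p ∈ S.image (fun (I : Ideal (𝓞 K)) => fun (P : Ideal (𝓞 K)) (_ : P ∈ T) => vI P I),
          ∏ x ∈ T.attach, φ x.1 (p x.1 x.2) := by
        rw [Finset.sum_image hinj]
        exact Finset.sum_congr rfl
          (fun I _ => (Finset.prod_attach T (fun P => φ P (vI P I))).symm)
    _ ≤ _ := Finset.sum_le_sum_of_subset_of_nonneg hsub
        (fun p _ _ => Finset.prod_nonneg (fun x _ => h0 _ _))

end Pool.Agent.Lib.MP_1ad228_ntY
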