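import Pool.Agent.Lib.MP_1ad228_ntY.Defs
import Pool.Agent.Lib.MP_1ad228_ntN.Expand

/-!
LEAF ExpandY.  The variance is the sum of the contributions of the pairs.  Model: `Lib/MP_1ad228_ntQ/ExpandD.lean`
(the same proof with `^ r` in place of `^ 2`).
-/

namespace Pool.Agent.Lib.MP_1ad228_ntY

open NumberField Classical
open Pool.Agent.Lib.MP_1ad228_ntN
open Pool.Agent.Lib.MP_219881_nt (mn)

set_option linter.unusedSectionVars false

variable {K : Type} [Field K] [NumberField K]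

/-- Indicator of `ev a x = m`. -/
private noncomputable def ExpandY_i {n d : ℕ} (x : Vc n (𝓞 K)) (m : 𝓞 K) (a : Ten n d (𝓞 K)) : ℝ :=
  if ev a x = m then 1 else 0

/-- The local function. -/
private noncomputable def ExpandY_l (r : ℕ) {n d : ℕ} (o : Fin (n + 1)) (W κ A : ℕ) (p : Vc n (𝓞 K) × 𝓞 K)
    (a : Ten n d (𝓞 K)) : ℝ :=
  (1 / ((MS d W κ A o p.1).card : ℝ)) * ∑ m ∈ MS d W κ A o p.1, ExpandY_i p.1 (p.2 ^ r + m) a

private theorem ExpandY_L (r : ℕ) {n d : ℕ} (o : Fin (n + 1)) (W κ A : ℕ) (hK : 1 ≤ κ) (p : Vc n (𝓞 K) × 𝓞 K)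
    (a : Ten n d (𝓞 K)) :
    ExpandY_l r o W κ A p a = if Locy r W κ A o a p then 1 / ((MS d W κ A o p.1).card : ℝ) else 0 := by
  unfold ExpandY_l ExpandY_i
  have h1 : ∀ m : 𝓞 K, (ev a p.1 = p.2 ^ r + m) = (ev a p.1 - p.2 ^ r = m) := by
    intro m
    rw [sub_eq_iff_eq_add']
  simp only [h1]
  rw [Finset.sum_ite_eq]
  by_cases h : Locy r W κ A o a p
  · rw [if_pos ((mem_MS hK).mpr h), if_pos h, mul_one]
  · rw [if_neg (fun h' => h ((mem_MS hK).mp h')), if_neg h, mul_zero]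

private theorem ExpandY_sl {n : ℕ} (d A : ℕ) (x y : Vc n (𝓞 K)) (m m' : 𝓞 K) :
    sl d A x y m m' = ∑ a ∈ Box K n d (2 * A), psi A a * (ExpandY_i x m a * ExpandY_i y m' a) := by
  unfold sl ExpandY_i
  rw [Finset.sum_filter]
  refine Finset.sum_congr rfl fun a _ => ?_
  by_cases h1 : ev a x = m
  · by_cases h2 : ev a y = m'
    · rw [if_pos ⟨h1, h2⟩, if_pos h1, if_pos h2]; ring
    · rw [if_neg (fun h => h2 h.2), if_neg h2]; ring
  · rw [if_neg (fun h => h1 h.1), if_neg h1]; ring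

private theorem ExpandY_TT (r : ℕ) {n : ℕ} (d : ℕ) (o : Fin (n + 1)) (W κ A : ℕ) (p p' : Vc n (𝓞 K) × 𝓞 K) :
    TTy r d o W κ A p p' = ∑ a ∈ Box K n d (2 * A), psi A a *
      (ExpandY_l r o W κ A p a * ExpandY_i p'.1 (p'.2 ^ r) a) := by
  unfold TTy
  simp only [ExpandY_sl, ExpandY_l]
  rw [Finset.sum_comm, Finset.mul_sum]
  refine Finset.sum_congr rfl fun a _ => ?_
  rw [← Finset.mul_sum, ← Finset.sum_mul]
  ring

private theorem ExpandY_TS (r : ℕ) {n : ℕ} (d : ℕ) (o : Fin (n + 1)) (W κ A : ℕ) (p p' : Vc n (𝓞 K) × 𝓞 K) :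
    TSy r d o W κ A p p' = ∑ a ∈ Box K n d (2 * A), psi A a *
      (ExpandY_i p.1 (p.2 ^ r) a * ExpandY_l r o W κ A p' a) := by
  unfold TSy
  simp only [ExpandY_sl, ExpandY_l]
  rw [Finset.sum_comm, Finset.mul_sum]
  refine Finset.sum_congr rfl fun a _ => ?_
  rw [← Finset.mul_sum, ← Finset.mul_sum]
  ring

private theorem ExpandY_UU (r : ℕ) {n : ℕ} (d : ℕ) (o : Fin (n + 1)) (W κ A : ℕ) (p p' : Vc n (𝓞 K) × 𝓞 K) :
    UUy r d o W κ A p p' = ∑ a ∈ Box K n d (2 * A), psi A a *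
      (ExpandY_l r o W κ A p a * ExpandY_l r o W κ A p' a) := by
  unfold UUy
  simp only [ExpandY_sl, ExpandY_l]
  have h1 : ∑ m ∈ MS d W κ A o p.1, ∑ m' ∈ MS d W κ A o p'.1, ∑ a ∈ Box K n d (2 * A),
        psi A a * (ExpandY_i p.1 (p.2 ^ r + m) a * ExpandY_i p'.1 (p'.2 ^ r + m') a)
      = ∑ a ∈ Box K n d (2 * A), psi A a *
        ((∑ m ∈ MS d W κ A o p.1, ExpandY_i p.1 (p.2 ^ r + m) a) *
          ∑ m' ∈ MS d W κ A o p'.1, ExpandY_i p'.1 (p'.2 ^ r + m') a) := by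
    calc ∑ m ∈ MS d W κ A o p.1, ∑ m' ∈ MS d W κ A o p'.1, ∑ a ∈ Box K n d (2 * A),
          psi A a * (ExpandY_i p.1 (p.2 ^ r + m) a * ExpandY_i p'.1 (p'.2 ^ r + m') a)
        = ∑ m ∈ MS d W κ A o p.1, ∑ a ∈ Box K n d (2 * A), ∑ m' ∈ MS d W κ A o p'.1,
          psi A a * (ExpandY_i p.1 (p.2 ^ r + m) a * ExpandY_i p'.1 (p'.2 ^ r + m') a) :=
          Finset.sum_congr rfl fun m _ => Finset.sum_comm
      _ = ∑ a ∈ Box K n d (2 * A), ∑ m ∈ MS d W κ A o p.1, ∑ m' ∈ MS d W κ A o p'.1,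
          psi A a * (ExpandY_i p.1 (p.2 ^ r + m) a * ExpandY_i p'.1 (p'.2 ^ r + m') a) := Finset.sum_comm
      _ = _ := by
          refine Finset.sum_congr rfl fun a _ => ?_
          rw [Finset.sum_mul_sum, Finset.mul_sum]
          refine Finset.sum_congr rfl fun m _ => ?_
          rw [Finset.mul_sum]
  rw [h1, Finset.mul_sum]
  refine Finset.sum_congr rfl fun a _ => ?_
  ring

private theorem ExpandY_EE (r : ℕ) {n : ℕ} (d : ℕ) (o : Fin (n + 1)) (W κ A : ℕ) (p p' : Vc n (𝓞 K) × 𝓞 K) :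
    EEy r d o W κ A p p' = ∑ a ∈ Box K n d (2 * A), psi A a *
      ((ExpandY_i p.1 (p.2 ^ r) a - ExpandY_l r o W κ A p a) *
        (ExpandY_i p'.1 (p'.2 ^ r) a - ExpandY_l r o W κ A p' a)) := by
  unfold EEy
  rw [ExpandY_TT, ExpandY_TS, ExpandY_UU, ExpandY_sl, ← Finset.sum_sub_distrib, ← Finset.sum_sub_distrib,
    ← Finset.sum_add_distrib]
  refine Finset.sum_congr rfl fun a _ => ?_
  ring

theorem expandY (r n d B H q Z : ℕ) (o : Fin (n + 1)) (W κ A : ℕ) (hκ : 1 ≤ κ) :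
    Qy K r n d B H q Z o W κ A =
      ∑ p ∈ GP K B H q Z o, ∑ p' ∈ GP K B H q Z o, EEy r d o W κ A p p' := by
  have hN : ∀ a : Ten n d (𝓞 K), (Ny r B H q Z o a : ℝ) = ∑ p ∈ GP K B H q Z o, ExpandY_i p.1 (p.2 ^ r) a := by
    intro a
    unfold Ny ExpandY_i
    rw [Finset.card_filter, Nat.cast_sum]
    refine Finset.sum_congr rfl fun p _ => ?_
    by_cases h : ev a p.1 = p.2 ^ r
    · rw [if_pos h, if_pos h, Nat.cast_one]
    · rw [if_neg h, if_neg h, Nat.cast_zero]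
  have hL : ∀ a : Ten n d (𝓞 K), Ly r B H q Z o W κ A a = ∑ p ∈ GP K B H q Z o, ExpandY_l r o W κ A p a := by
    intro a
    unfold Ly
    rw [Finset.sum_filter]
    refine Finset.sum_congr rfl fun p _ => ?_
    rw [ExpandY_L r o W κ A hκ p]
  have hQ : ∀ a : Ten n d (𝓞 K), psi A a * ((Ny r B H q Z o a : ℝ) - Ly r B H q Z o W κ A a) ^ 2
      = ∑ p ∈ GP K B H q Z o, ∑ p' ∈ GP K B H q Z o, psi A a *
      ((ExpandY_i p.1 (p.2 ^ r) a - ExpandY_l r o W κ A p a) *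
        (ExpandY_i p'.1 (p'.2 ^ r) a - ExpandY_l r o W κ A p' a)) := by
    intro a
    rw [hN, hL, ← Finset.sum_sub_distrib, sq, Finset.sum_mul_sum, Finset.mul_sum]
    refine Finset.sum_congr rfl fun p _ => ?_
    rw [Finset.mul_sum]
  unfold Qy
  rw [Finset.sum_congr rfl fun a _ => hQ a, Finset.sum_comm]
  refine Finset.sum_congr rfl fun p _ => ?_
  rw [Finset.sum_comm]
  refine Finset.sum_congr rfl fun p' _ => ?_
  exact (ExpandY_EE r d o W κ A p p').symm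

end Pool.Agent.Lib.MP_1ad228_ntY
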