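import Pool.Agent.Lib.MP_1ad228_ntY.SlSumY
import Pool.Agent.Lib.MP_1ad228_ntY.EEgoodY
import Pool.Agent.Lib.MP_1ad228_ntN.CN_Cls

/-!
LEAF GoodSumY.  Sum over the `r`-th powers for a good pair.  Model: `Lib/MP_1ad228_ntQ/GoodSum.lean`.
PROOF.  `EEgoodY` (`d = r m ≥ 2`), `exLam`, `pCnt`; `(W) ≤ Dd x y`, so `nD ≤ W^e ≤ Z^e` (`absNorm_natCast`) and
`Z^e ≤ Z^(2e)/nD`.
-/

namespace Pool.Agent.Lib.MP_1ad228_ntY

open NumberField Classical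
open Pool.Agent.Lib.MP_1ad228_ntN
open Pool.Agent.Lib.MP_1ad228_ntQ (exLam slCompat nDle)
open Pool.Agent.Lib.MP_219881_nt (mn)

set_option linter.unusedSectionVars false

variable {K : Type} [Field K] [NumberField K]

variable (K) in
theorem goodSumY (r n m q : ℕ) (hr : 2 ≤ r) (hm : 1 ≤ m) : ∃ C : ℝ, 1 ≤ C ∧
    ∀ (B H A Z W k : ℕ) (o : Fin (n + 1)), 1 ≤ B → 1 ≤ k → 1 ≤ A → 1 ≤ W → W ≤ Z →
    C * (H : ℝ) ^ 2 * k ≤ A →
    ∀ x ∈ GG K B H q o, ∀ y ∈ GG K B H q o, ¬ Prp x y → ((W : ℕ) : 𝓞 K) ∈ Dd x y →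
    (∀ v, (B : ℝ) ^ 2 ≤ k * Del o x y v) →
    ∑ w ∈ OBox K (Z : ℝ), ∑ z ∈ OBox K (Z : ℝ), EEy r (r * m) o W (k ^ 2) A (x, w) (y, z) ≤
      C / (k : ℝ) * (n2 (r * m) x y A : ℝ) *
        ((rt r (Dd x y) : ℝ) * (((Z : ℝ) ^ eK K) ^ 2 / nD x y)) := by
  obtain ⟨C1, hC1, h1⟩ := EEgoodY K r n (r * m) (by nlinarith)
  obtain ⟨C2, hC2, h2⟩ := pCnt K r (by omega)
  have hC12 : 1 ≤ C1 * (2 * C2) := by nlinarith
  refine ⟨C1 * (2 * C2), hC12, ?_⟩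
  intro B H A Z W k o hB hk hA hW hWZ hC x hx y hy hxy hWD hDel
  have hkR : (1 : ℝ) ≤ k := by exact_mod_cast hk
  have hZ1 : 1 ≤ Z := le_trans hW hWZ
  obtain ⟨lam, lam', hl, hll⟩ := exLam (GG_uni hx) (GG_uni hy)
  have hC' : C1 * (H : ℝ) ^ 2 * k ≤ A := by
    refine le_trans ?_ hC
    have h3 : C1 ≤ C1 * (2 * C2) := le_mul_of_one_le_right (by linarith) (by linarith)
    have h4 : (0 : ℝ) ≤ (H : ℝ) ^ 2 * k := by positivity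
    nlinarith
  have hE := fun w z => h1 B H q o k A W hB hk hA hC' x hx y hy hxy hWD hDel w z lam hl
  have hcnt := h2 (Dd x y) Z (lam ^ m) (Dd_ne_bot hxy) hZ1
  have hZe : (1 : ℝ) ≤ (Z : ℝ) ^ eK K := one_le_pow₀ (by exact_mod_cast hZ1)
  have hnD1 : 1 ≤ nD x y := one_le_nD hxy
  have hnD : nD x y ≤ (Z : ℝ) ^ eK K := by
    have h40 : (Ideal.absNorm (Ideal.span {((W : ℕ) : 𝓞 K)}) : ℝ) = (W : ℝ) ^ eK K := absNorm_natCast W
    have hWp : (0 : ℝ) < (W : ℝ) ^ eK K := pow_pos (by exact_mod_cast hW) _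
    have h4 : Ideal.absNorm (Dd x y) ∣ Ideal.absNorm (Ideal.span {((W : ℕ) : 𝓞 K)}) :=
      Ideal.absNorm_dvd_absNorm_of_le ((Ideal.span_singleton_le_iff_mem _).2 hWD)
    have h3 : Ideal.absNorm (Dd x y) ≤ Ideal.absNorm (Ideal.span {((W : ℕ) : 𝓞 K)}) := by
      refine Nat.le_of_dvd ?_ h4
      rw [← h40] at hWp
      exact_mod_cast hWp
    have h5 : nD x y ≤ (W : ℝ) ^ eK K := by
      rw [nD, ← h40]
      exact_mod_cast h3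
    refine h5.trans (pow_le_pow_left₀ (by positivity) ?_ _)
    exact_mod_cast hWZ
  have hbound : (Z : ℝ) ^ eK K + ((Z : ℝ) ^ eK K) ^ 2 / nD x y ≤
      2 * (((Z : ℝ) ^ eK K) ^ 2 / nD x y) := by
    have h3 : (Z : ℝ) ^ eK K ≤ ((Z : ℝ) ^ eK K) ^ 2 / nD x y := by
      rw [le_div_iff₀ (by linarith), sq]
      exact mul_le_mul_of_nonneg_left hnD (by linarith)
    linarith
  rw [← Finset.sum_product']
  set T := OBox K (Z : ℝ) ×ˢ OBox K (Z : ℝ) with hT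
  have h5 : ∑ p ∈ T, EEy r (r * m) o W (k ^ 2) A (x, p.1) (y, p.2) ≤
      ∑ p ∈ T.filter (fun p => p.2 ^ r - (lam ^ m) ^ r * p.1 ^ r ∈ Dd x y),
        C1 / (k : ℝ) * (n2 (r * m) x y A : ℝ) := by
    rw [Finset.sum_filter]
    refine Finset.sum_le_sum fun p _ => ?_
    split_ifs with h6
    · exact (le_abs_self _).trans (hE p.1 p.2).2
    · refine ((hE p.1 p.2).1 fun h7 => h6 ?_).le
      rwa [pow_mul'] at h7
  refine h5.trans ?_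
  rw [Finset.sum_const, nsmul_eq_mul]
  have h8 : (0 : ℝ) ≤ C1 / (k : ℝ) * (n2 (r * m) x y A : ℝ) := by positivity
  refine (mul_le_mul_of_nonneg_right hcnt h8).trans ?_
  have hrt : (0 : ℝ) ≤ (rt r (Dd x y) : ℝ) := by positivity
  have h9 : C2 * (rt r (Dd x y) : ℝ) * ((Z : ℝ) ^ eK K + ((Z : ℝ) ^ eK K) ^ 2 / nD x y) ≤
      C2 * (rt r (Dd x y) : ℝ) * (2 * (((Z : ℝ) ^ eK K) ^ 2 / nD x y)) :=
    mul_le_mul_of_nonneg_left hbound (by positivity)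
  refine (mul_le_mul_of_nonneg_right h9 h8).trans (le_of_eq ?_)
  ring

end Pool.Agent.Lib.MP_1ad228_ntY
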