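import Pool.Agent.Lib.MP_1ad228_ntY.Defs
import Pool.Agent.Lib.MP_1ad228_ntN.CN_Cnt

/-!
LEAF L1_NearY.  Near a robust point of the cyclic cover at one infinite place.  Model: `Lib/MP_1ad228_ntQ/L1_NearQ.lean`.

PROOF.  `ζ l = em v (x l) / B`, `‖ζ l‖ ≤ 1/2 + δ ≤ 3/4`; the value `u = ev α ζ ∈ KK v` satisfies `‖u - ω^r‖ ≤ (n+1)^d d δ ≤ ρ^r`; there is `σ ∈ KK v` with `σ^r = u`
(real place: `ω` is real; `r` odd: real root; `r` even: `ω^r ≥ (2 ρ)^r`, so `u ≥ 0`), `‖σ‖ ≤ (3(n+1)/4)^m`.  `em v (ev a x) = S^r u`, `S = s B^m`.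
`‖w^r - T^r‖ ≤ r ‖w - T‖ (S (n+1)^m)^(r-1)`, `T = S σ`.
-/

namespace Pool.Agent.Lib.MP_1ad228_ntY

open NumberField Classical
open Pool.Agent.Lib.MP_1ad228_ntN

set_option linter.unusedSectionVars false

variable {K : Type} [Field K] [NumberField K]

private theorem L1Y_prod {ι : Type*} [DecidableEq ι] (T : Finset ι) (p q : ι → ℂ) {e : ℝ} (he : 0 ≤ e)
    (hp : ∀ k, ‖p k‖ ≤ 1) (hq : ∀ k, ‖q k‖ ≤ 1) (h : ∀ k, ‖p k - q k‖ ≤ e) :
    ‖∏ k ∈ T, p k - ∏ k ∈ T, q k‖ ≤ T.card * e := by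
  induction T using Finset.induction_on with
  | empty => simp
  | insert k T hk ih =>
    rw [Finset.prod_insert hk, Finset.prod_insert hk, Finset.card_insert_of_notMem hk]
    have h1 : p k * ∏ k ∈ T, p k - q k * ∏ k ∈ T, q k =
        p k * (∏ k ∈ T, p k - ∏ k ∈ T, q k) + (p k - q k) * ∏ k ∈ T, q k := by ring
    have h2 : ‖∏ k ∈ T, q k‖ ≤ 1 := by
      rw [norm_prod]
      exact Finset.prod_le_one (fun _ _ => norm_nonneg _) fun k _ => hq k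
    rw [h1]
    calc ‖p k * (∏ k ∈ T, p k - ∏ k ∈ T, q k) + (p k - q k) * ∏ k ∈ T, q k‖
        ≤ ‖p k‖ * ‖∏ k ∈ T, p k - ∏ k ∈ T, q k‖ + ‖p k - q k‖ * ‖∏ k ∈ T, q k‖ := by
          refine (norm_add_le _ _).trans (le_of_eq ?_)
          rw [norm_mul, norm_mul]
      _ ≤ 1 * (T.card * e) + e * 1 :=
          add_le_add (mul_le_mul (hp k) ih (norm_nonneg _) zero_le_one)
            (mul_le_mul (h k) h2 (norm_nonneg _) he)
      _ = ((T.card + 1 : ℕ) : ℝ) * e := by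
          push_cast
          ring

private theorem L1Y_ev {n d : ℕ} (α : Ten n d ℂ) (hα : ∀ s, ‖α s‖ ≤ 1) (ζ ξ : Vc n ℂ) {e : ℝ} (he : 0 ≤ e)
    (hζ : ∀ l, ‖ζ l‖ ≤ 1) (hξ : ∀ l, ‖ξ l‖ ≤ 1) (h : ∀ l, ‖ζ l - ξ l‖ ≤ e) :
    ‖ev α ζ - ev α ξ‖ ≤ ((n : ℝ) + 1) ^ d * (d * e) := by
  unfold ev
  rw [← Finset.sum_sub_distrib]
  refine (norm_sum_le _ _).trans ?_
  calc ∑ s : Fin d → Fin (n + 1), ‖α s * ∏ k, ζ (s k) - α s * ∏ k, ξ (s k)‖
      ≤ ∑ _s : Fin d → Fin (n + 1), (d * e : ℝ) := by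
        refine Finset.sum_le_sum fun s _ => ?_
        rw [← mul_sub, norm_mul]
        have h1 := L1Y_prod Finset.univ (fun k => ζ (s k)) (fun k => ξ (s k)) he (fun k => hζ _)
          (fun k => hξ _) (fun k => h _)
        rw [Finset.card_univ, Fintype.card_fin] at h1
        calc ‖α s‖ * ‖∏ k, ζ (s k) - ∏ k, ξ (s k)‖ ≤ 1 * (d * e) :=
              mul_le_mul (hα s) h1 (norm_nonneg _) zero_le_one
          _ = d * e := one_mul _
    _ = ((n : ℝ) + 1) ^ d * (d * e) := by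
        rw [Finset.sum_const, Finset.card_univ, Fintype.card_fun, Fintype.card_fin, Fintype.card_fin,
          nsmul_eq_mul]
        push_cast
        ring

private theorem L1Y_evt {n d : ℕ} (α : Ten n d ℂ) (hα : ∀ s, ‖α s‖ ≤ 1) (ζ : Vc n ℂ) {t : ℝ} (ht : 0 ≤ t)
    (hζ : ∀ l, ‖ζ l‖ ≤ t) : ‖ev α ζ‖ ≤ ((n : ℝ) + 1) ^ d * t ^ d := by
  unfold ev
  refine (norm_sum_le _ _).trans ?_
  calc ∑ s : Fin d → Fin (n + 1), ‖α s * ∏ k, ζ (s k)‖
      ≤ ∑ _s : Fin d → Fin (n + 1), t ^ d := by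
        refine Finset.sum_le_sum fun s _ => ?_
        rw [norm_mul, norm_prod]
        have h1 : ∏ k, ‖ζ (s k)‖ ≤ t ^ d := by
          calc ∏ k, ‖ζ (s k)‖ ≤ ∏ _k : Fin d, t :=
                Finset.prod_le_prod (fun _ _ => norm_nonneg _) fun k _ => hζ _
            _ = t ^ d := by rw [Finset.prod_const, Finset.card_univ, Fintype.card_fin]
        calc ‖α s‖ * ∏ k, ‖ζ (s k)‖ ≤ 1 * t ^ d :=
              mul_le_mul (hα s) h1 (Finset.prod_nonneg fun _ _ => norm_nonneg _) zero_le_one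
          _ = t ^ d := one_mul _
    _ = ((n : ℝ) + 1) ^ d * t ^ d := by
        rw [Finset.sum_const, Finset.card_univ, Fintype.card_fun, Fintype.card_fin, Fintype.card_fin,
          nsmul_eq_mul]
        push_cast
        ring

private theorem L1Y_realroot (r : ℕ) (hr : Odd r) (y : ℝ) : ∃ z : ℝ, z ^ r = y := by
  rcases le_or_gt 0 y with hy | hy
  · exact ⟨y ^ ((r : ℝ)⁻¹), Real.rpow_inv_natCast_pow hy (by rintro rfl; simp at hr)⟩
  · refine ⟨-((-y) ^ ((r : ℝ)⁻¹)), ?_⟩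
    rw [hr.neg_pow, Real.rpow_inv_natCast_pow (by linarith) (by rintro rfl; simp at hr), neg_neg]

private theorem L1Y_root (r : ℕ) (hr : 2 ≤ r) (v : InfinitePlace K) (u ω : ℂ) (hu : u ∈ KK v) (hω : ω ∈ KK v)
    {ρ : ℝ} (hρ : 0 < ρ) (h1 : ‖u - ω ^ r‖ ≤ ρ ^ r) (h2 : 2 * ρ ≤ ‖ω‖) : ∃ ω' ∈ KK v, ω' ^ r = u := by
  by_cases hv : v.IsReal
  · have hu0 : u.im = 0 := hu hv
    have hω0 : ω.im = 0 := hω hv
    have e1 : ω = (ω.re : ℂ) := Complex.ext rfl (by rw [hω0, Complex.ofReal_im])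
    have e2 : u = (u.re : ℂ) := Complex.ext rfl (by rw [hu0, Complex.ofReal_im])
    rcases Nat.even_or_odd r with hre | hro
    · have h3 : ρ ^ r ≤ ω.re ^ r := by
        rw [e1, Complex.norm_real, Real.norm_eq_abs] at h2
        rw [← hre.pow_abs ω.re]
        exact pow_le_pow_left₀ hρ.le (by linarith) r
      have h4 : |u.re - ω.re ^ r| ≤ ρ ^ r := by
        have h5 := Complex.abs_re_le_norm (u - ω ^ r)
        have h6 : (u - ω ^ r).re = u.re - ω.re ^ r := by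
          rw [Complex.sub_re, e1, ← Complex.ofReal_pow, Complex.ofReal_re, Complex.ofReal_re]
        rw [h6] at h5
        exact h5.trans h1
      have h5 : 0 ≤ u.re := by
        have := (abs_le.mp h4).1
        linarith
      refine ⟨((u.re ^ ((r : ℝ)⁻¹) : ℝ) : ℂ), fun _ => Complex.ofReal_im _, ?_⟩
      rw [← Complex.ofReal_pow, Real.rpow_inv_natCast_pow h5 (by omega), ← e2]
    · obtain ⟨z, hz⟩ := L1Y_realroot r hro u.re
      refine ⟨(z : ℂ), fun _ => Complex.ofReal_im _, ?_⟩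
      rw [← Complex.ofReal_pow, hz, ← e2]
  · obtain ⟨z, hz⟩ := IsAlgClosed.exists_pow_nat_eq u (n := r) (by omega)
    exact ⟨z, fun h => absurd h hv, hz⟩

private theorem L1Y_powsub (r : ℕ) (x y : ℂ) (b : ℝ) (hx : ‖x‖ ≤ b) (hy : ‖y‖ ≤ b) :
    ‖x ^ r - y ^ r‖ ≤ ‖x - y‖ * (r * b ^ (r - 1)) := by
  have hb : 0 ≤ b := (norm_nonneg x).trans hx
  rw [← Commute.mul_geom_sum₂ (Commute.all x y), norm_mul]
  refine mul_le_mul_of_nonneg_left ?_ (norm_nonneg _)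
  refine (norm_sum_le _ _).trans ?_
  calc ∑ i ∈ Finset.range r, ‖x ^ i * y ^ (r - 1 - i)‖ ≤ ∑ _i ∈ Finset.range r, b ^ (r - 1) := by
        refine Finset.sum_le_sum fun i hi => ?_
        rw [norm_mul, norm_pow, norm_pow]
        have hi' := Finset.mem_range.mp hi
        have h1 : b ^ (r - 1) = b ^ i * b ^ (r - 1 - i) := by
          rw [← pow_add]
          congr 1
          omega
        rw [h1]
        exact mul_le_mul (pow_le_pow_left₀ (norm_nonneg _) hx _) (pow_le_pow_left₀ (norm_nonneg _) hy _)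
          (by positivity) (by positivity)
    _ = r * b ^ (r - 1) := by rw [Finset.sum_const, Finset.card_range, nsmul_eq_mul]

private theorem L1Y_quarter (n m : ℕ) (hn : 1 ≤ n) (hm : 1 ≤ m) :
    (((n : ℝ) + 1) * (3 / 4)) ^ m + 1 / 4 ≤ ((n : ℝ) + 1) ^ m := by
  have h1 : (2 : ℝ) ≤ (n : ℝ) + 1 := by
    have : (1 : ℝ) ≤ n := by exact_mod_cast hn
    linarith
  have h2 : (2 : ℝ) ≤ ((n : ℝ) + 1) ^ m := by
    calc (2 : ℝ) = 2 ^ 1 := by norm_num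
      _ ≤ 2 ^ m := pow_le_pow_right₀ (by norm_num) hm
      _ ≤ ((n : ℝ) + 1) ^ m := pow_le_pow_left₀ (by norm_num) h1 m
  have h3 : ((3 : ℝ) / 4) ^ m ≤ 3 / 4 := by
    calc ((3 : ℝ) / 4) ^ m ≤ (3 / 4) ^ 1 := pow_le_pow_of_le_one (by norm_num) (by norm_num) hm
      _ = 3 / 4 := by norm_num
  rw [mul_pow]
  nlinarith

theorem nearY {r n m : ℕ} (hr : 2 ≤ r) (hn : 1 ≤ n) (hm : 1 ≤ m) (v : InfinitePlace K) (s B κ : ℕ)
    (hs : 1 ≤ s) (hB : 1 ≤ B) (hκ : 1 ≤ κ) (ρ δ : ℝ) (hρ : 0 < ρ) (hδ : 0 < δ) (hδ1 : δ ≤ 1 / 4)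
    (hδ2 : ((n : ℝ) + 1) ^ (r * m) * (r * m) * δ ≤ ρ ^ r)
    (hδ3 : δ * (r * (((n : ℝ) + 1) ^ m) ^ (r - 1)) ≤ ρ ^ (r * m))
    (a : Ten n (r * m) (𝓞 K)) (ha : a ∈ Box K n (r * m) ((s ^ r : ℕ) : ℝ)) (x : Vc n (𝓞 K))
    (hx : ∀ l, v (x l : K) ≤ B) (ξ : Vc n ℂ) (ω : ℂ) (hξK : ∀ l, ξ l ∈ KK v) (hωK : ω ∈ KK v)
    (hξ : ∀ l, ‖ξ l‖ ≤ 1 / 2) (hω : 2 * ρ ≤ ‖ω‖) (h0 : ev (scQ v (s ^ r) a) ξ = ω ^ r)
    (hnear : ∀ l, ‖em v (x l) - B * ξ l‖ ≤ δ * B) (o : Fin (n + 1)) (ho : ρ * B ≤ v (x o : K)) :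
    ∃ c ∈ KK v, ∀ w : 𝓞 K, ‖em v w - c‖ ≤ δ / κ * ((s : ℝ) * (B : ℝ) ^ m) →
      (κ : ℝ) * v ((ev a x - w ^ r : 𝓞 K) : K) ≤ ((s ^ r : ℕ) : ℝ) * v (x o : K) ^ (r * m) ∧
      v (w : K) ≤ ((n : ℝ) + 1) ^ m * ((s : ℝ) * (B : ℝ) ^ m) := by
  have hs0 : (0 : ℝ) < s := by exact_mod_cast hs
  obtain ⟨A, hA⟩ : ∃ A : ℕ, A = s ^ r := ⟨_, rfl⟩
  have hA1 : 1 ≤ A := by rw [hA]; exact Nat.one_le_pow _ _ hs
  have hAs : (A : ℝ) = (s : ℝ) ^ r := by rw [hA]; push_cast; ring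
  rw [← hA] at ha h0 ⊢
  have hA0 : (0 : ℝ) < A := by exact_mod_cast hA1
  have hB0 : (0 : ℝ) < B := by exact_mod_cast hB
  have hκ0 : (0 : ℝ) < κ := by exact_mod_cast hκ
  have hκ1 : (1 : ℝ) ≤ κ := by exact_mod_cast hκ
  have hAC : (A : ℂ) ≠ 0 := by exact_mod_cast hA0.ne'
  have hBC : (B : ℂ) ≠ 0 := by exact_mod_cast hB0.ne'
  obtain ⟨α, hα⟩ : ∃ α, α = scQ v A a := ⟨_, rfl⟩
  rw [← hα] at h0
  have hα1 : ∀ s, ‖α s‖ ≤ 1 := by
    intro s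
    rw [hα, Pool.Agent.Lib.MP_1ad228_ntQ.scQ, norm_div, Complex.norm_natCast, norm_em, div_le_one hA0]
    exact mem_Box.mp ha s v
  obtain ⟨ζ, hζ⟩ : ∃ ζ : Vc n ℂ, ζ = fun l => em v (x l) / (B : ℂ) := ⟨_, rfl⟩
  have hζ1 : ∀ l, ‖ζ l‖ ≤ 1 := by
    intro l
    rw [hζ]
    simp only
    rw [norm_div, Complex.norm_natCast, norm_em, div_le_one hB0]
    exact hx l
  have hζξ : ∀ l, ‖ζ l - ξ l‖ ≤ δ := by
    intro l
    have h1 : ζ l - ξ l = (em v (x l) - B * ξ l) / (B : ℂ) := by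
      rw [hζ]
      field_simp
    rw [h1, norm_div, Complex.norm_natCast, div_le_iff₀ hB0]
    exact hnear l
  have hξ1 : ∀ l, ‖ξ l‖ ≤ 1 := fun l => (hξ l).trans (by norm_num)
  have hζ3 : ∀ l, ‖ζ l‖ ≤ 3 / 4 := by
    intro l
    have h1 : ζ l = (ζ l - ξ l) + ξ l := by ring
    rw [h1]
    refine (norm_add_le _ _).trans ?_
    have := hζξ l
    have := hξ l
    linarith
  have hu1 : ‖ev α ζ - ω ^ r‖ ≤ ρ ^ r := by
    rw [← h0]
    refine (L1Y_ev α hα1 ζ ξ hδ.le hζ1 hξ1 hζξ).trans (le_trans (le_of_eq ?_) hδ2)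
    push_cast
    ring
  have huK : ev α ζ ∈ KK v := by
    intro hv
    have h1 : ∀ z : 𝓞 K, (em v z).im = 0 := fun z => em_mem_KK v z hv
    have h3 : ∀ z : ℂ, z.im = 0 → z = ((z.re : ℝ) : ℂ) := fun z hz =>
      Complex.ext rfl (by rw [hz, Complex.ofReal_im])
    have h4 : ev α ζ = ((∑ s : Fin (r * m) → Fin (n + 1), (α s).re * ∏ k, (ζ (s k)).re : ℝ) : ℂ) := by
      unfold ev
      push_cast
      refine Finset.sum_congr rfl fun s _ => ?_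
      have h5 : (α s).im = 0 := by
        rw [hα, Pool.Agent.Lib.MP_1ad228_ntQ.scQ, Complex.div_natCast_im, h1, zero_div]
      have h6 : ∀ l, (ζ l).im = 0 := by
        intro l
        rw [hζ]
        simp only
        rw [Complex.div_natCast_im, h1, zero_div]
      rw [← h3 _ h5]
      congr 1
      exact Finset.prod_congr rfl fun k _ => h3 _ (h6 _)
    rw [h4, Complex.ofReal_im]
  obtain ⟨ω', hω'K, hω'⟩ := L1Y_root r hr v _ ω huK hωK hρ hu1 hω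
  obtain ⟨S, hS⟩ : ∃ S : ℝ, S = (s : ℝ) * (B : ℝ) ^ m := ⟨_, rfl⟩
  have hS0 : 0 < S := by rw [hS]; positivity
  have hSr : S ^ r = (A : ℝ) * (B : ℝ) ^ (r * m) := by
    rw [hS, mul_pow, ← pow_mul, mul_comm m, hAs]
  rw [← hS]
  have hn1 : (1 : ℝ) ≤ ((n : ℝ) + 1) ^ m := one_le_pow₀ (by linarith [Nat.cast_nonneg (α := ℝ) n])
  have hω'n : ‖ω'‖ ≤ (((n : ℝ) + 1) * (3 / 4)) ^ m := by
    have h1 : ‖ω'‖ ^ r ≤ ((((n : ℝ) + 1) * (3 / 4)) ^ m) ^ r := by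
      rw [← norm_pow, hω', ← pow_mul, mul_comm m, mul_pow]
      exact L1Y_evt α hα1 ζ (by norm_num) hζ3
    exact (pow_le_pow_iff_left₀ (norm_nonneg _) (by positivity) (by omega)).mp h1
  have hval : em v (ev a x) = ((S ^ r : ℝ) : ℂ) * ω' ^ r := by
    rw [hω', hSr, ← ev_map (em v) a x]
    unfold ev
    rw [Finset.mul_sum]
    refine Finset.sum_congr rfl fun s _ => ?_
    rw [hα, hζ]
    simp only [Pool.Agent.Lib.MP_1ad228_ntQ.scQ]
    rw [Finset.prod_div_distrib, Finset.prod_const, Finset.card_univ, Fintype.card_fin]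
    push_cast
    field_simp
  refine ⟨(S : ℂ) * ω', KK_mul (KK_real v S) hω'K, fun w hw => ?_⟩
  have hsm : ‖em v w - S * ω'‖ ≤ 1 / 4 * S := by
    refine hw.trans ?_
    have h1 : δ / κ ≤ 1 / 4 := (div_le_self hδ.le hκ1).trans hδ1
    exact mul_le_mul_of_nonneg_right h1 hS0.le
  have hq := L1Y_quarter n m hn hm
  have hSω : ‖(S : ℂ) * ω'‖ ≤ S * (((n : ℝ) + 1) * (3 / 4)) ^ m := by
    rw [norm_mul, Complex.norm_real, Real.norm_eq_abs, abs_of_pos hS0]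
    exact mul_le_mul_of_nonneg_left hω'n hS0.le
  have hSω2 : ‖(S : ℂ) * ω'‖ ≤ S * ((n : ℝ) + 1) ^ m :=
    hSω.trans (mul_le_mul_of_nonneg_left (by linarith) hS0.le)
  have hwb : ‖em v w‖ ≤ S * ((n : ℝ) + 1) ^ m := by
    have h1 : em v w = (em v w - S * ω') + S * ω' := by ring
    rw [h1]
    refine (norm_add_le _ _).trans ?_
    nlinarith
  constructor
  · have h1 : em v (ev a x - w ^ r) = -((em v w) ^ r - (S * ω') ^ r) := by
      rw [map_sub, map_pow, hval]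
      push_cast
      ring
    rw [← norm_em, h1, norm_neg]
    have h2 := L1Y_powsub r (em v w) (S * ω') _ hwb hSω2
    have h3 : (κ : ℝ) * ‖(em v w) ^ r - (S * ω') ^ r‖ ≤
        κ * ((δ / κ * S) * (r * (S * ((n : ℝ) + 1) ^ m) ^ (r - 1))) := by
      refine mul_le_mul_of_nonneg_left (h2.trans ?_) hκ0.le
      exact mul_le_mul_of_nonneg_right hw (by positivity)
    refine h3.trans ?_
    have h4 : (κ : ℝ) * ((δ / κ * S) * (r * (S * ((n : ℝ) + 1) ^ m) ^ (r - 1))) =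
        (δ * (r * (((n : ℝ) + 1) ^ m) ^ (r - 1))) * S ^ r := by
      have e1 : S ^ r = S * S ^ (r - 1) := by
        rw [← pow_succ']
        congr 1
        omega
      rw [e1, mul_pow]
      field_simp
    rw [h4, hSr]
    calc (δ * (r * (((n : ℝ) + 1) ^ m) ^ (r - 1))) * ((A : ℝ) * (B : ℝ) ^ (r * m))
        ≤ ρ ^ (r * m) * ((A : ℝ) * (B : ℝ) ^ (r * m)) :=
          mul_le_mul_of_nonneg_right hδ3 (by positivity)
      _ = A * (ρ * B) ^ (r * m) := by rw [mul_pow]; ring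
      _ ≤ A * v (x o : K) ^ (r * m) :=
          mul_le_mul_of_nonneg_left (pow_le_pow_left₀ (by positivity) ho _) hA0.le
  · rw [← norm_em, mul_comm]
    exact hwb

end Pool.Agent.Lib.MP_1ad228_ntY
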