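import Pool.Agent.Lib.MP_1ad228_ntY.L1_NearY

/-!
LEAF L2_CntY.  Counting test pairs in a residue class near the robust points.  Model: `Lib/MP_1ad228_ntQ/L2_CntQ.lean`.

PROOF.  `δ = min (1/4) (min (ρ/2) (min (ρ^r/((n+1)^(rm) r m + 1)) (ρ^(rm)/(r ((n+1)^m)^(r-1) + 1))))`.  For every `l`, `clsLow` with the centres `B ξ_v l`, radius `δ B`, class of `x0 l`;
`X = Fintype.piFinset S`.  For `x ∈ X` and every `v`, `nearY` gives the centre `c v`; `clsLow` with radius `δ/κ s B^m = δ/(κ (n+1)^m) Z ≥ CK W` gives the `w`'s.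
-/

namespace Pool.Agent.Lib.MP_1ad228_ntY

open NumberField Classical
open Pool.Agent.Lib.MP_1ad228_ntN

set_option linter.unusedSectionVars false

variable (K : Type) [Field K] [NumberField K]

theorem cntY2 (r n m : ℕ) (hr : 2 ≤ r) (hn : 1 ≤ n) (hm : 1 ≤ m) (ρ : ℝ) (hρ : 0 < ρ) (hρ1 : ρ ≤ 1) :
    ∃ c : ℝ, 0 < c ∧ c ≤ 1 ∧
    ∀ (o : Fin (n + 1)) (q κ W B s Z : ℕ), 1 ≤ ρ * q → 1 ≤ κ → 1 ≤ W → 1 ≤ B → 1 ≤ s →
    Z = (n + 1) ^ m * s * B ^ m → (W : ℝ) ≤ c * B → (κ : ℝ) * W ≤ c * Z →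
    ∀ a ∈ Box K n (r * m) ((s ^ r : ℕ) : ℝ),
    (∀ v : InfinitePlace K, RobY r v o ρ (scQ v (s ^ r) a)) → ∀ x0 : Vc n (𝓞 K),
    ∃ X : Finset (Vc n (𝓞 K)),
      (∀ x ∈ X, x ∈ VBox K n B ∧ (∀ l, (W : 𝓞 K) ∣ x l - x0 l) ∧
        (∀ v : InfinitePlace K, (B : ℝ) ≤ q * v (x o : K)) ∧ ∀ w0 : 𝓞 K,
          c * ((Z : ℝ) / (κ * W)) ^ eK K ≤ (((OBox K Z).filter fun w => (W : 𝓞 K) ∣ w - w0 ∧
            ∀ v : InfinitePlace K, (κ : ℝ) * v ((ev a x - w ^ r : 𝓞 K) : K) ≤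
              ((s ^ r : ℕ) : ℝ) * v (x o : K) ^ (r * m)).card : ℝ)) ∧
      c * ((B : ℝ) / W) ^ (eK K * (n + 1)) ≤ (X.card : ℝ) := by
  obtain ⟨N1, hN1⟩ : ∃ N1 : ℝ, N1 = ((n : ℝ) + 1) ^ (r * m) * (r * m) + 1 := ⟨_, rfl⟩
  obtain ⟨N2, hN2⟩ : ∃ N2 : ℝ, N2 = r * (((n : ℝ) + 1) ^ m) ^ (r - 1) + 1 := ⟨_, rfl⟩
  have hN1p : 0 < N1 := by rw [hN1]; positivity
  have hN2p : 0 < N2 := by rw [hN2]; positivity
  obtain ⟨δ, hδ⟩ : ∃ δ : ℝ, δ = min (1 / 4) (min (ρ / 2) (min (ρ ^ r / N1) (ρ ^ (r * m) / N2))) :=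
    ⟨_, rfl⟩
  have hδ0 : 0 < δ := by
    rw [hδ]
    exact lt_min (by norm_num) (lt_min (by positivity) (lt_min (by positivity) (by positivity)))
  have hδ4 : δ ≤ 1 / 4 := by rw [hδ]; exact min_le_left _ _
  have hδ1 : δ ≤ 1 := hδ4.trans (by norm_num)
  have hδρ : 2 * δ ≤ ρ := by
    have : δ ≤ ρ / 2 := by rw [hδ]; exact (min_le_right _ _).trans (min_le_left _ _)
    linarith
  have hδ2 : ((n : ℝ) + 1) ^ (r * m) * (r * m) * δ ≤ ρ ^ r := by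
    have h1 : δ ≤ ρ ^ r / N1 := by
      rw [hδ]
      exact (min_le_right _ _).trans ((min_le_right _ _).trans (min_le_left _ _))
    rw [le_div_iff₀ hN1p] at h1
    refine le_trans ?_ h1
    rw [mul_comm δ]
    exact mul_le_mul_of_nonneg_right (by rw [hN1]; linarith) hδ0.le
  have hδ3 : δ * (r * (((n : ℝ) + 1) ^ m) ^ (r - 1)) ≤ ρ ^ (r * m) := by
    have h1 : δ ≤ ρ ^ (r * m) / N2 := by
      rw [hδ]
      exact (min_le_right _ _).trans ((min_le_right _ _).trans (min_le_right _ _))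
    rw [le_div_iff₀ hN2p] at h1
    refine le_trans ?_ h1
    exact mul_le_mul_of_nonneg_left (by rw [hN2]; linarith) hδ0.le
  obtain ⟨CC, hCC⟩ : ∃ CC : ℝ, CC = CK K n := ⟨_, rfl⟩
  have hCC1 : 1 ≤ CC := hCC ▸ CK_one_le K n
  have hCC0 : 0 < CC := lt_of_lt_of_le one_pos hCC1
  obtain ⟨t, ht⟩ : ∃ t : ℝ, t = ((n : ℝ) + 1) ^ m := ⟨_, rfl⟩
  have ht1 : 1 ≤ t := by rw [ht]; exact one_le_pow₀ (by linarith [Nat.cast_nonneg (α := ℝ) n])
  have ht0 : 0 < t := lt_of_lt_of_le one_pos ht1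
  obtain ⟨c2, hc2⟩ : ∃ c2 : ℝ, c2 = (δ ^ eK K / CC ^ (eK K + 1)) ^ (n + 1) := ⟨_, rfl⟩
  obtain ⟨c3, hc3⟩ : ∃ c3 : ℝ, c3 = (δ / t) ^ eK K / CC ^ (eK K + 1) := ⟨_, rfl⟩
  have hc20 : 0 < c2 := by rw [hc2]; positivity
  have hc30 : 0 < c3 := by rw [hc3]; positivity
  obtain ⟨c, hc⟩ : ∃ c : ℝ, c = min (δ / t / CC) (min c2 c3) := ⟨_, rfl⟩
  have hc0 : 0 < c := by rw [hc]; exact lt_min (by positivity) (lt_min hc20 hc30)
  have hcδ : c ≤ δ / t / CC := by rw [hc]; exact min_le_left _ _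
  have hcc2 : c ≤ c2 := by rw [hc]; exact (min_le_right _ _).trans (min_le_left _ _)
  have hcc3 : c ≤ c3 := by rw [hc]; exact (min_le_right _ _).trans (min_le_right _ _)
  have hδs : δ / t ≤ δ := div_le_self hδ0.le ht1
  refine ⟨c, hc0, hcδ.trans ((div_le_one hCC0).mpr ((hδs.trans hδ1).trans hCC1)), ?_⟩
  intro o q κ W B s Z hq hκ hW hB1 hsp hZe hWB hWZ a ha hrob x0
  have hκ0 : (0 : ℝ) < κ := by exact_mod_cast hκ
  have hW0 : (0 : ℝ) < W := by exact_mod_cast hW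
  have hB0 : (0 : ℝ) < B := by exact_mod_cast hB1
  have hWB' : CK K n * W ≤ δ * B := by
    rw [← hCC]
    have h1 : (W : ℝ) ≤ δ / t / CC * B := hWB.trans (mul_le_mul_of_nonneg_right hcδ hB0.le)
    have h2 : CC * (W : ℝ) ≤ CC * (δ / t / CC * B) := mul_le_mul_of_nonneg_left h1 hCC0.le
    have h3 : CC * (δ / t / CC * B) = δ / t * B := by field_simp
    rw [h3] at h2
    exact h2.trans (mul_le_mul_of_nonneg_right hδs hB0.le)
  choose ξ ω hξK hωK hξ hξo hω hval using hrob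
  have hS0 : ∀ l : Fin (n + 1), ∃ T : Finset (𝓞 K), (∀ z ∈ T, (W : 𝓞 K) ∣ z - x0 l ∧
      ∀ v : InfinitePlace K, ‖em v z - B * ξ v l‖ ≤ δ * B) ∧
      (δ * B / W) ^ eK K ≤ CK K n ^ (eK K + 1) * (T.card : ℝ) := by
    intro l
    refine clsLow n W hW (δ * B) hWB' (fun v => B * ξ v l) (fun v => ?_) (x0 l)
    refine KK_mul ?_ (hξK v l)
    exact_mod_cast KK_real v (B : ℝ)
  choose S hS1 hS2 using hS0
  have hbox : ∀ x ∈ Fintype.piFinset S, ∀ (v : InfinitePlace K) l, v (x l : K) ≤ B := by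
    intro x hx v l
    have h1 := (hS1 l (x l) (Fintype.mem_piFinset.mp hx l)).2 v
    rw [← norm_em]
    have h3 : ‖(B : ℂ) * ξ v l‖ ≤ B / 2 := by
      rw [norm_mul, Complex.norm_natCast]
      have := hξ v l
      nlinarith
    have h4 : em v (x l) = (em v (x l) - B * ξ v l) + B * ξ v l := by ring
    rw [h4]
    refine (norm_add_le _ _).trans ?_
    nlinarith
  have hpiv : ∀ x ∈ Fintype.piFinset S, ∀ v : InfinitePlace K, ρ * B ≤ v (x o : K) := by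
    intro x hx v
    have h1 := (hS1 o (x o) (Fintype.mem_piFinset.mp hx o)).2 v
    rw [← norm_em]
    have h3 : 2 * ρ * B ≤ ‖(B : ℂ) * ξ v o‖ := by
      rw [norm_mul, Complex.norm_natCast, mul_comm]
      exact mul_le_mul_of_nonneg_left (hξo v) hB0.le
    have h4 : (B : ℂ) * ξ v o = em v (x o) - (em v (x o) - B * ξ v o) := by ring
    have h5 : ‖(B : ℂ) * ξ v o‖ ≤ ‖em v (x o)‖ + ‖em v (x o) - B * ξ v o‖ := by
      conv_lhs => rw [h4]
      exact norm_sub_le _ _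
    nlinarith
  refine ⟨Fintype.piFinset S, fun x hx => ⟨mem_VBox.mpr fun l v => hbox x hx v l,
    fun l => (hS1 l (x l) (Fintype.mem_piFinset.mp hx l)).1, fun v => ?_, fun w0 => ?_⟩, ?_⟩
  · have h2 : (q : ℝ) * (ρ * B) ≤ q * v (x o : K) :=
      mul_le_mul_of_nonneg_left (hpiv x hx v) (Nat.cast_nonneg _)
    nlinarith
  · obtain ⟨Sq, hSq⟩ : ∃ Sq : ℝ, Sq = (s : ℝ) * (B : ℝ) ^ m := ⟨_, rfl⟩
    have hSq0 : 0 ≤ Sq := by rw [hSq]; positivity
    have hZs' : (Z : ℝ) = t * Sq := by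
      rw [hZe, ht, hSq]
      push_cast
      ring
    have hZs : (Z : ℝ) ≤ t * Sq := hZs'.le
    have hrad : δ / t * Z / κ ≤ δ / κ * Sq := by
      rw [div_mul_eq_mul_div, div_mul_eq_mul_div, div_le_div_iff_of_pos_right hκ0, div_le_iff₀ ht0]
      calc δ * (Z : ℝ) ≤ δ * (t * Sq) := mul_le_mul_of_nonneg_left hZs hδ0.le
        _ = δ * Sq * t := by ring
    have hWr : CK K n * W ≤ δ / κ * Sq := by
      refine le_trans ?_ hrad
      rw [← hCC, le_div_iff₀ hκ0]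
      have h1 : (κ : ℝ) * W ≤ δ / t / CC * Z :=
        hWZ.trans (mul_le_mul_of_nonneg_right hcδ (Nat.cast_nonneg _))
      have h2 : CC * ((κ : ℝ) * W) ≤ CC * (δ / t / CC * Z) := mul_le_mul_of_nonneg_left h1 hCC0.le
      have h3 : CC * (δ / t / CC * Z) = δ / t * Z := by field_simp
      linarith
    have hnear := fun v => nearY hr hn hm v s B κ hsp hB1 hκ ρ δ hρ hδ0 hδ4 hδ2 hδ3 a ha x
      (hbox x hx v) (ξ v) (ω v) (hξK v) (hωK v) (hξ v) (hω v) (hval v)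
      (fun l => (hS1 l (x l) (Fintype.mem_piFinset.mp hx l)).2 v) o (hpiv x hx v)
    choose ce hceK hce using hnear
    obtain ⟨T, hT1, hT2⟩ := clsLow n W hW (δ / κ * Sq) hWr ce hceK w0
    have hsub : T ⊆ (OBox K Z).filter fun w => (W : 𝓞 K) ∣ w - w0 ∧
            ∀ v : InfinitePlace K, (κ : ℝ) * v ((ev a x - w ^ r : 𝓞 K) : K) ≤
              ((s ^ r : ℕ) : ℝ) * v (x o : K) ^ (r * m) := by
      intro w hw
      have h1 := fun v => hce v w (by rw [← hSq]; exact (hT1 w hw).2 v)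
      rw [Finset.mem_filter, mem_OBox]
      refine ⟨fun v => (h1 v).2.trans (le_of_eq ?_), (hT1 w hw).1, fun v => (h1 v).1⟩
      rw [hZs', ht, hSq]
    refine le_trans ?_ (Nat.cast_le.mpr (Finset.card_le_card hsub))
    have h5 : (δ / t) ^ eK K * ((Z : ℝ) / (κ * W)) ^ eK K ≤ CC ^ (eK K + 1) * (T.card : ℝ) := by
      rw [hCC]
      refine le_trans ?_ hT2
      rw [← mul_pow]
      refine pow_le_pow_left₀ (by positivity) ?_ _
      rw [le_div_iff₀ hW0]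
      refine le_trans (le_of_eq ?_) hrad
      field_simp
    calc c * ((Z : ℝ) / (κ * W)) ^ eK K ≤ c3 * ((Z : ℝ) / (κ * W)) ^ eK K :=
          mul_le_mul_of_nonneg_right hcc3 (by positivity)
      _ = (δ / t) ^ eK K * ((Z : ℝ) / (κ * W)) ^ eK K / CC ^ (eK K + 1) := by rw [hc3]; ring
      _ ≤ (T.card : ℝ) := by
          rw [div_le_iff₀ (by positivity), mul_comm (T.card : ℝ)]
          exact h5
  · rw [Fintype.card_piFinset]
    push_cast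
    have h1 : ∀ l, δ ^ eK K / CC ^ (eK K + 1) * ((B : ℝ) / W) ^ eK K ≤ ((S l).card : ℝ) := by
      intro l
      have h2 := hS2 l
      rw [← hCC] at h2
      rw [div_mul_eq_mul_div, div_le_iff₀ (by positivity), mul_comm ((S l).card : ℝ)]
      refine le_trans (le_of_eq ?_) h2
      rw [← mul_pow]
      congr 1
      ring
    calc c * ((B : ℝ) / W) ^ (eK K * (n + 1)) ≤ c2 * ((B : ℝ) / W) ^ (eK K * (n + 1)) :=
          mul_le_mul_of_nonneg_right hcc2 (by positivity)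
      _ = ∏ _l : Fin (n + 1), (δ ^ eK K / CC ^ (eK K + 1) * ((B : ℝ) / W) ^ eK K) := by
          rw [Finset.prod_const, Finset.card_univ, Fintype.card_fin, hc2, mul_pow, pow_mul]
      _ ≤ _ := Finset.prod_le_prod (fun _ _ => by positivity) fun l _ => h1 l

end Pool.Agent.Lib.MP_1ad228_ntY
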