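import Pool.Agent.Lib.MP_1ad228_ntY.L2_CntY
import Pool.Agent.Lib.MP_1ad228_ntN.CN_Count

/-!
LEAF L3_CountY.  Summation over the residue classes.  Model: `Lib/MP_1ad228_ntQ/L3_CountQ.lean` (the same with `^ r`).
-/

namespace Pool.Agent.Lib.MP_1ad228_ntY

open NumberField Classical
open Pool.Agent.Lib.MP_1ad228_ntN

set_option linter.unusedSectionVars false

variable (K : Type) [Field K] [NumberField K]

private theorem L3Y_WWpos (w : ℕ) : 1 ≤ WW w := by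
  have h : 0 < ∏ p ∈ (Finset.range (w + 1)).filter Nat.Prime, p ^ w := by
    refine Finset.prod_pos fun p hp => ?_
    exact pow_pos (Finset.mem_filter.mp hp).2.pos _
  exact h

/-- Counting by residue classes: disjoint pieces indexed by the zeros modulo `I`. -/
private theorem L3Y_sum {r n d : ℕ} (w B H q κ A Z : ℕ) (hB1 : 1 ≤ B) (o : Fin (n + 1))
    (a : Ten n d (𝓞 K)) (L u : ℝ) (hu : 0 ≤ u)
    (h : ∀ x0 : Vc n (𝓞 K), Uni (vmap (Ideal.Quotient.mk (WI K w)) x0) →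
      ∃ X : Finset (Vc n (𝓞 K)),
        (∀ x ∈ X, x ∈ VBox K n B ∧ (∀ l, ((WW w : ℕ) : 𝓞 K) ∣ x l - x0 l) ∧
          (∀ v : InfinitePlace K, (B : ℝ) ≤ q * v (x o : K)) ∧ (x = 0 ∨ Uni x) ∧ ∀ w0 : 𝓞 K,
            u ≤ (((OBox K Z).filter fun w' => ((WW w : ℕ) : 𝓞 K) ∣ w' - w0 ∧
              ∀ v : InfinitePlace K, (κ : ℝ) * v ((ev a x - w' ^ r : 𝓞 K) : K) ≤
                A * v (x o : K) ^ d).card : ℝ)) ∧ L ≤ (X.card : ℝ)) :
    (smYI r (WI K w) a : ℝ) * (L * u) ≤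
      (((GP K B H q Z o).filter (fun p => Locy r (WW w) κ A o a p)).card : ℝ) +
        (((VBox K n B).filter fun x => ¬ HGood H x).card : ℝ) * ((OBox K Z).card : ℝ) := by
  have hWp := L3Y_WWpos w
  have hWO : ((WW w : ℕ) : 𝓞 K) ≠ 0 := Nat.cast_ne_zero.2 (by omega)
  have hI : WI K w ≠ ⊥ := by
    unfold WI
    rw [Ne, Ideal.span_singleton_eq_bot]
    exact hWO
  have hfin : Finite (𝓞 K ⧸ WI K w) := Ideal.finiteQuotientOfFreeOfNeBot (WI K w) hI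
  have hft : Fintype (𝓞 K ⧸ WI K w) := Fintype.ofFinite _
  have hdvd : ∀ a b : 𝓞 K, Ideal.Quotient.mk (WI K w) a = Ideal.Quotient.mk (WI K w) b ↔
      ((WW w : ℕ) : 𝓞 K) ∣ a - b := by
    intro a b
    rw [Ideal.Quotient.eq, WI, Ideal.mem_span_singleton]
  obtain ⟨lf, hlf⟩ : ∃ lf : (𝓞 K ⧸ WI K w) → 𝓞 K, ∀ z, Ideal.Quotient.mk (WI K w) (lf z) = z :=
    ⟨fun z => (Ideal.Quotient.mk_surjective z).choose,
      fun z => (Ideal.Quotient.mk_surjective z).choose_spec⟩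
  obtain ⟨Zs, hZs⟩ : ∃ Zs : Finset (Vc n (𝓞 K ⧸ WI K w) × (𝓞 K ⧸ WI K w)),
      Zs = Finset.univ.filter (fun z => Uni z.1 ∧
        ev (tmap (Ideal.Quotient.mk (WI K w)) a) z.1 = z.2 ^ r) := ⟨_, rfl⟩
  have hsm : smYI r (WI K w) a = Zs.card := by
    rw [hZs]
    unfold smYI smY
    rw [Nat.card_eq_fintype_card, Fintype.card_subtype]
  have hmemZ : ∀ z, z ∈ Zs ↔ Uni z.1 ∧ ev (tmap (Ideal.Quotient.mk (WI K w)) a) z.1 = z.2 ^ r := by
    intro z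
    rw [hZs, Finset.mem_filter]
    exact ⟨fun h => h.2, fun h => ⟨Finset.mem_univ _, h⟩⟩
  have hcl : ∀ z ∈ Zs, Uni (vmap (Ideal.Quotient.mk (WI K w)) (fun l => lf (z.1 l))) := by
    intro z hz
    have h2 : vmap (Ideal.Quotient.mk (WI K w)) (fun l => lf (z.1 l)) = z.1 := by
      funext l
      exact hlf (z.1 l)
    rw [h2]
    exact ((hmemZ z).1 hz).1
  choose! X hX1 hX2 using fun (z : Vc n (𝓞 K ⧸ WI K w) × (𝓞 K ⧸ WI K w)) (hz : z ∈ Zs) =>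
    h (fun l => lf (z.1 l)) (hcl z hz)
  obtain ⟨Wf, hWf⟩ : ∃ Wf : 𝓞 K → Vc n (𝓞 K) → Finset (𝓞 K), Wf = fun w0 x =>
      (OBox K Z).filter fun w' => ((WW w : ℕ) : 𝓞 K) ∣ w' - w0 ∧
        ∀ v : InfinitePlace K, (κ : ℝ) * v ((ev a x - w' ^ r : 𝓞 K) : K) ≤
          A * v (x o : K) ^ d := ⟨_, rfl⟩
  have hmW : ∀ w0 x w', w' ∈ Wf w0 x ↔ w' ∈ OBox K Z ∧ ((WW w : ℕ) : 𝓞 K) ∣ w' - w0 ∧
        ∀ v : InfinitePlace K, (κ : ℝ) * v ((ev a x - w' ^ r : 𝓞 K) : K) ≤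
          A * v (x o : K) ^ d := by
    intro w0 x w'
    rw [hWf]
    exact Finset.mem_filter
  obtain ⟨Pz, hPz⟩ : ∃ Pz : Vc n (𝓞 K ⧸ WI K w) × (𝓞 K ⧸ WI K w) → Finset (Vc n (𝓞 K) × 𝓞 K),
      Pz = fun z => (X z).biUnion fun x => (Wf (lf z.2) x).image fun w' => (x, w') := ⟨_, rfl⟩
  have hmP : ∀ z p, p ∈ Pz z ↔ p.1 ∈ X z ∧ p.2 ∈ Wf (lf z.2) p.1 := by
    intro z p
    rw [hPz]
    simp only [Finset.mem_biUnion, Finset.mem_image]
    constructor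
    · rintro ⟨x, hx, w', hw', rfl⟩
      exact ⟨hx, hw'⟩
    · rintro ⟨h1, h2⟩
      exact ⟨p.1, h1, p.2, h2, rfl⟩
  have hcong : ∀ (x : Vc n (𝓞 K)) (z : Vc n (𝓞 K ⧸ WI K w)),
      (∀ l, ((WW w : ℕ) : 𝓞 K) ∣ x l - lf (z l)) → vmap (Ideal.Quotient.mk (WI K w)) x = z := by
    intro x z hx
    funext l
    show Ideal.Quotient.mk (WI K w) (x l) = z l
    have h1 := (hdvd (x l) (lf (z l))).2 (hx l)
    rw [h1, hlf]
  have hcongw : ∀ (w' : 𝓞 K) (z : 𝓞 K ⧸ WI K w),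
      ((WW w : ℕ) : 𝓞 K) ∣ w' - lf z → Ideal.Quotient.mk (WI K w) w' = z := by
    intro w' z hx
    have h1 := (hdvd w' (lf z)).2 hx
    rw [h1, hlf]
  have hPc : ∀ z ∈ Zs, L * u ≤ ((Pz z).card : ℝ) := by
    intro z hz
    rw [hPz]
    simp only
    rw [Finset.card_biUnion]
    · push_cast
      have h1 : ∀ x ∈ X z, u ≤ (((Wf (lf z.2) x).image fun w' => (x, w')).card : ℝ) := by
        intro x hx
        rw [Finset.card_image_of_injective _ (fun a b hab => (Prod.mk.inj hab).2), hWf]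
        exact (hX1 z hz x hx).2.2.2.2 (lf z.2)
      calc L * u ≤ ((X z).card : ℝ) * u := mul_le_mul_of_nonneg_right (hX2 z hz) hu
        _ = ∑ _x ∈ X z, u := by rw [Finset.sum_const, nsmul_eq_mul]
        _ ≤ _ := Finset.sum_le_sum h1
    · intro x _ x' _ hne
      change Disjoint ((Wf (lf z.2) x).image fun w' => (x, w')) ((Wf (lf z.2) x').image fun w' => (x', w'))
      rw [Finset.disjoint_left]
      intro p hp hp'
      obtain ⟨w1, _, rfl⟩ := Finset.mem_image.mp hp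
      obtain ⟨w2, _, h2⟩ := Finset.mem_image.mp hp'
      exact hne (Prod.mk.inj h2).1.symm
  have hdisj : ∀ z ∈ Zs, ∀ z' ∈ Zs, z ≠ z' → Disjoint (Pz z) (Pz z') := by
    intro z hz z' hz' hzz
    rw [Finset.disjoint_left]
    intro p hp hp'
    obtain ⟨h1, h2⟩ := (hmP z p).1 hp
    obtain ⟨h1', h2'⟩ := (hmP z' p).1 hp'
    apply hzz
    refine Prod.ext ?_ ?_
    · exact (hcong p.1 z.1 (hX1 z hz p.1 h1).2.1).symm.trans
        (hcong p.1 z'.1 (hX1 z' hz' p.1 h1').2.1)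
    · exact (hcongw p.2 z.2 ((hmW _ _ _).1 h2).2.1).symm.trans
        (hcongw p.2 z'.2 ((hmW _ _ _).1 h2').2.1)
  have hsub : Zs.biUnion Pz ⊆
      ((GP K B H q Z o).filter (fun p => Locy r (WW w) κ A o a p)) ∪
        (((VBox K n B).filter fun x => ¬ HGood H x) ×ˢ OBox K Z) := by
    intro p hp
    obtain ⟨z, hz, hpz⟩ := Finset.mem_biUnion.mp hp
    obtain ⟨hpX, hpW⟩ := (hmP z p).1 hpz
    obtain ⟨hV, hcl, hpo, hUz, _⟩ := hX1 z hz p.1 hpX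
    obtain ⟨hO, hwc, hka⟩ := (hmW _ _ _).1 hpW
    obtain ⟨_, hza⟩ := (hmemZ z).1 hz
    rw [Finset.mem_union]
    by_cases hg : HGood H p.1
    · left
      have hx0 : p.1 ≠ 0 := by
        intro h0
        obtain ⟨v⟩ : Nonempty (InfinitePlace K) := inferInstance
        have h2 := hpo v
        have h3 : ((p.1 o : 𝓞 K) : K) = 0 := by
          rw [h0, Pi.zero_apply]
          exact map_zero (algebraMap (𝓞 K) K)
        rw [h3, v_zero, mul_zero] at h2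
        have h1 : (1 : ℝ) ≤ B := by exact_mod_cast hB1
        linarith
      have hU : Uni p.1 := hUz.resolve_left hx0
      have hcx := hcong p.1 z.1 hcl
      have hcw := hcongw p.2 z.2 hwc
      have hdv : ((WW w : ℕ) : 𝓞 K) ∣ ev a p.1 - p.2 ^ r := by
        rw [← hcx, ← hcw] at hza
        have h2 : ev (tmap (Ideal.Quotient.mk (WI K w)) a) (vmap (Ideal.Quotient.mk (WI K w)) p.1) =
            Ideal.Quotient.mk (WI K w) (ev a p.1) := ev_map _ a p.1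
        rw [h2, ← map_pow] at hza
        exact (hdvd _ _).1 hza
      rw [Finset.mem_filter]
      refine ⟨?_, hdv, fun v => hka v⟩
      unfold GP
      rw [Finset.mem_product]
      refine ⟨?_, hO⟩
      unfold GG
      exact Finset.mem_filter.mpr ⟨hV, hpo, hU, hg⟩
    · right
      rw [Finset.mem_product]
      exact ⟨Finset.mem_filter.mpr ⟨hV, hg⟩, hO⟩
  have hcard : ∑ z ∈ Zs, (((Pz z).card : ℕ) : ℝ) ≤
      (((GP K B H q Z o).filter (fun p => Locy r (WW w) κ A o a p)).card : ℝ) +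
        (((VBox K n B).filter fun x => ¬ HGood H x).card : ℝ) * ((OBox K Z).card : ℝ) := by
    have h1 := (Finset.card_le_card hsub).trans (Finset.card_union_le _ _)
    rw [Finset.card_biUnion hdisj, Finset.card_product] at h1
    exact_mod_cast h1
  refine le_trans ?_ hcard
  rw [hsm, ← nsmul_eq_mul]
  exact Finset.card_nsmul_le_sum _ _ _ fun z hz => hPc z hz

theorem countY2 (r n m : ℕ) (hr : 2 ≤ r) (hn : 1 ≤ n) (hm : 1 ≤ m) (ρ : ℝ) (hρ : 0 < ρ) (hρ1 : ρ ≤ 1) :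
    ∃ c C : ℝ, 0 < c ∧ c ≤ 1 ∧ 0 ≤ C ∧
      ∀ (o : Fin (n + 1)) (q κ w B H s Z : ℕ), 1 ≤ ρ * q → 1 ≤ κ → 1 ≤ w → 1 ≤ B → 1 ≤ s →
      Z = (n + 1) ^ m * s * B ^ m →
      (WW w : ℝ) ≤ c * B → (κ : ℝ) * (WW w : ℝ) ≤ c * Z →
      ∀ a ∈ Box K n (r * m) ((s ^ r : ℕ) : ℝ),
      (∀ v : InfinitePlace K, RobY r v o ρ (scQ v (s ^ r) a)) →
      (smYI r (WI K w) a : ℝ) *
        ((c * ((B : ℝ) / (WW w : ℝ)) ^ (eK K * (n + 1)) -
          C * (((B : ℝ) / (WW w : ℝ)) ^ (eK K * (n + 1)) / (w + 1) + (B : ℝ) ^ eK K)) *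
          (c * ((Z : ℝ) / (κ * (WW w : ℝ))) ^ eK K)) ≤
        (((GP K B H q Z o).filter (fun p => Locy r (WW w) κ (s ^ r) o a p)).card : ℝ) +
          (((VBox K n B).filter fun x => ¬ HGood H x).card : ℝ) * ((OBox K Z).card : ℝ) := by
  obtain ⟨c, hc0, hc1, hcnt⟩ := cntY2 K r n m hr hn hm ρ hρ hρ1
  obtain ⟨C, hC1, hnp⟩ := nonPrim (K := K) n hn
  refine ⟨c, C, hc0, hc1, by linarith, ?_⟩
  intro o q κ w B H s Z hq hκ hw hB1 hs hZ hWB hWZ a ha hrob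
  refine L3Y_sum K w B H q κ (s ^ r) Z hB1 o a _ _ (by positivity) ?_
  intro x0 hx0
  obtain ⟨X, hX1, hX2⟩ := hcnt o q κ (WW w) B s Z hq hκ (L3Y_WWpos w) hB1 hs hZ hWB hWZ a ha hrob x0
  have h2 := hnp w B hw hB1 x0 hx0
  obtain ⟨Y, hY⟩ : ∃ Y : Finset (Vc n (𝓞 K)), Y = (VBox K n B).filter fun x =>
      (∀ l, ((WW w : ℕ) : 𝓞 K) ∣ x l - x0 l) ∧ x ≠ 0 ∧ ¬ Uni x := ⟨_, rfl⟩
  rw [← hY] at h2
  refine ⟨X \ Y, fun x hx => ?_, ?_⟩
  · obtain ⟨hxX, hxY⟩ := Finset.mem_sdiff.mp hx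
    obtain ⟨g1, g2, g3, g4⟩ := hX1 x hxX
    refine ⟨g1, g2, g3, ?_, g4⟩
    by_contra hcon
    push Not at hcon
    apply hxY
    rw [hY, Finset.mem_filter]
    exact ⟨g1, g2, hcon.1, hcon.2⟩
  · have h3 : (X.card : ℝ) ≤ ((X \ Y).card : ℝ) + (Y.card : ℝ) := by
      have h4 : X.card ≤ (X \ Y).card + Y.card := by
        have h5 := Finset.le_card_sdiff Y X
        omega
      exact_mod_cast h4
    linarith

end Pool.Agent.Lib.MP_1ad228_ntY
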