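import Pool.Agent.Lib.MP_1ad228_ntY.L3_CountY
import Pool.Agent.Lib.MP_1ad228_ntN.CN_Low
import Pool.Agent.Lib.MP_1ad228_ntN.HG_Bad
import Pool.Agent.Lib.MP_1ad228_ntN.MN_Par

/-!
LEAF LowY.  Lower bound for the local prediction.  Model: `Lib/MP_1ad228_ntQ/L4_LowQ.lean` (`T (κ W)^e = (s B^m)^e`; `A = s^r`, `d = r m`).
The counting part is in `L1_NearY`, `L2_CntY`, `L3_CountY` (the files `CntWY`, `CountY` are not needed).
-/

namespace Pool.Agent.Lib.MP_1ad228_ntY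

open NumberField Classical
open Pool.Agent.Lib.MP_1ad228_ntN

set_option linter.unusedSectionVars false

variable {K : Type} [Field K] [NumberField K]

private theorem LowY_alg (s b u z k a T c1 C2 t η bad P OB : ℝ) (hb : 0 < b) (hu : 0 < u) (hz : 0 < z)
    (hk : 0 < k) (ha : 0 < a) (hT : 0 < T) (hbad0 : 0 ≤ bad) (hη : 0 < η)
    (h1 : s * (c1 / 2 * (b / u) * (c1 * (z / k))) - bad * OB ≤ P) (hOB : OB ≤ T * z)
    (h2 : bad ≤ C2 * b * t) (h3 : k * C2 * t ≤ η) :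
    b * z / a * (c1 ^ 2 / (4 * T) * (s / u) - η) ≤ P * (k / (2 * T * a)) := by
  have hf2 : 0 ≤ k / (2 * T * a) := by positivity
  have h4 : bad * OB ≤ C2 * b * t * (T * z) :=
    (mul_le_mul_of_nonneg_left hOB hbad0).trans (mul_le_mul_of_nonneg_right h2 (by positivity))
  have h5 : b * z / a * (k * C2 * t) ≤ b * z / a * η := mul_le_mul_of_nonneg_left h3 (by positivity)
  have h6 : 0 < b * z / a * η := by positivity
  calc b * z / a * (c1 ^ 2 / (4 * T) * (s / u) - η)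
      ≤ b * z / a * (c1 ^ 2 / (4 * T) * (s / u)) - b * z / a * (k * C2 * t) / 2 := by
        nlinarith
    _ = (s * (c1 / 2 * (b / u) * (c1 * (z / k))) - C2 * b * t * (T * z)) * (k / (2 * T * a)) := by
        field_simp
        ring
    _ ≤ (s * (c1 / 2 * (b / u) * (c1 * (z / k))) - bad * OB) * (k / (2 * T * a)) :=
        mul_le_mul_of_nonneg_right (by linarith) hf2
    _ ≤ P * (k / (2 * T * a)) := mul_le_mul_of_nonneg_right h1 hf2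

private theorem LowY_cls (X c1 C1 w Be : ℝ) (hX : 0 ≤ X) (hc1 : 0 < c1) (hw : 0 < w) (h1 : 4 * C1 / c1 ≤ w)
    (h2 : 4 * (C1 * Be) ≤ c1 * X) : c1 / 2 * X ≤ c1 * X - C1 * (X / w + Be) := by
  have h3 : C1 * (X / w) ≤ c1 / 4 * X := by
    rw [div_le_iff₀ hc1] at h1
    have h4 : C1 * (X / w) = (4 * C1) * (X / (4 * w)) := by
      field_simp
    have h5 : c1 / 4 * X = (w * c1) * (X / (4 * w)) := by
      field_simp
    rw [h4, h5]
    exact mul_le_mul_of_nonneg_right h1 (by positivity)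
  linarith

variable (K) in
theorem lowY (r n m : ℕ) (hr : 2 ≤ r) (hn : 2 ≤ n) (hm : 1 ≤ m) (l : ℕ) (hl : 1 ≤ l) (ρ : ℝ)
    (hρ : 0 < ρ) (hρ1 : ρ ≤ 1 / 4) (q : ℕ) (hq : 1 ≤ ρ * q) :
    ∃ c : ℝ, 0 < c ∧ ∀ κ : ℕ, 1 ≤ κ → ∃ w0 : ℕ, ∀ w : ℕ, w0 ≤ w → ∀ η : ℝ, 0 < η →
      ∃ g0 : ℕ, ∀ g : ℕ, g0 ≤ g → ∀ B H : ℕ, B = g ^ (n * l + 1) → H = g ^ (l + 2) →
      ∀ s : ℕ, 1 ≤ s → ∀ a ∈ Box K n (r * m) ((s ^ r : ℕ) : ℝ), ∀ o : Fin (n + 1),
        (∀ v : InfinitePlace K, RobY r v o ρ (scQ v (s ^ r) a)) →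
        ((B : ℝ) ^ (n + 1) * (((n + 1) ^ m * s * B ^ m : ℕ) : ℝ) /
            (((s ^ r : ℕ) : ℝ) * (B : ℝ) ^ (r * m))) ^ eK K *
          (c * ((smYI r (WI K w) a : ℝ) / (WW w : ℝ) ^ (eK K * (n + 1))) - η) ≤
        Ly r B H q ((n + 1) ^ m * s * B ^ m) o (WW w) κ (s ^ r) a := by
  obtain ⟨c1, C1, hc1, hc11, hC1, hcnt⟩ := countY2 K r n m hr (by omega) hm ρ hρ (hρ1.trans (by norm_num))
  obtain ⟨C2, hC2, hbad⟩ := badX K n (by omega)
  have hCC := CK_one_le K n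
  have hCCp := CK_pos K n
  have he : 1 ≤ eK K := eK_pos
  refine ⟨c1 ^ 2 / (4 * CK K n), by positivity, ?_⟩
  intro κ hκ
  have hκp : (0 : ℝ) < κ := by exact_mod_cast hκ
  have hκ1 : (1 : ℝ) ≤ κ := by exact_mod_cast hκ
  refine ⟨max 1 ⌈4 * C1 / c1⌉₊, ?_⟩
  intro w hw η hη
  have hw1 : 1 ≤ w := (le_max_left _ _).trans hw
  have hw2 : 4 * C1 / c1 ≤ (w : ℝ) :=
    (Nat.le_ceil _).trans (by exact_mod_cast (le_max_right _ _).trans hw)
  have hWn : 1 ≤ WW w := Pool.Agent.Lib.MP_219881_nt.WWpos w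
  have hWp : (0 : ℝ) < (WW w : ℝ) := by exact_mod_cast hWn
  obtain ⟨g1, hg1, hlg⟩ := lgSmall l (eK K) he (((κ : ℝ) * (WW w : ℝ)) ^ eK K * C2) η hη
  refine ⟨max (max ⌈C2⌉₊ ⌈(κ : ℝ) * (WW w : ℝ) / c1⌉₊)
    (max ⌈4 * C1 * ((WW w : ℝ) ^ (n + 1)) ^ eK K / c1⌉₊ g1), ?_⟩
  intro g hg B H hBg hHg s hs a ha o hrob
  obtain ⟨Z, hZe⟩ : ∃ Z : ℕ, Z = (n + 1) ^ m * s * B ^ m := ⟨_, rfl⟩
  rw [← hZe]
  have hcount0 := fun h1 h2 h3 h4 => hcnt o q κ w B H s Z hq hκ h1 h2 hs hZe h3 h4 a ha hrob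
  obtain ⟨A, hAe⟩ : ∃ A : ℕ, A = s ^ r := ⟨_, rfl⟩
  rw [← hAe] at hcount0 ⊢
  have hA : 1 ≤ A := by rw [hAe]; exact Nat.one_le_pow _ _ hs
  have hg2 : C2 ≤ (g : ℝ) :=
    (Nat.le_ceil _).trans (by
      exact_mod_cast le_trans (le_trans (le_max_left _ _) (le_max_left _ _)) hg)
  have hg3 : (κ : ℝ) * (WW w : ℝ) / c1 ≤ (g : ℝ) :=
    (Nat.le_ceil _).trans (by
      exact_mod_cast le_trans (le_trans (le_max_right _ _) (le_max_left _ _)) hg)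
  have hg4 : 4 * C1 * ((WW w : ℝ) ^ (n + 1)) ^ eK K / c1 ≤ (g : ℝ) :=
    (Nat.le_ceil _).trans (by
      exact_mod_cast le_trans (le_trans (le_max_left _ _) (le_max_right _ _)) hg)
  have hg5 : g1 ≤ g := le_trans (le_trans (le_max_right _ _) (le_max_right _ _)) hg
  have hgn : 1 ≤ g := hg1.trans hg5
  have hlog := hlg g hg5
  have hgp : (0 : ℝ) < g := by exact_mod_cast hgn
  have hgr : (1 : ℝ) ≤ g := by exact_mod_cast hgn
  have hgB : g ≤ B := by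
    rw [hBg]
    calc g = g ^ 1 := (pow_one g).symm
      _ ≤ g ^ (n * l + 1) := Nat.pow_le_pow_right hgn (by omega)
  have hB1 : 1 ≤ B := hgn.trans hgB
  have hB1' : (1 : ℝ) ≤ B := by exact_mod_cast hB1
  have hBp : (0 : ℝ) < B := by exact_mod_cast hB1
  have hAp : (0 : ℝ) < A := by exact_mod_cast hA
  have hA1 : (1 : ℝ) ≤ A := by exact_mod_cast hA
  have hgB' : (g : ℝ) ≤ B := by exact_mod_cast hgB
  have hKW : (κ : ℝ) * (WW w : ℝ) ≤ c1 * B := by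
    rw [div_le_iff₀ hc1] at hg3
    nlinarith
  have hWB : (WW w : ℝ) ≤ c1 * B := le_trans (le_mul_of_one_le_left hWp.le hκ1) hKW
  have hBm : (B : ℝ) ≤ (B : ℝ) ^ (r * m) := by
    have hrm : 1 ≤ r * m := Nat.one_le_iff_ne_zero.mpr (Nat.mul_ne_zero (by omega) (by omega))
    calc (B : ℝ) = (B : ℝ) ^ 1 := (pow_one _).symm
      _ ≤ (B : ℝ) ^ (r * m) := pow_le_pow_right₀ hB1' hrm
  have hKWA : κ * WW w ≤ A * B ^ (r * m) := by
    have h1 : (κ : ℝ) * (WW w : ℝ) ≤ A * (B : ℝ) ^ (r * m) := by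
      have h2 : c1 * B ≤ 1 * B := mul_le_mul_of_nonneg_right hc11 hBp.le
      have h6 : (B : ℝ) ^ (r * m) ≤ A * (B : ℝ) ^ (r * m) := le_mul_of_one_le_left (by positivity) hA1
      linarith
    exact_mod_cast h1
  have hBZ : (B : ℝ) ≤ Z := by
    have h1 : B ≤ Z := by
      rw [hZe]
      calc B = 1 * 1 * B ^ 1 := by ring
        _ ≤ (n + 1) ^ m * s * B ^ m :=
            Nat.mul_le_mul (Nat.mul_le_mul (Nat.one_le_pow _ _ (by omega)) hs)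
              (Nat.pow_le_pow_right hB1 hm)
    exact_mod_cast h1
  have hZ0 : (0 : ℝ) < Z := lt_of_lt_of_le hBp hBZ
  have hKZ : (κ : ℝ) * (WW w : ℝ) ≤ c1 * Z := hKW.trans (mul_le_mul_of_nonneg_left hBZ hc1.le)
  have hnl : l + 1 ≤ n * l + 1 := by
    have h1 : 1 * l ≤ n * l := Nat.mul_le_mul_right l (by omega)
    omega
  have hbd := hbad B H (g ^ l) (Nat.one_le_pow _ _ hgn)
    (by
      rw [hHg]
      push_cast
      calc C2 * (g : ℝ) ^ l ≤ g * (g : ℝ) ^ l := mul_le_mul_of_nonneg_right hg2 (by positivity)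
        _ = (g : ℝ) ^ (l + 1) := by ring
        _ ≤ (g : ℝ) ^ (l + 2) := pow_le_pow_right₀ hgr (by omega))
    (by
      rw [hBg]
      push_cast
      calc C2 * (g : ℝ) ^ l ≤ g * (g : ℝ) ^ l := mul_le_mul_of_nonneg_right hg2 (by positivity)
        _ = (g : ℝ) ^ (l + 1) := by ring
        _ ≤ (g : ℝ) ^ (n * l + 1) := pow_le_pow_right₀ hgr hnl)
    (by
      rw [hBg, hHg]
      push_cast
      calc C2 * (g : ℝ) ^ (n * l + 1) ≤ g * (g : ℝ) ^ (n * l + 1) :=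
            mul_le_mul_of_nonneg_right hg2 (by positivity)
        _ = (g : ℝ) ^ (l + 2) * ((g : ℝ) ^ l) ^ (n - 1) := by
          rw [← pow_mul, ← pow_add, ← pow_succ']
          congr 1
          obtain ⟨m', rfl⟩ : ∃ m', n = m' + 1 := ⟨n - 1, by omega⟩
          rw [Nat.add_sub_cancel]
          ring)
  have hcount := hcount0 hw1 hB1 hWB hKZ
  have hOB := OBox_up (K := K) n (X := (Z : ℝ)) (hB1'.trans hBZ)
  generalize (smYI r (WI K w) a : ℕ) = sm at hcount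
  have hL0 : (((GP K B H q Z o).filter (fun p => Locy r (WW w) κ A o a p)).card : ℝ) *
      (((κ : ℝ) * (WW w : ℝ)) ^ eK K / (2 * CK K n * ((A : ℝ) * (B : ℝ) ^ (r * m)) ^ eK K)) ≤
        Ly r B H q Z o (WW w) κ A a := by
    unfold Ly
    rw [← nsmul_eq_mul]
    refine Finset.card_nsmul_le_sum _ _ _ ?_
    intro p hp
    have hpG : p.1 ∈ GG K B H q o := (Finset.mem_product.mp (Finset.mem_filter.mp hp).1).1
    have hxV : p.1 ∈ VBox K n B := (Finset.mem_filter.mp hpG).1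
    have e1 : ((κ : ℝ) * (WW w : ℝ)) ^ eK K / (2 * CK K n * ((A : ℝ) * (B : ℝ) ^ (r * m)) ^ eK K) =
        1 / (2 * CK K n * ((A : ℝ) * (B : ℝ) ^ (r * m) / (κ * (WW w : ℝ))) ^ eK K) := by
      rw [div_pow]
      have p1 : ((κ : ℝ) * (WW w : ℝ)) ^ eK K ≠ 0 := by positivity
      have p3 : ((A : ℝ) * (B : ℝ) ^ (r * m)) ^ eK K ≠ 0 := by positivity
      generalize ((κ : ℝ) * (WW w : ℝ)) ^ eK K = u1 at p1
      generalize ((A : ℝ) * (B : ℝ) ^ (r * m)) ^ eK K = u3 at p3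
      field_simp
    rw [e1]
    obtain ⟨h1, h2⟩ := muUp (r * m) (WW w) κ A B o hWn hκ hA hB1 hKWA p.1 hxV
    exact one_div_le_one_div_of_le h1 h2
  have hbd' : (((VBox K n B).filter fun x => ¬ HGood H x).card : ℝ) ≤
      C2 * ((B : ℝ) ^ (n + 1)) ^ eK K *
        (((Nat.log 2 (g ^ l) : ℝ) + 2) / g) ^ eK K := by
    refine hbd.trans (le_of_eq ?_)
    have h1 : (B : ℝ) ^ n * ((g ^ l : ℕ) : ℝ) ^ n * g = (B : ℝ) ^ (n + 1) := by
      rw [hBg]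
      push_cast
      rw [← pow_mul, ← pow_mul, ← pow_mul, ← pow_add, ← pow_succ]
      exact congrArg (fun e => (g : ℝ) ^ e) (by ring)
    rw [← h1, mul_pow ((B : ℝ) ^ n * ((g ^ l : ℕ) : ℝ) ^ n) (g : ℝ), div_pow]
    have p1 : (g : ℝ) ^ eK K ≠ 0 := by positivity
    generalize (g : ℝ) ^ eK K = u1 at p1
    field_simp
  refine le_trans ?_ hL0
  generalize (((GP K B H q Z o).filter (fun p => Locy r (WW w) κ A o a p)).card : ℝ) = P at hcount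
  have hbad0 : (0 : ℝ) ≤ (((VBox K n B).filter fun x => ¬ HGood H x).card : ℝ) := Nat.cast_nonneg _
  generalize (((VBox K n B).filter fun x => ¬ HGood H x).card : ℝ) = bad at hcount hbd' hbad0
  generalize ((OBox K (Z : ℝ)).card : ℝ) = OB at hcount hOB
  generalize (((Nat.log 2 (g ^ l) : ℝ) + 2) / g) ^ eK K = t at hlog hbd'
  have hb : (0 : ℝ) < ((B : ℝ) ^ (n + 1)) ^ eK K := by positivity
  have hu : (0 : ℝ) < ((WW w : ℝ) ^ (n + 1)) ^ eK K := by positivity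
  have hz : (0 : ℝ) < (Z : ℝ) ^ eK K := by positivity
  have hk : (0 : ℝ) < ((κ : ℝ) * (WW w : ℝ)) ^ eK K := by positivity
  have ha' : (0 : ℝ) < ((A : ℝ) * (B : ℝ) ^ (r * m)) ^ eK K := by positivity
  have e4 : ((B : ℝ) / (WW w : ℝ)) ^ (eK K * (n + 1)) =
      ((B : ℝ) ^ (n + 1)) ^ eK K / ((WW w : ℝ) ^ (n + 1)) ^ eK K := by
    rw [div_pow, mul_comm (eK K), pow_mul, pow_mul]
  have hkey : 4 * (C1 * (B : ℝ) ^ eK K) ≤
      c1 * (((B : ℝ) ^ (n + 1)) ^ eK K / ((WW w : ℝ) ^ (n + 1)) ^ eK K) := by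
    rw [div_le_iff₀ hc1] at hg4
    have h4 : (g : ℝ) ≤ ((B : ℝ) ^ n) ^ eK K := by
      refine hgB'.trans ?_
      rw [← pow_mul]
      calc (B : ℝ) = (B : ℝ) ^ 1 := (pow_one _).symm
        _ ≤ (B : ℝ) ^ (n * eK K) := pow_le_pow_right₀ hB1' (Nat.mul_pos (by omega) he)
    have h5 : ((B : ℝ) ^ (n + 1)) ^ eK K = ((B : ℝ) ^ n) ^ eK K * (B : ℝ) ^ eK K := by
      rw [← mul_pow, ← pow_succ]
    have h6 : (g : ℝ) * c1 ≤ ((B : ℝ) ^ n) ^ eK K * c1 := mul_le_mul_of_nonneg_right h4 hc1.le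
    have h7 : (0 : ℝ) ≤ (B : ℝ) ^ eK K := by positivity
    rw [h5, ← mul_div_assoc, le_div_iff₀ hu]
    have h8 := mul_le_mul_of_nonneg_right (hg4.trans h6) h7
    linarith
  have hcls := LowY_cls (((B : ℝ) ^ (n + 1)) ^ eK K / ((WW w : ℝ) ^ (n + 1)) ^ eK K) c1 C1 ((w : ℝ) + 1)
    ((B : ℝ) ^ eK K) (by positivity) hc1 (by positivity) (hw2.trans (by linarith)) hkey
  have hs0 : (0 : ℝ) ≤ sm := Nat.cast_nonneg _
  rw [e4, div_pow (Z : ℝ)] at hcount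
  have e5 : ((B : ℝ) ^ (n + 1) * Z / ((A : ℝ) * (B : ℝ) ^ (r * m))) ^ eK K =
      ((B : ℝ) ^ (n + 1)) ^ eK K * (Z : ℝ) ^ eK K / ((A : ℝ) * (B : ℝ) ^ (r * m)) ^ eK K := by
    rw [div_pow, mul_pow]
  have e7 : (WW w : ℝ) ^ (eK K * (n + 1)) = ((WW w : ℝ) ^ (n + 1)) ^ eK K := by
    rw [mul_comm, pow_mul]
  rw [e5, e7]
  refine LowY_alg sm _ _ _ _ _ _ c1 C2 t η bad P OB hb hu hz hk ha' hCCp hbad0 hη ?_ hOB hbd' hlog
  have h1 : (0 : ℝ) ≤ c1 * ((Z : ℝ) ^ eK K / ((κ : ℝ) * (WW w : ℝ)) ^ eK K) := by positivity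
  have h2 := mul_le_mul_of_nonneg_left (mul_le_mul_of_nonneg_right hcls h1) hs0
  linarith

end Pool.Agent.Lib.MP_1ad228_ntY
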