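import Pool.Agent.Lib.MP_1ad228_ntY.MainSY

/-!
LEAF MainAY.  From `r`-th powers to all `A`.  Model: `Lib/MP_1ad228_ntQ/MainA.lean`.
PROOF.  `s` least with `A ≤ s^r`: `s^r ≤ 2^r A`.  `v(x_i)^ι ≤ M s^(r-1)` gives `v(x_i)^(r ι) ≤ M^r (s^r)^(r-1) ≤ M^r 2^(r(r-1)) A^(r-1)`.
-/

namespace Pool.Agent.Lib.MP_1ad228_ntY

open NumberField Classical
open Pool.Agent.Lib.MP_1ad228_ntN

set_option linter.unusedSectionVars false

variable {K : Type} [Field K] [NumberField K]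

/-- The least `r`-th power above `A`. -/
theorem MainAY_root (r A s0 : ℕ) (hr : 1 ≤ r) (hA : s0 ^ r + 1 ≤ A) :
    ∃ s : ℕ, s0 ≤ s ∧ A ≤ s ^ r ∧ s ^ r ≤ 2 ^ r * A := by
  have hr0 : r ≠ 0 := by omega
  have hex : ∃ s : ℕ, A ≤ s ^ r := ⟨A, Nat.le_self_pow hr0 A⟩
  obtain ⟨s, h1, h2⟩ : ∃ s : ℕ, A ≤ s ^ r ∧ ∀ t < s, ¬ A ≤ t ^ r :=
    ⟨Nat.find hex, Nat.find_spec hex, fun t ht => Nat.find_min hex ht⟩
  refine ⟨s, ?_, h1, ?_⟩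
  · by_contra hlt
    have h3 : s ^ r ≤ s0 ^ r := Nat.pow_le_pow_left (by omega) r
    omega
  · rcases Nat.lt_or_ge s 2 with h3 | h3
    · have h4 : s ^ r ≤ 1 ^ r := Nat.pow_le_pow_left (by omega) r
      rw [one_pow] at h4
      have h5 : 1 ≤ A := by omega
      have h6 : 1 ≤ 2 ^ r := Nat.one_le_two_pow
      exact h4.trans (Nat.one_le_iff_ne_zero.2 (Nat.mul_ne_zero (by omega) (by omega)))
    · obtain ⟨t, rfl⟩ : ∃ t, s = t + 1 := ⟨s - 1, by omega⟩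
      have h4 := h2 t (by omega)
      have h5 : 1 ≤ t := by omega
      have h6 : t ^ r ≤ A := by omega
      calc (t + 1) ^ r ≤ (2 * t) ^ r := Nat.pow_le_pow_left (by omega) r
        _ = 2 ^ r * t ^ r := mul_pow _ _ _
        _ ≤ 2 ^ r * A := Nat.mul_le_mul_left _ h6

theorem mainY (K : Type) [Field K] [NumberField K] (r n m : ℕ) (hr : 2 ≤ r) (hn : 2 ≤ n)
    (hm : 1 ≤ m) (hmn : (r - 1) * m ≤ n) : MainY K n r m := by
  intro ε hε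
  have hE : (0 : ℝ) < ((2 : ℝ) ^ r) ^ (eK K * (n + 1) ^ (r * m)) := by positivity
  obtain ⟨M, s0, hM⟩ := mainSY K r n m hr hn hm hmn
    (ε / ((2 : ℝ) ^ r) ^ (eK K * (n + 1) ^ (r * m))) (by positivity)
  refine ⟨M ^ r * (2 ^ r) ^ (r - 1), s0 ^ r + 1, fun A hA => ?_⟩
  obtain ⟨s, hs0, hs1, hs2⟩ := MainAY_root r A s0 (by omega) hA
  have h1 := hM s hs0
  have hs1' : (A : ℝ) ≤ ((s ^ r : ℕ) : ℝ) := by exact_mod_cast hs1
  have hs2' : ((s ^ r : ℕ) : ℝ) ≤ (2 : ℝ) ^ r * (A : ℝ) := by exact_mod_cast hs2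
  have hsub : ((Box K n (r * m) A).filter fun a => (∀ v, RSolY r v a) ∧ PSolY r a ∧
        ¬ ∃ (x : Vc n (𝓞 K)) (w : 𝓞 K), x ≠ 0 ∧
          (∀ i, ∀ v : InfinitePlace K,
            (v (x i : K)) ^ (r * (n + 1 - (r - 1) * m)) ≤
              ((M ^ r * (2 ^ r) ^ (r - 1) : ℕ) : ℝ) * (A : ℝ) ^ (r - 1)) ∧
          ev a x = w ^ r) ⊆
      ((Box K n (r * m) ((s ^ r : ℕ) : ℝ)).filter fun a => (∀ v, RSolY r v a) ∧ PSolY r a ∧
        ¬ ∃ (x : Vc n (𝓞 K)) (w : 𝓞 K), x ≠ 0 ∧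
          (∀ i, ∀ v : InfinitePlace K,
            (v (x i : K)) ^ (n + 1 - (r - 1) * m) ≤ (M : ℝ) * (s : ℝ) ^ (r - 1)) ∧
          ev a x = w ^ r) := by
    intro a ha
    rw [Finset.mem_filter] at ha ⊢
    obtain ⟨ha1, ha2, ha3, ha4⟩ := ha
    refine ⟨Box_mono hs1' ha1, ha2, ha3, ?_⟩
    rintro ⟨x, w, hx, hxb, hxw⟩
    refine ha4 ⟨x, w, hx, fun i v => ?_, hxw⟩
    have h2 := hxb i v
    have h3 : (0 : ℝ) ≤ (v (x i : K)) ^ (n + 1 - (r - 1) * m) := pow_nonneg (apply_nonneg v _) _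
    have h4 : ((v (x i : K)) ^ (n + 1 - (r - 1) * m)) ^ r ≤ ((M : ℝ) * (s : ℝ) ^ (r - 1)) ^ r :=
      pow_le_pow_left₀ h3 h2 r
    rw [mul_comm r, pow_mul]
    refine h4.trans ?_
    have h5 : (((s : ℝ) ^ r)) ^ (r - 1) ≤ ((2 : ℝ) ^ r * (A : ℝ)) ^ (r - 1) := by
      refine pow_le_pow_left₀ (by positivity) ?_ _
      push_cast at hs2'
      exact hs2'
    calc ((M : ℝ) * (s : ℝ) ^ (r - 1)) ^ r = (M : ℝ) ^ r * (((s : ℝ) ^ r)) ^ (r - 1) := by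
          rw [mul_pow, ← pow_mul, ← pow_mul, mul_comm (r - 1) r]
      _ ≤ (M : ℝ) ^ r * ((2 : ℝ) ^ r * (A : ℝ)) ^ (r - 1) :=
          mul_le_mul_of_nonneg_left h5 (by positivity)
      _ = _ := by
          rw [mul_pow]
          push_cast
          ring
  have hcard := Finset.card_le_card hsub
  have hcard' : (((Box K n (r * m) A).filter fun a => (∀ v, RSolY r v a) ∧ PSolY r a ∧
        ¬ ∃ (x : Vc n (𝓞 K)) (w : 𝓞 K), x ≠ 0 ∧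
          (∀ i, ∀ v : InfinitePlace K,
            (v (x i : K)) ^ (r * (n + 1 - (r - 1) * m)) ≤
              ((M ^ r * (2 ^ r) ^ (r - 1) : ℕ) : ℝ) * (A : ℝ) ^ (r - 1)) ∧
          ev a x = w ^ r).card : ℝ) ≤
      (((Box K n (r * m) ((s ^ r : ℕ) : ℝ)).filter fun a => (∀ v, RSolY r v a) ∧ PSolY r a ∧
        ¬ ∃ (x : Vc n (𝓞 K)) (w : 𝓞 K), x ≠ 0 ∧
          (∀ i, ∀ v : InfinitePlace K,
            (v (x i : K)) ^ (n + 1 - (r - 1) * m) ≤ (M : ℝ) * (s : ℝ) ^ (r - 1)) ∧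
          ev a x = w ^ r).card : ℝ) := by exact_mod_cast hcard
  refine hcard'.trans (h1.trans ?_)
  have h6 : ((s ^ r : ℕ) : ℝ) ^ (eK K * (n + 1) ^ (r * m)) ≤
      ((2 : ℝ) ^ r * (A : ℝ)) ^ (eK K * (n + 1) ^ (r * m)) :=
    pow_le_pow_left₀ (by positivity) hs2' _
  calc ε / ((2 : ℝ) ^ r) ^ (eK K * (n + 1) ^ (r * m)) *
        ((s ^ r : ℕ) : ℝ) ^ (eK K * (n + 1) ^ (r * m))
      ≤ ε / ((2 : ℝ) ^ r) ^ (eK K * (n + 1) ^ (r * m)) *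
        ((2 : ℝ) ^ r * (A : ℝ)) ^ (eK K * (n + 1) ^ (r * m)) :=
        mul_le_mul_of_nonneg_left h6 (by positivity)
    _ = ε * (A : ℝ) ^ (eK K * (n + 1) ^ (r * m)) := by
        rw [mul_pow]
        field_simp

end Pool.Agent.Lib.MP_1ad228_ntY
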