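import Pool.Agent.Lib.MP_1ad228_ntY.Defs
import Pool.Agent.Lib.MP_1ad228_ntN.LD_Crt

/-!
LEAF PCrtY.  Chinese remainders for `smYI r`.  Model with proof: `Lib/MP_1ad228_ntQ/PCrt.lean` (`2` replaced by `r`; in the empty product case
`ev .. = 0 ^ r` holds because the ring is trivial).
-/

namespace Pool.Agent.Lib.MP_1ad228_ntY

open NumberField Classical
open Pool.Agent.Lib.MP_1ad228_ntN

set_option linter.unusedSectionVars false

variable {K : Type} [Field K] [NumberField K]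

private theorem PCrtY_lin {n : ℕ} {R S : Type*} [CommRing R] [CommRing S] (f : R →+* S)
    (u x : Vc n R) : lin (fun i => f (u i)) (fun i => f (x i)) = f (lin u x) := by
  simp [lin, map_sum, map_mul]

theorem mulY (r : ℕ) {n d : ℕ} (I J : Ideal (𝓞 K)) (hI : I ≠ ⊥) (hJ : J ≠ ⊥)
    (h : IsCoprime I J) (a : Ten n d (𝓞 K)) : smYI r I a * smYI r J a ≤ smYI r (I * J) a := by
  have hfin1 : Finite (𝓞 K ⧸ I) := finite_quot hI
  have hfin2 : Finite (𝓞 K ⧸ J) := finite_quot hJ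
  have hfin3 : Finite (𝓞 K ⧸ I * J) := finite_quot (mul_ne_zero hI hJ)
  let e : 𝓞 K ⧸ I * J ≃+* (𝓞 K ⧸ I) × (𝓞 K ⧸ J) := Ideal.quotientMulEquivQuotientProd I J h
  have hinj : Function.Injective e := e.injective
  let f1 : 𝓞 K ⧸ I * J →+* 𝓞 K ⧸ I := (RingHom.fst (𝓞 K ⧸ I) (𝓞 K ⧸ J)).comp e.toRingHom
  let f2 : 𝓞 K ⧸ I * J →+* 𝓞 K ⧸ J := (RingHom.snd (𝓞 K ⧸ I) (𝓞 K ⧸ J)).comp e.toRingHom
  have hf1 : ∀ z : 𝓞 K, f1 (Ideal.Quotient.mk (I * J) z) = Ideal.Quotient.mk I z := by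
    intro z
    change (Ideal.quotientMulEquivQuotientProd I J h (Ideal.Quotient.mk (I * J) z)).fst = _
    rw [Ideal.quotientMulEquivQuotientProd_fst, Ideal.Quotient.factor_mk]
  have hf2 : ∀ z : 𝓞 K, f2 (Ideal.Quotient.mk (I * J) z) = Ideal.Quotient.mk J z := by
    intro z
    change (Ideal.quotientMulEquivQuotientProd I J h (Ideal.Quotient.mk (I * J) z)).snd = _
    rw [Ideal.quotientMulEquivQuotientProd_snd, Ideal.Quotient.factor_mk]
  have hr1 : (fun s => f1 (tmap (Ideal.Quotient.mk (I * J)) a s)) =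
      tmap (Ideal.Quotient.mk I) a := funext fun s => hf1 (a s)
  have hr2 : (fun s => f2 (tmap (Ideal.Quotient.mk (I * J)) a s)) =
      tmap (Ideal.Quotient.mk J) a := funext fun s => hf2 (a s)
  have key : ∀ (z : Vc n (𝓞 K ⧸ I * J)) (x : Vc n (𝓞 K ⧸ I)) (y : Vc n (𝓞 K ⧸ J)),
      (∀ i, e (z i) = (x i, y i)) →
      e (ev (tmap (Ideal.Quotient.mk (I * J)) a) z) =
        (ev (tmap (Ideal.Quotient.mk I) a) x, ev (tmap (Ideal.Quotient.mk J) a) y) := by
    intro z x y hz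
    have h1 := ev_map f1 (tmap (Ideal.Quotient.mk (I * J)) a) z
    have h2 := ev_map f2 (tmap (Ideal.Quotient.mk (I * J)) a) z
    have e1 : (fun i => f1 (z i)) = x := by
      funext i
      exact congrArg Prod.fst (hz i)
    have e2 : (fun i => f2 (z i)) = y := by
      funext i
      exact congrArg Prod.snd (hz i)
    rw [e1, hr1] at h1
    rw [e2, hr2] at h2
    exact Prod.ext h1.symm h2.symm
  have keyl : ∀ (v z : Vc n (𝓞 K ⧸ I * J)) (u x : Vc n (𝓞 K ⧸ I)) (w y : Vc n (𝓞 K ⧸ J)),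
      (∀ i, e (v i) = (u i, w i)) → (∀ i, e (z i) = (x i, y i)) →
      e (lin v z) = (lin u x, lin w y) := by
    intro v z u x w y hv hz
    have h1 := PCrtY_lin f1 v z
    have h2 := PCrtY_lin f2 v z
    have e1 : (fun i => f1 (z i)) = x := by
      funext i
      exact congrArg Prod.fst (hz i)
    have e2 : (fun i => f2 (z i)) = y := by
      funext i
      exact congrArg Prod.snd (hz i)
    have e3 : (fun i => f1 (v i)) = u := by
      funext i
      exact congrArg Prod.fst (hv i)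
    have e4 : (fun i => f2 (v i)) = w := by
      funext i
      exact congrArg Prod.snd (hv i)
    rw [e1, e3] at h1
    rw [e2, e4] at h2
    exact Prod.ext h1.symm h2.symm
  unfold smYI smY
  rw [← Nat.card_prod]
  let Φ : {p : Vc n (𝓞 K ⧸ I) × (𝓞 K ⧸ I) //
        Uni p.1 ∧ ev (tmap (Ideal.Quotient.mk I) a) p.1 = p.2 ^ r} ×
      {p : Vc n (𝓞 K ⧸ J) × (𝓞 K ⧸ J) //
        Uni p.1 ∧ ev (tmap (Ideal.Quotient.mk J) a) p.1 = p.2 ^ r} →
      {p : Vc n (𝓞 K ⧸ I * J) × (𝓞 K ⧸ I * J) //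
        Uni p.1 ∧ ev (tmap (Ideal.Quotient.mk (I * J)) a) p.1 = p.2 ^ r} := fun p =>
    ⟨(fun i => e.symm (p.1.1.1 i, p.2.1.1 i), e.symm (p.1.1.2, p.2.1.2)), by
      obtain ⟨⟨⟨x, s⟩, ⟨u, hu⟩, hx⟩, ⟨⟨y, t⟩, ⟨w, hw⟩, hy⟩⟩ := p
      refine ⟨?_, ?_⟩
      · refine ⟨fun i => e.symm (u i, w i), hinj ?_⟩
        rw [keyl _ _ u x w y (fun i => e.apply_symm_apply _) (fun i => e.apply_symm_apply _),
          hu, hw, map_one]
        rfl
      · apply hinj
        have h1 : ev (tmap (Ideal.Quotient.mk I) a) x = s ^ r := hx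
        have h2 : ev (tmap (Ideal.Quotient.mk J) a) y = t ^ r := hy
        have h3 := key (fun i => e.symm (x i, y i)) x y (fun i => e.apply_symm_apply _)
        rw [h1, h2] at h3
        show e (ev (tmap (Ideal.Quotient.mk (I * J)) a) fun i => e.symm (x i, y i)) =
          e ((e.symm (s, t)) ^ r)
        rw [map_pow, e.apply_symm_apply]
        exact h3⟩
  have hΦ : Function.Injective Φ := by
    intro p p' hpp
    have h0 := congrArg Subtype.val hpp
    have h1 : ∀ i, (p.1.1.1 i, p.2.1.1 i) = (p'.1.1.1 i, p'.2.1.1 i) := by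
      intro i
      have h2 := congrFun (congrArg Prod.fst h0) i
      exact e.symm.injective h2
    have h2 : (p.1.1.2, p.2.1.2) = (p'.1.1.2, p'.2.1.2) := by
      have h2 := congrArg Prod.snd h0
      exact e.symm.injective h2
    have h2a : p.1.1.2 = p'.1.1.2 := (Prod.mk.inj h2).1
    have h2b : p.2.1.2 = p'.2.1.2 := (Prod.mk.inj h2).2
    refine Prod.ext
      (Subtype.ext (Prod.ext (funext fun i => congrArg Prod.fst (h1 i)) h2a))
      (Subtype.ext (Prod.ext (funext fun i => congrArg Prod.snd (h1 i)) h2b))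
  exact Nat.card_le_card_of_injective Φ hΦ

theorem prodY (r : ℕ) {n d : ℕ} {ι : Type*} (s : Finset ι) (f : ι → Ideal (𝓞 K))
    (hf : ∀ i ∈ s, f i ≠ ⊥) (hc : ∀ i ∈ s, ∀ j ∈ s, i ≠ j → IsCoprime (f i) (f j))
    (a : Ten n d (𝓞 K)) : ∏ i ∈ s, smYI r (f i) a ≤ smYI r (∏ i ∈ s, f i) a := by
  induction s using Finset.induction_on with
  | empty =>
    rw [Finset.prod_empty, Finset.prod_empty]
    have hss : Subsingleton (𝓞 K ⧸ (1 : Ideal (𝓞 K))) :=
      Ideal.Quotient.subsingleton_iff.2 Ideal.one_eq_top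
    have hne : Nonempty {p : Vc n (𝓞 K ⧸ (1 : Ideal (𝓞 K))) × (𝓞 K ⧸ (1 : Ideal (𝓞 K))) //
        Uni p.1 ∧ ev (tmap (Ideal.Quotient.mk 1) a) p.1 = p.2 ^ r} :=
      ⟨⟨(0, 0), ⟨0, Subsingleton.elim _ _⟩, Subsingleton.elim _ _⟩⟩
    have hfin : Finite (𝓞 K ⧸ (1 : Ideal (𝓞 K))) := inferInstance
    have hfin2 : Finite {p : Vc n (𝓞 K ⧸ (1 : Ideal (𝓞 K))) × (𝓞 K ⧸ (1 : Ideal (𝓞 K))) //
        Uni p.1 ∧ ev (tmap (Ideal.Quotient.mk 1) a) p.1 = p.2 ^ r} := inferInstance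
    unfold smYI smY
    exact Nat.card_pos
  | insert i s hi ih =>
    have h1 := ih (fun j hj => hf j (Finset.mem_insert_of_mem hj))
      (fun j hj k hk => hc j (Finset.mem_insert_of_mem hj) k (Finset.mem_insert_of_mem hk))
    have h2 : IsCoprime (f i) (∏ j ∈ s, f j) := by
      apply IsCoprime.prod_right
      intro j hj
      refine hc i (Finset.mem_insert_self _ _) j (Finset.mem_insert_of_mem hj) ?_
      rintro rfl
      exact hi hj
    have h3 : ∏ j ∈ s, f j ≠ ⊥ :=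
      Finset.prod_ne_zero_iff.2 fun j hj => hf j (Finset.mem_insert_of_mem hj)
    have h4 := mulY r (f i) (∏ j ∈ s, f j) (hf i (Finset.mem_insert_self _ _)) h3 h2 a
    rw [Finset.prod_insert hi, Finset.prod_insert hi]
    exact (Nat.mul_le_mul_left _ h1).trans h4

end Pool.Agent.Lib.MP_1ad228_ntY
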