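import Pool.Agent.Lib.MP_1ad228_ntY.RtUp
import Pool.Agent.Lib.MP_1ad228_ntN.NB_Const

/-!
LEAF RtSum.  Sums of `rt` over ideals.
PROOF.  `rtSum`: let `T` be the (finite) set of the primes containing some `I ∈ S`; all have norm `≤ Q^4`.  By `rtUp`, with `q = N(P)`,
`rt I / N(I) ≤ ∏_P ψ_P(v_P(I))`, `ψ_P(0) = 1`, `ψ_P(j) = r/q` for `j ≥ 1`.  Rankin: `1 ≤ (Q^4/N(I))^(1/4) = Q ∏ q^(- v_P(I)/4)`.  So the sum is at
most `Q ∑_I ∏_P φ_P(v_P(I))`, `φ_P(0) = 1`, `φ_P(j) = (r/q) q^(-j/4)` (real powers), and by `eulerI` at most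
`Q ∏_P (1 + (r/q) ∑_(j ≥ 1) q^(-j/4)) ≤ Q exp(∑_P C r q^(-5/4))` since `∑_(j ≥ 1) q^(-j/4) = q^(-1/4)/(1 - q^(-1/4)) ≤ C q^(-1/4)`,
`C = 1/(1 - 2^(-1/4))`, and `∑_P q^(-5/4)` over any finite set of ideals `≠ ⊥` is bounded: in the dyadic range `2^i ≤ N < 2^(i+1)` there are at
most `CK 2^(i+1)` ideals (`idCount`), contribution `≤ 2 CK 2^(-i/4)`.
`rtTail`: in the dyadic range `2^i ≤ N(I) < 2^(i+1)` put `Q = ⌈2^((i+1)/4)⌉`: by `rtSum` `∑ rt/N^2 ≤ 2^(-i) C Q ≤ C' 2^(-3i/4)`; sum over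
`2^(i+1) > w`: `≤ C'' w^(-3/4) ≤ C''/(sqrt w)`; for `w = 0` the whole sum is bounded.
-/

namespace Pool.Agent.Lib.MP_1ad228_ntY

open NumberField Classical
open Pool.Agent.Lib.MP_1ad228_ntN

set_option linter.unusedSectionVars false

variable {K : Type} [Field K] [NumberField K]

/-- The fourth root. -/
private noncomputable def RtSum_x (a : ℝ) : ℝ := Real.sqrt (Real.sqrt a)

private theorem RtSum_x0 (a : ℝ) : 0 ≤ RtSum_x a := Real.sqrt_nonneg _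

private theorem RtSum_x4 {a : ℝ} (ha : 0 ≤ a) : RtSum_x a ^ 4 = a := by
  have h1 : RtSum_x a ^ 4 = ((Real.sqrt (Real.sqrt a)) ^ 2) ^ 2 := by
    unfold RtSum_x
    ring
  rw [h1, Real.sq_sqrt (Real.sqrt_nonneg _), Real.sq_sqrt ha]

private theorem RtSum_norm {I : Ideal (𝓞 K)} (hI : I ≠ ⊥) : Ideal.absNorm I ≠ 0 := by
  rw [Ne, Ideal.absNorm_eq_zero_iff]
  exact hI

variable (K) in
/-- The sum of `N ^ (- 5 / 4)`. -/
private theorem RtSum_P : ∃ C : ℝ, 0 ≤ C ∧ ∀ T : Finset (Ideal (𝓞 K)), (∀ P ∈ T, P ≠ ⊥) →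
    ∑ P ∈ T, 1 / ((Ideal.absNorm P : ℝ) * RtSum_x (Ideal.absNorm P)) ≤ C := by
  obtain ⟨C8, h8, H8⟩ := idealCount K
  refine ⟨32 * C8, by linarith, fun T hT => ?_⟩
  obtain ⟨M, hM⟩ : ∃ M : ℕ, ∀ P ∈ T, Nat.log 16 (Ideal.absNorm P) ∈ Finset.range M :=
    ⟨T.sup (fun P => Nat.log 16 (Ideal.absNorm P)) + 1, fun P hP => Finset.mem_range.2
      (Nat.lt_succ_of_le (Finset.le_sup (f := fun P => Nat.log 16 (Ideal.absNorm P)) hP))⟩
  rw [← Finset.sum_fiberwise_of_maps_to hM]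
  have h1 : ∀ i ∈ Finset.range M, ∑ P ∈ T.filter (fun P => Nat.log 16 (Ideal.absNorm P) = i),
      1 / ((Ideal.absNorm P : ℝ) * RtSum_x (Ideal.absNorm P)) ≤ 16 * C8 * (1 / 2) ^ i := by
    intro i _
    have h2 : ∀ P ∈ T.filter (fun P => Nat.log 16 (Ideal.absNorm P) = i),
        1 / ((Ideal.absNorm P : ℝ) * RtSum_x (Ideal.absNorm P)) ≤ 1 / ((16 : ℝ) ^ i * 2 ^ i) := by
      intro P hP
      obtain ⟨hP1, hP2⟩ := Finset.mem_filter.1 hP
      have h3 : 16 ^ i ≤ Ideal.absNorm P := by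
        rw [← hP2]
        exact Nat.pow_log_le_self 16 (RtSum_norm (hT P hP1))
      have h4 : (16 : ℝ) ^ i ≤ (Ideal.absNorm P : ℝ) := by exact_mod_cast h3
      have h5 : (2 : ℝ) ^ i ≤ RtSum_x (Ideal.absNorm P) := by
        rw [← pow_le_pow_iff_left₀ (by positivity) (RtSum_x0 _) (by norm_num : (4 : ℕ) ≠ 0),
          RtSum_x4 (Nat.cast_nonneg _), ← pow_mul, mul_comm i 4, pow_mul]
        norm_num
        exact h4
      exact one_div_le_one_div_of_le (by positivity) (mul_le_mul h4 h5 (by positivity) (by positivity))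
    refine (Finset.sum_le_card_nsmul _ _ _ h2).trans ?_
    rw [nsmul_eq_mul]
    have h6 : ((T.filter (fun P => Nat.log 16 (Ideal.absNorm P) = i)).card : ℝ) ≤ C8 * 16 ^ (i + 1) := by
      refine H8 (16 ^ (i + 1)) (one_le_pow₀ (by norm_num)) _ fun P hP => ?_
      have h7 := Nat.lt_pow_succ_log_self (b := 16) (by norm_num) (Ideal.absNorm P)
      rw [(Finset.mem_filter.1 hP).2] at h7
      exact_mod_cast h7.le
    calc ((T.filter (fun P => Nat.log 16 (Ideal.absNorm P) = i)).card : ℝ) * (1 / (16 ^ i * 2 ^ i))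
        ≤ (C8 * 16 ^ (i + 1)) * (1 / (16 ^ i * 2 ^ i)) := mul_le_mul_of_nonneg_right h6 (by positivity)
      _ = 16 * C8 * (1 / 2) ^ i := by
          rw [pow_succ, one_div_pow]
          field_simp
  refine (Finset.sum_le_sum h1).trans ?_
  rw [← Finset.mul_sum]
  have h9 := sum_geometric_two_le M
  calc 16 * C8 * ∑ i ∈ Finset.range M, (1 / (2 : ℝ)) ^ i ≤ 16 * C8 * 2 :=
        mul_le_mul_of_nonneg_left h9 (by linarith)
    _ = 32 * C8 := by ring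

/-- The function of the Euler product. -/
private noncomputable def RtSum_f (r : ℕ) (P : Ideal (𝓞 K)) (j : ℕ) : ℝ :=
  if j = 0 then 1 else ((r : ℝ) / Ideal.absNorm P) / RtSum_x (Ideal.absNorm P) ^ j

private theorem RtSum_f0 (r : ℕ) (P : Ideal (𝓞 K)) (j : ℕ) : 0 ≤ RtSum_f r P j := by
  unfold RtSum_f
  split_ifs
  · norm_num
  · exact div_nonneg (div_nonneg (Nat.cast_nonneg _) (Nat.cast_nonneg _)) (pow_nonneg (RtSum_x0 _) _)

private theorem RtSum_q {P : Ideal (𝓞 K)} (hP : P.IsPrime ∧ P ≠ ⊥) : 2 ≤ Ideal.absNorm P := by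
  have h1 := RtSum_norm hP.2
  have h2 : Ideal.absNorm P ≠ 1 := by
    rw [Ne, Ideal.absNorm_eq_one_iff]
    exact hP.1.ne_top
  omega

private theorem RtSum_x7 {P : Ideal (𝓞 K)} (hP : P.IsPrime ∧ P ≠ ⊥) :
    7 / 6 ≤ RtSum_x (Ideal.absNorm P) := by
  have h1 : (2 : ℝ) ≤ Ideal.absNorm P := by exact_mod_cast RtSum_q hP
  rw [← pow_le_pow_iff_left₀ (by positivity) (RtSum_x0 _) (by norm_num : (4 : ℕ) ≠ 0),
    RtSum_x4 (Nat.cast_nonneg _)]
  norm_num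
  linarith

private theorem RtSum_geom {y : ℝ} (h0 : 0 ≤ y) (h1 : y ≤ 6 / 7) (J : ℕ) :
    ∑ j ∈ Finset.range J, y ^ j ≤ 7 := by
  have h2 := geom_sum_mul_neg y J
  have h3 : 0 ≤ ∑ j ∈ Finset.range J, y ^ j := Finset.sum_nonneg fun j _ => pow_nonneg h0 j
  have h4 : 0 ≤ y ^ J := pow_nonneg h0 J
  nlinarith

private theorem RtSum_fac (r : ℕ) {P : Ideal (𝓞 K)} (hP : P.IsPrime ∧ P ≠ ⊥) (J : ℕ) :
    ∑ j ∈ Finset.range (J + 1), RtSum_f r P j ≤
      Real.exp (7 * r * (1 / ((Ideal.absNorm P : ℝ) * RtSum_x (Ideal.absNorm P)))) := by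
  have hx := RtSum_x7 hP
  have hq : (2 : ℝ) ≤ Ideal.absNorm P := by exact_mod_cast RtSum_q hP
  set x : ℝ := RtSum_x (Ideal.absNorm P) with hxd
  set q : ℝ := (Ideal.absNorm P : ℝ) with hqd
  have hx0 : 0 < x := by linarith
  have h1 : ∑ j ∈ Finset.range (J + 1), RtSum_f r P j =
      1 + (r / q) / x * ∑ j ∈ Finset.range J, (1 / x) ^ j := by
    rw [Finset.sum_range_succ', Finset.mul_sum, add_comm]
    congr 1
    refine Finset.sum_congr rfl fun j _ => ?_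
    unfold RtSum_f
    rw [if_neg (Nat.succ_ne_zero j), ← hxd, ← hqd, one_div_pow, pow_succ]
    field_simp
  have h2 : ∑ j ∈ Finset.range J, (1 / x) ^ j ≤ 7 := by
    refine RtSum_geom (by positivity) ?_ J
    rw [div_le_iff₀ hx0]
    linarith
  rw [h1]
  have h3 : (r / q) / x * ∑ j ∈ Finset.range J, (1 / x) ^ j ≤ (r / q) / x * 7 :=
    mul_le_mul_of_nonneg_left h2 (by positivity)
  have h4 : (r / q) / x * 7 = 7 * r * (1 / (q * x)) := by
    field_simp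
  have h5 := Real.add_one_le_exp (7 * r * (1 / (q * x)))
  linarith

private theorem RtSum_alg {a G N X Q : ℝ} (h1 : a ≤ G) (h2 : X ≤ Q) (hN : 0 < N) (hX : 0 < X)
    (hG : 0 ≤ G) : a / N ≤ Q * (G / (N * X)) := by
  have h3 : Q * (G / (N * X)) = (Q / X) * (G / N) := by
    field_simp
  have h4 : 1 ≤ Q / X := by
    rw [le_div_iff₀ hX]
    linarith
  have h5 : 0 ≤ G / N := div_nonneg hG hN.le
  rw [h3]
  calc a / N ≤ G / N := div_le_div_of_nonneg_right h1 hN.le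
    _ = 1 * (G / N) := (one_mul _).symm
    _ ≤ (Q / X) * (G / N) := mul_le_mul_of_nonneg_right h4 h5

private theorem RtSum_one {r Q : ℕ} (hr : 1 ≤ r) {I : Ideal (𝓞 K)} (hI : I ≠ ⊥)
    (hQ : (Ideal.absNorm I : ℝ) ≤ (Q : ℝ) ^ 4) (T : Finset (Ideal (𝓞 K)))
    (hT : ∀ P ∈ T, P.IsPrime ∧ P ≠ ⊥)
    (hIT : ∀ P : Ideal (𝓞 K), P.IsPrime → P ≠ ⊥ → I ≤ P → P ∈ T) :
    (rt r I : ℝ) / Ideal.absNorm I ≤ Q * ∏ P ∈ T, RtSum_f r P (vI P I) := by
  obtain ⟨h1, h2⟩ := rtUp hr hI T hT hIT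
  have hX : ∏ P ∈ T, RtSum_x (Ideal.absNorm P) ^ vI P I ≤ Q := by
    rw [← pow_le_pow_iff_left₀ (Finset.prod_nonneg fun P _ => pow_nonneg (RtSum_x0 _) _)
      (Nat.cast_nonneg _) (by norm_num : (4 : ℕ) ≠ 0), ← Finset.prod_pow]
    refine le_trans (le_of_eq ?_) hQ
    rw [h1]
    refine Finset.prod_congr rfl fun P _ => ?_
    rw [← pow_mul, mul_comm, pow_mul, RtSum_x4 (Nat.cast_nonneg _)]
  have hX0 : 0 < ∏ P ∈ T, RtSum_x (Ideal.absNorm P) ^ vI P I :=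
    Finset.prod_pos fun P hP => pow_pos (by linarith [RtSum_x7 (hT P hP)]) _
  have hN0 : 0 < ∏ P ∈ T, (Ideal.absNorm P : ℝ) ^ vI P I :=
    Finset.prod_pos fun P hP => pow_pos (by
      have := RtSum_q (hT P hP)
      exact_mod_cast (by omega : 0 < Ideal.absNorm P)) _
  set g : Ideal (𝓞 K) → ℝ := fun P => if vI P I = 0 then 1
      else (r : ℝ) * (Ideal.absNorm P : ℝ) ^ (vI P I - 1) with hg
  have hg0 : 0 ≤ ∏ P ∈ T, g P := le_trans (Nat.cast_nonneg _) h2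
  have h3 : ∏ P ∈ T, RtSum_f r P (vI P I) = (∏ P ∈ T, g P) /
      ((∏ P ∈ T, (Ideal.absNorm P : ℝ) ^ vI P I) * ∏ P ∈ T, RtSum_x (Ideal.absNorm P) ^ vI P I) := by
    rw [← Finset.prod_mul_distrib, ← Finset.prod_div_distrib]
    refine Finset.prod_congr rfl fun P hP => ?_
    have hx := RtSum_x7 (hT P hP)
    have hq : (2 : ℝ) ≤ Ideal.absNorm P := by exact_mod_cast RtSum_q (hT P hP)
    have hx0 : 0 < RtSum_x (Ideal.absNorm P) := by linarith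
    have hq0 : (0 : ℝ) < Ideal.absNorm P := by linarith
    unfold RtSum_f
    simp only [hg]
    split_ifs with hv
    · rw [hv]
      norm_num
    · obtain ⟨k, hk⟩ := Nat.exists_eq_succ_of_ne_zero hv
      rw [hk, Nat.succ_sub_one, Nat.succ_eq_add_one, pow_succ (Ideal.absNorm P : ℝ) k]
      field_simp
  rw [h3, h1]
  exact RtSum_alg h2 hX hN0 hX0 hg0

variable (K) in
theorem rtSum (r : ℕ) (hr : 1 ≤ r) : ∃ C : ℝ, 1 ≤ C ∧ ∀ Q : ℕ, 1 ≤ Q →
    ∀ S : Finset (Ideal (𝓞 K)), (∀ I ∈ S, I ≠ ⊥ ∧ (Ideal.absNorm I : ℝ) ≤ (Q : ℝ) ^ 4) →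
    ∑ I ∈ S, (rt r I : ℝ) / Ideal.absNorm I ≤ C * Q := by
  obtain ⟨C, hC0, hC⟩ := RtSum_P K
  refine ⟨Real.exp (7 * r * C), Real.one_le_exp (by positivity), fun Q _ S hS => ?_⟩
  set T : Finset (Ideal (𝓞 K)) :=
    S.biUnion (fun I => (UniqueFactorizationMonoid.normalizedFactors I).toFinset) with hTd
  have hT : ∀ P ∈ T, P.IsPrime ∧ P ≠ ⊥ := by
    intro P hP
    obtain ⟨I, hI, hPI⟩ := Finset.mem_biUnion.1 hP
    have h1 := (Ideal.mem_normalizedFactors_iff (hS I hI).1).1 (Multiset.mem_toFinset.1 hPI)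
    refine ⟨h1.1, fun h => (hS I hI).1 ?_⟩
    rw [h] at h1
    exact le_bot_iff.1 h1.2
  have hST : ∀ I ∈ S, ∀ P : Ideal (𝓞 K), P.IsPrime → P ≠ ⊥ → I ≤ P → P ∈ T := by
    intro I hI P hP _ hIP
    exact Finset.mem_biUnion.2 ⟨I, hI, Multiset.mem_toFinset.2
      ((Ideal.mem_normalizedFactors_iff (hS I hI).1).2 ⟨hP, hIP⟩)⟩
  set J : ℕ := ∑ I ∈ S, ∑ P ∈ T, vI P I with hJd
  have hJ : ∀ I ∈ S, ∀ P ∈ T, vI P I ≤ J := by
    intro I hI P hP
    refine le_trans (Finset.single_le_sum (f := fun P => vI P I) (fun _ _ => Nat.zero_le _) hP) ?_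
    exact Finset.single_le_sum (f := fun I => ∑ P ∈ T, vI P I) (fun _ _ => Nat.zero_le _) hI
  calc ∑ I ∈ S, (rt r I : ℝ) / Ideal.absNorm I
      ≤ ∑ I ∈ S, (Q : ℝ) * ∏ P ∈ T, RtSum_f r P (vI P I) :=
        Finset.sum_le_sum fun I hI => RtSum_one hr (hS I hI).1 (hS I hI).2 T hT (hST I hI)
    _ = Q * ∑ I ∈ S, ∏ P ∈ T, RtSum_f r P (vI P I) := by rw [Finset.mul_sum]
    _ ≤ Q * ∏ P ∈ T, ∑ j ∈ Finset.range (J + 1), RtSum_f r P j :=
        mul_le_mul_of_nonneg_left (eulerI S T J (fun I hI => (hS I hI).1) hT hST hJ (RtSum_f r)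
          (RtSum_f0 r)) (Nat.cast_nonneg _)
    _ ≤ Q * ∏ P ∈ T, Real.exp (7 * r * (1 / ((Ideal.absNorm P : ℝ) * RtSum_x (Ideal.absNorm P)))) :=
        mul_le_mul_of_nonneg_left (Finset.prod_le_prod
          (fun P _ => Finset.sum_nonneg fun j _ => RtSum_f0 r P j)
          (fun P hP => RtSum_fac r (hT P hP) J)) (Nat.cast_nonneg _)
    _ = Q * Real.exp (7 * r * ∑ P ∈ T, 1 / ((Ideal.absNorm P : ℝ) * RtSum_x (Ideal.absNorm P))) := by
        rw [← Real.exp_sum, ← Finset.mul_sum]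
    _ ≤ Q * Real.exp (7 * r * C) :=
        mul_le_mul_of_nonneg_left (Real.exp_le_exp.2 (mul_le_mul_of_nonneg_left
          (hC T fun P hP => (hT P hP).2) (by positivity))) (Nat.cast_nonneg _)
    _ = Real.exp (7 * r * C) * Q := mul_comm _ _

variable (K) in
theorem rtTail (r : ℕ) (hr : 1 ≤ r) : ∃ C : ℝ, 1 ≤ C ∧ ∀ (w : ℕ) (S : Finset (Ideal (𝓞 K))),
    (∀ I ∈ S, I ≠ ⊥ ∧ (w : ℝ) < Ideal.absNorm I) →
    ∑ I ∈ S, (rt r I : ℝ) / (Ideal.absNorm I : ℝ) ^ 2 ≤ C / ((Nat.sqrt w : ℝ) + 1) := by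
  obtain ⟨C, hC1, hC⟩ := rtSum K r hr
  refine ⟨16 * C, by linarith, fun w S hS => ?_⟩
  set i₀ : ℕ := Nat.log 16 w with hi0
  have hlog : ∀ I ∈ S, i₀ ≤ Nat.log 16 (Ideal.absNorm I) := by
    intro I hI
    have h1 : w < Ideal.absNorm I := by exact_mod_cast (hS I hI).2
    exact Nat.log_mono_right h1.le
  obtain ⟨M, hM⟩ : ∃ M : ℕ, ∀ I ∈ S, Nat.log 16 (Ideal.absNorm I) - i₀ ∈ Finset.range M :=
    ⟨S.sup (fun I => Nat.log 16 (Ideal.absNorm I) - i₀) + 1, fun I hI => Finset.mem_range.2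
      (Nat.lt_succ_of_le (Finset.le_sup (f := fun I => Nat.log 16 (Ideal.absNorm I) - i₀) hI))⟩
  rw [← Finset.sum_fiberwise_of_maps_to hM]
  have h1 : ∀ k ∈ Finset.range M, ∑ I ∈ S.filter (fun I => Nat.log 16 (Ideal.absNorm I) - i₀ = k),
      (rt r I : ℝ) / (Ideal.absNorm I : ℝ) ^ 2 ≤ 2 * C * (1 / 4) ^ i₀ * (1 / 2) ^ k := by
    intro k _
    have h2 : ∀ I ∈ S.filter (fun I => Nat.log 16 (Ideal.absNorm I) - i₀ = k),
        I ≠ ⊥ ∧ 16 ^ (i₀ + k) ≤ Ideal.absNorm I ∧ Ideal.absNorm I < 16 ^ (i₀ + k + 1) := by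
      intro I hI
      obtain ⟨hI1, hI2⟩ := Finset.mem_filter.1 hI
      have h3 : Nat.log 16 (Ideal.absNorm I) = i₀ + k := by
        have := hlog I hI1
        omega
      refine ⟨(hS I hI1).1, ?_, ?_⟩
      · rw [← h3]
        exact Nat.pow_log_le_self 16 (RtSum_norm (hS I hI1).1)
      · have h7 := Nat.lt_pow_succ_log_self (b := 16) (by norm_num) (Ideal.absNorm I)
        rw [h3] at h7
        exact h7
    have h3 : ∀ I ∈ S.filter (fun I => Nat.log 16 (Ideal.absNorm I) - i₀ = k),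
        (rt r I : ℝ) / (Ideal.absNorm I : ℝ) ^ 2 ≤
          (1 / (16 : ℝ) ^ (i₀ + k)) * ((rt r I : ℝ) / Ideal.absNorm I) := by
      intro I hI
      obtain ⟨_, g1, _⟩ := h2 I hI
      have g2 : (16 : ℝ) ^ (i₀ + k) ≤ (Ideal.absNorm I : ℝ) := by exact_mod_cast g1
      have g3 : (0 : ℝ) < (16 : ℝ) ^ (i₀ + k) := by positivity
      have g4 : (0 : ℝ) < (Ideal.absNorm I : ℝ) := lt_of_lt_of_le g3 g2
      have g5 : (rt r I : ℝ) / (Ideal.absNorm I : ℝ) ^ 2 =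
          (1 / (Ideal.absNorm I : ℝ)) * ((rt r I : ℝ) / Ideal.absNorm I) := by
        rw [sq, div_mul_div_comm, one_mul]
      rw [g5]
      exact mul_le_mul_of_nonneg_right (one_div_le_one_div_of_le g3 g2) (by positivity)
    refine (Finset.sum_le_sum h3).trans ?_
    rw [← Finset.mul_sum]
    have h4 := hC (2 ^ (i₀ + k + 1)) (Nat.one_le_two_pow)
      (S.filter (fun I => Nat.log 16 (Ideal.absNorm I) - i₀ = k)) (fun I hI => by
        obtain ⟨g1, _, g2⟩ := h2 I hI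
        refine ⟨g1, ?_⟩
        have g3 : ((2 ^ (i₀ + k + 1) : ℕ) : ℝ) ^ 4 = ((16 ^ (i₀ + k + 1) : ℕ) : ℝ) := by
          push_cast
          rw [← pow_mul, mul_comm (i₀ + k + 1) 4, pow_mul]
          norm_num
        rw [g3]
        exact_mod_cast g2.le)
    calc 1 / (16 : ℝ) ^ (i₀ + k) * ∑ I ∈ S.filter (fun I => Nat.log 16 (Ideal.absNorm I) - i₀ = k),
          (rt r I : ℝ) / Ideal.absNorm I
        ≤ 1 / (16 : ℝ) ^ (i₀ + k) * (C * ((2 ^ (i₀ + k + 1) : ℕ) : ℝ)) :=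
          mul_le_mul_of_nonneg_left h4 (by positivity)
      _ = 2 * C * (1 / 8) ^ (i₀ + k) := by
          have g : (16 : ℝ) ^ (i₀ + k) = 8 ^ (i₀ + k) * 2 ^ (i₀ + k) := by
            rw [← mul_pow]
            norm_num
          rw [g, one_div_pow]
          push_cast
          rw [pow_succ]
          field_simp
      _ = 2 * C * ((1 / 8) ^ i₀ * (1 / 8) ^ k) := by rw [pow_add]
      _ ≤ 2 * C * ((1 / 4) ^ i₀ * (1 / 2) ^ k) := by
          refine mul_le_mul_of_nonneg_left ?_ (by linarith)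
          exact mul_le_mul (pow_le_pow_left₀ (by norm_num) (by norm_num) _)
            (pow_le_pow_left₀ (by norm_num) (by norm_num) _) (by positivity) (by positivity)
      _ = 2 * C * (1 / 4) ^ i₀ * (1 / 2) ^ k := by ring
  refine (Finset.sum_le_sum h1).trans ?_
  rw [← Finset.mul_sum]
  have h9 := sum_geometric_two_le M
  have h10 : (Nat.sqrt w : ℝ) + 1 ≤ 4 * 4 ^ i₀ := by
    have h11 : Nat.sqrt w < 4 ^ (i₀ + 1) := by
      rw [Nat.sqrt_lt]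
      have h12 := Nat.lt_pow_succ_log_self (b := 16) (by norm_num) w
      rw [← hi0] at h12
      refine lt_of_lt_of_le h12 (le_of_eq ?_)
      rw [← mul_pow, Nat.succ_eq_add_one]
      norm_num
    have h13 : Nat.sqrt w + 1 ≤ 4 * 4 ^ i₀ := by
      rw [pow_succ] at h11
      omega
    exact_mod_cast h13
  have h14 : (0 : ℝ) < (Nat.sqrt w : ℝ) + 1 := by positivity
  calc 2 * C * (1 / 4) ^ i₀ * ∑ k ∈ Finset.range M, (1 / (2 : ℝ)) ^ k
      ≤ 2 * C * (1 / 4) ^ i₀ * 2 := mul_le_mul_of_nonneg_left h9 (by positivity)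
    _ ≤ 16 * C / ((Nat.sqrt w : ℝ) + 1) := by
        rw [le_div_iff₀ h14, one_div_pow]
        have h15 : (0 : ℝ) < 4 ^ i₀ := by positivity
        calc 2 * C * (1 / 4 ^ i₀) * 2 * ((Nat.sqrt w : ℝ) + 1)
            ≤ 2 * C * (1 / 4 ^ i₀) * 2 * (4 * 4 ^ i₀) := mul_le_mul_of_nonneg_left h10 (by positivity)
          _ = 16 * C := by
              field_simp
              norm_num

end Pool.Agent.Lib.MP_1ad228_ntY
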