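import Pool.Agent.Lib.MP_1ad228_ntY.PMomDefY
import Pool.Agent.Lib.MP_1ad228_ntY.RtSum
import Pool.Agent.Lib.MP_1ad228_ntN.LD_Del

/-!
LEAF PDelY.  The sums over the ideals of a quotient of `𝓞 K` without small prime factors.
Model with proof: `delQ` in `Lib/MP_1ad228_ntQ/PDel.lean`, with `rtTail` in place of `tauTail`;
`rt r J = rt r (J.comap (Ideal.Quotient.mk I))` by the ring isomorphism of the quotients.
-/

namespace Pool.Agent.Lib.MP_1ad228_ntY

open NumberField Classical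
open Pool.Agent.Lib.MP_1ad228_ntN

set_option linter.unusedSectionVars false

variable {K : Type} [Field K] [NumberField K]

private theorem PDelY_rt {R S : Type*} [CommRing R] [CommRing S] {I : Ideal R} {J : Ideal S} (r : ℕ)
    (e : R ⧸ I ≃+* S ⧸ J) : rt r I = rt r J := by
  have h : ∀ t : R ⧸ I, Nat.card {z : R ⧸ I // z ^ r = t} = Nat.card {z : S ⧸ J // z ^ r = e t} := by
    intro t
    refine Nat.card_congr (e.toEquiv.subtypeEquiv fun z => ?_)
    show z ^ r = t ↔ e z ^ r = e t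
    rw [← map_pow]
    exact e.injective.eq_iff.symm
  unfold rt
  congr 1
  ext k
  constructor
  · rintro ⟨t, rfl⟩
    exact ⟨e t, (h t).symm⟩
  · rintro ⟨s, rfl⟩
    refine ⟨e.symm s, ?_⟩
    show Nat.card {z : R ⧸ I // z ^ r = e.symm s} = Nat.card {z : S ⧸ J // z ^ r = s}
    rw [h, e.apply_symm_apply]

private theorem PDelY_rt2 {K : Type} [Field K] [NumberField K] (r : ℕ) (I : Ideal (𝓞 K))
    (J : Ideal (𝓞 K ⧸ I)) :
    rt r J = rt r (J.comap (Ideal.Quotient.mk I)) ∧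
      Nat.card ((𝓞 K ⧸ I) ⧸ J) = Ideal.absNorm (J.comap (Ideal.Quotient.mk I)) := by
  have hsurj : Function.Surjective ((Ideal.Quotient.mk J).comp (Ideal.Quotient.mk I)) := by
    rw [RingHom.coe_comp]
    exact Ideal.Quotient.mk_surjective.comp Ideal.Quotient.mk_surjective
  have hker : RingHom.ker ((Ideal.Quotient.mk J).comp (Ideal.Quotient.mk I)) =
      J.comap (Ideal.Quotient.mk I) := by
    rw [← RingHom.comap_ker, Ideal.mk_ker]
  have e := RingHom.quotientKerEquivOfSurjective hsurj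
  rw [← hker]
  refine ⟨(PDelY_rt r e).symm, ?_⟩
  rw [← card_quotO]
  exact (Nat.card_congr e.toEquiv).symm

theorem delY (K : Type) [Field K] [NumberField K] (r : ℕ) (hr : 1 ≤ r) : ∃ C : ℝ, 1 ≤ C ∧
    ∀ (p0 : ℕ) (I : Ideal (𝓞 K)), I ≠ ⊥ →
      (∀ P : Ideal (𝓞 K), P.IsPrime → I ≤ P → p0 < Ideal.absNorm P) →
      IdY (𝓞 K ⧸ I) r (C / ((Nat.sqrt p0 : ℝ) + 1)) := by
  obtain ⟨C, hC1, hC⟩ := rtTail K r hr
  refine ⟨C, hC1, fun p0 I hI h T hT => ?_⟩
  have hinj : Function.Injective (fun J : Ideal (𝓞 K ⧸ I) => J.comap (Ideal.Quotient.mk I)) :=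
    Ideal.comap_injective_of_surjective _ Ideal.Quotient.mk_surjective
  have hIle : ∀ J : Ideal (𝓞 K ⧸ I), I ≤ J.comap (Ideal.Quotient.mk I) := by
    intro J x hx
    rw [Ideal.mem_comap, Ideal.Quotient.eq_zero_iff_mem.2 hx]
    exact J.zero_mem
  have hsum : ∑ J ∈ T, (rt r J : ℝ) * (1 / (Nat.card ((𝓞 K ⧸ I) ⧸ J) : ℝ)) ^ 2
      = ∑ J' ∈ T.image (fun J : Ideal (𝓞 K ⧸ I) => J.comap (Ideal.Quotient.mk I)),
        (rt r J' : ℝ) / (Ideal.absNorm J' : ℝ) ^ 2 := by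
    rw [Finset.sum_image fun a _ b _ hab => hinj hab]
    refine Finset.sum_congr rfl fun J _ => ?_
    rw [(PDelY_rt2 r I J).1, (PDelY_rt2 r I J).2, one_div, inv_pow, div_eq_mul_inv]
  rw [hsum]
  refine hC p0 _ fun J' hJ' => ?_
  obtain ⟨J, hJ, rfl⟩ := Finset.mem_image.1 hJ'
  have hne_top : J.comap (Ideal.Quotient.mk I) ≠ ⊤ := by
    intro h0
    have h1 : J = ⊤ := by
      rw [Ideal.eq_top_iff_one]
      have h2 : (1 : 𝓞 K) ∈ J.comap (Ideal.Quotient.mk I) := by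
        rw [h0]
        exact Submodule.mem_top
      rw [Ideal.mem_comap, map_one] at h2
      exact h2
    rw [h1] at hJ
    exact hT hJ
  have hne_bot : J.comap (Ideal.Quotient.mk I) ≠ ⊥ := by
    intro h0
    have h1 := hIle J
    rw [h0, le_bot_iff] at h1
    exact hI h1
  refine ⟨hne_bot, ?_⟩
  obtain ⟨P, hP, hle⟩ := Ideal.exists_le_maximal _ hne_top
  have hIP : I ≤ P := (hIle J).trans hle
  have h1 : p0 < Ideal.absNorm P := h P hP.isPrime hIP
  have h2 : Ideal.absNorm P ∣ Ideal.absNorm (J.comap (Ideal.Quotient.mk I)) :=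
    Ideal.absNorm_dvd_absNorm_of_le hle
  have h3 : Ideal.absNorm (J.comap (Ideal.Quotient.mk I)) ≠ 0 := by
    intro h0
    exact hne_bot (Ideal.absNorm_eq_zero_iff.1 h0)
  have h4 := Nat.le_of_dvd (Nat.pos_of_ne_zero h3) h2
  exact_mod_cast lt_of_lt_of_le h1 h4

end Pool.Agent.Lib.MP_1ad228_ntY
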