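import Pool.Agent.Lib.MP_1ad228_ntY.PHensY
import Pool.Agent.Lib.MP_1ad228_ntY.PCrtY
import Pool.Agent.Lib.MP_1ad228_ntY.PChebY
import Pool.Agent.Lib.MP_1ad228_ntY.PDelY
import Pool.Agent.Lib.MP_1ad228_ntN.LD_Exc
import Pool.Agent.Lib.MP_1ad228_ntN.LD_Equi
import Pool.Agent.Lib.MP_1ad228_ntN.LD_Split

/-!
LEAF PLocY.  Assembly of the local densities.  Model with proof: `Lib/MP_1ad228_ntQ/PLoc.lean` (`locDensQ`), with `r m`, `smYI r`, `chebPY`, `delY`, `hensY`,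
`prodY`, `mulY`; `twoUnit` (and so the bound `2 ^ eK K`) is not needed.
-/

namespace Pool.Agent.Lib.MP_1ad228_ntY

open NumberField Classical
open Pool.Agent.Lib.MP_1ad228_ntN

set_option linter.unusedSectionVars false

variable {K : Type} [Field K] [NumberField K]

private theorem PLocY_VV (n d : ℕ) : VV n (fun _ : Fin 1 => d) = (n + 1) ^ d := by
  unfold VV
  rw [Finset.sum_const, Finset.card_univ, Fintype.card_fin, one_smul]

/-- Tensors as tuples of length 1. -/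
private theorem PLocY_emb (K : Type) [Field K] [NumberField K] (n d A : ℕ)
    (Q : Tup n (fun _ : Fin 1 => d) (𝓞 K) → Prop) :
    ((Box K n d A).filter fun a => Q (fun _ => a)).card ≤
      ((TBox K n (fun _ : Fin 1 => d) A).filter fun F => Q F).card := by
  refine Finset.card_le_card_of_injOn (fun a => fun _ => a) ?_ ?_
  · intro a ha
    have ha' := Finset.mem_filter.1 (Finset.mem_coe.1 ha)
    refine Finset.mem_coe.2 (Finset.mem_filter.2 ⟨?_, ha'.2⟩)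
    exact Fintype.mem_piFinset.2 fun _ => ha'.1
  · intro a _ b _ hab
    exact congrFun hab 0

private theorem PLocY_one {S : Type*} (n d : ℕ) (p : Ten n d S → Prop) :
    Nat.card {G : Tup n (fun _ : Fin 1 => d) S // p (G 0)} = Nat.card {a : Ten n d S // p a} :=
  Nat.card_congr ((Equiv.funUnique (Fin 1) (Ten n d S)).subtypeEquiv fun _ => Iff.rfl)

/-- Counting for the singular classes. -/
private theorem PLocY_excBox (K : Type) [Field K] [NumberField K] (n d : ℕ) (hd : 1 ≤ d)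
    (C1 : ℝ) (hC1 : 0 < C1)
    (hE : ∀ I : Ideal (𝓞 K), I ≠ ⊥ → ∃ A0 : ℕ, ∀ A : ℕ, A0 ≤ A →
      ∀ p : Tup n (fun _ : Fin 1 => d) (𝓞 K ⧸ I) → Prop,
        (((TBox K n (fun _ : Fin 1 => d) A).filter fun F => p (red I F)).card : ℝ) ≤
          C1 * ((Nat.card {G : Tup n (fun _ : Fin 1 => d) (𝓞 K ⧸ I) // p G} : ℝ) /
            (Ideal.absNorm I : ℝ) ^ VV n (fun _ : Fin 1 => d)) *
              (A : ℝ) ^ (eK K * VV n (fun _ : Fin 1 => d)))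
    (P : Ideal (𝓞 K)) (hP0 : P ≠ ⊥) (e : ℕ) : ∃ A0 : ℕ, ∀ A : ℕ, A0 ≤ A →
    (((Box K n d A).filter fun a =>
      ExcR (red (d := fun _ : Fin 1 => d) (P ^ e) fun _ => a)).card : ℝ) ≤
      C1 * ((n : ℝ) + 1) / (Ideal.absNorm P : ℝ) ^ e * (A : ℝ) ^ (eK K * (n + 1) ^ d) := by
  have hPe : P ^ e ≠ ⊥ := pow_ne_zero e hP0
  obtain ⟨A0, hA0⟩ := hE (P ^ e) hPe
  refine ⟨A0, fun A hA => ?_⟩
  have h0 := PLocY_emb K n d A (fun F => ExcR (red (P ^ e) F))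
  have h0' : (((Box K n d A).filter fun a =>
      ExcR (red (d := fun _ : Fin 1 => d) (P ^ e) fun _ => a)).card : ℝ) ≤
      (((TBox K n (fun _ : Fin 1 => d) A).filter fun F => ExcR (red (P ^ e) F)).card : ℝ) := by
    exact_mod_cast h0
  refine h0'.trans ?_
  have h1 := hA0 A hA (fun G => ExcR G)
  refine h1.trans ?_
  have hfin : Finite (𝓞 K ⧸ P ^ e) := finite_quot hPe
  have h3 := LD_exc n (fun _ : Fin 1 => d) (fun _ => hd) (𝓞 K ⧸ P ^ e)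
  rw [card_quotO] at h3
  have hN : (0 : ℝ) < (Ideal.absNorm (P ^ e) : ℝ) := by
    have : Ideal.absNorm (P ^ e) ≠ 0 := by
      intro h
      exact hPe (Ideal.absNorm_eq_zero_iff.1 h)
    exact_mod_cast Nat.pos_of_ne_zero this
  have hNe : (Ideal.absNorm (P ^ e) : ℝ) = (Ideal.absNorm P : ℝ) ^ e := by
    rw [map_pow]
    push_cast
    rfl
  have h4 : (Nat.card {G : Tup n (fun _ : Fin 1 => d) (𝓞 K ⧸ P ^ e) // ExcR G} : ℝ) *
      (Ideal.absNorm (P ^ e) : ℝ) ≤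
        (n + 1) * (Ideal.absNorm (P ^ e) : ℝ) ^ VV n (fun _ : Fin 1 => d) := by
    have h5 : (Nat.card {G : Tup n (fun _ : Fin 1 => d) (𝓞 K ⧸ P ^ e) // ExcR G}) *
      (Ideal.absNorm (P ^ e)) ≤ (n + 1) * (Ideal.absNorm (P ^ e)) ^ VV n (fun _ : Fin 1 => d) := by
      rw [one_mul] at h3
      exact h3
    exact_mod_cast h5
  rw [← hNe]
  rw [PLocY_VV] at h4 ⊢
  generalize (Nat.card {G : Tup n (fun _ : Fin 1 => d) (𝓞 K ⧸ P ^ e) // ExcR G} : ℝ) = c at h4 ⊢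
  generalize (Ideal.absNorm (P ^ e) : ℝ) = N at h4 hN ⊢
  have h6 : c / (N ^ (n + 1) ^ d) ≤ ((n : ℝ) + 1) / N := by
    rw [div_le_div_iff₀ (by positivity) hN]
    exact h4
  have h5 : C1 * (c / (N ^ (n + 1) ^ d)) ≤ C1 * ((n : ℝ) + 1) / N := by
    calc C1 * (c / (N ^ (n + 1) ^ d)) ≤ C1 * (((n : ℝ) + 1) / N) :=
          mul_le_mul_of_nonneg_left h6 hC1.le
      _ = C1 * ((n : ℝ) + 1) / N := by ring
  exact mul_le_mul_of_nonneg_right h5 (by positivity)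

/-- Counting for the classes with few zeros. -/
private theorem PLocY_fewBox (K : Type) [Field K] [NumberField K] (r n m : ℕ) (hr : 1 ≤ r)
    (hn : 2 ≤ n) (hm : 1 ≤ m) (C1 : ℝ) (hC1 : 0 < C1)
    (hE : ∀ I : Ideal (𝓞 K), I ≠ ⊥ → ∃ A0 : ℕ, ∀ A : ℕ, A0 ≤ A →
      ∀ p : Tup n (fun _ : Fin 1 => r * m) (𝓞 K ⧸ I) → Prop,
        (((TBox K n (fun _ : Fin 1 => r * m) A).filter fun F => p (red I F)).card : ℝ) ≤
          C1 * ((Nat.card {G : Tup n (fun _ : Fin 1 => r * m) (𝓞 K ⧸ I) // p G} : ℝ) /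
            (Ideal.absNorm I : ℝ) ^ VV n (fun _ : Fin 1 => r * m)) *
              (A : ℝ) ^ (eK K * VV n (fun _ : Fin 1 => r * m)))
    (J : Ideal (𝓞 K)) (hJ : J ≠ ⊥) (δ : ℝ) (h8 : δ ≤ 1 / 8)
    (hδ : IdY (𝓞 K ⧸ J) r δ) :
    ∃ A0 : ℕ, ∀ A : ℕ, A0 ≤ A →
    (((Box K n (r * m) A).filter fun a => (smYI r J a : ℝ) ≤
        (Ideal.absNorm J : ℝ) ^ (n + 1) / 2).card : ℝ) ≤
      C1 * (16 * δ) * (A : ℝ) ^ (eK K * (n + 1) ^ (r * m)) := by
  obtain ⟨A0, hA0⟩ := hE J hJ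
  refine ⟨A0, fun A hA => ?_⟩
  have h0 := PLocY_emb K n (r * m) A (fun F => (smY r (red J F 0) : ℝ) ≤
        (Ideal.absNorm J : ℝ) ^ (n + 1) / 2)
  have h0' : (((Box K n (r * m) A).filter fun a => (smYI r J a : ℝ) ≤
        (Ideal.absNorm J : ℝ) ^ (n + 1) / 2).card : ℝ) ≤
      (((TBox K n (fun _ : Fin 1 => r * m) A).filter fun F => (smY r (red J F 0) : ℝ) ≤
        (Ideal.absNorm J : ℝ) ^ (n + 1) / 2).card : ℝ) := by
    exact_mod_cast h0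
  refine h0'.trans ?_
  have h1 := hA0 A hA (fun G => (smY r (G 0) : ℝ) ≤ (Ideal.absNorm J : ℝ) ^ (n + 1) / 2)
  refine h1.trans ?_
  have hfin : Finite (𝓞 K ⧸ J) := finite_quot hJ
  have h3 := chebPY hr hn hm (𝓞 K ⧸ J) hδ h8
  rw [card_quotO] at h3
  have hN : (0 : ℝ) < (Ideal.absNorm J : ℝ) := by
    have : Ideal.absNorm J ≠ 0 := by
      intro h
      exact hJ (Ideal.absNorm_eq_zero_iff.1 h)
    exact_mod_cast Nat.pos_of_ne_zero this
  rw [PLocY_one n (r * m) (fun a => (smY r a : ℝ) ≤ (Ideal.absNorm J : ℝ) ^ (n + 1) / 2), PLocY_VV]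
  generalize (Nat.card {a : Ten n (r * m) (𝓞 K ⧸ J) // (smY r a : ℝ) ≤
        (Ideal.absNorm J : ℝ) ^ (n + 1) / 2} : ℝ) = c at h3 ⊢
  generalize (Ideal.absNorm J : ℝ) = N at h3 hN ⊢
  have h6 : c / (N ^ (n + 1) ^ (r * m)) ≤ 16 * δ := by
    rw [div_le_iff₀ (by positivity)]
    exact h3
  exact mul_le_mul_of_nonneg_right (mul_le_mul_of_nonneg_left h6 hC1.le) (by positivity)

/-- Lower bound for the number of zeros outside the exceptional sets. -/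
private theorem PLocY_lower {K : Type} [Field K] [NumberField K] {r n m : ℕ}
    (T : Finset (Ideal (𝓞 K)))
    (hT : ∀ P ∈ T, P.IsPrime ∧ P ≠ ⊥) (k c : Ideal (𝓞 K) → ℕ) (J : Ideal (𝓞 K)) (hJ : J ≠ ⊥)
    (hJT : ∀ P ∈ T, ¬ J ≤ P) (w : ℕ) (hI : WI K w = (∏ P ∈ T, P ^ k P) * J)
    (hk : ∀ P ∈ T, c P ≤ k P) (a : Ten n (r * m) (𝓞 K))
    (h1 : ∀ P ∈ T, Ideal.absNorm P ^ ((n + 1) * (k P - c P)) ≤ smYI r (P ^ k P) a)
    (h2 : (Ideal.absNorm J : ℝ) ^ (n + 1) / 2 < (smYI r J a : ℝ)) :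
    (1 / 2 * ∏ P ∈ T, (1 / ((Ideal.absNorm P : ℝ) ^ ((n + 1) * c P)))) *
        (WW w : ℝ) ^ (eK K * (n + 1)) ≤ (smYI r (WI K w) a : ℝ) := by
  have hNP : ∀ P ∈ T, (0 : ℝ) < (Ideal.absNorm P : ℝ) := by
    intro P hP
    have : Ideal.absNorm P ≠ 0 := by
      intro h
      exact (hT P hP).2 (Ideal.absNorm_eq_zero_iff.1 h)
    exact_mod_cast Nat.pos_of_ne_zero this
  have hprod0 : (∏ P ∈ T, P ^ k P) ≠ ⊥ := by
    have : (∏ P ∈ T, P ^ k P) ≠ 0 :=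
      Finset.prod_ne_zero_iff.2 fun P hP => pow_ne_zero _ (hT P hP).2
    exact this
  have hmul := mulY r (∏ P ∈ T, P ^ k P) J hprod0 hJ (LD_cop2 T hT k J hJT) a
  have hprod := prodY r T (fun P => P ^ k P) (fun P hP => pow_ne_zero _ (hT P hP).2)
    (fun P hP Q hQ hPQ => LD_cop (hT P hP).1 (hT P hP).2 (hT Q hQ).1 (hT Q hQ).2 hPQ _ _) a
  have hloc : ∏ P ∈ T, Ideal.absNorm P ^ ((n + 1) * (k P - c P)) ≤
      ∏ P ∈ T, smYI r (P ^ k P) a := Finset.prod_le_prod' fun P hP => h1 P hP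
  have hnat : (∏ P ∈ T, Ideal.absNorm P ^ ((n + 1) * (k P - c P))) *
      smYI r J a ≤ smYI r (WI K w) a := by
    rw [hI]
    exact (Nat.mul_le_mul_right _ (hloc.trans hprod)).trans hmul
  have hall : (∏ P ∈ T, (Ideal.absNorm P : ℝ) ^ ((n + 1) * (k P - c P))) *
      (smYI r J a : ℝ) ≤ (smYI r (WI K w) a : ℝ) := by
    exact_mod_cast hnat
  have hcast : (WW w : ℝ) ^ eK K = (∏ P ∈ T, (Ideal.absNorm P : ℝ) ^ k P) *
      (Ideal.absNorm J : ℝ) := by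
    have h3 : Ideal.absNorm (WI K w) = (∏ P ∈ T, Ideal.absNorm P ^ k P) * Ideal.absNorm J := by
      rw [hI, map_mul, map_prod]
      simp only [map_pow]
    rw [absNorm_WI] at h3
    exact_mod_cast h3
  have hrr : ∀ P ∈ T,
      (1 / ((Ideal.absNorm P : ℝ) ^ ((n + 1) * c P))) *
          ((Ideal.absNorm P : ℝ) ^ k P) ^ (n + 1) =
        (Ideal.absNorm P : ℝ) ^ ((n + 1) * (k P - c P)) := by
    intro P hP
    have hp0 := hNP P hP
    rw [one_div, inv_mul_eq_div, div_eq_iff (pow_pos hp0 _).ne', ← pow_mul, ← pow_add]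
    obtain ⟨v, hv⟩ : ∃ v, k P = c P + v := ⟨k P - c P, by have := hk P hP; omega⟩
    rw [hv, Nat.add_sub_cancel_left]
    congr 1
    ring
  have hstep : (1 / 2 * ∏ P ∈ T, (1 / ((Ideal.absNorm P : ℝ) ^ ((n + 1) * c P)))) *
        (WW w : ℝ) ^ (eK K * (n + 1)) =
      (∏ P ∈ T, (Ideal.absNorm P : ℝ) ^ ((n + 1) * (k P - c P))) *
        ((Ideal.absNorm J : ℝ) ^ (n + 1) / 2) := by
    rw [pow_mul, hcast, mul_pow, ← Finset.prod_pow, ← Finset.prod_congr rfl hrr,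
      Finset.prod_mul_distrib]
    ring
  rw [hstep]
  have hpos : 0 ≤ (∏ P ∈ T, (Ideal.absNorm P : ℝ) ^ ((n + 1) * (k P - c P))) := by positivity
  exact (mul_le_mul_of_nonneg_left h2.le hpos).trans hall

theorem locDensY (K : Type) [Field K] [NumberField K] (r n m : ℕ) (hr : 2 ≤ r) (hn : 2 ≤ n)
    (hm : 1 ≤ m) (ε : ℝ) (hε : 0 < ε) :
    ∃ t : ℝ, 0 < t ∧ ∃ w0 : ℕ, ∀ w : ℕ, w0 ≤ w → ∃ A0 : ℕ, ∀ A : ℕ, A0 ≤ A →
      (((Box K n (r * m) A).filter fun a => PSolY r a ∧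
          (smYI r (WI K w) a : ℝ) < t * (WW w : ℝ) ^ (eK K * (n + 1))).card : ℝ) ≤
        ε * (A : ℝ) ^ (eK K * (n + 1) ^ (r * m)) := by
  obtain ⟨C1, hC1, hE⟩ := LD_equi K n (fun _ : Fin 1 => r * m)
  obtain ⟨C2, hC2', hdel⟩ := delY K r (by omega)
  have hC2 : 0 < C2 := by linarith
  obtain ⟨s1, hs1⟩ := exists_nat_gt (C2 * 8 + 32 * C1 * C2 / ε)
  obtain ⟨s0, hs0⟩ : ∃ s0 : ℕ, s0 = s1 := ⟨_, rfl⟩
  have hs0r : C2 * 8 + 32 * C1 * C2 / ε < (s0 : ℝ) := by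
    have h1 : (s1 : ℝ) ≤ (s0 : ℝ) := by
      rw [hs0]
    linarith
  obtain ⟨p0, hp0⟩ : ∃ p0 : ℕ, p0 = s0 ^ 2 := ⟨_, rfl⟩
  have hsq : Nat.sqrt p0 = s0 := by rw [hp0, Nat.sqrt_eq']
  have hp0pos : (0 : ℝ) < (s0 : ℝ) + 1 := by positivity
  have hq1 : 0 < 32 * C1 * C2 / ε := by positivity
  have h8 : C2 / ((Nat.sqrt p0 : ℝ) + 1) ≤ 1 / 8 := by
    rw [hsq, div_le_div_iff₀ hp0pos (by norm_num)]
    linarith
  have h16 : C1 * (16 * (C2 / ((Nat.sqrt p0 : ℝ) + 1))) ≤ ε / 2 := by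
    have h1 : 32 * C1 * C2 / ε ≤ (s0 : ℝ) + 1 := by linarith
    rw [div_le_iff₀ hε] at h1
    have h2 : C1 * (16 * (C2 / ((Nat.sqrt p0 : ℝ) + 1))) = (16 * C1 * C2) / (s0 + 1) := by
      rw [hsq]
      ring
    rw [h2, div_le_div_iff₀ hp0pos (by norm_num)]
    linarith
  have hTfin := Ideal.finite_setOfPred_absNorm_le (S := 𝓞 K) p0
  obtain ⟨T, hTdef⟩ : ∃ T : Finset (Ideal (𝓞 K)),
      T = hTfin.toFinset.filter (fun P => P.IsPrime ∧ P ≠ ⊥) := ⟨_, rfl⟩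
  have hTmem : ∀ P : Ideal (𝓞 K), P ∈ T ↔ Ideal.absNorm P ≤ p0 ∧ P.IsPrime ∧ P ≠ ⊥ := by
    intro P
    rw [hTdef, Finset.mem_filter, Set.Finite.mem_toFinset]
    rfl
  have hT : ∀ P ∈ T, P.IsPrime ∧ P ≠ ⊥ := fun P hP => ((hTmem P).1 hP).2
  have hN2 : ∀ P ∈ T, 2 ≤ Ideal.absNorm P := by
    intro P hP
    have h0 : Ideal.absNorm P ≠ 0 := by
      intro h
      exact (hT P hP).2 (Ideal.absNorm_eq_zero_iff.1 h)
    have h1 : Ideal.absNorm P ≠ 1 := by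
      intro h
      exact (hT P hP).1.ne_top (Ideal.absNorm_eq_one_iff.1 h)
    omega
  obtain ⟨e1, he1⟩ := pow_unbounded_of_one_lt
    (2 * C1 * ((n : ℝ) + 1) * ((T.card : ℝ) + 1) / ε) (by norm_num : (1 : ℝ) < 2)
  obtain ⟨e, hedef⟩ : ∃ e : ℕ, e = e1 + 1 := ⟨_, rfl⟩
  have he : 1 ≤ e := by omega
  have he2 : 2 * C1 * ((n : ℝ) + 1) * ((T.card : ℝ) + 1) / ε ≤ 2 ^ e := by
    refine he1.le.trans ?_
    exact pow_le_pow_right₀ (by norm_num) (by omega)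
  have hhens : ∀ P : Ideal (𝓞 K), P ∈ T → ∃ c : ℕ, ∀ w : ℕ, c ≤ w →
      ∀ a : Ten n (r * m) (𝓞 K),
      (∀ k : ℕ, ∃ (x : Vc n (𝓞 K)) (y : 𝓞 K), (∃ i, x i ∉ P) ∧ ev a x - y ^ r ∈ P ^ k) →
      ¬ ExcR (red (d := fun _ : Fin 1 => r * m) (P ^ e) fun _ => a) →
      Ideal.absNorm P ^ ((n + 1) * (w - c)) ≤ smYI r (P ^ w) a :=
    fun P hP => hensY hr hm P (hT P hP).1 (hT P hP).2 e he
  choose! c hc using hhens
  refine ⟨1 / 2 * ∏ P ∈ T, (1 / ((Ideal.absNorm P : ℝ) ^ ((n + 1) * c P))), ?_,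
    (∑ P ∈ T, c P) + p0, fun w hw => ?_⟩
  · refine mul_pos (by norm_num) (Finset.prod_pos fun P hP => ?_)
    have hp0 : (0 : ℝ) < (Ideal.absNorm P : ℝ) := by
      have := hN2 P hP
      exact_mod_cast (by omega : 0 < Ideal.absNorm P)
    positivity
  have hw0 : p0 ≤ w := by omega
  have hwc : ∀ P ∈ T, c P ≤ w := fun P hP => by
    have : c P ≤ ∑ P ∈ T, c P := Finset.single_le_sum (f := c) (fun _ _ => Nat.zero_le _) hP
    omega
  obtain ⟨k, J, hI, hJ, hJT, hmax⟩ := LD_split (WI K w) (WI_ne_bot K w) T hT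
  have hk : ∀ P ∈ T, c P ≤ k P := fun P hP => by
    have h1 := hmax P hP w (LD_WI w P (hT P hP).1 (hT P hP).2 (((hTmem P).1 hP).1.trans hw0))
    have h2 := hwc P hP
    omega
  have hJp : ∀ Q : Ideal (𝓞 K), Q.IsPrime → J ≤ Q → p0 < Ideal.absNorm Q := by
    intro Q hQ hJQ
    by_contra hcon
    have hQ0 : Q ≠ ⊥ := by
      intro h
      rw [h] at hJQ
      exact hJ (le_bot_iff.1 hJQ)
    exact hJT Q ((hTmem Q).2 ⟨not_lt.1 hcon, hQ, hQ0⟩) hJQ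
  obtain ⟨A1, hA1⟩ := PLocY_fewBox K r n m (by omega) hn hm C1 hC1 hE J hJ _ h8
    (hdel p0 J hJ hJp)
  choose! A2 hA2 using fun (P : Ideal (𝓞 K)) (hP : P ≠ ⊥) =>
    PLocY_excBox K n (r * m) (Nat.mul_pos (by omega) hm) C1 hC1 hE P hP e
  refine ⟨A1 + ∑ P ∈ T, A2 P, fun A hA => ?_⟩
  have hsub : ((Box K n (r * m) A).filter fun a => PSolY r a ∧
        (smYI r (WI K w) a : ℝ) <
          (1 / 2 * ∏ P ∈ T, (1 / ((Ideal.absNorm P : ℝ) ^ ((n + 1) * c P)))) *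
            (WW w : ℝ) ^ (eK K * (n + 1))) ⊆
      ((Box K n (r * m) A).filter fun a => (smYI r J a : ℝ) ≤
        (Ideal.absNorm J : ℝ) ^ (n + 1) / 2) ∪
        T.biUnion (fun P => (Box K n (r * m) A).filter fun a =>
          ExcR (red (d := fun _ : Fin 1 => r * m) (P ^ e) fun _ => a)) := by
    intro a ha
    rw [Finset.mem_filter] at ha
    obtain ⟨hbox, hsol, hlt⟩ := ha
    rw [Finset.mem_union, Finset.mem_biUnion, Finset.mem_filter]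
    by_contra hcon
    rw [not_or] at hcon
    have h2 : (Ideal.absNorm J : ℝ) ^ (n + 1) / 2 < (smYI r J a : ℝ) := by
      by_contra h
      exact hcon.1 ⟨hbox, not_lt.1 h⟩
    have h1 : ∀ P ∈ T, ¬ ExcR (red (d := fun _ : Fin 1 => r * m) (P ^ e) fun _ => a) := by
      intro P hP h
      exact hcon.2 ⟨P, hP, Finset.mem_filter.2 ⟨hbox, h⟩⟩
    have := PLocY_lower T hT k c J hJ hJT w hI hk a
      (fun P hP => hc P hP (k P) (hk P hP) a (hsol P (hT P hP).1 (hT P hP).2) (h1 P hP)) h2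
    exact absurd this (not_le.2 hlt)
  have hc1 : (((Box K n (r * m) A).filter fun a => PSolY r a ∧
        (smYI r (WI K w) a : ℝ) <
          (1 / 2 * ∏ P ∈ T, (1 / ((Ideal.absNorm P : ℝ) ^ ((n + 1) * c P)))) *
            (WW w : ℝ) ^ (eK K * (n + 1))).card : ℝ) ≤
      (((Box K n (r * m) A).filter fun a => (smYI r J a : ℝ) ≤
        (Ideal.absNorm J : ℝ) ^ (n + 1) / 2).card : ℝ) +
        ∑ P ∈ T, (((Box K n (r * m) A).filter fun a =>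
          ExcR (red (d := fun _ : Fin 1 => r * m) (P ^ e) fun _ => a)).card : ℝ) := by
    have h1 := (Finset.card_le_card hsub).trans (Finset.card_union_le _ _)
    have h2 := h1.trans (Nat.add_le_add_left Finset.card_biUnion_le _)
    exact_mod_cast h2
  refine hc1.trans ?_
  have hA1' : A1 ≤ A := le_trans (Nat.le_add_right _ _) hA
  have hV : (0 : ℝ) ≤ (A : ℝ) ^ (eK K * (n + 1) ^ (r * m)) := by positivity
  have h3 : ∀ P ∈ T, (((Box K n (r * m) A).filter fun a =>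
      ExcR (red (d := fun _ : Fin 1 => r * m) (P ^ e) fun _ => a)).card : ℝ) ≤
      (ε / (2 * ((T.card : ℝ) + 1))) * (A : ℝ) ^ (eK K * (n + 1) ^ (r * m)) := by
    intro P hP
    have hAp : A2 P ≤ A := by
      have : A2 P ≤ ∑ P ∈ T, A2 P := Finset.single_le_sum (f := A2) (fun _ _ => Nat.zero_le _) hP
      omega
    refine (hA2 P (hT P hP).2 A hAp).trans ?_
    have hpe : (2 : ℝ) ^ e ≤ (Ideal.absNorm P : ℝ) ^ e := by
      gcongr
      exact_mod_cast hN2 P hP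
    have hlow : 2 * C1 * ((n : ℝ) + 1) * ((T.card : ℝ) + 1) / ε ≤
        (Ideal.absNorm P : ℝ) ^ e := he2.trans hpe
    have h8 : C1 * ((n : ℝ) + 1) / (Ideal.absNorm P : ℝ) ^ e ≤
        ε / (2 * ((T.card : ℝ) + 1)) := by
      have hpp' : (0 : ℝ) < (Ideal.absNorm P : ℝ) ^ e := lt_of_lt_of_le (by positivity) hpe
      rw [div_le_div_iff₀ hpp' (by positivity)]
      rw [div_le_iff₀ hε] at hlow
      linarith
    exact mul_le_mul_of_nonneg_right h8 hV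
  have h4 : ∑ P ∈ T, (((Box K n (r * m) A).filter fun a =>
      ExcR (red (d := fun _ : Fin 1 => r * m) (P ^ e) fun _ => a)).card : ℝ) ≤
      (ε / 2) * (A : ℝ) ^ (eK K * (n + 1) ^ (r * m)) := by
    refine (Finset.sum_le_sum h3).trans ?_
    rw [Finset.sum_const, nsmul_eq_mul]
    generalize (A : ℝ) ^ (eK K * (n + 1) ^ (r * m)) = U at hV
    have hcard : (T.card : ℝ) ≤ (T.card : ℝ) + 1 := by linarith
    calc (T.card : ℝ) * (ε / (2 * ((T.card : ℝ) + 1)) * U)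
        ≤ ((T.card : ℝ) + 1) * (ε / (2 * ((T.card : ℝ) + 1)) * U) :=
          mul_le_mul_of_nonneg_right hcard (by positivity)
      _ = (ε / 2) * U := by
          field_simp
  have h5 := hA1 A hA1'
  have h6 : C1 * (16 * (C2 / ((Nat.sqrt p0 : ℝ) + 1))) * (A : ℝ) ^ (eK K * (n + 1) ^ (r * m)) ≤
      (ε / 2) * (A : ℝ) ^ (eK K * (n + 1) ^ (r * m)) := mul_le_mul_of_nonneg_right h16 hV
  calc _ ≤ (ε / 2) * (A : ℝ) ^ (eK K * (n + 1) ^ (r * m)) +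
          (ε / 2) * (A : ℝ) ^ (eK K * (n + 1) ^ (r * m)) := add_le_add (h5.trans h6) h4
    _ = ε * (A : ℝ) ^ (eK K * (n + 1) ^ (r * m)) := by ring

end Pool.Agent.Lib.MP_1ad228_ntY
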