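import Pool.Agent.Lib.MP_1ad228_ntY.Defs
import Pool.Agent.Lib.MP_1ad228_ntN.MN_Par

/-!
The choice of the parameters.
-/

namespace Pool.Agent.Lib.MP_1ad228_ntY

open NumberField Classical
open Pool.Agent.Lib.MP_1ad228_ntN

set_option linter.unusedSectionVars false

variable {K : Type} [Field K] [NumberField K]

/-- The exponent parameter. -/
def lY (r : ℕ) : ℕ := 100 + 4 * r

/-- The exponent of `Q`. -/
def qY (n r : ℕ) : ℕ := ((n + 1) * lY r + 3) / 4 + 1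

private theorem ParY_qlo (n r : ℕ) : (n + 1) * lY r + 3 ≤ 4 * qY n r := by
  unfold qY
  omega

private theorem ParY_qhi (n r : ℕ) : 4 * qY n r ≤ (n + 1) * lY r + 7 := by
  unfold qY
  omega

theorem parY (r n m : ℕ) (hr : 2 ≤ r) (hn : 2 ≤ n) (hm : 1 ≤ m) (hmn : (r - 1) * m ≤ n)
    (M N g0 : ℕ) (hM : 1 ≤ M) :
    ∃ s0 : ℕ, 1 ≤ s0 ∧ ∀ s : ℕ, s0 ≤ s → ∃ g : ℕ, g0 ≤ g ∧ 1 ≤ g ∧
      (g ^ (n * lY r + 1)) ^ (n + 1 - (r - 1) * m) ≤ M * s ^ (r - 1) ∧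
      M * s ^ (r - 1) ≤ 2 ^ ((n * lY r + 1) * (n + 1 - (r - 1) * m)) *
        (g ^ (n * lY r + 1)) ^ (n + 1 - (r - 1) * m) ∧
      N * (g ^ (lY r + 2)) ^ 2 ≤ s ^ r ∧ N ≤ s * (g ^ (n * lY r + 1)) ^ m ∧
      N * (g ^ (n * lY r + 1)) ^ 2 ≤ s ^ r * (g ^ (n * lY r + 1)) ^ (r * m) ∧
      (g ^ (n * lY r + 1)) ^ (n + 1) ≤ M * (s * (g ^ (n * lY r + 1)) ^ m) ^ (r - 1) ∧
      g ^ (lY r + 2) * g ^ (n * lY r + 1) ≤ (g ^ qY n r) ^ 4 := by
  set l := lY r with hl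
  have hl108 : 108 ≤ l := by
    rw [hl]
    unfold lY
    omega
  have hl4 : 100 + 4 * r = l := by
    rw [hl]
    unfold lY
    rfl
  set P := n * l + 1 with hP
  have hPl : 2 * l + 1 ≤ P := by
    have h1 := Nat.mul_le_mul_right l hn
    omega
  set ι := n + 1 - (r - 1) * m with hι
  have hι1 : 1 ≤ ι := by omega
  set G := g0 + N + M + 1 with hG
  have hPι : 1 ≤ P * ι := Nat.mul_pos (by omega) hι1
  have hG0 : 1 ≤ (G ^ P) ^ ι := Nat.one_le_iff_ne_zero.mpr (pow_ne_zero _ (pow_ne_zero _ (by omega)))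
  refine ⟨(G ^ P) ^ ι, hG0, fun s hs => ?_⟩
  have hs1 : 1 ≤ s := hG0.trans hs
  have hss : s ≤ s ^ (r - 1) := Nat.le_self_pow (by omega) s
  have hMs : s ≤ M * s ^ (r - 1) := hss.trans (Nat.le_mul_of_pos_left _ hM)
  set T := M * s ^ (r - 1) with hT
  have hT1 : 1 ≤ T := hs1.trans hMs
  set g := Nat.findGreatest (fun g => (g ^ P) ^ ι ≤ T) T with hg
  have hself : ∀ a : ℕ, a ≤ (a ^ P) ^ ι := fun a => by
    rw [← pow_mul]
    exact Nat.le_self_pow (by omega) a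
  have hgG : G ≤ g := Nat.le_findGreatest ((hself G).trans (hs.trans hMs)) (hs.trans hMs)
  have hg1 : 1 ≤ g := by omega
  have hspec : (g ^ P) ^ ι ≤ T := by
    have h := Nat.findGreatest_spec (P := fun g => (g ^ P) ^ ι ≤ T) (m := G) (n := T)
      ((hself G).trans (hs.trans hMs)) (hs.trans hMs)
    exact h
  have hup : T ≤ 2 ^ (P * ι) * (g ^ P) ^ ι := by
    have h1 : T < ((g + 1) ^ P) ^ ι := by
      by_contra hc
      push Not at hc
      have h2 := Nat.le_findGreatest (P := fun g => (g ^ P) ^ ι ≤ T) (m := g + 1) (n := T)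
        ((hself (g + 1)).trans hc) hc
      rw [← hg] at h2
      omega
    refine h1.le.trans ?_
    rw [← pow_mul, ← pow_mul, ← mul_pow]
    exact Nat.pow_le_pow_left (by omega) _
  set B := g ^ P with hB
  have hB1 : 1 ≤ B := Nat.one_le_iff_ne_zero.mpr (pow_ne_zero _ (by omega))
  have hBι : B ≤ B ^ ι := Nat.le_self_pow (by omega) B
  have hBT : B ≤ T := hBι.trans hspec
  have hBm : B ^ (n + 1) ≤ M * (s * B ^ m) ^ (r - 1) := by
    calc B ^ (n + 1) = B ^ ι * B ^ ((r - 1) * m) := by rw [← pow_add]; congr 1; omega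
      _ ≤ T * B ^ ((r - 1) * m) := Nat.mul_le_mul_right _ hspec
      _ = M * (s * B ^ m) ^ (r - 1) := by
          rw [hT, mul_pow, ← pow_mul B m (r - 1), mul_comm m (r - 1), mul_assoc]
  have hZ1 : 1 ≤ s * B ^ m := Nat.mul_pos hs1 (Nat.one_le_iff_ne_zero.mpr (pow_ne_zero _ (by omega)))
  have hgM : M < g := by omega
  have hgN : N < g := by omega
  refine ⟨g, by omega, hg1, hspec, hup, ?_, ?_, ?_, hBm, ?_⟩
  · -- (3)
    have h1 : B ^ r ≤ M ^ r * (s ^ r) ^ (r - 1) := by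
      calc B ^ r ≤ T ^ r := Nat.pow_le_pow_left hBT r
        _ = M ^ r * (s ^ r) ^ (r - 1) := by
          rw [hT, mul_pow, ← pow_mul, ← pow_mul, mul_comm (r - 1) r]
    have h2 : M ^ r * (N * (g ^ (l + 2)) ^ 2) ^ (r - 1) ≤ B ^ r := by
      obtain ⟨t, rfl⟩ : ∃ t, r = t + 1 := ⟨r - 1, by omega⟩
      rw [Nat.add_sub_cancel]
      calc M ^ (t + 1) * (N * (g ^ (l + 2)) ^ 2) ^ t
          ≤ g ^ (t + 1) * (g * (g ^ (l + 2)) ^ 2) ^ t :=
            Nat.mul_le_mul (Nat.pow_le_pow_left hgM.le _)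
              (Nat.pow_le_pow_left (Nat.mul_le_mul_right _ hgN.le) _)
        _ = g ^ ((t + 1) + (1 + (l + 2) * 2) * t) := by
            rw [← pow_mul g (l + 2) 2, ← pow_succ' g ((l + 2) * 2), ← pow_mul, ← pow_add,
              add_comm ((l + 2) * 2) 1]
        _ ≤ g ^ (P * (t + 1)) := by
            refine Nat.pow_le_pow_right hg1 ?_
            have h3 : (2 * l + 1) * (t + 1) ≤ P * (t + 1) := Nat.mul_le_mul_right _ hPl
            refine le_trans ?_ h3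
            nlinarith
        _ = B ^ (t + 1) := by rw [hB, ← pow_mul]
    have h3 : (N * (g ^ (l + 2)) ^ 2) ^ (r - 1) ≤ (s ^ r) ^ (r - 1) :=
      Nat.le_of_mul_le_mul_left (h2.trans h1) (by positivity)
    exact (Nat.pow_le_pow_iff_left (by omega)).1 h3
  · -- (4)
    by_contra hc
    push Not at hc
    have h1 : M * (s * B ^ m) ^ (r - 1) < g ^ r := by
      calc M * (s * B ^ m) ^ (r - 1) ≤ M * g ^ (r - 1) :=
            Nat.mul_le_mul_left _ (Nat.pow_le_pow_left (hc.le.trans hgN.le) _)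
        _ < g * g ^ (r - 1) := Nat.mul_lt_mul_of_pos_right hgM (by positivity)
        _ = g ^ r := by rw [← pow_succ']; congr 1; omega
    have h2 : g ^ r ≤ B ^ (n + 1) := by
      rw [hB, ← pow_mul]
      refine Nat.pow_le_pow_right hg1 ?_
      have h3 : P ≤ P * (n + 1) := Nat.le_mul_of_pos_right _ (by omega)
      omega
    omega
  · -- (5)
    have h1 : M * (N * B ^ 2) ≤ M * (s ^ r * B ^ (r * m)) := by
      calc M * (N * B ^ 2) ≤ g * (g * B ^ 2) :=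
            Nat.mul_le_mul hgM.le (Nat.mul_le_mul_right _ hgN.le)
        _ = g ^ 2 * B ^ 2 := by ring
        _ ≤ B * B ^ 2 := Nat.mul_le_mul_right _ (Nat.pow_le_pow_right hg1 (by omega))
        _ = B ^ 3 := by ring
        _ ≤ B ^ (n + 1) := Nat.pow_le_pow_right hB1 (by omega)
        _ ≤ M * (s * B ^ m) ^ (r - 1) := hBm
        _ ≤ M * (s * B ^ m) ^ r := Nat.mul_le_mul_left _ (Nat.pow_le_pow_right hZ1 (by omega))
        _ = M * (s ^ r * B ^ (r * m)) := by rw [mul_pow, ← pow_mul, mul_comm m r]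
    exact Nat.le_of_mul_le_mul_left h1 (by omega)
  · -- (7)
    rw [← pow_add, ← pow_mul]
    refine Nat.pow_le_pow_right hg1 ?_
    have h1 := ParY_qlo n r
    rw [← hl] at h1
    have h2 : (n + 1) * l = n * l + l := by ring
    omega

theorem lamY (r n m e : ℕ) (hr : 2 ≤ r) (hn : 2 ≤ n) (hm : 1 ≤ m) (hmn : (r - 1) * m ≤ n)
    (he : 1 ≤ e) (M : ℕ) (hM : 1 ≤ M) (θ : ℝ) (hθ : 0 < θ) : ∃ g1 : ℕ, 1 ≤ g1 ∧
    ∀ g : ℕ, g1 ≤ g → ∀ Z Z' : ℕ, 1 ≤ Z → Z ≤ Z' →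
      (g ^ (n * lY r + 1)) ^ (n + 1) ≤ M * Z ^ (r - 1) →
      ((Nat.log 2 (g ^ (n * lY r + 1)) : ℝ) + 2) ^ e *
        Lam n (g ^ (n * lY r + 1)) (g ^ (lY r + 2)) (g ^ qY n r) Z' ^ e ≤ θ := by
  set l := lY r with hl
  have hl108 : 108 ≤ l := by
    rw [hl]
    unfold lY
    omega
  have hrn : r - 1 ≤ n := le_trans (Nat.le_mul_of_pos_right _ hm) hmn
  obtain ⟨g1, hg1, h⟩ := lgSmall (n * l + 1) e he ((3 * (M : ℝ)) ^ e) θ hθ
  refine ⟨g1, hg1, fun g hg Z Z' hZ hZZ hB => ?_⟩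
  refine le_trans ?_ (h g hg)
  have hg1' : 1 ≤ g := hg1.trans hg
  have hg0 : (0 : ℝ) < g := by exact_mod_cast hg1'
  have hM0 : (0 : ℝ) < M := by exact_mod_cast hM
  have hZ'0 : (0 : ℝ) < Z' := by exact_mod_cast lt_of_lt_of_le hZ hZZ
  have hMZ : g ^ ((n + 1) * l + 1) ≤ M * Z' := by
    have h1 : (g ^ ((n + 1) * l + 1)) ^ n ≤ (M * Z) ^ n := by
      calc (g ^ ((n + 1) * l + 1)) ^ n = g ^ (((n + 1) * l + 1) * n) := (pow_mul _ _ _).symm
        _ ≤ g ^ ((n * l + 1) * (n + 1)) := Nat.pow_le_pow_right hg1' (by nlinarith)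
        _ = (g ^ (n * l + 1)) ^ (n + 1) := pow_mul _ _ _
        _ ≤ M * Z ^ (r - 1) := hB
        _ ≤ M ^ n * Z ^ n := Nat.mul_le_mul (Nat.le_self_pow (by omega) M)
            (Nat.pow_le_pow_right hZ hrn)
        _ = (M * Z) ^ n := (mul_pow _ _ _).symm
    exact ((Nat.pow_le_pow_iff_left (by omega)).1 h1).trans (Nat.mul_le_mul_left _ hZZ)
  have hq := ParY_qhi n r
  rw [← hl] at hq
  set q := qY n r with hqd
  have t1 : (g ^ (l + 2)) ^ (n + 1) * g ^ q * g ≤ M * (g ^ (n * l + 1)) ^ n := by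
    calc (g ^ (l + 2)) ^ (n + 1) * g ^ q * g = g ^ ((l + 2) * (n + 1) + q + 1) := by
          rw [← pow_mul, ← pow_add, ← pow_succ]
      _ ≤ g ^ ((n * l + 1) * n) := by
          refine Nat.pow_le_pow_right hg1' ?_
          obtain ⟨k, rfl⟩ := Nat.exists_eq_add_of_le hn
          have h1 := Nat.mul_le_mul_left k hl108
          have h2 := Nat.zero_le (k * k * l)
          nlinarith
      _ = (g ^ (n * l + 1)) ^ n := pow_mul _ _ _
      _ ≤ M * (g ^ (n * l + 1)) ^ n := Nat.le_mul_of_pos_left _ hM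
  have t2 : (g ^ (l + 2)) ^ (n + 2) * g ^ q * g ≤ M * ((g ^ (n * l + 1)) ^ (n - 1) * Z') := by
    calc (g ^ (l + 2)) ^ (n + 2) * g ^ q * g = g ^ ((l + 2) * (n + 2) + q + 1) := by
          rw [← pow_mul, ← pow_add, ← pow_succ]
      _ ≤ g ^ ((n * l + 1) * (n - 1) + ((n + 1) * l + 1)) := by
          refine Nat.pow_le_pow_right hg1' ?_
          obtain ⟨k, rfl⟩ := Nat.exists_eq_add_of_le hn
          rw [show 2 + k - 1 = 1 + k by omega]
          have h1 := Nat.mul_le_mul_left k hl108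
          have h2 := Nat.zero_le (k * k * l)
          nlinarith
      _ = (g ^ (n * l + 1)) ^ (n - 1) * g ^ ((n + 1) * l + 1) := by rw [pow_add, pow_mul]
      _ ≤ (g ^ (n * l + 1)) ^ (n - 1) * (M * Z') := Nat.mul_le_mul_left _ hMZ
      _ = M * ((g ^ (n * l + 1)) ^ (n - 1) * Z') := by ring
  have t3 : g ^ q * g ≤ M * Z' := by
    calc g ^ q * g = g ^ (q + 1) := (pow_succ _ _).symm
      _ ≤ g ^ ((n + 1) * l + 1) := by
          refine Nat.pow_le_pow_right hg1' ?_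
          have h1 : 3 * l ≤ (n + 1) * l := Nat.mul_le_mul_right l (by omega)
          omega
      _ ≤ M * Z' := hMZ
  have t1' : ((g ^ (l + 2) : ℕ) : ℝ) ^ (n + 1) * ((g ^ q : ℕ) : ℝ) / ((g ^ (n * l + 1) : ℕ) : ℝ) ^ n ≤
      (M : ℝ) / g := by
    rw [div_le_div_iff₀ (by positivity) hg0]
    exact_mod_cast t1
  have t2' : ((g ^ (l + 2) : ℕ) : ℝ) ^ (n + 2) * ((g ^ q : ℕ) : ℝ) /
      (((g ^ (n * l + 1) : ℕ) : ℝ) ^ (n - 1) * Z') ≤ (M : ℝ) / g := by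
    rw [div_le_div_iff₀ (by positivity) hg0]
    exact_mod_cast t2
  have t3' : ((g ^ q : ℕ) : ℝ) / Z' ≤ (M : ℝ) / g := by
    rw [div_le_div_iff₀ hZ'0 hg0]
    exact_mod_cast t3
  have hLam : Lam n (g ^ (n * l + 1)) (g ^ (l + 2)) (g ^ q) Z' ≤ 3 * (M : ℝ) / g := by
    unfold Lam
    calc _ ≤ (M : ℝ) / g + (M : ℝ) / g + (M : ℝ) / g := add_le_add (add_le_add t1' t2') t3'
      _ = 3 * (M : ℝ) / g := by ring
  have hLam0 : 0 ≤ Lam n (g ^ (n * l + 1)) (g ^ (l + 2)) (g ^ q) Z' := by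
    unfold Lam
    positivity
  set L : ℝ := (Nat.log 2 (g ^ (n * l + 1)) : ℝ) + 2 with hL
  have hL0 : 0 ≤ L := by positivity
  calc L ^ e * Lam n (g ^ (n * l + 1)) (g ^ (l + 2)) (g ^ q) Z' ^ e
      ≤ L ^ e * (3 * (M : ℝ) / g) ^ e :=
        mul_le_mul_of_nonneg_left (pow_le_pow_left₀ hLam0 hLam e) (by positivity)
    _ = (3 * (M : ℝ)) ^ e * (L / g) ^ e := by
        rw [← mul_pow, ← mul_pow]
        congr 1
        ring

end Pool.Agent.Lib.MP_1ad228_ntY
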