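import Pool.Agent.Lib.MP_1ad228_ntQ.RLine

/-!
LEAF RLineY.  Counting, general degree.  Model and source: `Lib/MP_1ad228_ntQ/RLine.lean`.
-/

namespace Pool.Agent.Lib.MP_1ad228_ntY

open NumberField Classical
open Pool.Agent.Lib.MP_1ad228_ntN
open Pool.Agent.Lib.MP_1ad228_ntQ (HiQ cplxCnt realCnt)

set_option linter.unusedSectionVars false

variable {K : Type} [Field K] [NumberField K]

private theorem RLineY_pn (v : InfinitePlace K) (c : ℝ) :
    pn (fun w : InfinitePlace K => if w = v then c else 1) = c ^ v.mult := by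
  unfold pn
  rw [Finset.prod_eq_single v]
  · dsimp only
    rw [if_pos rfl]
  · intro w _ hw
    dsimp only
    rw [if_neg hw, one_pow]
  · intro h
    exact absurd (Finset.mem_univ v) h

private theorem RLineY_cnt (v : InfinitePlace K) (S : Finset (𝓞 K)) (A : ℕ) (hA : 1 ≤ A) (c : ℝ) (hc : 0 < c)
    (h : ∀ z ∈ S, ∀ w ∈ S, v ((z - w : 𝓞 K) : K) ≤ 2 * A * c ∧ ∀ v' : InfinitePlace K, v' ((z - w : 𝓞 K) : K) ≤ 2 * A) :
    (S.card : ℝ) ≤ CK K 0 * (1 + (2 * (A : ℝ)) ^ eK K * c ^ v.mult) := by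
  have hA' : (0 : ℝ) < A := by exact_mod_cast hA
  have h1 := upI (K := K) 0 S ⊤ top_ne_bot (fun w => 2 * (A : ℝ) * if w = v then c else 1) (fun w => by
    have : (0 : ℝ) < if w = v then c else 1 := by
      split_ifs
      · exact hc
      · exact one_pos
    positivity) (fun z hz w hw => ⟨trivial, fun v' => by
      by_cases hv : v' = v
      · rw [if_pos hv, hv]
        exact (h z hz w hw).1
      · rw [if_neg hv, mul_one]
        exact (h z hz w hw).2 v'⟩)
  rw [pn_const_mul, RLineY_pn, Ideal.absNorm_top, Nat.cast_one, div_one] at h1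
  exact h1

private theorem RLineY_prod {n d : ℕ} (T S : Finset (𝓞 K)) :
    ((Fintype.piFinset fun s : Fin d → Fin (n + 1) => if s = fun _ => 0 then S else T).card : ℝ) =
      S.card * (T.card : ℝ) ^ ((n + 1) ^ d - 1) := by
  rw [Fintype.card_piFinset, ← Finset.mul_prod_erase Finset.univ _ (Finset.mem_univ (fun _ => 0 : Fin d → Fin (n + 1))),
    if_pos rfl]
  have h : ∏ s ∈ (Finset.univ : Finset (Fin d → Fin (n + 1))).erase (fun _ => 0),
      (if s = fun _ => 0 then S else T).card = T.card ^ ((n + 1) ^ d - 1) := by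
    rw [Finset.prod_congr rfl (g := fun _ => T.card) fun s hs => by rw [if_neg (Finset.ne_of_mem_erase hs)],
      Finset.prod_const, Finset.card_erase_of_mem (Finset.mem_univ _), Finset.card_univ, Fintype.card_fun,
      Fintype.card_fin, Fintype.card_fin]
  rw [h]
  push_cast
  ring

private theorem RLineY_CK : 0 < CK K 0 := by
  have h := OBox_low K 0 (le_refl (1 : ℝ))
  rw [one_pow] at h
  by_contra hcon
  rw [not_lt] at hcon
  have h2 : CK K 0 * ((OBox K (1 : ℝ)).card : ℝ) ≤ 0 := mul_nonpos_of_nonpos_of_nonneg hcon (Nat.cast_nonneg _)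
  linarith

variable (K) in
theorem cplxCntY (n d : ℕ) : ∃ C : ℝ, 1 ≤ C ∧ ∀ (v : InfinitePlace K) (η : ℝ), 0 < η → η ≤ 1 →
    ∀ A : ℕ, 1 ≤ A →
    (((Box K n d A).filter fun a => v (a (fun _ => 0) : K) ≤ η * A).card : ℝ) ≤
      C * (1 + η * (A : ℝ) ^ eK K) * (A : ℝ) ^ (eK K * ((n + 1) ^ d - 1)) := by
  have hCK := RLineY_CK (K := K)
  refine ⟨max 1 (CK K 0 * 2 ^ eK K * CK K 0 ^ ((n + 1) ^ d - 1)), le_max_left _ _, fun v η hη hη1 A hA => ?_⟩
  have hA' : (0 : ℝ) < A := by exact_mod_cast hA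
  have hA1 : (1 : ℝ) ≤ A := by exact_mod_cast hA
  set S : Finset (𝓞 K) := (OBox K A).filter fun z => v (z : K) ≤ η * A with hS
  have hsub : ((Box K n d A).filter fun a => v (a (fun _ => 0) : K) ≤ η * A) ⊆
      Fintype.piFinset fun s : Fin d → Fin (n + 1) => if s = fun _ => 0 then S else OBox K A := by
    intro a ha
    rw [Finset.mem_filter] at ha
    rw [Fintype.mem_piFinset]
    intro s
    have h1 : a s ∈ OBox K A := by
      have := ha.1
      unfold Box at this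
      rw [Fintype.mem_piFinset] at this
      exact this s
    by_cases hs : s = fun _ => 0
    · rw [if_pos hs, hS, Finset.mem_filter]
      refine ⟨h1, ?_⟩
      rw [hs]
      exact ha.2
    · rw [if_neg hs]
      exact h1
  have h1 : (((Box K n d A).filter fun a => v (a (fun _ => 0) : K) ≤ η * A).card : ℝ) ≤
      S.card * ((OBox K A).card : ℝ) ^ ((n + 1) ^ d - 1) := by
    rw [← RLineY_prod]
    exact_mod_cast Finset.card_le_card hsub
  have h2 : (S.card : ℝ) ≤ CK K 0 * (1 + (2 * (A : ℝ)) ^ eK K * η ^ v.mult) := by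
    refine RLineY_cnt v S A hA η hη fun z hz w hw => ?_
    rw [hS, Finset.mem_filter, mem_OBox] at hz hw
    refine ⟨?_, fun v' => ?_⟩
    · have e1 := v_sub_le v (z : K) (w : K)
      have e2 : (((z - w : 𝓞 K)) : K) = (z : K) - (w : K) := rfl
      rw [e2]
      linarith [hz.2, hw.2]
    · have e1 := v_sub_le v' (z : K) (w : K)
      have e2 : (((z - w : 𝓞 K)) : K) = (z : K) - (w : K) := rfl
      rw [e2]
      linarith [hz.1 v', hw.1 v']
  have h3 : η ^ v.mult ≤ η := by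
    calc η ^ v.mult ≤ η ^ 1 := pow_le_pow_of_le_one hη.le hη1 v.mult_pos
      _ = η := pow_one η
  have h4 : (S.card : ℝ) ≤ CK K 0 * 2 ^ eK K * (1 + η * (A : ℝ) ^ eK K) := by
    refine h2.trans ?_
    rw [mul_assoc]
    refine mul_le_mul_of_nonneg_left ?_ hCK.le
    have h5 : (2 * (A : ℝ)) ^ eK K * η ^ v.mult ≤ (2 * (A : ℝ)) ^ eK K * η := mul_le_mul_of_nonneg_left h3 (by positivity)
    have h6 : (1 : ℝ) ≤ 2 ^ eK K := one_le_pow₀ (by norm_num)
    rw [mul_pow] at h5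
    rw [mul_pow]
    calc 1 + 2 ^ eK K * (A : ℝ) ^ eK K * η ^ v.mult ≤ 2 ^ eK K + 2 ^ eK K * (A : ℝ) ^ eK K * η := add_le_add h6 h5
      _ = _ := by ring
  have h7 : ((OBox K A).card : ℝ) ^ ((n + 1) ^ d - 1) ≤ (CK K 0 * (A : ℝ) ^ eK K) ^ ((n + 1) ^ d - 1) :=
    pow_le_pow_left₀ (Nat.cast_nonneg _) (OBox_up K 0 hA1) _
  refine h1.trans ((mul_le_mul h4 h7 (by positivity) (by positivity)).trans ?_)
  calc CK K 0 * 2 ^ eK K * (1 + η * (A : ℝ) ^ eK K) * (CK K 0 * (A : ℝ) ^ eK K) ^ ((n + 1) ^ d - 1)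
      = (CK K 0 * 2 ^ eK K * CK K 0 ^ ((n + 1) ^ d - 1)) * ((1 + η * (A : ℝ) ^ eK K) *
          (A : ℝ) ^ (eK K * ((n + 1) ^ d - 1))) := by
        rw [mul_pow, ← pow_mul]
        ring
    _ ≤ max 1 (CK K 0 * 2 ^ eK K * CK K 0 ^ ((n + 1) ^ d - 1)) * ((1 + η * (A : ℝ) ^ eK K) *
          (A : ℝ) ^ (eK K * ((n + 1) ^ d - 1))) :=
        mul_le_mul_of_nonneg_right (le_max_right _ _) (by positivity)
    _ = _ := by ring


variable (K) in
theorem realCntY (n d : ℕ) (hd : Even d) : ∃ C : ℝ, 1 ≤ C ∧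
    ∀ (v : InfinitePlace K), v.IsReal → ∀ η : ℝ, 0 < η → ∀ A : ℕ, 1 ≤ A →
    (((Box K n d A).filter fun a => HiQ v A η a).card : ℝ) ≤
      C * (1 + η * (A : ℝ) ^ eK K) * (A : ℝ) ^ (eK K * ((n + 1) ^ d - 1)) := by
  obtain ⟨m, hm⟩ := hd
  have h2 : d = 2 * m := by omega
  subst h2
  exact realCnt K n m

end Pool.Agent.Lib.MP_1ad228_ntY
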