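import Pool.Agent.Lib.MP_1ad228_ntY.RRobY
import Pool.Agent.Lib.MP_1ad228_ntY.RLineY

/-!
LEAF RFinY.  Almost all tensors which are soluble at infinity are robust.  Model: `Lib/MP_1ad228_ntQ/RFin.lean`.
PROOF.  As in the model: at a place which is complex, or if `r` is odd: `robAnyY`, `cplxCntY`; at a real place, `r` even: `robRealY`, `realCntY`.
-/

namespace Pool.Agent.Lib.MP_1ad228_ntY

open NumberField Classical
open Pool.Agent.Lib.MP_1ad228_ntN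
open Pool.Agent.Lib.MP_1ad228_ntQ (HiQ)

set_option linter.unusedSectionVars false

variable {K : Type} [Field K] [NumberField K]

theorem realRobY (K : Type) [Field K] [NumberField K] (r n m : ℕ) (hr : 2 ≤ r) (ε : ℝ)
    (hε : 0 < ε) :
    ∃ ρ : ℝ, 0 < ρ ∧ ρ ≤ 1 / 4 ∧ ∃ A0 : ℕ, ∀ A : ℕ, A0 ≤ A →
      (((Box K n (r * m) A).filter fun a => (∀ v, RSolY r v a) ∧
          ¬ ∀ v : InfinitePlace K, RobY r v 0 ρ (scQ v A a)).card : ℝ) ≤
        ε * (A : ℝ) ^ (eK K * (n + 1) ^ (r * m)) := by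
  obtain ⟨C1, hC1, h1⟩ := cplxCntY K n (r * m)
  obtain ⟨C2, hC2, h2⟩ : ∃ C : ℝ, 1 ≤ C ∧ (Even r → ∀ (v : InfinitePlace K), v.IsReal → ∀ η : ℝ,
      0 < η → ∀ A : ℕ, 1 ≤ A → (((Box K n (r * m) A).filter fun a => HiQ v A η a).card : ℝ) ≤
      C * (1 + η * (A : ℝ) ^ eK K) * (A : ℝ) ^ (eK K * ((n + 1) ^ (r * m) - 1))) := by
    by_cases hev : Even r
    · obtain ⟨C, h, h'⟩ := realCntY K n (r * m) (hev.mul_right m)
      exact ⟨C, h, fun _ => h'⟩
    · exact ⟨1, le_refl _, fun h => absurd h hev⟩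
  obtain ⟨C, hC⟩ : ∃ C : ℝ, C = max C1 C2 := ⟨_, rfl⟩
  obtain ⟨D1, hD1⟩ : ∃ D1 : ℝ, D1 = 2 ^ (r * m + r) := ⟨_, rfl⟩
  obtain ⟨D2, hD2⟩ : ∃ D2 : ℝ, D2 = 2 ^ r + 4 * (r * m) * (n + 1) ^ (r * m) := ⟨_, rfl⟩
  obtain ⟨P, hP⟩ : ∃ P : ℝ, P = Fintype.card (InfinitePlace K) := ⟨_, rfl⟩
  have hP1 : 1 ≤ P := by
    rw [hP]
    exact_mod_cast Nat.one_le_iff_ne_zero.2 Fintype.card_ne_zero
  have hC0 : 1 ≤ C := by
    rw [hC]
    exact hC1.trans (le_max_left _ _)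
  have hr4 : (4 : ℝ) ≤ 2 ^ r := by
    calc (4 : ℝ) = 2 ^ 2 := by norm_num
      _ ≤ 2 ^ r := pow_le_pow_right₀ (by norm_num) hr
  have hD14 : 4 ≤ D1 := by
    rw [hD1, pow_add]
    have : (1 : ℝ) ≤ 2 ^ (r * m) := one_le_pow₀ (by norm_num)
    nlinarith
  have hD24 : 4 ≤ D2 := by
    rw [hD2]
    have : (0 : ℝ) ≤ 4 * (r * m) * (n + 1) ^ (r * m) := by positivity
    linarith
  have hD0 : 0 < D1 + D2 := by linarith
  obtain ⟨ρ, hρ⟩ : ∃ ρ : ℝ, ρ = min (1 / D1) (ε / (2 * P * C * (D1 + D2))) := ⟨_, rfl⟩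
  have hρ0 : 0 < ρ := by
    rw [hρ]
    refine lt_min ?_ ?_
    · positivity
    · positivity
  have hρD : D1 * ρ ≤ 1 := by
    have : ρ ≤ 1 / D1 := by rw [hρ]; exact min_le_left _ _
    rw [le_div_iff₀ (by linarith)] at this
    linarith
  have hρ4 : ρ ≤ 1 / 4 := by
    have : ρ ≤ 1 / D1 := by rw [hρ]; exact min_le_left _ _
    refine this.trans ?_
    exact one_div_le_one_div_of_le (by norm_num) hD14
  have hρε : P * C * ((D1 + D2) * ρ) ≤ ε / 2 := by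
    have h3 : ρ ≤ ε / (2 * P * C * (D1 + D2)) := by rw [hρ]; exact min_le_right _ _
    rw [le_div_iff₀ (by positivity)] at h3
    linarith
  refine ⟨ρ, hρ0, hρ4, ⌈2 * P * C / ε⌉₊ + 1, fun A hA => ?_⟩
  have hA1 : 1 ≤ A := by omega
  have hA' : (0 : ℝ) < A := by exact_mod_cast hA1
  have hAε : P * C ≤ ε / 2 * A := by
    have h3 : 2 * P * C / ε ≤ A := (Nat.le_ceil _).trans (by exact_mod_cast (by omega : ⌈2 * P * C / ε⌉₊ ≤ A))
    rw [div_le_iff₀ hε] at h3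
    linarith
  -- one place
  have hone : ∀ v : InfinitePlace K, (((Box K n (r * m) A).filter fun a => RSolY r v a ∧ ¬ RobY r v 0 ρ (scQ v A a)).card : ℝ) ≤
      C * (1 + (D1 + D2) * ρ * (A : ℝ) ^ eK K) * (A : ℝ) ^ (eK K * ((n + 1) ^ (r * m) - 1)) := by
    intro v
    have hmono : ∀ (c η : ℝ), 0 ≤ c → c ≤ C → 0 ≤ η → η ≤ (D1 + D2) * ρ →
        c * (1 + η * (A : ℝ) ^ eK K) * (A : ℝ) ^ (eK K * ((n + 1) ^ (r * m) - 1)) ≤
        C * (1 + (D1 + D2) * ρ * (A : ℝ) ^ eK K) * (A : ℝ) ^ (eK K * ((n + 1) ^ (r * m) - 1)) := by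
      intro c η hc0 hcC hη0 hη
      refine mul_le_mul_of_nonneg_right ?_ (by positivity)
      refine mul_le_mul hcC ?_ (by positivity) (by linarith)
      have : η * (A : ℝ) ^ eK K ≤ (D1 + D2) * ρ * (A : ℝ) ^ eK K := mul_le_mul_of_nonneg_right hη (by positivity)
      linarith
    by_cases hvr : v.IsReal ∧ Even r
    · obtain ⟨hv, hev⟩ := hvr
      refine le_trans ?_ (hmono C2 (D2 * ρ) (by linarith) (by rw [hC]; exact le_max_right _ _) (by positivity) ?_)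
      · refine le_trans ?_ (h2 hev v hv (D2 * ρ) (by positivity) A hA1)
        refine Nat.cast_le.2 (Finset.card_le_card fun a ha => ?_)
        rw [Finset.mem_filter] at ha ⊢
        refine ⟨ha.1, ?_⟩
        rw [hD2]
        exact robRealY hr hev v hv A hA1 ρ hρ0 hρ4 a ha.1 ha.2.1 ha.2.2
      · exact mul_le_mul_of_nonneg_right (by linarith) hρ0.le
    · have hvr' : ¬ v.IsReal ∨ Odd r := by
        by_cases hv : v.IsReal
        · exact Or.inr (Nat.not_even_iff_odd.1 fun h => hvr ⟨hv, h⟩)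
        · exact Or.inl hv
      refine le_trans ?_ (hmono C1 (D1 * ρ) (by linarith) (by rw [hC]; exact le_max_left _ _) (by positivity) ?_)
      · refine le_trans ?_ (h1 v (D1 * ρ) (by positivity) hρD A hA1)
        refine Nat.cast_le.2 (Finset.card_le_card fun a ha => ?_)
        rw [Finset.mem_filter] at ha ⊢
        refine ⟨ha.1, ?_⟩
        rw [hD1]
        exact robAnyY hr v hvr' A hA1 ρ hρ0 hρ4 a ha.2.2
      · exact mul_le_mul_of_nonneg_right (by linarith) hρ0.le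
  have hsub : ((Box K n (r * m) A).filter fun a => (∀ v, RSolY r v a) ∧
      ¬ ∀ v : InfinitePlace K, RobY r v 0 ρ (scQ v A a)) ⊆
      Finset.univ.biUnion fun v : InfinitePlace K => (Box K n (r * m) A).filter fun a => RSolY r v a ∧ ¬ RobY r v 0 ρ (scQ v A a) := by
    intro a ha
    rw [Finset.mem_filter] at ha
    obtain ⟨ha1, ha2, ha3⟩ := ha
    rw [not_forall] at ha3
    obtain ⟨v, hv⟩ := ha3
    rw [Finset.mem_biUnion]
    refine ⟨v, Finset.mem_univ v, ?_⟩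
    rw [Finset.mem_filter]
    exact ⟨ha1, ha2 v, hv⟩
  have hcard : (((Box K n (r * m) A).filter fun a => (∀ v, RSolY r v a) ∧
      ¬ ∀ v : InfinitePlace K, RobY r v 0 ρ (scQ v A a)).card : ℝ) ≤
      P * (C * (1 + (D1 + D2) * ρ * (A : ℝ) ^ eK K) * (A : ℝ) ^ (eK K * ((n + 1) ^ (r * m) - 1))) := by
    have e1 := (Finset.card_le_card hsub).trans Finset.card_biUnion_le
    have e2 : (((Box K n (r * m) A).filter fun a => (∀ v, RSolY r v a) ∧
      ¬ ∀ v : InfinitePlace K, RobY r v 0 ρ (scQ v A a)).card : ℝ) ≤ ∑ v : InfinitePlace K,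
        (((Box K n (r * m) A).filter fun a => RSolY r v a ∧ ¬ RobY r v 0 ρ (scQ v A a)).card : ℝ) := by
      exact_mod_cast e1
    refine e2.trans ((Finset.sum_le_card_nsmul _ _ _ fun v _ => hone v).trans (le_of_eq ?_))
    rw [nsmul_eq_mul, Finset.card_univ, hP]
  refine hcard.trans ?_
  have he : 1 ≤ eK K := Module.finrank_pos
  have hV : 1 ≤ (n + 1) ^ (r * m) := Nat.one_le_iff_ne_zero.2 (pow_ne_zero _ (Nat.succ_ne_zero n))
  have hsplit : (A : ℝ) ^ (eK K * (n + 1) ^ (r * m)) = (A : ℝ) ^ eK K * (A : ℝ) ^ (eK K * ((n + 1) ^ (r * m) - 1)) := by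
    rw [← pow_add]
    congr 1
    calc eK K * (n + 1) ^ (r * m) = eK K * (1 + ((n + 1) ^ (r * m) - 1)) := by rw [Nat.add_sub_cancel' hV]
      _ = _ := by ring
  have hAe : (A : ℝ) ≤ (A : ℝ) ^ eK K := by
    calc (A : ℝ) = (A : ℝ) ^ 1 := (pow_one _).symm
      _ ≤ _ := pow_le_pow_right₀ (by exact_mod_cast hA1) he
  have h5 : P * C ≤ ε / 2 * (A : ℝ) ^ eK K := hAε.trans (mul_le_mul_of_nonneg_left hAe (by linarith))
  have h6 : P * C * ((D1 + D2) * ρ) * (A : ℝ) ^ eK K ≤ ε / 2 * (A : ℝ) ^ eK K := mul_le_mul_of_nonneg_right hρε (by positivity)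
  rw [hsplit]
  calc P * (C * (1 + (D1 + D2) * ρ * (A : ℝ) ^ eK K) * (A : ℝ) ^ (eK K * ((n + 1) ^ (r * m) - 1)))
      = (P * C + P * C * ((D1 + D2) * ρ) * (A : ℝ) ^ eK K) * (A : ℝ) ^ (eK K * ((n + 1) ^ (r * m) - 1)) := by ring
    _ ≤ (ε / 2 * (A : ℝ) ^ eK K + ε / 2 * (A : ℝ) ^ eK K) * (A : ℝ) ^ (eK K * ((n + 1) ^ (r * m) - 1)) :=
        mul_le_mul_of_nonneg_right (add_le_add h5 h6) (by positivity)
    _ = _ := by ring

end Pool.Agent.Lib.MP_1ad228_ntY
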