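import Pool.Agent.Lib.MP_1ad228_ntY.VarY
import Pool.Agent.Lib.MP_1ad228_ntY.LowY
import Pool.Agent.Lib.MP_1ad228_ntY.RFinY
import Pool.Agent.Lib.MP_1ad228_ntY.PLocY
import Pool.Agent.Lib.MP_1ad228_ntY.ChebY
import Pool.Agent.Lib.MP_1ad228_ntY.ParY

/-!
LEAF MainSY.  Almost all everywhere locally soluble cyclic covers with `A = s^r` have a small point (assembly).
Model: `Lib/MP_1ad228_ntQ/MainS.lean` (and `Lib/MP_1ad228_ntN/MN_Bad.lean`).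
PROOF.  As in the model with `l = lY r`, `Z' = (n+1)^m s B^m`, `Z = s B^m`, `R = (n+1)^(rm)`, `A = s^r`, `Q = g^(qY n r)`, `ι = n + 1 - (r-1) m`,
`E = (B^(n+1) Z'/(A B^(rm)))^e = ((n+1)^m B^ι/s^(r-1))^e ≥ (M/2^D0)^e`; `lamY` for the last term of `varY` (after fixing `M`, so `g1` depends on `M`;
`parY` with `g0 ≥ g1`).  `Z'^r = R A B^(rm)`.
-/

namespace Pool.Agent.Lib.MP_1ad228_ntY

open NumberField Classical
open Pool.Agent.Lib.MP_1ad228_ntN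

set_option linter.unusedSectionVars false

variable {K : Type} [Field K] [NumberField K]

private theorem MainSY_ar (T Q C A2 E S c τ ε δ P : ℝ) (hC : 0 < C) (hA : 0 ≤ A2) (hE : 0 < E) (hc : 0 < c)
    (hτ : 0 < τ) (hP : 0 < P) (h1 : T * (E * (c * τ / 2)) ^ 2 ≤ P * Q)
    (h2 : Q ≤ C * A2 * (E + E ^ 2 * S))
    (hS : S ≤ 3 * δ) (hd : 1 ≤ δ * E) (hd2 : δ ≤ ε * (c * τ) ^ 2 / (64 * P * C)) : T ≤ ε / 4 * A2 := by
  have h3 : E ≤ E ^ 2 * δ := by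
    calc E = E * 1 := by ring
      _ ≤ E * (δ * E) := mul_le_mul_of_nonneg_left hd hE.le
      _ = E ^ 2 * δ := by ring
  have h4 : E + E ^ 2 * S ≤ E ^ 2 * (4 * δ) := by
    have : E ^ 2 * S ≤ E ^ 2 * (3 * δ) := mul_le_mul_of_nonneg_left hS (by positivity)
    calc E + E ^ 2 * S ≤ E ^ 2 * δ + E ^ 2 * (3 * δ) := add_le_add h3 this
      _ = E ^ 2 * (4 * δ) := by ring
  have h5 : C * δ ≤ ε * (c * τ) ^ 2 / (64 * P) := by
    calc C * δ ≤ C * (ε * (c * τ) ^ 2 / (64 * P * C)) := mul_le_mul_of_nonneg_left hd2 hC.le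
      _ = ε * (c * τ) ^ 2 / (64 * P) := by
        field_simp
  have h6 : T * (E * (c * τ / 2)) ^ 2 ≤ (ε / 4 * A2) * (E * (c * τ / 2)) ^ 2 := by
    calc T * (E * (c * τ / 2)) ^ 2 ≤ P * Q := h1
      _ ≤ P * (C * A2 * (E + E ^ 2 * S)) := mul_le_mul_of_nonneg_left h2 hP.le
      _ ≤ P * (C * A2 * (E ^ 2 * (4 * δ))) :=
        mul_le_mul_of_nonneg_left (mul_le_mul_of_nonneg_left h4 (show 0 ≤ C * A2 by positivity)) hP.le
      _ = (A2 * E ^ 2 * (4 * P)) * (C * δ) := by ring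
      _ ≤ (A2 * E ^ 2 * (4 * P)) * (ε * (c * τ) ^ 2 / (64 * P)) :=
        mul_le_mul_of_nonneg_left h5 (by positivity)
      _ = (ε / 4 * A2) * (E * (c * τ / 2)) ^ 2 := by
        field_simp
        ring
  exact le_of_mul_le_mul_right h6 (by positivity)

private theorem MainSY_inv (δ : ℝ) (hd : 0 < δ) (n : ℕ) (hn : ⌈1 / δ⌉₊ + 1 ≤ n) : 1 / (n : ℝ) ≤ δ := by
  have h1 : 1 / δ ≤ (n : ℝ) := by
    have h2 := Nat.le_ceil (1 / δ)
    have h3 : ((⌈1 / δ⌉₊ : ℕ) : ℝ) ≤ (n : ℝ) := by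
      have : ⌈1 / δ⌉₊ ≤ n := by omega
      exact_mod_cast this
    linarith
  have h2 : (0 : ℝ) < n := by
    have : 0 < n := by omega
    exact_mod_cast this
  rw [div_le_iff₀ hd] at h1
  rw [div_le_iff₀ h2]
  linarith

private noncomputable def MainSY_T (K : Type) [Field K] [NumberField K] (r n m : ℕ) (B H q Z w A : ℕ) (ρ τ : ℝ) :
    Finset (Ten n (r * m) (𝓞 K)) :=
  (Box K n (r * m) A).filter fun a => Ny r B H q Z 0 a = 0 ∧
    (∀ v : InfinitePlace K, RobY r v 0 ρ (scQ v A a)) ∧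
    τ * (WW w : ℝ) ^ (eK K * (n + 1)) ≤ (smYI r (WI K w) a : ℝ)

theorem mainSY (K : Type) [Field K] [NumberField K] (r n m : ℕ) (hr : 2 ≤ r) (hn : 2 ≤ n)
    (hm : 1 ≤ m) (hmn : (r - 1) * m ≤ n) (ε : ℝ) (hε : 0 < ε) : ∃ M s0 : ℕ, ∀ s : ℕ, s0 ≤ s →
    (((Box K n (r * m) ((s ^ r : ℕ) : ℝ)).filter fun a => (∀ v, RSolY r v a) ∧ PSolY r a ∧
        ¬ ∃ (x : Vc n (𝓞 K)) (w : 𝓞 K), x ≠ 0 ∧
          (∀ i, ∀ v : InfinitePlace K,
            (v (x i : K)) ^ (n + 1 - (r - 1) * m) ≤ (M : ℝ) * (s : ℝ) ^ (r - 1)) ∧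
          ev a x = w ^ r).card : ℝ) ≤ ε * ((s ^ r : ℕ) : ℝ) ^ (eK K * (n + 1) ^ (r * m)) := by
  have he : 1 ≤ eK K := eK_pos
  obtain ⟨ι, hι0⟩ : ∃ ι : ℕ, ι = n + 1 - (r - 1) * m := ⟨_, rfl⟩
  obtain ⟨lr, hlr⟩ : ∃ lr : ℕ, lr = lY r := ⟨_, rfl⟩
  have hlr1 : 1 ≤ lr := by
    rw [hlr]
    unfold lY
    omega
  have hlrn : lr + 2 ≤ n * lr + 1 := by
    have h1 : 2 * lr ≤ n * lr := Nat.mul_le_mul_right lr hn
    have h2 : 100 ≤ lr := by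
      rw [hlr]
      unfold lY
      omega
    omega
  obtain ⟨D0, hD0⟩ : ∃ D0 : ℕ, D0 = (n * lr + 1) * ι := ⟨_, rfl⟩
  obtain ⟨R, hR⟩ : ∃ R : ℕ, R = (n + 1) ^ (r * m) := ⟨_, rfl⟩
  obtain ⟨ρ, hρ, hρ4, A1, hreal⟩ := realRobY K r n m hr (ε / 4) (by positivity)
  obtain ⟨q, hq1, hqρ⟩ : ∃ q : ℕ, 1 ≤ q ∧ 1 ≤ ρ * q := by
    refine ⟨⌈1 / ρ⌉₊ + 1, by omega, ?_⟩
    have h1 := Nat.le_ceil (1 / ρ)
    rw [div_le_iff₀ hρ] at h1
    push_cast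
    nlinarith
  obtain ⟨τ, hτ, w1, hloc⟩ := locDensY K r n m hr hn hm (ε / 4) (by positivity)
  obtain ⟨c, hc, hlow⟩ := lowY K r n m hr hn hm lr hlr1 ρ hρ hρ4 q hqρ
  obtain ⟨C, hC1, hvar⟩ := varY (K := K) r n m q R hr hn hm hq1
  have hC : 0 < C := lt_of_lt_of_le one_pos hC1
  obtain ⟨δ, hδpos, hδ2⟩ : ∃ δ : ℝ, 0 < δ ∧ δ ≤ ε * (c * τ) ^ 2 / (64 * 2 * C) :=
    ⟨_, by positivity, le_rfl⟩
  obtain ⟨k, hk⟩ : ∃ k : ℕ, k = ⌈1 / δ⌉₊ + 1 := ⟨_, rfl⟩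
  have hinv : ∀ j : ℕ, k ≤ j → 1 / (j : ℝ) ≤ δ := fun j hj => MainSY_inv δ hδpos j (hk ▸ hj)
  have hk1 : 1 ≤ k := by omega
  have hMpos : 1 ≤ 2 ^ D0 * k := by
    have : 0 < 2 ^ D0 * k := by positivity
    exact this
  obtain ⟨g2, hg21, hg2⟩ := lamY r n m (eK K) hr hn hm hmn he (2 ^ D0 * k) hMpos δ hδpos
  obtain ⟨w0, hw0⟩ := hlow (k ^ 2) (Nat.one_le_pow _ _ hk1)
  obtain ⟨w, hw⟩ : ∃ w : ℕ, w = w0 + w1 + k ^ 2 := ⟨_, rfl⟩
  obtain ⟨g0, hg0⟩ := hw0 w (by omega) (c * τ / 2) (by positivity)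
  obtain ⟨A2, hA2⟩ := hloc w (by omega)
  obtain ⟨N, hN⟩ : ∃ N : ℕ, N = ⌈C⌉₊ * (k ^ 2 * WW w) := ⟨_, rfl⟩
  have hWpos : 1 ≤ WW w := Pool.Agent.Lib.MP_219881_nt.WWpos w
  have hWr : (0 : ℝ) < (WW w : ℝ) := by exact_mod_cast hWpos
  obtain ⟨s0, hs01, hs0⟩ := parY r n m hr hn hm hmn (2 ^ D0 * k) N (g0 + g2) hMpos
  refine ⟨2 ^ D0 * k, s0 + A1 + A2, fun s hs => ?_⟩
  obtain ⟨g, hgg, hg1, hgM, hMg, hNH, hNZ, hNB, hBM, hHQ⟩ := hs0 s (by omega)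
  have hlamg := hg2 g (by omega)
  have hlowg := hg0 g (by omega)
  rw [← hι0, ← hlr] at hgM hMg
  rw [← hlr] at hNH hNZ hNB hBM hHQ hlamg
  rw [← hD0] at hMg
  have hs1 : 1 ≤ s := by omega
  have hss : s ≤ s ^ r := Nat.le_self_pow (by omega) s
  have hreal' := hreal (s ^ r) (by omega)
  have hloc' := hA2 (s ^ r) (by omega)
  obtain ⟨B, hB⟩ : ∃ B : ℕ, B = g ^ (n * lr + 1) := ⟨_, rfl⟩
  obtain ⟨H, hH⟩ : ∃ H : ℕ, H = g ^ (lr + 2) := ⟨_, rfl⟩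
  obtain ⟨Q, hQe⟩ : ∃ Q : ℕ, Q = g ^ qY n r := ⟨_, rfl⟩
  have hlow' := hlowg B H hB hH s hs1
  rw [← hB] at hgM hMg hNZ hNB hBM hHQ hlamg
  rw [← hH] at hNH hHQ hlamg
  rw [← hQe] at hHQ hlamg
  obtain ⟨Z, hZ⟩ : ∃ Z : ℕ, Z = (n + 1) ^ m * s * B ^ m := ⟨_, rfl⟩
  rw [← hZ] at hlow'
  obtain ⟨A, hA⟩ : ∃ A : ℕ, A = s ^ r := ⟨_, rfl⟩
  rw [← hA] at hreal' hloc' hNH hNB hlow' ⊢
  have hA0 : 1 ≤ A := by rw [hA]; exact Nat.one_le_pow _ _ hs1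
  have hA0r : (0 : ℝ) < A := by exact_mod_cast hA0
  have hB1 : 1 ≤ B := by rw [hB]; exact Nat.one_le_pow _ _ hg1
  have hH1 : 1 ≤ H := by rw [hH]; exact Nat.one_le_pow _ _ hg1
  have hQ1 : 1 ≤ Q := by rw [hQe]; exact Nat.one_le_pow _ _ hg1
  have hHB : H ≤ B := by
    rw [hH, hB]
    exact Nat.pow_le_pow_right hg1 hlrn
  have hB0r : (0 : ℝ) < B := by exact_mod_cast hB1
  have hs0r : (0 : ℝ) < s := by exact_mod_cast hs1
  have hsB1 : 1 ≤ s * B ^ m := Nat.one_le_iff_ne_zero.mpr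
    (Nat.mul_ne_zero (by omega) (pow_ne_zero _ (by omega)))
  have hZ' : Z = (n + 1) ^ m * (s * B ^ m) := by rw [hZ]; ring
  have hsZ : s * B ^ m ≤ Z := by
    rw [hZ']
    exact Nat.le_mul_of_pos_left _ (by positivity)
  have hlam := hlamg (s * B ^ m) Z hsB1 hsZ hBM
  have hABr : A * B ^ (r * m) = (s * B ^ m) ^ r := by
    rw [mul_pow, ← pow_mul, mul_comm m, hA]
  have hRr : (R : ℝ) = ((n : ℝ) + 1) ^ (r * m) := by
    rw [hR]
    push_cast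
    ring
  have hZr : Z ^ r = R * (A * B ^ (r * m)) := by
    rw [hABr, hZ', mul_pow ((n + 1) ^ m), ← pow_mul, mul_comm m, hR]
  have hr1 : r = (r - 1) + 1 := by omega
  -- E
  obtain ⟨E, hE⟩ : ∃ E : ℝ, E = ((B : ℝ) ^ (n + 1) * Z / ((A : ℝ) * (B : ℝ) ^ (r * m))) ^ eK K := ⟨_, rfl⟩
  have hE1 : (k : ℝ) ≤ (B : ℝ) ^ (n + 1) * Z / ((A : ℝ) * (B : ℝ) ^ (r * m)) := by
    rw [le_div_iff₀ (by positivity)]
    have h1 : 2 ^ D0 * (k * s ^ (r - 1)) ≤ 2 ^ D0 * B ^ ι := by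
      calc 2 ^ D0 * (k * s ^ (r - 1)) = 2 ^ D0 * k * s ^ (r - 1) := by ring
        _ ≤ _ := hMg
    have h2 : k * s ^ (r - 1) ≤ B ^ ι := Nat.le_of_mul_le_mul_left h1 (by positivity)
    have h3 : B ^ (n + 1) = B ^ ι * B ^ ((r - 1) * m) := by
      rw [← pow_add]
      congr 1
      omega
    have h5 : B ^ (r * m) = B ^ ((r - 1) * m) * B ^ m := by
      rw [← pow_add]
      congr 1
      conv_lhs => rw [hr1]
      ring
    have h6 : s ^ r = s ^ (r - 1) * s := by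
      conv_lhs => rw [hr1]
      exact pow_succ _ _
    have h4 : k * (A * B ^ (r * m)) ≤ B ^ (n + 1) * Z := by
      calc k * (A * B ^ (r * m)) = (k * s ^ (r - 1)) * (B ^ ((r - 1) * m) * (s * B ^ m)) := by
            rw [hA, h5, h6]
            ring
        _ ≤ B ^ ι * (B ^ ((r - 1) * m) * Z) :=
            Nat.mul_le_mul h2 (Nat.mul_le_mul_left _ hsZ)
        _ = B ^ (n + 1) * Z := by rw [h3]; ring
    exact_mod_cast h4
  have hk1r : (1 : ℝ) ≤ k := by exact_mod_cast hk1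
  have hEr : (k : ℝ) ≤ E := by
    rw [hE]
    calc (k : ℝ) ≤ (B : ℝ) ^ (n + 1) * Z / ((A : ℝ) * (B : ℝ) ^ (r * m)) := hE1
      _ = ((B : ℝ) ^ (n + 1) * Z / ((A : ℝ) * (B : ℝ) ^ (r * m))) ^ 1 := (pow_one _).symm
      _ ≤ _ := pow_le_pow_right₀ (hk1r.trans hE1) he
  have hEpos : 0 < E := lt_of_lt_of_le (by linarith) hEr
  -- hypotheses of the variance
  have hCc : C ≤ (⌈C⌉₊ : ℝ) := Nat.le_ceil C
  have hkk : k ≤ k ^ 2 * WW w := by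
    calc k = k * 1 := (mul_one k).symm
      _ ≤ k ^ 2 * WW w := Nat.mul_le_mul (Nat.le_self_pow two_ne_zero k) hWpos
  have v1 : C * (H : ℝ) ^ 2 * k ≤ A := by
    have h1 : ((N * H ^ 2 : ℕ) : ℝ) ≤ (A : ℝ) := by exact_mod_cast hNH
    refine le_trans ?_ h1
    have h2 : (k : ℝ) ≤ ((k ^ 2 * WW w : ℕ) : ℝ) := by exact_mod_cast hkk
    rw [hN]
    push_cast at h2 ⊢
    calc C * (H : ℝ) ^ 2 * k = C * k * (H : ℝ) ^ 2 := by ring
      _ ≤ (⌈C⌉₊ : ℝ) * ((k : ℝ) ^ 2 * WW w) * (H : ℝ) ^ 2 :=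
        mul_le_mul_of_nonneg_right (mul_le_mul hCc h2 (by positivity) (by positivity)) (by positivity)
  have v3 : k ^ 2 * WW w ≤ Z := by
    refine le_trans ?_ (hNZ.trans hsZ)
    rw [hN]
    refine Nat.le_mul_of_pos_left _ ?_
    exact Nat.ceil_pos.mpr hC
  have v4 : (Z : ℝ) ^ r ≤ R * ((A : ℝ) * (B : ℝ) ^ (r * m)) := by exact_mod_cast hZr.le
  have v5 : C * ((k : ℝ) ^ 2 * WW w * (B : ℝ) ^ 2) ≤ (A : ℝ) * (B : ℝ) ^ (r * m) := by
    have h1 : ((N * B ^ 2 : ℕ) : ℝ) ≤ ((A * B ^ (r * m) : ℕ) : ℝ) := by exact_mod_cast hNB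
    push_cast at h1
    refine le_trans ?_ h1
    rw [hN]
    push_cast
    calc C * ((k : ℝ) ^ 2 * WW w * (B : ℝ) ^ 2) ≤ (⌈C⌉₊ : ℝ) * ((k : ℝ) ^ 2 * WW w * (B : ℝ) ^ 2) :=
          mul_le_mul_of_nonneg_right hCc (by positivity)
      _ = _ := by ring
  -- the set T
  have hTo : ((MainSY_T K r n m B H q Z w A ρ τ).card : ℝ) ≤
      ε / 4 * (A : ℝ) ^ (eK K * (n + 1) ^ (r * m)) := by
    have hQ := hvar 0 k w B H A (WW w) Z Q hk1 hB1 hH1 hHB hWpos hQ1 hHQ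
      (fun j h1 h2 => Pool.Agent.Lib.MP_219881_nt.WWdvd _ j h1 h2) v1 v3 v4 v5
    rw [← hE] at hQ
    have hch := chebY (K := K) B H q Z (WW w) (k ^ 2) A hA0 0
      (E * (c * τ / 2)) (by positivity) (MainSY_T K r n m B H q Z w A ρ τ) (by
        intro a ha
        unfold MainSY_T at ha
        rw [Finset.mem_filter] at ha
        obtain ⟨hab, hN0, hRob, hsm⟩ := ha
        refine ⟨hab, hN0, ?_⟩
        have h3 := hlow' a hab 0 hRob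
        rw [← hE] at h3
        refine le_trans ?_ h3
        apply mul_le_mul_of_nonneg_left _ hEpos.le
        have h4 : τ ≤ (smYI r (WI K w) a : ℝ) / (WW w : ℝ) ^ (eK K * (n + 1)) := by
          rw [le_div_iff₀ (by positivity)]
          exact hsm
        have h5 := mul_le_mul_of_nonneg_left h4 hc.le
        linarith)
    refine MainSY_ar _ _ C ((A : ℝ) ^ (eK K * (n + 1) ^ (r * m))) E
      (1 / (k : ℝ) + 1 / ((Nat.sqrt w : ℝ) + 1) + ((Nat.log 2 B : ℝ) + 2) ^ eK K *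
        Lam n B H Q Z ^ eK K)
      c τ ε δ 2 hC (by positivity) hEpos hc hτ two_pos hch hQ ?_ ?_ hδ2
    · have e1 := hinv k le_rfl
      have e2 : 1 / ((Nat.sqrt w : ℝ) + 1) ≤ δ := by
        have h1 : k ≤ Nat.sqrt w := Nat.le_sqrt'.mpr (by omega)
        have := hinv (Nat.sqrt w + 1) (by omega)
        rw [Nat.cast_succ] at this
        exact this
      linarith
    · have e1 := hinv k le_rfl
      have hk0 : (0 : ℝ) < k := by linarith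
      calc (1 : ℝ) = 1 / (k : ℝ) * k := by field_simp
        _ ≤ δ * k := mul_le_mul_of_nonneg_right e1 hk0.le
        _ ≤ δ * E := mul_le_mul_of_nonneg_left hEr hδpos.le
  -- covering
  have hsub : ((Box K n (r * m) (A : ℝ)).filter fun a => (∀ v, RSolY r v a) ∧ PSolY r a ∧
        ¬ ∃ (x : Vc n (𝓞 K)) (w : 𝓞 K), x ≠ 0 ∧
          (∀ i, ∀ v : InfinitePlace K,
            (v (x i : K)) ^ (n + 1 - (r - 1) * m) ≤ ((2 ^ D0 * k : ℕ) : ℝ) * (s : ℝ) ^ (r - 1)) ∧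
          ev a x = w ^ r) ⊆
      ((Box K n (r * m) (A : ℝ)).filter fun a => (∀ v, RSolY r v a) ∧
        ¬ ∀ v : InfinitePlace K, RobY r v 0 ρ (scQ v A a)) ∪
      (((Box K n (r * m) (A : ℝ)).filter fun a => PSolY r a ∧
        (smYI r (WI K w) a : ℝ) < τ * (WW w : ℝ) ^ (eK K * (n + 1))) ∪
      MainSY_T K r n m B H q Z w A ρ τ) := by
    intro a ha
    rw [Finset.mem_filter] at ha
    obtain ⟨hbox, hRs, hPS, hno⟩ := ha
    rw [Finset.mem_union, Finset.mem_union]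
    by_cases h1 : ∀ v : InfinitePlace K, RobY r v 0 ρ (scQ v A a)
    · right
      by_cases h3 : (smYI r (WI K w) a : ℝ) < τ * (WW w : ℝ) ^ (eK K * (n + 1))
      · left
        rw [Finset.mem_filter]
        exact ⟨hbox, hPS, h3⟩
      · right
        unfold MainSY_T
        rw [Finset.mem_filter]
        refine ⟨hbox, ?_, h1, not_lt.1 h3⟩
        unfold Ny
        rw [Finset.card_eq_zero, Finset.filter_eq_empty_iff]
        intro p hp hex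
        unfold Pool.Agent.Lib.MP_1ad228_ntQ.GP at hp
        rw [Finset.mem_product] at hp
        apply hno
        refine ⟨p.1, p.2, ?_, ?_, hex⟩
        · intro h0
          have := GG_ne hB1 hp.1
          rw [h0] at this
          exact this rfl
        · intro i v
          have h4 := GG_le hp.1 i v
          rw [← hι0]
          calc (v (p.1 i : K)) ^ ι ≤ (B : ℝ) ^ ι := pow_le_pow_left₀ (v_nonneg _ _) h4 _
            _ ≤ ((2 ^ D0 * k : ℕ) : ℝ) * (s : ℝ) ^ (r - 1) := by exact_mod_cast hgM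
    · left
      rw [Finset.mem_filter]
      exact ⟨hbox, hRs, h1⟩
  have hcard := (Finset.card_le_card hsub).trans ((Finset.card_union_le _ _).trans
    (Nat.add_le_add_left (Finset.card_union_le _ _) _))
  have hcard' : ((((Box K n (r * m) (A : ℝ)).filter fun a => (∀ v, RSolY r v a) ∧ PSolY r a ∧
        ¬ ∃ (x : Vc n (𝓞 K)) (w : 𝓞 K), x ≠ 0 ∧
          (∀ i, ∀ v : InfinitePlace K,
            (v (x i : K)) ^ (n + 1 - (r - 1) * m) ≤ ((2 ^ D0 * k : ℕ) : ℝ) * (s : ℝ) ^ (r - 1)) ∧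
          ev a x = w ^ r).card : ℕ) : ℝ) ≤
      ((((Box K n (r * m) (A : ℝ)).filter fun a => (∀ v, RSolY r v a) ∧
        ¬ ∀ v : InfinitePlace K, RobY r v 0 ρ (scQ v A a)).card : ℕ) : ℝ) +
      (((((Box K n (r * m) (A : ℝ)).filter fun a => PSolY r a ∧
        (smYI r (WI K w) a : ℝ) < τ * (WW w : ℝ) ^ (eK K * (n + 1))).card : ℕ) : ℝ) +
      ((MainSY_T K r n m B H q Z w A ρ τ).card : ℝ)) := by
    exact_mod_cast hcard
  have hpos : 0 ≤ ε / 4 * (A : ℝ) ^ (eK K * (n + 1) ^ (r * m)) := by positivity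
  refine (hcard'.trans (add_le_add hreal' (add_le_add hloc' hTo))).trans ?_
  linarith

end Pool.Agent.Lib.MP_1ad228_ntY
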