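import Pool.Agent.Lib.MP_1ad228_ntY.RtUp
import Pool.Agent.Lib.MP_1ad228_ntN.NB_Const

/-!
LEAF PCnt.  Pairs `(w, z)` in a box with `z ^ r ≡ c ^ r w ^ r` modulo `I` (no condition on the size of `I`).
PROOF.  For each `w` (at most `CK Z^e` of them, `OBox_up K 0`) the class of `z` mod `I` is one of at most `rt r I` classes (`rtLe`), and each
class contains at most `CK (1 + (2 Z)^e/N(I))` elements of `OBox K Z` (`upI K 0`, `pn_const`).
-/

namespace Pool.Agent.Lib.MP_1ad228_ntY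

open NumberField Classical
open Pool.Agent.Lib.MP_1ad228_ntN

set_option linter.unusedSectionVars false

variable {K : Type} [Field K] [NumberField K]

theorem PCnt_fib {I : Ideal (𝓞 K)} (hI : I ≠ ⊥) {Z : ℕ} (hZ : 1 ≤ Z) (u : 𝓞 K ⧸ I) :
    (((OBox K (Z : ℝ)).filter fun z => Ideal.Quotient.mk I z = u).card : ℝ) ≤
      CK K 0 * (1 + (2 * (Z : ℝ)) ^ eK K / Ideal.absNorm I) := by
  have hZ' : (1 : ℝ) ≤ Z := by exact_mod_cast hZ
  have h1 := upI (K := K) 0 ((OBox K (Z : ℝ)).filter fun z => Ideal.Quotient.mk I z = u) I hI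
    (fun _ => 2 * (Z : ℝ)) (fun _ => by positivity) ?_
  · rw [pn_const] at h1
    exact h1
  · intro z hz w hw
    rw [Finset.mem_filter, mem_OBox] at hz hw
    refine ⟨?_, fun v => ?_⟩
    · rw [← Ideal.Quotient.eq, hz.2, hw.2]
    · have h3 : ((z - w : 𝓞 K) : K) = (z : K) - (w : K) := map_sub (algebraMap (𝓞 K) K) z w
      rw [h3]
      have h4 := v_sub_le v (z : K) (w : K)
      linarith [hz.1 v, hw.1 v]

theorem PCnt_row {I : Ideal (𝓞 K)} (hI : I ≠ ⊥) {Z : ℕ} (hZ : 1 ≤ Z) (r : ℕ) (t : 𝓞 K ⧸ I) :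
    (((OBox K (Z : ℝ)).filter fun z => Ideal.Quotient.mk I z ^ r = t).card : ℝ) ≤
      (rt r I : ℝ) * (CK K 0 * (1 + (2 * (Z : ℝ)) ^ eK K / Ideal.absNorm I)) := by
  have hfin := finite_quot hI
  have hft : Fintype (𝓞 K ⧸ I) := Fintype.ofFinite _
  have h1 : ((OBox K (Z : ℝ)).filter fun z => Ideal.Quotient.mk I z ^ r = t).card =
      ∑ u ∈ Finset.univ.filter (fun u : 𝓞 K ⧸ I => u ^ r = t),
        (((OBox K (Z : ℝ)).filter fun z => Ideal.Quotient.mk I z ^ r = t).filter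
          fun z => Ideal.Quotient.mk I z = u).card := by
    refine Finset.card_eq_sum_card_fiberwise ?_
    intro z hz
    have hz' := (Finset.mem_filter.1 (Finset.mem_coe.1 hz)).2
    exact Finset.mem_coe.2 (Finset.mem_filter.2 ⟨Finset.mem_univ _, hz'⟩)
  rw [h1, Nat.cast_sum]
  have hb0 : 0 ≤ CK K 0 * (1 + (2 * (Z : ℝ)) ^ eK K / Ideal.absNorm I) := by
    have := CK_pos K 0
    positivity
  have h2 : ∀ u ∈ Finset.univ.filter (fun u : 𝓞 K ⧸ I => u ^ r = t),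
      (((((OBox K (Z : ℝ)).filter fun z => Ideal.Quotient.mk I z ^ r = t).filter
          fun z => Ideal.Quotient.mk I z = u).card : ℕ) : ℝ) ≤
        CK K 0 * (1 + (2 * (Z : ℝ)) ^ eK K / Ideal.absNorm I) := by
    intro u _
    refine le_trans ?_ (PCnt_fib hI hZ u)
    have h3 : ((OBox K (Z : ℝ)).filter fun z => Ideal.Quotient.mk I z ^ r = t).filter
          (fun z => Ideal.Quotient.mk I z = u) ⊆
        (OBox K (Z : ℝ)).filter fun z => Ideal.Quotient.mk I z = u := by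
      intro z hz
      rw [Finset.mem_filter, Finset.mem_filter] at hz
      exact Finset.mem_filter.2 ⟨hz.1.1, hz.2⟩
    exact_mod_cast Finset.card_le_card h3
  refine (Finset.sum_le_card_nsmul _ _ _ h2).trans ?_
  rw [nsmul_eq_mul]
  refine mul_le_mul_of_nonneg_right ?_ hb0
  have h4 : (Finset.univ.filter (fun u : 𝓞 K ⧸ I => u ^ r = t)).card =
      Nat.card {u : 𝓞 K ⧸ I // u ^ r = t} := by
    rw [Nat.card_eq_fintype_card, Fintype.card_subtype]
  rw [h4]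
  exact_mod_cast rtLe hI t

variable (K) in
theorem pCnt (r : ℕ) (hr : 1 ≤ r) : ∃ C : ℝ, 1 ≤ C ∧ ∀ (I : Ideal (𝓞 K)) (Z : ℕ) (c : 𝓞 K),
    I ≠ ⊥ → 1 ≤ Z →
    (((OBox K (Z : ℝ) ×ˢ OBox K (Z : ℝ)).filter fun p => p.2 ^ r - c ^ r * p.1 ^ r ∈ I).card : ℝ) ≤
      C * (rt r I : ℝ) * ((Z : ℝ) ^ eK K + ((Z : ℝ) ^ eK K) ^ 2 / Ideal.absNorm I) := by
  have hC := CK_one_le K 0
  refine ⟨CK K 0 * CK K 0 * 2 ^ eK K, ?_, ?_⟩
  · have h1 : (1 : ℝ) ≤ 2 ^ eK K := one_le_pow₀ (by norm_num)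
    exact one_le_mul_of_one_le_of_one_le (one_le_mul_of_one_le_of_one_le hC hC) h1
  intro I Z c hI hZ
  have hZ' : (1 : ℝ) ≤ Z := by exact_mod_cast hZ
  have hN0 : (0 : ℝ) < Ideal.absNorm I := by
    have : Ideal.absNorm I ≠ 0 := by rw [Ne, Ideal.absNorm_eq_zero_iff]; exact hI
    exact_mod_cast Nat.pos_of_ne_zero this
  have h1 : ((OBox K (Z : ℝ) ×ˢ OBox K (Z : ℝ)).filter
      fun p => p.2 ^ r - c ^ r * p.1 ^ r ∈ I).card =
      ∑ w ∈ OBox K (Z : ℝ), (((OBox K (Z : ℝ) ×ˢ OBox K (Z : ℝ)).filter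
        fun p => p.2 ^ r - c ^ r * p.1 ^ r ∈ I).filter fun p => p.1 = w).card := by
    refine Finset.card_eq_sum_card_fiberwise ?_
    intro p hp
    have hp' := (Finset.mem_filter.1 (Finset.mem_coe.1 hp)).1
    exact Finset.mem_coe.2 (Finset.mem_product.1 hp').1
  rw [h1, Nat.cast_sum]
  have h2 : ∀ w ∈ OBox K (Z : ℝ), (((((OBox K (Z : ℝ) ×ˢ OBox K (Z : ℝ)).filter
        fun p => p.2 ^ r - c ^ r * p.1 ^ r ∈ I).filter fun p => p.1 = w).card : ℕ) : ℝ) ≤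
      (rt r I : ℝ) * (CK K 0 * (1 + (2 * (Z : ℝ)) ^ eK K / Ideal.absNorm I)) := by
    intro w _
    refine le_trans ?_ (PCnt_row hI hZ r (Ideal.Quotient.mk I (c ^ r * w ^ r)))
    have h3 : (((OBox K (Z : ℝ) ×ˢ OBox K (Z : ℝ)).filter
        fun p => p.2 ^ r - c ^ r * p.1 ^ r ∈ I).filter fun p => p.1 = w).card ≤
        ((OBox K (Z : ℝ)).filter
          fun z => Ideal.Quotient.mk I z ^ r = Ideal.Quotient.mk I (c ^ r * w ^ r)).card := by
      refine Finset.card_le_card_of_injOn (fun p => p.2) ?_ ?_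
      · intro p hp
        have hp' := Finset.mem_filter.1 (Finset.mem_coe.1 hp)
        have hp1 := Finset.mem_filter.1 hp'.1
        refine Finset.mem_coe.2 (Finset.mem_filter.2 ⟨(Finset.mem_product.1 hp1.1).2, ?_⟩)
        rw [← map_pow, Ideal.Quotient.eq, ← hp'.2]
        exact hp1.2
      · intro p hp p' hp' h
        have e1 := (Finset.mem_filter.1 (Finset.mem_coe.1 hp)).2
        have e2 := (Finset.mem_filter.1 (Finset.mem_coe.1 hp')).2
        exact Prod.ext (e1.trans e2.symm) h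
    exact_mod_cast h3
  refine (Finset.sum_le_card_nsmul _ _ _ h2).trans ?_
  rw [nsmul_eq_mul]
  have h4 := OBox_up K 0 hZ'
  have hrt : (0 : ℝ) ≤ rt r I := Nat.cast_nonneg _
  have h5 : (1 : ℝ) ≤ 2 ^ eK K := one_le_pow₀ (by norm_num)
  have h6 : 1 + (2 * (Z : ℝ)) ^ eK K / Ideal.absNorm I ≤
      2 ^ eK K * (1 + (Z : ℝ) ^ eK K / Ideal.absNorm I) := by
    rw [mul_pow, mul_add, mul_one, mul_div_assoc]
    linarith
  have hc0 := CK_pos K 0
  calc ((OBox K (Z : ℝ)).card : ℝ) *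
        ((rt r I : ℝ) * (CK K 0 * (1 + (2 * (Z : ℝ)) ^ eK K / Ideal.absNorm I)))
      ≤ (CK K 0 * (Z : ℝ) ^ eK K) *
        ((rt r I : ℝ) * (CK K 0 * (2 ^ eK K * (1 + (Z : ℝ) ^ eK K / Ideal.absNorm I)))) := by
        gcongr
    _ = CK K 0 * CK K 0 * 2 ^ eK K * (rt r I : ℝ) *
        ((Z : ℝ) ^ eK K + ((Z : ℝ) ^ eK K) ^ 2 / Ideal.absNorm I) := by ring

end Pool.Agent.Lib.MP_1ad228_ntY
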