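import Pool.Agent.Lib.MP_1ad228_ntY.Defs

/-!
LEAF PRoot.  `r`-th powers close to an `r`-th power (any commutative ring).  Model: `sqLift` in `Lib/MP_1ad228_ntQ/PSq.lean`.
PROOF.  Look for `s = w0 (1 + r π y)`: `(1 + r π y)^r = 1 + r^2 π (y + π h(y))` where `h` is a polynomial over `A`
(`(1 + r π y)^r = 1 + r (r π y) + ∑_{i ≥ 2} C(r, i) (r π y)^i` and `r^2 π^2` divides `(r π y)^i` for `i ≥ 2`).
So it is enough to have `y` with `π ^ k ∣ y + π h(y) - t`: iterate `y_{k+1} = t - π h(y_k)`: `y_{k+1} + π h(y_{k+1}) - t = π (h(y_{k+1}) - h(y_k))` and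
`y_{k+1} - y_k = -(y_k + π h(y_k) - t)`, `y - y' ∣ h(y) - h(y')` (`Polynomial.sub_dvd_eval_sub`).
Suggestion: take `h : Polynomial A` with `(1 + C(r π) X)^r = 1 + C(r^2 π) (X + C π * h)`, e.g. `h = ∑_{i in range(r-1)} C(C(r,i+2) r^i π^i) X^(i+2)`
(`add_pow` / `Commute.add_pow`, `Finset.sum_range_succ'`).
-/

namespace Pool.Agent.Lib.MP_1ad228_ntY

open NumberField Classical
open Pool.Agent.Lib.MP_1ad228_ntN

set_option linter.unusedSectionVars false

variable {K : Type} [Field K] [NumberField K]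

/-- The higher terms of `(1 + r y) ^ r`, divided by `r ^ 2`. -/
private def PRoot_q {A : Type*} [CommRing A] (r : ℕ) (y : A) : A :=
  ∑ k ∈ Finset.range (r - 1), ((r.choose (k + 2) : ℕ) : A) * (r : A) ^ k * y ^ (k + 2)

private theorem PRoot_exp {A : Type*} [CommRing A] (r : ℕ) (hr : 1 ≤ r) (y : A) :
    (1 + (r : A) * y) ^ r = 1 + (r : A) ^ 2 * (y + PRoot_q r y) := by
  obtain ⟨s, rfl⟩ : ∃ s, r = s + 1 := ⟨r - 1, by omega⟩
  rw [add_comm (1 : A), add_pow, Finset.sum_range_succ', Finset.sum_range_succ']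
  unfold PRoot_q
  rw [Nat.add_sub_cancel, mul_add, Finset.mul_sum]
  have h1 : ∀ k ∈ Finset.range s, (((s + 1 : ℕ) : A) * y) ^ (k + 1 + 1) *
      1 ^ (s + 1 - (k + 1 + 1)) * (((s + 1).choose (k + 1 + 1) : ℕ) : A) =
      ((s + 1 : ℕ) : A) ^ 2 * ((((s + 1).choose (k + 2) : ℕ) : A) * ((s + 1 : ℕ) : A) ^ k *
        y ^ (k + 2)) := by
    intro k _
    rw [one_pow, mul_one, mul_pow, show k + 1 + 1 = k + 2 from rfl]
    ring
  rw [Finset.sum_congr rfl h1, Nat.choose_one_right, Nat.choose_zero_right, Nat.cast_one, pow_zero,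
    one_pow, one_pow, pow_one]
  ring

private theorem PRoot_dvd {A : Type*} [CommRing A] (r : ℕ) (π y z : A) (hy : π ∣ y) (hz : π ∣ z) :
    (z - y) * π ∣ PRoot_q r z - PRoot_q r y := by
  unfold PRoot_q
  rw [← Finset.sum_sub_distrib]
  refine Finset.dvd_sum fun k _ => ?_
  rw [← mul_sub]
  refine Dvd.dvd.mul_left ?_ _
  have e : z ^ (k + 2) - y ^ (k + 2) = (z ^ (k + 1) - y ^ (k + 1)) * z + (z - y) * y ^ (k + 1) := by
    ring
  rw [e]
  refine dvd_add (mul_dvd_mul (sub_dvd_pow_sub_pow z y (k + 1)) hz) (mul_dvd_mul dvd_rfl ?_)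
  exact dvd_pow hy (Nat.succ_ne_zero k)

private theorem PRoot_zero {A : Type*} [CommRing A] (r : ℕ) (π y : A) (hy : π ∣ y) :
    π ∣ PRoot_q r y := by
  unfold PRoot_q
  refine Finset.dvd_sum fun k _ => Dvd.dvd.mul_left (dvd_pow hy (Nat.succ_ne_zero _)) _

theorem rootLift {A : Type*} [CommRing A] (r : ℕ) (hr : 1 ≤ r) (π w0 t : A) (k : ℕ) :
    ∃ s : A, π ^ k ∣ w0 ^ r + (r : A) ^ 2 * w0 ^ r * π * t - s ^ r := by
  have h : ∀ k : ℕ, ∃ y : A, π ∣ y ∧ π ^ k ∣ y + PRoot_q r y - π * t := by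
    intro k
    induction k with
    | zero => exact ⟨0, dvd_zero _, by rw [pow_zero]; exact one_dvd _⟩
    | succ k ih =>
      obtain ⟨y, hy, hk⟩ := ih
      have hy' : π ∣ π * t - PRoot_q r y := dvd_sub (dvd_mul_right _ _) (PRoot_zero r π y hy)
      refine ⟨π * t - PRoot_q r y, hy', ?_⟩
      have h1 := PRoot_dvd r π y (π * t - PRoot_q r y) hy hy'
      have e : π * t - PRoot_q r y + PRoot_q r (π * t - PRoot_q r y) - π * t =
          PRoot_q r (π * t - PRoot_q r y) - PRoot_q r y := by ring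
      rw [e, pow_succ]
      refine (mul_dvd_mul ?_ dvd_rfl).trans h1
      have e2 : π * t - PRoot_q r y - y = -(y + PRoot_q r y - π * t) := by ring
      rw [e2]
      exact (dvd_neg).2 hk
  obtain ⟨y, -, hk⟩ := h k
  refine ⟨w0 * (1 + (r : A) * y), ?_⟩
  have e : w0 ^ r + (r : A) ^ 2 * w0 ^ r * π * t - (w0 * (1 + (r : A) * y)) ^ r =
      (y + PRoot_q r y - π * t) * (-((r : A) ^ 2 * w0 ^ r)) := by
    rw [mul_pow, PRoot_exp r hr y]
    ring
  rw [e]
  exact dvd_mul_of_dvd_left hk _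

end Pool.Agent.Lib.MP_1ad228_ntY
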