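import Pool.Agent.Lib.MP_1ad228_ntY.Defs
import Pool.Agent.Lib.MP_1ad228_ntY.PRoot
import Pool.Agent.Lib.MP_1ad228_ntN.LD_Loc
import Pool.Agent.Lib.MP_1ad228_ntN.LD_Minor
import Pool.Agent.Lib.MP_1ad228_ntN.LD_Newt

/-!
LEAF PHensY.  Many points modulo `P ^ w` of a cyclic cover with a `P`-adic point, for the small primes.
Model: `Lib/MP_1ad228_ntQ/PHens.lean` (`r = 2`).
PROOF.  As in the model: `r ≠ 0` in `A`, so `r ∣ π ^ v`; `c = r j + 2 v + 1`.  A solution modulo `P ^ c`, normalised to `x i = 1`: `π ^ c ∣ ev G x - y1 ^ r`.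
(1) `y1 ∣ π ^ j`: keep it.  (2) Otherwise `π ^ j ∣ y1`, so `π ^ (r j) ∣ ev G x`; `G' = G - π ^ (r j) X_i ^ (r m)`; `LD_minor` (`r = 1` equation, `e = j`),
`LD_lift` (`D = j - 1`, `m = r j ≥ 2 j`, `w = c`) give `x'` with `π ^ c ∣ ev G x' - π ^ (r j)`: new `y1 = π ^ j`.
Then `r ^ 2 y1 ^ r π ∣ π ^ c`, and `rootLift`.
-/

namespace Pool.Agent.Lib.MP_1ad228_ntY

open NumberField Classical
open Pool.Agent.Lib.MP_1ad228_ntN

set_option linter.unusedSectionVars false

variable {K : Type} [Field K] [NumberField K]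

/-- Some power of the uniformizer is divisible by `r`. -/
private theorem PHensY_r {K : Type} [Field K] [NumberField K] (P : Ideal (𝓞 K)) (hP : P.IsPrime)
    {A : Type} [CommRing A] [IsDomain A] [IsDiscreteValuationRing A] {π : A} {j : 𝓞 K →+* A}
    {ρ : (m : ℕ) → A →+* 𝓞 K ⧸ P ^ m} (hπ : Irreducible π)
    (hρj : ∀ m z, ρ m (j z) = Ideal.Quotient.mk (P ^ m) z) (r : ℕ) (hr : r ≠ 0) :
    ∃ v : ℕ, (r : A) ∣ π ^ v := by
  have h2 : (r : A) ≠ 0 := by
    intro h0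
    have h1 : (r : 𝓞 K) ∈ ⨅ k : ℕ, P ^ k := by
      rw [Ideal.mem_iInf]
      intro k
      rw [← Ideal.Quotient.eq_zero_iff_mem, ← hρj k (r : 𝓞 K), map_natCast, h0, map_zero]
    rw [Ideal.iInf_pow_eq_bot_of_isDomain P hP.ne_top, Ideal.mem_bot] at h1
    exact hr (Nat.cast_eq_zero.1 h1)
  obtain ⟨v, u, hu⟩ := IsDiscreteValuationRing.eq_unit_mul_pow_irreducible h2 hπ
  refine ⟨v, ⟨((u⁻¹ : Aˣ) : A), ?_⟩⟩
  rw [hu, mul_comm, ← mul_assoc, Units.inv_mul, one_mul]

/-- The tensor of the form `- c X_i ^ d`. -/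
private theorem PHensY_sub {n d : ℕ} {A : Type*} [CommRing A] (G : Ten n d A) (i : Fin (n + 1)) (c : A)
    (x : Vc n A) : ev (fun s => G s - if s = fun _ => i then c else 0) x = ev G x - c * x i ^ d := by
  have h1 : ev (fun s => G s - if s = fun _ => i then c else 0) x =
      ev G x - ev (fun s : Fin d → Fin (n + 1) => if s = fun _ => i then c else 0) x :=
    ev_sub G _ x
  rw [h1]
  congr 1
  unfold Pool.Agent.Lib.MP_1ad228_ntF.ev
  rw [Finset.sum_eq_single (fun _ => i)]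
  · show (if (fun _ => i : Fin d → Fin (n + 1)) = fun _ => i then c else 0) * ∏ _k : Fin d, x i =
      c * x i ^ d
    rw [if_pos rfl, Finset.prod_const, Finset.card_univ, Fintype.card_fin]
  · intro s _ hs
    show (if s = fun _ => i then c else 0) * _ = _
    rw [if_neg hs, zero_mul]
  · intro h
    exact (h (Finset.mem_univ _)).elim

theorem hensY {K : Type} [Field K] [NumberField K] {r n m : ℕ} (hr : 2 ≤ r) (hm : 1 ≤ m)
    (P : Ideal (𝓞 K)) (hP : P.IsPrime) (hP0 : P ≠ ⊥) (j : ℕ) (hj : 1 ≤ j) :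
    ∃ c : ℕ, ∀ w : ℕ, c ≤ w → ∀ a : Ten n (r * m) (𝓞 K),
      (∀ i : ℕ, ∃ (x : Vc n (𝓞 K)) (y : 𝓞 K), (∃ l, x l ∉ P) ∧ ev a x - y ^ r ∈ P ^ i) →
      ¬ ExcR (red (d := fun _ : Fin 1 => r * m) (P ^ j) fun _ => a) →
      Ideal.absNorm P ^ ((n + 1) * (w - c)) ≤ smYI r (P ^ w) a := by
  obtain ⟨A, _, _, _, π, jj, ρ, hπ, hjj, hρj, hρ0⟩ := LD_loc P hP hP0
  obtain ⟨v, hv⟩ := PHensY_r P hP hπ hρj r (by omega)
  refine ⟨r * j + 2 * v + 1, fun w hw a hsol hex => ?_⟩
  obtain ⟨c, hc⟩ : ∃ c : ℕ, c = r * j + 2 * v + 1 := ⟨_, rfl⟩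
  rw [← hc] at hw ⊢
  have h2j : 2 * j ≤ r * j := Nat.mul_le_mul_right j hr
  obtain ⟨G, hG⟩ : ∃ G : Ten n (r * m) A, G = fun s => jj (a s) := ⟨_, rfl⟩
  have hGred : ∀ k, (fun s => ρ k (G s)) = tmap (Ideal.Quotient.mk (P ^ k)) a := by
    intro k
    funext s
    show ρ k (G s) = Ideal.Quotient.mk (P ^ k) (a s)
    rw [hG, hρj]
  -- the approximate point
  obtain ⟨z, y, ⟨i, hzi⟩, hz0⟩ := hsol c
  obtain ⟨u, hu⟩ := (hjj _ hzi).exists_left_inv
  have hpt : ∃ (x : Vc n A) (y1 : A), x i = 1 ∧ y1 ∣ π ^ j ∧ π ^ c ∣ ev G x - y1 ^ r := by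
    obtain ⟨x, hx⟩ : ∃ x : Vc n A, x = fun l => u * jj (z l) := ⟨_, rfl⟩
    have hxi : x i = 1 := by
      rw [hx]
      exact hu
    have hx0 : π ^ c ∣ ev G x - (u ^ m * jj y) ^ r := by
      have h1 : ev G (fun l => jj (z l)) = jj (ev a z) := by
        rw [hG]
        exact ev_map jj a z
      have h2 : ev G x - (u ^ m * jj y) ^ r = u ^ (r * m) * jj (ev a z - y ^ r) := by
        rw [hx, ev_scale u G (fun l => jj (z l)), h1, map_sub, map_pow]
        ring
      rw [h2, ← hρ0, map_mul, hρj, Ideal.Quotient.eq_zero_iff_mem.2 hz0, mul_zero]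
    rcases ValuationRing.dvd_total (u ^ m * jj y) (π ^ j) with h | h
    · exact ⟨x, _, hxi, h, hx0⟩
    · have h3 : π ^ (2 * j) ∣ ev G x := by
        have h4 : π ^ (2 * j) ∣ (u ^ m * jj y) ^ r := by
          refine (pow_dvd_pow π h2j).trans ?_
          rw [mul_comm r j, pow_mul]
          exact pow_dvd_pow_of_dvd h r
        have h5 := dvd_add ((pow_dvd_pow π (by omega : 2 * j ≤ c)).trans hx0) h4
        rwa [sub_add_cancel] at h5
      obtain ⟨F, hF⟩ : ∃ F : Tup n (fun _ : Fin 1 => r * m) A,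
          F = fun _ s => G s - if s = fun _ => i then π ^ (r * j) else 0 := ⟨_, rfl⟩
      have hFev : ∀ (k : Fin 1) (x' : Vc n A), ev (F k) x' = ev G x' - π ^ (r * j) * x' i ^ (r * m) := by
        intro k x'
        rw [hF]
        exact PHensY_sub G i _ x'
      have hF0 : ∀ k, π ^ (2 * j) ∣ ev (F k) x := by
        intro k
        rw [hFev]
        exact dvd_sub h3 ((pow_dvd_pow π h2j).trans (dvd_mul_right _ _))
      have hFred : fmap (ρ j) F = red (d := fun _ : Fin 1 => r * m) (P ^ j) fun _ => a := by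
        funext k s
        show ρ j (F k s) = Ideal.Quotient.mk (P ^ j) (a s)
        rw [hF]
        show ρ j (G s - if s = fun _ => i then π ^ (r * j) else 0) = _
        rw [map_sub, hG, hρj]
        have h6 : ρ j (if s = fun _ => i then π ^ (r * j) else 0) = 0 := by
          split_ifs
          · exact (hρ0 j _).2 (pow_dvd_pow π (by omega))
          · exact map_zero _
        rw [h6, sub_zero]
      obtain ⟨S, hSi, hS, hmin⟩ := LD_minor hπ (ρ j) j hj (fun a ha => (hρ0 j a).2 ha) F x i hxi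
        (fun k => (hρ0 j _).2 ((pow_dvd_pow π (by omega)).trans (hF0 k))) (by rw [hFred]; exact hex)
      obtain ⟨x', hx'1, -, hx'0⟩ := LD_lift hπ (1 * (j - 1)) (2 * j) c (by omega) (by omega) F x S hS
        hF0 hmin
      have hx'i : x' i = 1 := by
        rw [hx'1 i fun k => (hSi k).symm, hxi]
      refine ⟨x', π ^ j, hx'i, dvd_rfl, ?_⟩
      have h7 := hx'0 0
      rw [hFev, hx'i, one_pow, mul_one, mul_comm r j, pow_mul] at h7
      exact h7
  obtain ⟨x, y1, hxi, hy1, hx0⟩ := hpt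
  have h4 : (r : A) ^ 2 * y1 ^ r * π ∣ π ^ c := by
    have e2 : π ^ c = (π ^ v * π ^ v) * (π ^ j) ^ r * π := by
      rw [hc]
      ring
    rw [sq, e2]
    exact mul_dvd_mul (mul_dvd_mul (mul_dvd_mul hv hv) (pow_dvd_pow_of_dvd hy1 r)) dvd_rfl
  have hsur : ∀ k (q : 𝓞 K ⧸ P ^ k), ∃ t : A, ρ k t = q := by
    intro k q
    obtain ⟨t, rfl⟩ := Ideal.Quotient.mk_surjective q
    exact ⟨jj t, hρj k t⟩
  choose b hb using hsur (w - c)
  have hzero : ∀ s : Vc n (𝓞 K ⧸ P ^ (w - c)), ∃ t : A,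
      π ^ w ∣ ev G (x + fun l => π ^ c * b (s l)) - t ^ r := by
    intro s
    have h5 := ev_congr_dvd G x (fun l => π ^ c * b (s l)) (π ^ c) fun l => dvd_mul_right _ _
    have h6 := dvd_add h5 hx0
    rw [sub_add_sub_cancel] at h6
    obtain ⟨t, ht⟩ := h4.trans h6
    obtain ⟨s', hs'⟩ := rootLift r (by omega) π y1 t w
    refine ⟨s', ?_⟩
    rw [← ht] at hs'
    have e : y1 ^ r + (ev G (x + fun l => π ^ c * b (s l)) - y1 ^ r) - s' ^ r =
        ev G (x + fun l => π ^ c * b (s l)) - s' ^ r := by ring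
    rwa [e] at hs'
  choose t ht using hzero
  have hc0 : 0 < c := by omega
  have hw0 : 0 < w := by omega
  have hnil : IsNilpotent (ρ w π) := by
    refine ⟨w, ?_⟩
    rw [← map_pow]
    exact (hρ0 w _).2 dvd_rfl
  have : Finite (𝓞 K ⧸ P ^ w) := finite_quot (pow_ne_zero w hP0)
  have hu1 : ∀ s : Vc n (𝓞 K ⧸ P ^ (w - c)), IsUnit (ρ w (x i + π ^ c * b (s i))) := by
    intro s
    have h12 : IsNilpotent ((ρ w π) ^ c * ρ w (b (s i))) :=
      Commute.isNilpotent_mul_right (Commute.all _ _) (hnil.pow_of_pos (by omega))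
    rw [hxi, map_add, map_one, map_mul, map_pow]
    exact h12.isUnit_one_add
  let f : Vc n (𝓞 K ⧸ P ^ (w - c)) →
      {p : Vc n (𝓞 K ⧸ P ^ w) × (𝓞 K ⧸ P ^ w) // Uni p.1 ∧
        ev (tmap (Ideal.Quotient.mk (P ^ w)) a) p.1 = p.2 ^ r} := fun s =>
    ⟨(fun l => ρ w (x l + π ^ c * b (s l)), ρ w (t s)), by
      refine ⟨?_, ?_⟩
      · obtain ⟨q, hq⟩ := (hu1 s).exists_left_inv
        refine ⟨Pi.single i q, ?_⟩
        have h14 : lin (Pi.single i q) (fun l => ρ w (x l + π ^ c * b (s l))) =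
            q * ρ w (x i + π ^ c * b (s i)) := by
          simp [Pool.Agent.Lib.MP_219881_nt.lin, Pi.single_apply]
        rw [h14, hq]
      · show ev (tmap (Ideal.Quotient.mk (P ^ w)) a) (fun l => ρ w (x l + π ^ c * b (s l))) =
          (ρ w (t s)) ^ r
        rw [← hGred w]
        have h15 : ev (fun s => ρ w (G s)) (fun l => ρ w (x l + π ^ c * b (s l))) =
            ρ w (ev G (x + fun l => π ^ c * b (s l))) :=
          ev_map (ρ w) G (x + fun l => π ^ c * b (s l))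
        rw [h15, ← map_pow, ← sub_eq_zero, ← map_sub]
        exact (hρ0 w _).2 (ht s)⟩
  have hf : Function.Injective f := by
    intro s s' hss
    funext l
    have h16 : ρ w (x l + π ^ c * b (s l)) = ρ w (x l + π ^ c * b (s' l)) :=
      congrFun (congrArg (fun p => p.1.1) hss) l
    have h17 : ρ w (π ^ c * (b (s l) - b (s' l))) = 0 := by
      have h18 : π ^ c * (b (s l) - b (s' l)) =
          (x l + π ^ c * b (s l)) - (x l + π ^ c * b (s' l)) := by ring
      rw [h18, map_sub, h16, sub_self]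
    have h19 := (hρ0 w _).1 h17
    have h20 : π ^ w = π ^ c * π ^ (w - c) := by
      rw [← pow_add]
      congr 1
      omega
    rw [h20, mul_dvd_mul_iff_left (pow_ne_zero c hπ.ne_zero)] at h19
    have h21 := (hρ0 (w - c) _).2 h19
    rw [map_sub, hb, hb, sub_eq_zero] at h21
    exact h21
  have hcard := Nat.card_le_card_of_injective f hf
  have h21 : Nat.card (Vc n (𝓞 K ⧸ P ^ (w - c))) = Ideal.absNorm P ^ ((n + 1) * (w - c)) := by
    have : Finite (𝓞 K ⧸ P ^ (w - c)) := finite_quot (pow_ne_zero _ hP0)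
    rw [card_VcR, card_quotO, map_pow, ← pow_mul, mul_comm]
  rw [← h21]
  exact hcard

end Pool.Agent.Lib.MP_1ad228_ntY
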