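import Pool.Agent.Lib.MP_1ad228_ntY.Defs
import Pool.Agent.Lib.MP_1ad228_ntN.LD_Cnt

/-!
Part P: the condition `IdY` on a finite ring (sum over the proper ideals with the weight `rt`).
-/

namespace Pool.Agent.Lib.MP_1ad228_ntY

open NumberField Classical
open Pool.Agent.Lib.MP_1ad228_ntN

set_option linter.unusedSectionVars false

variable {K : Type} [Field K] [NumberField K]

/-- The sum of `rt r J / (card (R/J)) ^ 2` over any finite set of proper ideals is at most `δ`. -/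
def IdY (R : Type*) [CommRing R] (r : ℕ) (δ : ℝ) : Prop :=
  ∀ T : Finset (Ideal R), ⊤ ∉ T → ∑ J ∈ T, (rt r J : ℝ) * (1 / (Nat.card (R ⧸ J) : ℝ)) ^ 2 ≤ δ

private theorem PMomDefY_fin {R : Type*} [CommRing R] [Finite R] (J : Ideal R) : Finite (R ⧸ J) :=
  Finite.of_surjective (Ideal.Quotient.mk J) Ideal.Quotient.mk_surjective

theorem rtLeR {R : Type*} [CommRing R] [Finite R] (r : ℕ) (J : Ideal R) (t : R ⧸ J) :
    Nat.card {z : R ⧸ J // z ^ r = t} ≤ rt r J := by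
  have hf := PMomDefY_fin J
  unfold rt
  exact le_csSup (Set.finite_range _).bddAbove ⟨t, rfl⟩

theorem rtPosR {R : Type*} [CommRing R] [Finite R] {r : ℕ} (hr : 1 ≤ r) (J : Ideal R) :
    1 ≤ rt r J := by
  have hf := PMomDefY_fin J
  have h1 : Nonempty {z : R ⧸ J // z ^ r = 0} := ⟨⟨0, zero_pow (by omega)⟩⟩
  have h2 : 0 < Nat.card {z : R ⧸ J // z ^ r = 0} := Nat.card_pos
  exact le_trans h2 (rtLeR r J 0)

theorem IdY.idS {R : Type*} [CommRing R] [Finite R] {r : ℕ} (hr : 1 ≤ r) {δ : ℝ}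
    (h : IdY R r δ) : IdS R δ := by
  intro T hT
  refine le_trans (Finset.sum_le_sum fun J _ => ?_) (h T hT)
  have h1 : (1 : ℝ) ≤ (rt r J : ℝ) := by exact_mod_cast rtPosR hr J
  have h2 : (0 : ℝ) ≤ (1 / (Nat.card (R ⧸ J) : ℝ)) ^ 2 := by positivity
  nlinarith

theorem rt_top (R : Type*) [CommRing R] (r : ℕ) : rt r (⊤ : Ideal R) = 1 := by
  have hs : Subsingleton (R ⧸ (⊤ : Ideal R)) := Ideal.Quotient.subsingleton_iff.2 rfl
  have h1 : ∀ t : R ⧸ (⊤ : Ideal R), Nat.card {z : R ⧸ (⊤ : Ideal R) // z ^ r = t} = 1 := by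
    intro t
    have hu : Unique {z : R ⧸ (⊤ : Ideal R) // z ^ r = t} :=
      ⟨⟨⟨t, Subsingleton.elim _ _⟩⟩, fun z => Subtype.ext (Subsingleton.elim _ _)⟩
    exact Nat.card_unique
  unfold rt
  have h2 : (Set.range fun t : R ⧸ (⊤ : Ideal R) =>
      Nat.card {z : R ⧸ (⊤ : Ideal R) // z ^ r = t}) = {1} := by
    ext a
    rw [Set.mem_singleton_iff]
    constructor
    · rintro ⟨t, rfl⟩
      exact h1 t
    · rintro rfl
      exact ⟨0, h1 0⟩
  rw [h2]
  exact csSup_singleton 1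

end Pool.Agent.Lib.MP_1ad228_ntY
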