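import Pool.Agent.Lib.MP_1ad228_ntY.PPairY
import Pool.Agent.Lib.MP_1ad228_ntN.LD_Mom

/-!
LEAF PMomY.  First and second moment of `smY r`.  Model with proof: `Lib/MP_1ad228_ntQ/PMom.lean` (`tau`, `IdT`, `val2` replaced by `rt r`, `IdY`, `val2Y`;
no condition on units).
-/

namespace Pool.Agent.Lib.MP_1ad228_ntY

open NumberField Classical
open Pool.Agent.Lib.MP_1ad228_ntN
open Pool.Agent.Lib.MP_1ad228_ntQ (val1)

set_option linter.unusedSectionVars false

variable {K : Type} [Field K] [NumberField K]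

private theorem PMomY_card {n : ℕ} {R : Type*} [CommRing R] [Fintype R] (P : Vc n R → Prop) :
    (Nat.card {x : Vc n R // P x} : ℝ) =
      ((Finset.univ.filter fun x : Vc n R => P x).card : ℝ) := by
  rw [Nat.card_eq_fintype_card, Fintype.card_subtype]

private theorem PMomY_cardT {n d : ℕ} {R : Type*} [CommRing R] [Fintype R]
    (P : Ten n d R → Prop) :
    ∑ a : Ten n d R, (if P a then (1 : ℝ) else 0) = (Nat.card {a : Ten n d R // P a} : ℝ) := by
  rw [Finset.sum_boole, Nat.card_eq_fintype_card, Fintype.card_subtype]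

private theorem PMomY_pos (R : Type*) [CommRing R] [Fintype R] : (0 : ℝ) < (Nat.card R : ℝ) := by
  have : 0 < Nat.card R := card_R_pos R
  exact_mod_cast this

private theorem PMomY_sm {r n d : ℕ} {R : Type*} [CommRing R] [Fintype R] (a : Ten n d R) :
    (smY r a : ℝ) = ∑ x ∈ Finset.univ.filter (fun x : Vc n R => Uni x),
      ∑ w : R, (if ev a x = w ^ r then (1 : ℝ) else 0) := by
  unfold smY
  rw [Nat.card_eq_fintype_card, Fintype.card_subtype,
    ← Finset.sum_product' (f := fun x w => if ev a x = w ^ r then (1 : ℝ) else 0),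
    Finset.sum_boole]
  refine congrArg _ (congrArg Finset.card ?_)
  ext p
  simp only [Finset.mem_filter, Finset.mem_product, Finset.mem_univ, true_and, and_true]

theorem momY1 (r n d : ℕ) (R : Type*) [CommRing R] [Fintype R] :
    ∑ a : Ten n d R, (smY r a : ℝ) =
      (Nat.card {x : Vc n R // Uni x} : ℝ) * (Nat.card R : ℝ) ^ (n + 1) ^ d := by
  have hq := PMomY_pos R
  have h0 : ∑ a : Ten n d R, (smY r a : ℝ) =
      ∑ x ∈ Finset.univ.filter (fun x : Vc n R => Uni x),
        ∑ w : R, (Nat.card {a : Ten n d R // ev a x = w ^ r} : ℝ) := by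
    rw [Finset.sum_congr rfl fun a _ => PMomY_sm a, Finset.sum_comm]
    refine Finset.sum_congr rfl fun x _ => ?_
    rw [Finset.sum_comm]
    exact Finset.sum_congr rfl fun w _ => PMomY_cardT _
  rw [h0]
  have h1 : ∀ x ∈ Finset.univ.filter (fun x : Vc n R => Uni x),
      ∑ w : R, (Nat.card {a : Ten n d R // ev a x = w ^ r} : ℝ) =
        (Nat.card R : ℝ) ^ (n + 1) ^ d := by
    intro x hx
    have h2 : ∀ w : R, (Nat.card {a : Ten n d R // ev a x = w ^ r} : ℝ) =
        (Nat.card R : ℝ) ^ (n + 1) ^ d / (Nat.card R : ℝ) := by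
      intro w
      have h3 := val1 (d := d) x (Finset.mem_filter.mp hx).2 (w ^ r)
      rw [eq_div_iff hq.ne']
      exact_mod_cast h3
    rw [Finset.sum_congr rfl fun w _ => h2 w, Finset.sum_const, Finset.card_univ,
      ← Nat.card_eq_fintype_card, nsmul_eq_mul]
    field_simp
  rw [Finset.sum_congr rfl h1, Finset.sum_const, nsmul_eq_mul, PMomY_card]

private theorem PMomY_two {r n m : ℕ} (hr : 1 ≤ r) (hm : 1 ≤ m) {R : Type*} [CommRing R]
    [Fintype R] (x y : Vc n R) (hx : Uni x) (hy : Uni y) :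
    ∑ w : R, ∑ z : R, ∑ a : Ten n (r * m) R, (if ev a x = w ^ r then (1 : ℝ) else 0) *
      (if ev a y = z ^ r then (1 : ℝ) else 0) ≤
      (Nat.card R : ℝ) ^ (n + 1) ^ (r * m) * (rt r (II x y) : ℝ) := by
  have h3 : ∀ w z : R, ∑ a : Ten n (r * m) R, (if ev a x = w ^ r then (1 : ℝ) else 0) *
      (if ev a y = z ^ r then (1 : ℝ) else 0) =
      (Nat.card {a : Ten n (r * m) R // ev a x = w ^ r ∧ ev a y = z ^ r} : ℝ) := by
    intro w z
    rw [← PMomY_cardT]
    refine Finset.sum_congr rfl fun a _ => ?_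
    by_cases h : ev a x = w ^ r
    · by_cases h' : ev a y = z ^ r
      · simp [h, h']
      · simp [h, h']
    · simp [h]
  rw [Finset.sum_congr rfl fun w _ => Finset.sum_congr rfl fun z _ => h3 w z]
  exact_mod_cast val2Y hr hm x y hx hy

private theorem PMomY_idl {r : ℕ} {R : Type*} [CommRing R] [Fintype R] {δ : ℝ} (hδ : IdY R r δ)
    (T : Finset (Ideal R)) :
    ∑ J ∈ T, (rt r J : ℝ) * (1 / (Nat.card (R ⧸ J) : ℝ)) ^ 2 ≤ 1 + δ := by
  by_cases h : (⊤ : Ideal R) ∈ T
  · rw [← Finset.add_sum_erase T _ h]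
    refine add_le_add ?_ (hδ _ (Finset.notMem_erase _ _))
    have h1 : Nat.card (R ⧸ (⊤ : Ideal R)) = 1 := by
      have : Subsingleton (R ⧸ (⊤ : Ideal R)) := Ideal.Quotient.subsingleton_iff.2 rfl
      have : Unique (R ⧸ (⊤ : Ideal R)) := ⟨⟨0⟩, fun _ => Subsingleton.elim _ _⟩
      exact Nat.card_unique
    rw [rt_top, h1]
    norm_num
  · exact (hδ T h).trans (by linarith)

private theorem PMomY_row {r n : ℕ} (hn : 2 ≤ n) {R : Type*} [CommRing R] [Fintype R]
    {δ : ℝ} (hδ : IdY R r δ) (x : Vc n R) (hx : Uni x) :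
    ∑ y ∈ Finset.univ.filter (fun y : Vc n R => Uni y), (rt r (II x y) : ℝ) ≤
      (Nat.card R : ℝ) ^ (n + 1) * (1 + δ) := by
  have hq := PMomY_pos R
  have h1 : ∑ y ∈ Finset.univ.filter (fun y : Vc n R => Uni y), (rt r (II x y) : ℝ) ≤
      ∑ y : Vc n R, (rt r (II x y) : ℝ) :=
    Finset.sum_le_sum_of_subset_of_nonneg (Finset.filter_subset _ _)
      (fun y _ _ => by positivity)
  obtain ⟨T, hT⟩ : ∃ T : Finset (Ideal R),
      T = (Finset.univ : Finset (Vc n R)).image fun y => II x y := ⟨_, rfl⟩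
  have hmap : ∀ y ∈ (Finset.univ : Finset (Vc n R)), II x y ∈ T := by
    intro y hy
    rw [hT]
    exact Finset.mem_image_of_mem _ hy
  rw [← Finset.sum_fiberwise_of_maps_to hmap] at h1
  refine h1.trans ?_
  have h2 : ∀ J ∈ T,
      ∑ y ∈ Finset.univ.filter (fun y : Vc n R => II x y = J), (rt r (II x y) : ℝ) ≤
        (Nat.card R : ℝ) ^ (n + 1) * ((rt r J : ℝ) * (1 / (Nat.card (R ⧸ J) : ℝ)) ^ 2) := by
    intro J _
    have h3 : ∑ y ∈ Finset.univ.filter (fun y : Vc n R => II x y = J), (rt r (II x y) : ℝ) =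
        ∑ y ∈ Finset.univ.filter (fun y : Vc n R => II x y = J), (rt r J : ℝ) := by
      refine Finset.sum_congr rfl fun y hy => ?_
      rw [(Finset.mem_filter.mp hy).2]
    rw [h3, Finset.sum_const, nsmul_eq_mul]
    have h4 : ((Finset.univ.filter fun y : Vc n R => II x y = J).card : ℝ) ≤
        (Nat.card R : ℝ) * (Nat.card J : ℝ) ^ n := by
      have := LD_cnty x hx J
      rw [Nat.card_eq_fintype_card, Fintype.card_subtype] at this
      exact_mod_cast this
    have hfin : Finite (R ⧸ J) := Finite.of_surjective _ Ideal.Quotient.mk_surjective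
    have hk : (1 : ℝ) ≤ (Nat.card (R ⧸ J) : ℝ) := by
      have : 0 < Nat.card (R ⧸ J) := Nat.card_pos
      exact_mod_cast this
    have h5 : (Nat.card J : ℝ) = (Nat.card R : ℝ) * (1 / (Nat.card (R ⧸ J) : ℝ)) := by
      have h6 : (Nat.card J : ℝ) * (Nat.card (R ⧸ J) : ℝ) = (Nat.card R : ℝ) := by
        exact_mod_cast card_quot J
      rw [← h6]
      field_simp
    have h7 : (1 / (Nat.card (R ⧸ J) : ℝ)) ^ n ≤ (1 / (Nat.card (R ⧸ J) : ℝ)) ^ 2 :=
      pow_le_pow_of_le_one (by positivity) (by rw [div_le_one (by linarith)]; exact hk) hn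
    calc ((Finset.univ.filter fun y : Vc n R => II x y = J).card : ℝ) * (rt r J : ℝ)
        ≤ ((Nat.card R : ℝ) * (Nat.card J : ℝ) ^ n) * (rt r J : ℝ) :=
          mul_le_mul_of_nonneg_right h4 (by positivity)
      _ = (Nat.card R : ℝ) ^ (n + 1) * ((rt r J : ℝ) * (1 / (Nat.card (R ⧸ J) : ℝ)) ^ n) := by
          rw [h5, mul_pow, pow_succ]
          ring
      _ ≤ _ := mul_le_mul_of_nonneg_left (mul_le_mul_of_nonneg_left h7 (by positivity))
          (by positivity)
  refine (Finset.sum_le_sum h2).trans ?_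
  rw [← Finset.mul_sum]
  exact mul_le_mul_of_nonneg_left (PMomY_idl hδ T) (by positivity)

theorem momY2 {r n m : ℕ} (hr : 1 ≤ r) (hn : 2 ≤ n) (hm : 1 ≤ m) (R : Type*) [CommRing R]
    [Fintype R] {δ : ℝ} (hδ : IdY R r δ) :
    ∑ a : Ten n (r * m) R, (smY r a : ℝ) ^ 2 ≤
      (Nat.card {x : Vc n R // Uni x} : ℝ) * (Nat.card R : ℝ) ^ (n + 1) ^ (r * m) *
        ((Nat.card R : ℝ) ^ (n + 1) * (1 + δ)) := by
  obtain ⟨S, hS⟩ : ∃ S : Finset (Vc n R), S = Finset.univ.filter (fun x : Vc n R => Uni x) :=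
    ⟨_, rfl⟩
  have hmem : ∀ x ∈ S, Uni x := fun x hx => by
    rw [hS] at hx
    exact (Finset.mem_filter.mp hx).2
  have h0 : ∑ a : Ten n (r * m) R, (smY r a : ℝ) ^ 2 =
      ∑ x ∈ S, ∑ y ∈ S, ∑ w : R, ∑ z : R, ∑ a : Ten n (r * m) R,
        (if ev a x = w ^ r then (1 : ℝ) else 0) * (if ev a y = z ^ r then (1 : ℝ) else 0) := by
    have h1 : ∀ a : Ten n (r * m) R, (smY r a : ℝ) ^ 2 = ∑ x ∈ S, ∑ y ∈ S, ∑ w : R, ∑ z : R,
        (if ev a x = w ^ r then (1 : ℝ) else 0) * (if ev a y = z ^ r then (1 : ℝ) else 0) := by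
      intro a
      rw [PMomY_sm, ← hS, pow_two, Finset.sum_mul_sum]
      refine Finset.sum_congr rfl fun x _ => Finset.sum_congr rfl fun y _ => ?_
      rw [Finset.sum_mul_sum]
    rw [Finset.sum_congr rfl fun a _ => h1 a, Finset.sum_comm]
    refine Finset.sum_congr rfl fun x _ => ?_
    rw [Finset.sum_comm]
    refine Finset.sum_congr rfl fun y _ => ?_
    rw [Finset.sum_comm]
    refine Finset.sum_congr rfl fun w _ => ?_
    rw [Finset.sum_comm]
  rw [h0]
  calc _ ≤ ∑ x ∈ S, ∑ y ∈ S, (Nat.card R : ℝ) ^ (n + 1) ^ (r * m) * (rt r (II x y) : ℝ) :=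
        Finset.sum_le_sum fun x hx => Finset.sum_le_sum fun y hy =>
          PMomY_two hr hm x y (hmem x hx) (hmem y hy)
    _ ≤ ∑ x ∈ S, (Nat.card R : ℝ) ^ (n + 1) ^ (r * m) *
          ((Nat.card R : ℝ) ^ (n + 1) * (1 + δ)) := by
        refine Finset.sum_le_sum fun x hx => ?_
        rw [← Finset.mul_sum]
        refine mul_le_mul_of_nonneg_left ?_ (by positivity)
        rw [hS]
        exact PMomY_row hn hδ x (hmem x hx)
    _ = _ := by
        rw [Finset.sum_const, nsmul_eq_mul, PMomY_card, ← hS]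
        ring

end Pool.Agent.Lib.MP_1ad228_ntY
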