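import Pool.Agent.Lib.MP_1ad228_ntY.PMomDefY
import Pool.Agent.Lib.MP_1ad228_ntQ.PPair
import Pool.Agent.Lib.MP_1ad228_ntN.LD_Ker

/-!
LEAF PPairY.  Values of tensors at two points of a finite ring.  Model: `val2` in `Lib/MP_1ad228_ntQ/PPair.lean` (its private lemmas may be copied).
PROOF.  For `(w, z)` the set `{a // ev a x = w ^ r ∧ ev a y = z ^ r}` is empty or a translate of `{a // ev a x = 0 ∧ ev a y = 0}`; with
`N = q ^ ((n + 1) ^ (r m))`: at most `N / (q * card II)` elements (`LD_ker2`).  If it is not empty then `z ^ r - (lam ^ m) ^ r * w ^ r ∈ II x y`,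
`lam = lin u y`.  For each `w` (`q` of them) the number of these `z` is at most `card II * rt r (II x y)` (`rtLeR`; all fibres of `R → R ⧸ II` have
`card II` elements).  Total `≤ q * card II * rt * N/(q card II)`.
-/

namespace Pool.Agent.Lib.MP_1ad228_ntY

open NumberField Classical
open Pool.Agent.Lib.MP_1ad228_ntN
open Pool.Agent.Lib.MP_1ad228_ntQ (val1)

set_option linter.unusedSectionVars false

variable {K : Type} [Field K] [NumberField K]

private theorem PPairY_trans {n d : ℕ} {R : Type*} [CommRing R] (x : Vc n R) (a a0 : Ten n d R) (c : R)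
    (h : ev a0 x = c) : ev a x = c ↔ ev (a - a0) x = 0 := by
  rw [ev_sub, h, sub_eq_zero]

/-- One pair of values. -/
private theorem PPairY_one {n d : ℕ} {R : Type*} [CommRing R] [Finite R] (x y : Vc n R) (s t : R)
    (a0 : Ten n d R) (h1 : ev a0 x = s) (h2 : ev a0 y = t) :
    Nat.card {a : Ten n d R // ev a x = s ∧ ev a y = t} =
      Nat.card {a : Ten n d R // ev a x = 0 ∧ ev a y = 0} :=
  Nat.card_congr ((Equiv.subRight a0).subtypeEquiv fun a =>
    and_congr (PPairY_trans x a a0 s h1) (PPairY_trans y a a0 t h2))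

private theorem PPairY_lin {n : ℕ} {R : Type*} [CommRing R] (x y u : Vc n R) (hu : lin u x = 1)
    (j : Fin (n + 1)) : y j - lin u y * x j ∈ II x y := by
  have h1 : y j - lin u y * x j = ∑ i, u i * mn x y i j := by
    have h2 : y j = lin u x * y j := by rw [hu, one_mul]
    calc y j - lin u y * x j = lin u x * y j - lin u y * x j := by rw [← h2]
      _ = ∑ i, u i * mn x y i j := by
        simp only [lin, mn, Finset.sum_mul, mul_sub, Finset.sum_sub_distrib]
        refine congrArg₂ (· - ·) (Finset.sum_congr rfl fun i _ => by ring)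
          (Finset.sum_congr rfl fun i _ => by ring)
  rw [h1]
  exact Ideal.sum_mem _ fun i _ => Ideal.mul_mem_left _ _ (mn_mem_II x y i j)

private theorem PPairY_map {n : ℕ} {R : Type*} [CommRing R] (x y u : Vc n R) (hu : lin u x = 1) :
    (fun l => Ideal.Quotient.mk (II x y) (y l)) =
      fun l => Ideal.Quotient.mk (II x y) (lin u y) * Ideal.Quotient.mk (II x y) (x l) := by
  funext l
  rw [← map_mul, ← sub_eq_zero, ← map_sub, Ideal.Quotient.eq_zero_iff_mem]
  exact PPairY_lin x y u hu l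

private theorem PPairY_ev {n d : ℕ} {R : Type*} [CommRing R] (x y u : Vc n R) (hu : lin u x = 1)
    (a : Ten n d R) : Ideal.Quotient.mk (II x y) (ev a y) =
      Ideal.Quotient.mk (II x y) (lin u y) ^ d * Ideal.Quotient.mk (II x y) (ev a x) := by
  rw [← ev_map (Ideal.Quotient.mk (II x y)) a y, ← ev_map (Ideal.Quotient.mk (II x y)) a x,
    PPairY_map x y u hu]
  exact ev_scale _ _ _

/-- Residues with a condition modulo `J`. -/
private theorem PPairY_cnt {R : Type*} [CommRing R] [Finite R] (r : ℕ) (J : Ideal R) (c : R ⧸ J) :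
    Nat.card {z : R // (Ideal.Quotient.mk J z) ^ r = c} ≤ Nat.card J * rt r J := by
  have hs : ∀ z : R, z - Quotient.out (Ideal.Quotient.mk J z) ∈ J := by
    intro z
    rw [← Ideal.Quotient.eq_zero_iff_mem, map_sub, sub_eq_zero]
    exact (Quotient.out_eq (Ideal.Quotient.mk J z)).symm
  let f : {z : R // (Ideal.Quotient.mk J z) ^ r = c} → J × {z : R ⧸ J // z ^ r = c} := fun p =>
    (⟨_, hs p.1⟩, ⟨Ideal.Quotient.mk J p.1, p.2⟩)
  have hf : Function.Injective f := by
    intro p q h
    have e1 : Ideal.Quotient.mk J p.1 = Ideal.Quotient.mk J q.1 := congrArg (fun z => z.2.1) h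
    have e3 : p.1 - Quotient.out (Ideal.Quotient.mk J p.1) =
        q.1 - Quotient.out (Ideal.Quotient.mk J q.1) := congrArg (fun z => (z.1 : R)) h
    rw [e1] at e3
    exact Subtype.ext (sub_left_injective e3)
  have hfin : Finite (R ⧸ J) := Finite.of_surjective _ Ideal.Quotient.mk_surjective
  have h3 := Nat.card_le_card_of_injective f hf
  rw [Nat.card_prod] at h3
  exact h3.trans (Nat.mul_le_mul_left _ (rtLeR r J c))

theorem val2Y {r n m : ℕ} (hr : 1 ≤ r) (hm : 1 ≤ m) {R : Type*} [CommRing R] [Fintype R]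
    (x y : Vc n R) (hx : Uni x) (hy : Uni y) :
    ∑ w : R, ∑ z : R, Nat.card {a : Ten n (r * m) R // ev a x = w ^ r ∧ ev a y = z ^ r} ≤
      Nat.card R ^ (n + 1) ^ (r * m) * rt r (II x y) := by
  obtain ⟨u, hu⟩ := id hx
  obtain ⟨c, hc⟩ : ∃ c, c = Ideal.Quotient.mk (II x y) (lin u y) ^ m := ⟨_, rfl⟩
  obtain ⟨κ, hκ⟩ : ∃ κ, κ = Nat.card {a : Ten n (r * m) R // ev a x = 0 ∧ ev a y = 0} := ⟨_, rfl⟩
  have h1 : ∀ w z : R, Nat.card {a : Ten n (r * m) R // ev a x = w ^ r ∧ ev a y = z ^ r} ≤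
      if (Ideal.Quotient.mk (II x y) z) ^ r = (c * Ideal.Quotient.mk (II x y) w) ^ r then κ
      else 0 := by
    intro w z
    by_cases h : ∃ a0 : Ten n (r * m) R, ev a0 x = w ^ r ∧ ev a0 y = z ^ r
    · obtain ⟨a0, ha, hb⟩ := h
      rw [PPairY_one x y _ _ a0 ha hb, hκ, if_pos]
      have h3 := PPairY_ev x y u hu a0
      rw [ha, hb, map_pow, map_pow] at h3
      rw [h3, hc]
      ring
    · have : IsEmpty {a : Ten n (r * m) R // ev a x = w ^ r ∧ ev a y = z ^ r} :=
        ⟨fun a => h ⟨a.1, a.2⟩⟩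
      rw [Nat.card_of_isEmpty]
      exact Nat.zero_le _
  have h4 : ∀ w : R, ∑ z : R, Nat.card {a : Ten n (r * m) R // ev a x = w ^ r ∧ ev a y = z ^ r} ≤
      Nat.card (II x y) * rt r (II x y) * κ := by
    intro w
    refine (Finset.sum_le_sum fun z _ => h1 w z).trans ?_
    rw [← Finset.sum_filter, Finset.sum_const, smul_eq_mul]
    refine Nat.mul_le_mul_right _ ?_
    have h5 := PPairY_cnt r (II x y) ((c * Ideal.Quotient.mk (II x y) w) ^ r)
    rwa [Nat.card_eq_fintype_card, Fintype.card_subtype] at h5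
  have h3 := Finset.sum_le_sum fun w (_ : w ∈ (Finset.univ : Finset R)) => h4 w
  rw [Finset.sum_const, Finset.card_univ, ← Nat.card_eq_fintype_card, smul_eq_mul] at h3
  have h6 := LD_ker2 (Nat.mul_pos hr hm) x y hx hy
  rw [← hκ] at h6
  calc _ ≤ _ := h3
    _ = κ * (Nat.card R * Nat.card (II x y)) * rt r (II x y) := by ring
    _ ≤ _ := Nat.mul_le_mul_right _ h6

end Pool.Agent.Lib.MP_1ad228_ntY
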