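import Pool.Agent.Lib.MP_1ad228_ntY.AlphaY
import Pool.Agent.Lib.MP_1ad228_ntY.BetaY

/-!
LEAF PairY.  The pair sums.  Model: `Lib/MP_1ad228_ntQ/PairD.lean`.
PROOF.  Near points: `alphaY`.  Far points: the weight is `rt/pn + rt nD/(pn Z^e)`; the second part is at most `C (B^(n-1) Q)^e/Z^e ≤
C (B^(n-1) Lam)^e` (`betaY2`, third term of `Lam`), the first as in the model with `betaY`.  `(log2 B + 2)^e ≥ 1`.
-/

namespace Pool.Agent.Lib.MP_1ad228_ntY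

open NumberField Classical
open Pool.Agent.Lib.MP_1ad228_ntN
open Pool.Agent.Lib.MP_219881_nt (mn)

set_option linter.unusedSectionVars false

variable {K : Type} [Field K] [NumberField K]

private theorem PairY_split2 {α : Type*} (G : Finset α) (f : α → ℝ) (p p1 p2 : α → Prop)
    [DecidablePred p] [DecidablePred p1] [DecidablePred p2]
    (hf : ∀ y ∈ G, 0 ≤ f y) (h : ∀ y ∈ G, p y → p1 y ∨ p2 y) :
    ∑ y ∈ G.filter p, f y ≤ ∑ y ∈ G.filter p1, f y + ∑ y ∈ G.filter p2, f y := by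
  rw [Finset.sum_filter, Finset.sum_filter, Finset.sum_filter, ← Finset.sum_add_distrib]
  refine Finset.sum_le_sum fun y hy => ?_
  have h0 := hf y hy
  by_cases hp : p y
  · rw [if_pos hp]
    rcases h y hy hp with h1 | h2
    · rw [if_pos h1]
      by_cases h2 : p2 y
      · rw [if_pos h2]; linarith
      · rw [if_neg h2]; linarith
    · rw [if_pos h2]
      by_cases h1 : p1 y
      · rw [if_pos h1]; linarith
      · rw [if_neg h1]; linarith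
  · rw [if_neg hp]
    by_cases h1 : p1 y
    · rw [if_pos h1]
      by_cases h2 : p2 y
      · rw [if_pos h2]; linarith
      · rw [if_neg h2]; linarith
    · rw [if_neg h1]
      by_cases h2 : p2 y
      · rw [if_pos h2]; linarith
      · rw [if_neg h2]; linarith

private theorem PairY_splitE {α ι : Type*} [Fintype ι] (G : Finset α) (f : α → ℝ) (p : α → Prop)
    (p1 : ι → α → Prop) [DecidablePred p] [∀ v, DecidablePred (p1 v)]
    (hf : ∀ y ∈ G, 0 ≤ f y) (h : ∀ y ∈ G, p y → ∃ v, p1 v y) :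
    ∑ y ∈ G.filter p, f y ≤ ∑ v, ∑ y ∈ G.filter (p1 v), f y := by
  simp only [Finset.sum_filter]
  rw [Finset.sum_comm]
  refine Finset.sum_le_sum fun y hy => ?_
  have h0 := hf y hy
  have h1 : ∀ v ∈ (Finset.univ : Finset ι), 0 ≤ (if p1 v y then f y else 0) := fun v _ => by
    split_ifs
    · exact h0
    · exact le_rfl
  by_cases hp : p y
  · rw [if_pos hp]
    obtain ⟨v, hv⟩ := h y hy hp
    have h2 := Finset.single_le_sum h1 (Finset.mem_univ v)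
    rwa [if_pos hv] at h2
  · rw [if_neg hp]
    exact Finset.sum_nonneg h1

private theorem PairY_nonneg {n : ℕ} (r : ℕ) (o : Fin (n + 1)) (x y : Vc n (𝓞 K)) :
    0 ≤ (rt r (Dd x y) : ℝ) / pn (Del o x y) :=
  div_nonneg (Nat.cast_nonneg _) (pn_nonneg fun v => Del_nonneg o x y v)

private theorem PairY_g_nonneg {n : ℕ} (x y : Vc n (𝓞 K)) (Z : ℕ) :
    0 ≤ nD x y / (Z : ℝ) ^ eK K := by
  have h : 0 ≤ nD x y := Nat.cast_nonneg _
  positivity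

private theorem PairY_w_nonneg {n : ℕ} (r : ℕ) (o : Fin (n + 1)) (x y : Vc n (𝓞 K)) (Z : ℕ) :
    0 ≤ (rt r (Dd x y) : ℝ) / pn (Del o x y) * (1 + nD x y / (Z : ℝ) ^ eK K) :=
  mul_nonneg (PairY_nonneg r o x y) (by linarith [PairY_g_nonneg x y Z])

/-- The weight is split. -/
private theorem PairY_wsplit {α : Type*} (G : Finset α) (F g : α → ℝ) (p p' : α → Prop)
    [DecidablePred p] [DecidablePred p'] (hF : ∀ y, 0 ≤ F y) (hg : ∀ y, 0 ≤ g y)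
    (h : ∀ y ∈ G, p y → p' y) :
    ∑ y ∈ G.filter p, F y * (1 + g y) ≤ ∑ y ∈ G.filter p, F y + ∑ y ∈ G.filter p', F y * g y := by
  have h1 : ∑ y ∈ G.filter p, F y * (1 + g y) =
      ∑ y ∈ G.filter p, F y + ∑ y ∈ G.filter p, F y * g y := by
    rw [← Finset.sum_add_distrib]
    exact Finset.sum_congr rfl fun y _ => by ring
  rw [h1]
  refine add_le_add le_rfl (Finset.sum_le_sum_of_subset_of_nonneg ?_ fun y _ _ =>
    mul_nonneg (hF y) (hg y))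
  intro y hy
  rw [Finset.mem_filter] at hy ⊢
  exact ⟨hy.1, h y hy.1 hy.2⟩

private theorem PairY_full (n : ℕ) (hn : 2 ≤ n) (B : ℕ) (hB : 1 ≤ B) (e : ℕ) :
    ((2 * (B : ℝ) ^ 2) ^ e) ^ (n - 1) * ((B : ℝ) / (B : ℝ) ^ n) ^ e ≤
      (2 ^ n) ^ e * ((B : ℝ) ^ (n - 1)) ^ e := by
  obtain ⟨m, rfl⟩ := Nat.exists_eq_add_of_le hn
  have hB0 : (0 : ℝ) < (B : ℝ) := by exact_mod_cast hB
  have e0 : 2 + m - 1 = 1 + m := by omega
  have e1 : (2 * (B : ℝ) ^ 2) ^ (1 + m) * ((B : ℝ) / (B : ℝ) ^ (2 + m)) =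
      2 ^ (1 + m) * (B : ℝ) ^ (1 + m) := by
    rw [mul_div_assoc', div_eq_iff (by positivity), mul_pow]
    ring
  have e2 : (2 * (B : ℝ) ^ 2) ^ (1 + m) * ((B : ℝ) / (B : ℝ) ^ (2 + m)) ≤
      2 ^ (2 + m) * (B : ℝ) ^ (1 + m) := by
    rw [e1]
    refine mul_le_mul_of_nonneg_right ?_ (by positivity)
    exact pow_le_pow_right₀ (by norm_num) (by omega)
  rw [e0, ← pow_mul, mul_comm e (1 + m), pow_mul, ← mul_pow, ← mul_pow]
  exact pow_le_pow_left₀ (by positivity) e2 e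

/-- The second part of the weight. -/
private theorem PairY_snd {n : ℕ} (r : ℕ) (o : Fin (n + 1)) (G : Finset (Vc n (𝓞 K)))
    (x : Vc n (𝓞 K)) (p : Vc n (𝓞 K) → Prop) [DecidablePred p] (B H Q Z : ℕ) (C : ℝ) (hC : 0 ≤ C)
    (hZ : 1 ≤ Z)
    (h : ∑ y ∈ G.filter p, (rt r (Dd x y) : ℝ) / pn (Del o x y) * nD x y ≤
      C * ((B : ℝ) ^ (n - 1) * Q) ^ eK K) :
    ∑ y ∈ G.filter p, (rt r (Dd x y) : ℝ) / pn (Del o x y) * (nD x y / (Z : ℝ) ^ eK K) ≤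
      C * (((Nat.log 2 B : ℝ) + 2) ^ eK K * ((B : ℝ) ^ (n - 1) * Lam n B H Q Z) ^ eK K) := by
  have hZ0 : (0 : ℝ) < (Z : ℝ) := by exact_mod_cast hZ
  have e1 : ∑ y ∈ G.filter p, (rt r (Dd x y) : ℝ) / pn (Del o x y) * (nD x y / (Z : ℝ) ^ eK K) =
      (∑ y ∈ G.filter p, (rt r (Dd x y) : ℝ) / pn (Del o x y) * nD x y) / (Z : ℝ) ^ eK K := by
    rw [Finset.sum_div]
    exact Finset.sum_congr rfl fun y _ => by rw [mul_div_assoc]
  rw [e1]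
  have h1 : (Q : ℝ) / Z ≤ Lam n B H Q Z := by
    unfold Lam
    have a1 : 0 ≤ (H : ℝ) ^ (n + 1) * Q / (B : ℝ) ^ n := by positivity
    have a2 : 0 ≤ (H : ℝ) ^ (n + 2) * Q / ((B : ℝ) ^ (n - 1) * Z) := by positivity
    linarith
  have h2 : (B : ℝ) ^ (n - 1) * ((Q : ℝ) / Z) ≤ (B : ℝ) ^ (n - 1) * Lam n B H Q Z :=
    mul_le_mul_of_nonneg_left h1 (by positivity)
  have h3 : ((B : ℝ) ^ (n - 1) * ((Q : ℝ) / Z)) ^ eK K ≤ ((B : ℝ) ^ (n - 1) * Lam n B H Q Z) ^ eK K :=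
    pow_le_pow_left₀ (by positivity) h2 _
  have h4 : (1 : ℝ) ≤ ((Nat.log 2 B : ℝ) + 2) ^ eK K := by
    refine one_le_pow₀ ?_
    have : (0 : ℝ) ≤ (Nat.log 2 B : ℝ) := Nat.cast_nonneg _
    linarith
  have h5 : ((B : ℝ) ^ (n - 1) * Q) ^ eK K / (Z : ℝ) ^ eK K = ((B : ℝ) ^ (n - 1) * ((Q : ℝ) / Z)) ^ eK K := by
    rw [← div_pow, mul_div_assoc]
  have h6 := div_le_div_of_nonneg_right h (show (0 : ℝ) ≤ (Z : ℝ) ^ eK K by positivity)
  rw [mul_div_assoc, h5] at h6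
  refine h6.trans (mul_le_mul_of_nonneg_left (h3.trans ?_) hC)
  have h7 : 0 ≤ ((B : ℝ) ^ (n - 1) * Lam n B H Q Z) ^ eK K := le_trans (by positivity) h3
  exact le_mul_of_one_le_left h7 h4

private theorem PairY_c_nonneg (v0 : InfinitePlace K) {k : ℕ} (hk : (1 : ℝ) ≤ k) (v : InfinitePlace K) :
    0 ≤ (if v = v0 then 1 / (k : ℝ) else 1) := by
  split_ifs
  · positivity
  · exact zero_le_one

private theorem PairY_pn_c (v0 : InfinitePlace K) {k : ℕ} (hk : (1 : ℝ) ≤ k) :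
    pn (fun v => if v = v0 then 1 / (k : ℝ) else 1) ≤ 1 / (k : ℝ) := by
  have h1 : pn (fun v => if v = v0 then 1 / (k : ℝ) else 1) = (1 / (k : ℝ)) ^ v0.mult := by
    unfold pn
    rw [Finset.prod_eq_single v0]
    · simp only [if_true]
    · intro b _ hb
      simp only [if_neg hb, one_pow]
    · intro h
      exact absurd (Finset.mem_univ v0) h
  rw [h1]
  refine pow_le_of_le_one (by positivity) ?_ (InfinitePlace.mult_pos).ne'
  rw [div_le_one (by linarith)]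
  exact hk

variable (K) in
theorem psAllY (n q r : ℕ) (hn : 2 ≤ n) (hq : 1 ≤ q) (hr : 1 ≤ r) : ∃ C : ℝ, 1 ≤ C ∧
    ∀ (B H Q Z : ℕ) (o : Fin (n + 1)), 1 ≤ B → 1 ≤ H → H ≤ B → 1 ≤ Q → 1 ≤ Z → H * B ≤ Q ^ 4 →
    ∀ x ∈ GG K B H q o,
    ∑ y ∈ (GG K B H q o).filter (fun y => ¬ Prp x y),
      (rt r (Dd x y) : ℝ) / pn (Del o x y) * (1 + nD x y / (Z : ℝ) ^ eK K) ≤
      C * (((B : ℝ) ^ (n - 1)) ^ eK K
        + ((Nat.log 2 B : ℝ) + 2) ^ eK K * ((B : ℝ) ^ (n - 1) * Lam n B H Q Z) ^ eK K) := by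
  obtain ⟨Ca, hCa, ha⟩ := alphaY K n q r (by omega) hq hr
  obtain ⟨Cb, hCb, hb⟩ := betaY K n q r hn hq hr
  obtain ⟨Cc, hCc, hc⟩ := betaY2 K n q r hn hq hr
  have hCb0 : (0 : ℝ) < Cb := by linarith
  have hCc0 : (0 : ℝ) < Cc := by linarith
  have hM : (0 : ℝ) ≤ Cb * (2 ^ n) ^ eK K := by positivity
  refine ⟨Ca + Cb * (2 ^ n) ^ eK K + Cc, by linarith, ?_⟩
  intro B H Q Z o hB hH hHB hQ hZ hHQ x hx
  have hBQ : B ≤ Q ^ 4 := (Nat.le_mul_of_pos_left B (by omega)).trans hHQ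
  have h1 := PairY_split2 (GG K B H q o)
    (fun y => (rt r (Dd x y) : ℝ) / pn (Del o x y) * (1 + nD x y / (Z : ℝ) ^ eK K))
    (fun y => ¬ Prp x y)
    (fun y => ¬ Prp x y ∧ pn (Del o x y) ≤ nD x y * (B : ℝ) ^ eK K)
    (fun y => ¬ Prp x y ∧ nD x y * (B : ℝ) ^ eK K < pn (Del o x y) ∧ ((0 : ℕ) : ℝ) < nD x y ∧
      ∀ v, Del o x y v ≤ 2 * (B : ℝ) ^ 2)
    (fun y _ => PairY_w_nonneg r o x y Z) (by
      intro y hy hne
      by_cases h : pn (Del o x y) ≤ nD x y * (B : ℝ) ^ eK K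
      · exact Or.inl ⟨hne, h⟩
      · refine Or.inr ⟨hne, not_le.mp h, ?_, fun v => Del_le hx hy v⟩
        rw [Nat.cast_zero]
        linarith [one_le_nD hne])
  have h1b := PairY_wsplit (GG K B H q o) (fun y => (rt r (Dd x y) : ℝ) / pn (Del o x y))
    (fun y => nD x y / (Z : ℝ) ^ eK K)
    (fun y => ¬ Prp x y ∧ nD x y * (B : ℝ) ^ eK K < pn (Del o x y) ∧ ((0 : ℕ) : ℝ) < nD x y ∧
      ∀ v, Del o x y v ≤ 2 * (B : ℝ) ^ 2)
    (fun y => ¬ Prp x y ∧ nD x y * (B : ℝ) ^ eK K < pn (Del o x y))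
    (fun y => PairY_nonneg r o x y) (fun y => PairY_g_nonneg x y Z)
    (fun y _ h => ⟨h.1, h.2.1⟩)
  have h2 := ha B H Q Z o hB hH hHB hQ hZ hHQ x hx
  have h3 := hb B H 0 (fun _ => 2 * (B : ℝ) ^ 2) o hB (fun v => by positivity) x hx
  have h3c := PairY_snd r o (GG K B H q o) x _ B H Q Z Cc hCc0.le hZ (hc B H Q o hB hQ hBQ x hx)
  have h4 := PairY_full n hn B hB (eK K)
  have e0 : ((Nat.sqrt 0 : ℝ) + 1) = 1 := by rw [Nat.sqrt_zero]; norm_num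
  rw [e0, div_one, pn_const] at h3
  have hP : 0 ≤ ((B : ℝ) ^ (n - 1)) ^ eK K := by positivity
  have hR : 0 ≤ ((Nat.log 2 B : ℝ) + 2) ^ eK K * ((B : ℝ) ^ (n - 1) * Lam n B H Q Z) ^ eK K := by
    unfold Lam
    positivity
  have h5 := mul_le_mul_of_nonneg_left h4 hCb0.le
  refine (h1.trans (add_le_add h2 (h1b.trans (add_le_add (h3.trans h5) h3c)))).trans ?_
  rw [mul_assoc Ca]
  generalize ((Nat.log 2 B : ℝ) + 2) ^ eK K * ((B : ℝ) ^ (n - 1) * Lam n B H Q Z) ^ eK K = R at hR ⊢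
  generalize ((B : ℝ) ^ (n - 1)) ^ eK K = P at hP ⊢
  have h6 : 0 ≤ Ca * P := mul_nonneg (by linarith) hP
  have h7 : 0 ≤ Cb * (2 ^ n) ^ eK K * R := mul_nonneg hM hR
  have h9 : 0 ≤ Cc * P := mul_nonneg hCc0.le hP
  have h8 : (Ca + Cb * (2 ^ n) ^ eK K + Cc) * (P + R) =
      Ca * R + (Cb * ((2 ^ n) ^ eK K * P) + Cc * R) +
        (Ca * P + Cb * (2 ^ n) ^ eK K * R + Cc * P) := by ring
  rw [h8]
  linarith

variable (K) in
theorem psBadY (n q r : ℕ) (hn : 2 ≤ n) (hq : 1 ≤ q) (hr : 1 ≤ r) : ∃ C : ℝ, 1 ≤ C ∧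
    ∀ (B H Q Z k w W : ℕ) (o : Fin (n + 1)), 1 ≤ B → 1 ≤ H → H ≤ B → 1 ≤ Q → 1 ≤ Z →
    H * B ≤ Q ^ 4 → 1 ≤ k → (∀ m, 1 ≤ m → m ≤ w → m ∣ W) → ∀ x ∈ GG K B H q o,
    ∑ y ∈ (GG K B H q o).filter (fun y => ¬ Prp x y ∧
        ¬ (((W : ℕ) : 𝓞 K) ∈ Dd x y ∧ ∀ v, (B : ℝ) ^ 2 ≤ k * Del o x y v)),
      (rt r (Dd x y) : ℝ) / pn (Del o x y) * (1 + nD x y / (Z : ℝ) ^ eK K) ≤
      C * (((B : ℝ) ^ (n - 1)) ^ eK K * (1 / (k : ℝ) + 1 / ((Nat.sqrt w : ℝ) + 1))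
        + ((Nat.log 2 B : ℝ) + 2) ^ eK K * ((B : ℝ) ^ (n - 1) * Lam n B H Q Z) ^ eK K) := by
  obtain ⟨Ca, hCa, ha⟩ := alphaY K n q r (by omega) hq hr
  obtain ⟨Cb, hCb, hb⟩ := betaY K n q r hn hq hr
  obtain ⟨Cc, hCc, hc⟩ := betaY2 K n q r hn hq hr
  have hCc0 : (0 : ℝ) < Cc := by linarith
  have hCb0 : (0 : ℝ) < Cb := by linarith
  have hM : (0 : ℝ) ≤ Cb * (2 ^ n) ^ eK K := by positivity
  have hM2 : (0 : ℝ) ≤ (eK K : ℝ) * (Cb * (2 ^ n) ^ eK K) := mul_nonneg (Nat.cast_nonneg _) hM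
  refine ⟨Ca + Cb * (2 ^ n) ^ eK K + (eK K : ℝ) * (Cb * (2 ^ n) ^ eK K) + Cc, by linarith, ?_⟩
  intro B H Q Z k w W o hB hH hHB hQ hZ hHQ hk hW x hx
  have hBQ : B ≤ Q ^ 4 := (Nat.le_mul_of_pos_left B (by omega)).trans hHQ
  have hk1 : (1 : ℝ) ≤ (k : ℝ) := by exact_mod_cast hk
  have hk0 : (0 : ℝ) < (k : ℝ) := by linarith
  have hB0 : (0 : ℝ) < (B : ℝ) := by exact_mod_cast hB
  have h1 := PairY_split2 (GG K B H q o)
    (fun y => (rt r (Dd x y) : ℝ) / pn (Del o x y) * (1 + nD x y / (Z : ℝ) ^ eK K))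
    (fun y => ¬ Prp x y ∧
        ¬ (((W : ℕ) : 𝓞 K) ∈ Dd x y ∧ ∀ v, (B : ℝ) ^ 2 ≤ k * Del o x y v))
    (fun y => ¬ Prp x y ∧ pn (Del o x y) ≤ nD x y * (B : ℝ) ^ eK K)
    (fun y => (¬ Prp x y ∧ nD x y * (B : ℝ) ^ eK K < pn (Del o x y) ∧ (w : ℝ) < nD x y ∧
      ∀ v, Del o x y v ≤ 2 * (B : ℝ) ^ 2) ∨
      ∃ v0 : InfinitePlace K, ¬ Prp x y ∧ nD x y * (B : ℝ) ^ eK K < pn (Del o x y) ∧
        ((0 : ℕ) : ℝ) < nD x y ∧ ∀ v, Del o x y v ≤ (if v = v0 then 1 / (k : ℝ) else 1) * (2 * (B : ℝ) ^ 2))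
    (fun y _ => PairY_w_nonneg r o x y Z) (by
      intro y hy hne
      obtain ⟨hne, hno⟩ := hne
      by_cases h : pn (Del o x y) ≤ nD x y * (B : ℝ) ^ eK K
      · exact Or.inl ⟨hne, h⟩
      · refine Or.inr ?_
        by_cases hdW : ((W : ℕ) : 𝓞 K) ∈ Dd x y
        · have h5 : ∃ v0, ¬ (B : ℝ) ^ 2 ≤ k * Del o x y v0 := by
            by_contra hcon
            push Not at hcon
            exact hno ⟨hdW, hcon⟩
          obtain ⟨v0, hv0⟩ := h5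
          refine Or.inr ⟨v0, hne, not_le.mp h, ?_, fun v => ?_⟩
          · rw [Nat.cast_zero]
            linarith [one_le_nD hne]
          · by_cases hv : v = v0
            · rw [if_pos hv, hv, one_div, ← div_eq_inv_mul, le_div_iff₀ hk0]
              have h6 := not_le.mp hv0
              have h7 : (0 : ℝ) ≤ (B : ℝ) ^ 2 := by positivity
              linarith [mul_comm (k : ℝ) (Del o x y v0)]
            · rw [if_neg hv, one_mul]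
              exact Del_le hx hy v
        · refine Or.inl ⟨hne, not_le.mp h, ?_, fun v => Del_le hx hy v⟩
          by_contra hcon
          have h8 : Ideal.absNorm (Dd x y) ≤ w := by
            have h9 : (Ideal.absNorm (Dd x y) : ℝ) ≤ w := not_lt.mp hcon
            exact_mod_cast h9
          have h9 : 1 ≤ Ideal.absNorm (Dd x y) := by
            have h10 : (1 : ℝ) ≤ (Ideal.absNorm (Dd x y) : ℝ) := one_le_nD hne
            exact_mod_cast h10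
          obtain ⟨c, hc⟩ := hW _ h9 h8
          apply hdW
          rw [hc, Nat.cast_mul]
          exact Ideal.mul_mem_right _ _ (Ideal.absNorm_mem (Dd x y)))
  have h1b := PairY_wsplit (GG K B H q o) (fun y => (rt r (Dd x y) : ℝ) / pn (Del o x y))
    (fun y => nD x y / (Z : ℝ) ^ eK K)
    (fun y => (¬ Prp x y ∧ nD x y * (B : ℝ) ^ eK K < pn (Del o x y) ∧ (w : ℝ) < nD x y ∧
      ∀ v, Del o x y v ≤ 2 * (B : ℝ) ^ 2) ∨
      ∃ v0 : InfinitePlace K, ¬ Prp x y ∧ nD x y * (B : ℝ) ^ eK K < pn (Del o x y) ∧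
        ((0 : ℕ) : ℝ) < nD x y ∧ ∀ v, Del o x y v ≤ (if v = v0 then 1 / (k : ℝ) else 1) * (2 * (B : ℝ) ^ 2))
    (fun y => ¬ Prp x y ∧ nD x y * (B : ℝ) ^ eK K < pn (Del o x y))
    (fun y => PairY_nonneg r o x y) (fun y => PairY_g_nonneg x y Z)
    (fun y _ h => by
      rcases h with h | ⟨v0, h⟩
      · exact ⟨h.1, h.2.1⟩
      · exact ⟨h.1, h.2.1⟩)
  have h3c := PairY_snd r o (GG K B H q o) x _ B H Q Z Cc hCc0.le hZ (hc B H Q o hB hQ hBQ x hx)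
  have h1' := PairY_split2 (GG K B H q o) (fun y => (rt r (Dd x y) : ℝ) / pn (Del o x y))
    (fun y => (¬ Prp x y ∧ nD x y * (B : ℝ) ^ eK K < pn (Del o x y) ∧ (w : ℝ) < nD x y ∧
      ∀ v, Del o x y v ≤ 2 * (B : ℝ) ^ 2) ∨
      ∃ v0 : InfinitePlace K, ¬ Prp x y ∧ nD x y * (B : ℝ) ^ eK K < pn (Del o x y) ∧
        ((0 : ℕ) : ℝ) < nD x y ∧ ∀ v, Del o x y v ≤ (if v = v0 then 1 / (k : ℝ) else 1) * (2 * (B : ℝ) ^ 2))
    (fun y => ¬ Prp x y ∧ nD x y * (B : ℝ) ^ eK K < pn (Del o x y) ∧ (w : ℝ) < nD x y ∧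
      ∀ v, Del o x y v ≤ 2 * (B : ℝ) ^ 2)
    (fun y => ∃ v0 : InfinitePlace K, ¬ Prp x y ∧ nD x y * (B : ℝ) ^ eK K < pn (Del o x y) ∧
        ((0 : ℕ) : ℝ) < nD x y ∧ ∀ v, Del o x y v ≤ (if v = v0 then 1 / (k : ℝ) else 1) * (2 * (B : ℝ) ^ 2))
    (fun y _ => PairY_nonneg r o x y) (fun y _ h => h)
  have h1'' := PairY_splitE (GG K B H q o) (fun y => (rt r (Dd x y) : ℝ) / pn (Del o x y))
    (fun y => ∃ v0 : InfinitePlace K, ¬ Prp x y ∧ nD x y * (B : ℝ) ^ eK K < pn (Del o x y) ∧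
        ((0 : ℕ) : ℝ) < nD x y ∧ ∀ v, Del o x y v ≤ (if v = v0 then 1 / (k : ℝ) else 1) * (2 * (B : ℝ) ^ 2))
    (fun (v0 : InfinitePlace K) y => ¬ Prp x y ∧ nD x y * (B : ℝ) ^ eK K < pn (Del o x y) ∧
        ((0 : ℕ) : ℝ) < nD x y ∧ ∀ v, Del o x y v ≤ (if v = v0 then 1 / (k : ℝ) else 1) * (2 * (B : ℝ) ^ 2))
    (fun y _ => PairY_nonneg r o x y) (fun y _ h => h)
  have h2 := ha B H Q Z o hB hH hHB hQ hZ hHQ x hx
  have h3 := hb B H w (fun _ => 2 * (B : ℝ) ^ 2) o hB (fun v => by positivity) x hx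
  rw [pn_const] at h3
  have hP : 0 ≤ ((B : ℝ) ^ (n - 1)) ^ eK K := by positivity
  have hR : 0 ≤ ((Nat.log 2 B : ℝ) + 2) ^ eK K * ((B : ℝ) ^ (n - 1) * Lam n B H Q Z) ^ eK K := by
    unfold Lam
    positivity
  have hw0 : (0 : ℝ) < (Nat.sqrt w : ℝ) + 1 := by positivity
  have f3 := PairY_full n hn B hB (eK K)
  have g3 := mul_le_mul_of_nonneg_left (div_le_div_of_nonneg_right f3 hw0.le) hCb0.le
  have h4 : ∀ v0 ∈ (Finset.univ : Finset (InfinitePlace K)), ∑ y ∈ (GG K B H q o).filter (fun y =>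
        ¬ Prp x y ∧ nD x y * (B : ℝ) ^ eK K < pn (Del o x y) ∧ ((0 : ℕ) : ℝ) < nD x y ∧
        ∀ v, Del o x y v ≤ (if v = v0 then 1 / (k : ℝ) else 1) * (2 * (B : ℝ) ^ 2)),
      (rt r (Dd x y) : ℝ) / pn (Del o x y) ≤
      Cb * ((2 ^ n) ^ eK K * ((B : ℝ) ^ (n - 1)) ^ eK K * (1 / (k : ℝ))) := by
    intro v0 _
    have e0 : ((Nat.sqrt 0 : ℝ) + 1) = 1 := by rw [Nat.sqrt_zero]; norm_num
    have h5 := hb B H 0 (fun v => (if v = v0 then 1 / (k : ℝ) else 1) * (2 * (B : ℝ) ^ 2)) o hB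
      (fun v => mul_nonneg (PairY_c_nonneg v0 hk1 v) (by positivity)) x hx
    rw [e0, div_one, pn_mul, pn_const] at h5
    refine h5.trans (mul_le_mul_of_nonneg_left ?_ hCb0.le)
    have h6 := PairY_pn_c v0 hk1
    have h7 : 0 ≤ pn (fun v => if v = v0 then 1 / (k : ℝ) else 1) :=
      pn_nonneg (PairY_c_nonneg v0 hk1)
    have h8 : 1 / (k : ℝ) ≤ 1 := by
      rw [div_le_one hk0]
      exact hk1
    have h9 : pn (fun v => if v = v0 then 1 / (k : ℝ) else 1) ^ (n - 1) ≤ 1 / (k : ℝ) :=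
      (pow_le_of_le_one h7 (h6.trans h8) (by omega)).trans h6
    rw [mul_pow, mul_assoc, mul_comm _ (1 / (k : ℝ))]
    exact mul_le_mul h9 f3 (by positivity) (by positivity)
  have h5 := Finset.sum_le_card_nsmul _ _ _ h4
  rw [nsmul_eq_mul, Finset.card_univ] at h5
  have h6 : (Fintype.card (InfinitePlace K) : ℝ) ≤ (eK K : ℝ) := by exact_mod_cast card_places_le (K := K)
  have h7 := h5.trans (mul_le_mul_of_nonneg_right h6 (by positivity))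
  have h8 := h1.trans (add_le_add h2 (h1b.trans (add_le_add (h1'.trans (add_le_add (h3.trans g3)
    (h1''.trans h7))) h3c)))
  refine h8.trans ?_
  rw [mul_assoc Ca]
  generalize ((Nat.log 2 B : ℝ) + 2) ^ eK K * ((B : ℝ) ^ (n - 1) * Lam n B H Q Z) ^ eK K = R at hR ⊢
  generalize ((B : ℝ) ^ (n - 1)) ^ eK K = P at hP ⊢
  have hk2 : 0 ≤ 1 / (k : ℝ) := by positivity
  have hw1 : 0 ≤ 1 / ((Nat.sqrt w : ℝ) + 1) := by positivity
  have ew : ((2 : ℝ) ^ n) ^ eK K * P / ((Nat.sqrt w : ℝ) + 1) = (2 ^ n) ^ eK K * (P * (1 / ((Nat.sqrt w : ℝ) + 1))) := by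
    rw [mul_one_div, mul_div_assoc]
  rw [ew]
  have p1 : 0 ≤ P * (1 / (k : ℝ)) := mul_nonneg hP hk2
  have p2 : 0 ≤ P * (1 / ((Nat.sqrt w : ℝ) + 1)) := mul_nonneg hP hw1
  generalize (eK K : ℝ) = e at hM2 ⊢
  generalize ((2 : ℝ) ^ n) ^ eK K = M at hM hM2 ⊢
  have hexp : (Ca + Cb * M + e * (Cb * M) + Cc) * (P * (1 / (k : ℝ) + 1 / ((Nat.sqrt w : ℝ) + 1)) + R) =
      Ca * R + (Cb * (M * (P * (1 / ((Nat.sqrt w : ℝ) + 1)))) + e * (Cb * (M * P * (1 / (k : ℝ)))) +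
        Cc * R) +
      (Cc * (P * (1 / (k : ℝ))) + Cc * (P * (1 / ((Nat.sqrt w : ℝ) + 1))) +
        Ca * (P * (1 / (k : ℝ))) + Ca * (P * (1 / ((Nat.sqrt w : ℝ) + 1))) +
        Cb * M * (P * (1 / (k : ℝ))) + e * (Cb * M) * (P * (1 / ((Nat.sqrt w : ℝ) + 1))) +
        Cb * M * R + e * (Cb * M) * R) := by ring
  rw [hexp]
  have hCa0 : 0 ≤ Ca := by linarith
  have q7 : 0 ≤ Cc * (P * (1 / (k : ℝ))) := mul_nonneg hCc0.le p1
  have q8 : 0 ≤ Cc * (P * (1 / ((Nat.sqrt w : ℝ) + 1))) := mul_nonneg hCc0.le p2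
  have q1 : 0 ≤ Ca * (P * (1 / (k : ℝ))) := mul_nonneg hCa0 p1
  have q2 : 0 ≤ Ca * (P * (1 / ((Nat.sqrt w : ℝ) + 1))) := mul_nonneg hCa0 p2
  have q3 : 0 ≤ Cb * M * (P * (1 / (k : ℝ))) := mul_nonneg hM p1
  have q4 : 0 ≤ e * (Cb * M) * (P * (1 / ((Nat.sqrt w : ℝ) + 1))) := mul_nonneg hM2 p2
  have q5 : 0 ≤ Cb * M * R := mul_nonneg hM hR
  have q6 : 0 ≤ e * (Cb * M) * R := mul_nonneg hM2 hR
  linarith

end Pool.Agent.Lib.MP_1ad228_ntY
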