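import Pool.Agent.Lib.MP_1ad228_ntY.VarY
import Pool.Agent.Lib.MP_1ad228_ntQ.N1Sq
import Pool.Agent.Lib.MP_1ad228_ntY.ParY
import Pool.Agent.Lib.MP_1ad228_ntN.MN_GG
import Pool.Agent.Lib.MP_1ad228_ntN.MN_Pos

/-!
LEAF PosAY.  A positive proportion has a point.  Model: `Lib/MP_1ad228_ntQ/PosA.lean`.
PROOF.  As in the model with `A = s^r`, `l = lY r`, `q = 4`, `w ∈ OBox K Z0`, `Z0 = s B^m/(4 q^m)` (so that `4 q^d v(w)^r ≤ A B^d`: `4 q^(rm) /(4 q^m)^r ≤ 1`),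
`parY` with `M = 1`: `B^ι ≤ s^(r-1) ≤ 2^D0 B^ι`, `Z = s B^m` in `pairSlY`, `E = (B^ι/s^(r-1))^e ∈ [2^(-D0 e), 1]`, `lamY` with `θ = 1`.
General `A`: `s` the largest natural number with `s^r ≤ A`: `A < (s+1)^r ≤ 2^r s^r`.
-/

namespace Pool.Agent.Lib.MP_1ad228_ntY

open NumberField Classical
open Pool.Agent.Lib.MP_1ad228_ntN
open Pool.Agent.Lib.MP_1ad228_ntQ (n1Sq)

set_option linter.unusedSectionVars false

variable {K : Type} [Field K] [NumberField K]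

/-- Pairs of conditions are counted by the weighted slices. -/
private theorem PosAY_pair {r n m A : ℕ} (hA : 1 ≤ A) (p p' : Vc n (𝓞 K) × 𝓞 K) :
    ∑ a ∈ Box K n (r * m) A, (if ev a p.1 = p.2 ^ r then (1 : ℝ) else 0) *
      (if ev a p'.1 = p'.2 ^ r then (1 : ℝ) else 0) ≤
      2 * sl (r * m) A p.1 p'.1 (p.2 ^ r) (p'.2 ^ r) := by
  have h1 : ∀ a : Ten n (r * m) (𝓞 K), (if ev a p.1 = p.2 ^ r then (1 : ℝ) else 0) *
      (if ev a p'.1 = p'.2 ^ r then (1 : ℝ) else 0) =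
      if (ev a p.1 = p.2 ^ r ∧ ev a p'.1 = p'.2 ^ r) then (1 : ℝ) else 0 := by
    intro a
    by_cases p1 : ev a p.1 = p.2 ^ r
    · by_cases p2 : ev a p'.1 = p'.2 ^ r
      · rw [if_pos p1, if_pos p2, if_pos ⟨p1, p2⟩, mul_one]
      · rw [if_neg p2, mul_zero, if_neg (fun h => p2 h.2)]
    · rw [if_neg p1, zero_mul, if_neg (fun h => p1 h.1)]
  rw [Finset.sum_congr rfl (fun a _ => h1 a), ← Finset.sum_filter]
  unfold sl
  rw [Finset.mul_sum]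
  have hsub : (Box K n (r * m) A).filter (fun a => ev a p.1 = p.2 ^ r ∧ ev a p'.1 = p'.2 ^ r) ⊆
      (Box K n (r * m) (2 * A)).filter (fun a => ev a p.1 = p.2 ^ r ∧ ev a p'.1 = p'.2 ^ r) := by
    intro a ha
    obtain ⟨h2, h3⟩ := Finset.mem_filter.1 ha
    refine Finset.mem_filter.2 ⟨?_, h3⟩
    rw [mem_Box_iff_tn] at h2 ⊢
    have h4 : (0 : ℝ) ≤ (A : ℝ) := Nat.cast_nonneg _
    linarith
  calc ∑ a ∈ (Box K n (r * m) A).filter (fun a => ev a p.1 = p.2 ^ r ∧ ev a p'.1 = p'.2 ^ r), (1 : ℝ)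
      ≤ ∑ a ∈ (Box K n (r * m) A).filter (fun a => ev a p.1 = p.2 ^ r ∧ ev a p'.1 = p'.2 ^ r),
          2 * psi A a := by
        refine Finset.sum_le_sum fun a ha => ?_
        have h5 := psi_half hA (Finset.mem_filter.1 ha).1
        linarith
    _ ≤ _ := by
        refine Finset.sum_le_sum_of_subset_of_nonneg hsub fun a _ _ => ?_
        have := psi_nonneg A a
        positivity

/-- Cauchy - Schwarz. -/
private theorem PosAY_cs {r n m A : ℕ} (hA : 1 ≤ A) {B H q Z : ℕ} (hB : 1 ≤ B) (o : Fin (n + 1)) {Z' : ℝ}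
    (hZ : Z' ≤ (Z : ℝ)) :
    (∑ p ∈ GG K B H q o ×ˢ OBox K Z',
      (((Box K n (r * m) A).filter fun a => ev a p.1 = p.2 ^ r).card : ℝ)) ^ 2 ≤
      (((Box K n (r * m) A).filter fun a => ∃ (x : Vc n (𝓞 K)) (w : 𝓞 K), x ≠ 0 ∧
        ev a x = w ^ r).card : ℝ) *
      (2 * ∑ p ∈ GP K B H q Z o, ∑ p' ∈ GP K B H q Z o,
        sl (r * m) A p.1 p'.1 (p.2 ^ r) (p'.2 ^ r)) := by
  obtain ⟨T, hT⟩ : ∃ T : Finset (Vc n (𝓞 K) × 𝓞 K), T = GG K B H q o ×ˢ OBox K Z' := ⟨_, rfl⟩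
  have hTG : T ⊆ GP K B H q Z o := by
    intro p hp
    rw [hT] at hp
    obtain ⟨h1, h2⟩ := Finset.mem_product.1 hp
    refine Finset.mem_product.2 ⟨h1, ?_⟩
    rw [mem_OBox] at h2 ⊢
    exact fun v => (h2 v).trans hZ
  rw [← hT]
  obtain ⟨N, hN⟩ : ∃ N : Ten n (r * m) (𝓞 K) → ℝ, N = fun a => ∑ p ∈ T,
    (if ev a p.1 = p.2 ^ r then (1 : ℝ) else 0) := ⟨_, rfl⟩
  have hs1 : ∑ a ∈ Box K n (r * m) A, N a =
      ∑ p ∈ T, (((Box K n (r * m) A).filter fun a => ev a p.1 = p.2 ^ r).card : ℝ) := by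
    rw [hN, Finset.sum_comm]
    exact Finset.sum_congr rfl fun p _ => Finset.sum_boole _ _
  have hs2 : ∑ a ∈ Box K n (r * m) A, (N a) ^ 2 ≤
      2 * ∑ p ∈ GP K B H q Z o, ∑ p' ∈ GP K B H q Z o,
        sl (r * m) A p.1 p'.1 (p.2 ^ r) (p'.2 ^ r) := by
    have h1 : ∀ a : Ten n (r * m) (𝓞 K), (N a) ^ 2 = ∑ p ∈ T, ∑ p' ∈ T,
        (if ev a p.1 = p.2 ^ r then (1 : ℝ) else 0) *
        (if ev a p'.1 = p'.2 ^ r then (1 : ℝ) else 0) := by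
      intro a
      rw [hN, sq, Finset.sum_mul_sum]
    rw [Finset.sum_congr rfl (fun a _ => h1 a), Finset.sum_comm, Finset.mul_sum]
    have h0 : ∀ p p' : Vc n (𝓞 K) × 𝓞 K, 0 ≤ sl (r * m) A p.1 p'.1 (p.2 ^ r) (p'.2 ^ r) :=
      fun p p' => sl_nonneg _ _ _ _ _ _
    calc ∑ p ∈ T, ∑ a ∈ Box K n (r * m) A, ∑ p' ∈ T,
          (if ev a p.1 = p.2 ^ r then (1 : ℝ) else 0) *
          (if ev a p'.1 = p'.2 ^ r then (1 : ℝ) else 0)
        ≤ ∑ p ∈ T, 2 * ∑ p' ∈ GP K B H q Z o, sl (r * m) A p.1 p'.1 (p.2 ^ r) (p'.2 ^ r) := by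
          refine Finset.sum_le_sum fun p _ => ?_
          rw [Finset.sum_comm, Finset.mul_sum]
          calc ∑ p' ∈ T, ∑ a ∈ Box K n (r * m) A,
                (if ev a p.1 = p.2 ^ r then (1 : ℝ) else 0) *
                (if ev a p'.1 = p'.2 ^ r then (1 : ℝ) else 0)
              ≤ ∑ p' ∈ T, 2 * sl (r * m) A p.1 p'.1 (p.2 ^ r) (p'.2 ^ r) :=
                Finset.sum_le_sum fun p' _ => PosAY_pair hA p p'
            _ ≤ _ := Finset.sum_le_sum_of_subset_of_nonneg hTG fun p' _ _ => by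
                have := h0 p p'
                positivity
      _ ≤ _ := Finset.sum_le_sum_of_subset_of_nonneg hTG fun p _ _ => by
          have : 0 ≤ ∑ p' ∈ GP K B H q Z o, sl (r * m) A p.1 p'.1 (p.2 ^ r) (p'.2 ^ r) :=
            Finset.sum_nonneg fun p' _ => h0 p p'
          positivity
  obtain ⟨S0, hS0⟩ : ∃ S0 : Finset (Ten n (r * m) (𝓞 K)),
    S0 = (Box K n (r * m) A).filter fun a => N a ≠ 0 := ⟨_, rfl⟩
  have hS0sub : S0 ⊆ ((Box K n (r * m) A).filter fun a => ∃ (x : Vc n (𝓞 K)) (w : 𝓞 K), x ≠ 0 ∧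
        ev a x = w ^ r) := by
    intro a ha
    rw [hS0, Finset.mem_filter] at ha
    rw [Finset.mem_filter]
    refine ⟨ha.1, ?_⟩
    have h1 : ∃ p ∈ T, (if ev a p.1 = p.2 ^ r then (1 : ℝ) else 0) ≠ 0 := by
      apply Finset.exists_ne_zero_of_sum_ne_zero
      have := ha.2
      rw [hN] at this
      exact this
    obtain ⟨p, hp, hne⟩ := h1
    have h2 : ev a p.1 = p.2 ^ r := by
      by_contra h
      rw [if_neg h] at hne
      exact hne rfl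
    refine ⟨p.1, p.2, ?_, h2⟩
    intro h0
    rw [hT] at hp
    have h3 := GG_ne hB (Finset.mem_product.1 hp).1
    rw [h0] at h3
    exact h3 rfl
  have hsum : ∑ a ∈ Box K n (r * m) A, N a = ∑ a ∈ S0, N a := by
    rw [hS0, Finset.sum_filter_ne_zero]
  have hsumsq : ∑ a ∈ S0, (N a) ^ 2 ≤ ∑ a ∈ Box K n (r * m) A, (N a) ^ 2 := by
    apply Finset.sum_le_sum_of_subset_of_nonneg
    · rw [hS0]
      exact Finset.filter_subset _ _
    · intro a _ _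
      exact sq_nonneg _
  rw [← hs1, hsum]
  calc (∑ a ∈ S0, N a) ^ 2 ≤ (S0.card : ℝ) * ∑ a ∈ S0, (N a) ^ 2 := sq_sum_le_card_mul_sum_sq
    _ ≤ (S0.card : ℝ) * ∑ a ∈ Box K n (r * m) A, (N a) ^ 2 :=
        mul_le_mul_of_nonneg_left hsumsq (Nat.cast_nonneg _)
    _ ≤ _ := by
        refine mul_le_mul ?_ hs2 (Finset.sum_nonneg fun a _ => sq_nonneg _) (Nat.cast_nonneg _)
        exact_mod_cast Finset.card_le_card hS0sub

/-- Arithmetic of the second moment method. -/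
private theorem PosAY_ar (S N1 N2 A2 E C c : ℝ) (hE : 0 < E) (hC : 1 ≤ C)
    (hc : 0 < c) (hA2 : 0 < A2) (h1 : c * E * A2 ≤ N1) (h2 : N2 ≤ 6 * C * A2 * E)
    (hcs : N1 ^ 2 ≤ S * N2) (hS : 0 ≤ S) :
    c ^ 2 * E * A2 / (6 * C) ≤ S := by
  have hC0 : 0 < C := by linarith
  have h3 : (c * E * A2) ^ 2 ≤ S * (6 * C * A2 * E) :=
    (pow_le_pow_left₀ (by positivity) h1 2).trans (hcs.trans (mul_le_mul_of_nonneg_left h2 hS))
  have h4 : (c ^ 2 * E * A2 / (6 * C)) * (6 * C * A2 * E) = (c * E * A2) ^ 2 := by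
    field_simp
  rw [← h4] at h3
  exact le_of_mul_le_mul_right h3 (by positivity)

/-- The case of a power. -/
private theorem PosAY_sq (K : Type) [Field K] [NumberField K] (r n m : ℕ) (hr : 2 ≤ r)
    (hn : 2 ≤ n) (hm : 1 ≤ m) (hmn : (r - 1) * m ≤ n) : ∃ δ : ℝ, 0 < δ ∧ ∃ s0 : ℕ, 1 ≤ s0 ∧ ∀ s : ℕ, s0 ≤ s →
    δ * (((s ^ r : ℕ) : ℝ)) ^ (eK K * (n + 1) ^ (r * m)) ≤
    (((Box K n (r * m) ((s ^ r : ℕ) : ℝ)).filter fun a => ∃ (x : Vc n (𝓞 K)) (w : 𝓞 K), x ≠ 0 ∧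
      ev a x = w ^ r).card : ℝ) := by
  obtain ⟨ι, hι⟩ : ∃ ι : ℕ, ι = n + 1 - (r - 1) * m := ⟨_, rfl⟩
  obtain ⟨e, he⟩ : ∃ e : ℕ, e = eK K := ⟨_, rfl⟩
  have he1 : 1 ≤ e := by
    rw [he]
    exact Module.finrank_pos
  obtain ⟨V, hV⟩ : ∃ V : ℕ, V = (n + 1) ^ (r * m) := ⟨_, rfl⟩
  obtain ⟨c, hc, g1, hg1, hmany⟩ := manyGG K n (lY r) (by omega) (by unfold lY; omega)
  obtain ⟨C1, hC1, hn1⟩ := n1Sq K n (r * m) 4 (by norm_num)
  obtain ⟨C2, hC2, hpt⟩ := pairSlY K r n m 4 hr hn hm (by norm_num)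
  obtain ⟨g2, hg2, hlg⟩ := lamY r n m e hr hn hm hmn he1 1 le_rfl 1 one_pos
  have hCK := CK_one_le K n
  have hCK0 : 0 < CK K n := by linarith
  have hC10 : 0 < C1 := by linarith
  have hC20 : 0 < C2 := by linarith
  obtain ⟨P, hP⟩ : ∃ P : ℕ, P = 4 * 4 ^ m := ⟨_, rfl⟩
  have hP1 : 1 ≤ P := by
    rw [hP]
    have : 1 ≤ 4 ^ m := Nat.one_le_pow _ _ (by norm_num)
    omega
  have hP0 : (0 : ℝ) < P := by exact_mod_cast hP1
  obtain ⟨s0, hs0, hpar⟩ := parY r n m hr hn hm hmn 1 (⌈C1⌉₊ + ⌈C2⌉₊ + P) (g1 + g2) le_rfl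
  obtain ⟨D0, hD0⟩ : ∃ D0 : ℕ, D0 = (n * lY r + 1) * ι := ⟨_, rfl⟩
  rw [← hι] at hpar
  rw [← hD0] at hpar
  refine ⟨(c / (CK K n * (P : ℝ) ^ e * C1)) ^ 2 * (1 / 2 ^ D0) ^ e / (6 * C2), by positivity,
    s0, hs0, fun s hs => ?_⟩
  obtain ⟨g, hgg, hgg1, hgM, hMg, hNH, hNZ, _, hBZ, hHQ⟩ := hpar s hs
  rw [one_mul] at hgM hMg
  obtain ⟨B, hB⟩ : ∃ B : ℕ, B = g ^ (n * lY r + 1) := ⟨_, rfl⟩
  obtain ⟨H, hH⟩ : ∃ H : ℕ, H = g ^ (lY r + 2) := ⟨_, rfl⟩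
  obtain ⟨Q, hQ⟩ : ∃ Q : ℕ, Q = g ^ qY n r := ⟨_, rfl⟩
  obtain ⟨Z, hZ⟩ : ∃ Z : ℕ, Z = s * B ^ m := ⟨_, rfl⟩
  obtain ⟨A, hA⟩ : ∃ A : ℕ, A = s ^ r := ⟨_, rfl⟩
  rw [← hB] at hgM hMg hNZ hBZ hHQ
  rw [← hH] at hNH hHQ
  rw [← hQ] at hHQ
  rw [← hZ] at hNZ hBZ
  rw [← hA] at hNH
  rw [← hA]
  have hs1 : 1 ≤ s := hs0.trans hs
  have hA1 : 1 ≤ A := by rw [hA]; exact Nat.one_le_pow _ _ hs1
  have hB1 : 1 ≤ B := by rw [hB]; exact Nat.one_le_pow _ _ hgg1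
  have hH1 : 1 ≤ H := by rw [hH]; exact Nat.one_le_pow _ _ hgg1
  have hQ1 : 1 ≤ Q := by rw [hQ]; exact Nat.one_le_pow _ _ hgg1
  have hHB : H ≤ B := by
    rw [hH, hB]
    refine Nat.pow_le_pow_right hgg1 ?_
    have h1 : 2 * lY r ≤ n * lY r := Nat.mul_le_mul_right _ hn
    have h2 : 100 ≤ lY r := by unfold lY; omega
    omega
  have hs0r : (0 : ℝ) < s := by exact_mod_cast hs1
  have hA0r : (0 : ℝ) < A := by exact_mod_cast hA1
  have hB0r : (0 : ℝ) < B := by exact_mod_cast hB1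
  have hH1r : (1 : ℝ) ≤ H := by exact_mod_cast hH1
  have hG := hmany g (by omega) B H hB hH (0 : Fin (n + 1))
  have hNHr : ((⌈C1⌉₊ : ℝ) + (⌈C2⌉₊ : ℝ) + (P : ℝ)) * (H : ℝ) ^ 2 ≤ A := by exact_mod_cast hNH
  have hcC1 : C1 ≤ (⌈C1⌉₊ : ℝ) := Nat.le_ceil C1
  have hcC2 : C2 ≤ (⌈C2⌉₊ : ℝ) := Nat.le_ceil C2
  have hC1H : C1 * (H : ℝ) ≤ A := by
    have h1 : C1 * (H : ℝ) ≤ C1 * (H : ℝ) ^ 2 := mul_le_mul_of_nonneg_left (by nlinarith) hC10.le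
    have h2 : C1 * (H : ℝ) ^ 2 ≤ ((⌈C1⌉₊ : ℝ) + (⌈C2⌉₊ : ℝ) + (P : ℝ)) * (H : ℝ) ^ 2 :=
      mul_le_mul_of_nonneg_right (by linarith) (by positivity)
    linarith
  have hC2H : C2 * (H : ℝ) ^ 2 ≤ A := by
    have h2 : C2 * (H : ℝ) ^ 2 ≤ ((⌈C1⌉₊ : ℝ) + (⌈C2⌉₊ : ℝ) + (P : ℝ)) * (H : ℝ) ^ 2 :=
      mul_le_mul_of_nonneg_right (by linarith) (by positivity)
    linarith
  have hZ1 : 1 ≤ Z := by omega
  have hp := hpt (0 : Fin (n + 1)) B H A Z Q hB1 hH1 hHB hZ1 hQ1 hHQ hC2H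
  -- the smaller range
  obtain ⟨Z', hZ'⟩ : ∃ Z' : ℝ, Z' = (Z : ℝ) / (P : ℝ) := ⟨_, rfl⟩
  have hPZ : (P : ℝ) ≤ (Z : ℝ) := by
    have h1 : P ≤ Z := by omega
    exact_mod_cast h1
  have hZ'1 : 1 ≤ Z' := by
    rw [hZ', le_div_iff₀ hP0, one_mul]
    exact hPZ
  have hZ'Z : Z' ≤ Z := by
    rw [hZ']
    refine div_le_self (Nat.cast_nonneg _) ?_
    exact_mod_cast hP1
  have hcs := PosAY_cs (K := K) (r := r) (n := n) (m := m) hA1 (B := B) (H := H) (q := 4) (Z := Z) hB1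
    (0 : Fin (n + 1)) hZ'Z
  rw [← hV, ← he] at hp
  rw [← he] at hG
  rw [← hV, ← he]
  obtain ⟨E0, hE0⟩ : ∃ E0 : ℝ, E0 = (B : ℝ) ^ (n + 1) * Z / ((A : ℝ) * (B : ℝ) ^ (r * m)) := ⟨_, rfl⟩
  rw [← hE0] at hp
  have hEeq : E0 = (B : ℝ) ^ ι / (s : ℝ) ^ (r - 1) := by
    rw [hE0, hZ, hA]
    push_cast
    rw [div_eq_div_iff (by positivity) (by positivity)]
    have h1 : (B : ℝ) ^ (r * m) * (B : ℝ) ^ ι = (B : ℝ) ^ (n + 1) * (B : ℝ) ^ m := by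
      rw [← pow_add, ← pow_add]
      congr 1
      have h2 : r * m = (r - 1) * m + m := by
        obtain ⟨k, rfl⟩ : ∃ k, r = k + 1 := ⟨r - 1, by omega⟩
        rw [Nat.add_sub_cancel]
        ring
      omega
    have h2 : (s : ℝ) ^ r = s * (s : ℝ) ^ (r - 1) := by
      rw [← pow_succ']
      congr 1
      omega
    rw [h2]
    calc (B : ℝ) ^ (n + 1) * (s * (B : ℝ) ^ m) * (s : ℝ) ^ (r - 1)
        = ((B : ℝ) ^ (n + 1) * (B : ℝ) ^ m) * (s * (s : ℝ) ^ (r - 1)) := by ring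
      _ = ((B : ℝ) ^ (r * m) * (B : ℝ) ^ ι) * (s * (s : ℝ) ^ (r - 1)) := by rw [h1]
      _ = _ := by ring
  have hE0pos : 0 < E0 := by rw [hEeq]; positivity
  have hE01 : E0 ≤ 1 := by
    rw [hEeq, div_le_one (by positivity)]
    exact_mod_cast hgM
  have hE0low : 1 / 2 ^ D0 ≤ E0 := by
    rw [hEeq, div_le_div_iff₀ (by positivity) (by positivity), one_mul]
    have : (s : ℝ) ^ (r - 1) ≤ 2 ^ D0 * (B : ℝ) ^ ι := by exact_mod_cast hMg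
    linarith
  obtain ⟨E, hE⟩ : ∃ E : ℝ, E = E0 ^ e := ⟨_, rfl⟩
  rw [← hE] at hp
  have hEpos : 0 < E := by rw [hE]; positivity
  have hE1 : E ≤ 1 := by rw [hE]; exact pow_le_one₀ hE0pos.le hE01
  have hElow : (1 / 2 ^ D0) ^ e ≤ E := by
    rw [hE]
    exact pow_le_pow_left₀ (by positivity) hE0low e
  have hHp : ((Nat.log 2 B : ℝ) + 2) ^ e * Lam n B H Q Z ^ e ≤ 1 := by
    have h4 := hlg g (by omega) Z Z hZ1 le_rfl
    rw [← hB, ← hH, ← hQ] at h4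
    exact h4 hBZ
  -- lower bound of the first moment
  have hN1 : c / (CK K n * (P : ℝ) ^ e * C1) * E * (A : ℝ) ^ (e * V) ≤
      ∑ p ∈ GG K B H 4 (0 : Fin (n + 1)) ×ˢ OBox K Z',
        (((Box K n (r * m) A).filter fun a => ev a p.1 = p.2 ^ r).card : ℝ) := by
    have h1 : ∀ p ∈ GG K B H 4 (0 : Fin (n + 1)) ×ˢ OBox K Z',
        (A : ℝ) ^ (e * V) / (C1 * ((A : ℝ) * (B : ℝ) ^ (r * m)) ^ e) ≤
          (((Box K n (r * m) A).filter fun a => ev a p.1 = p.2 ^ r).card : ℝ) := by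
      intro p hp
      obtain ⟨h2, h3⟩ := Finset.mem_product.1 hp
      rw [mem_OBox] at h3
      rw [div_le_iff₀ (by positivity)]
      have h4 := hn1 B H A (0 : Fin (n + 1)) hB1 hH1 hC1H p.1 h2 (p.2 ^ r) ?_
      · rw [← hV, ← he] at h4
        linarith
      · intro v
        have h5 := h3 v
        have h6 : v ((p.2 ^ r : 𝓞 K) : K) = v (p.2 : K) ^ r := by
          push_cast
          rw [map_pow]
        rw [h6]
        have h7 : v (p.2 : K) ^ r ≤ Z' ^ r := pow_le_pow_left₀ (apply_nonneg v _) h5 r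
        have h8 : 4 * ((4 : ℕ) : ℝ) ^ (r * m) ≤ (P : ℝ) ^ r := by
          rw [hP]
          push_cast
          rw [mul_comm r m, pow_mul, mul_pow]
          exact mul_le_mul_of_nonneg_right (le_self_pow₀ (by norm_num) (by omega)) (by positivity)
        calc 4 * ((4 : ℕ) : ℝ) ^ (r * m) * v (p.2 : K) ^ r ≤ (P : ℝ) ^ r * Z' ^ r :=
              mul_le_mul h8 h7 (by positivity) (by positivity)
          _ = (Z : ℝ) ^ r := by
              rw [hZ', ← mul_pow, mul_div_cancel₀ _ hP0.ne']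
          _ = (A : ℝ) * (B : ℝ) ^ (r * m) := by
              rw [hZ, hA]
              push_cast
              rw [mul_pow, ← pow_mul, mul_comm m r]
    have h2 := Finset.sum_le_sum h1
    rw [Finset.sum_const, nsmul_eq_mul, Finset.card_product] at h2
    refine le_trans ?_ h2
    have h3 := OBox_low K n hZ'1
    rw [← he] at h3
    have h4 : Z' ^ e / CK K n ≤ ((OBox K Z').card : ℝ) := by
      rw [div_le_iff₀ hCK0]
      linarith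
    push_cast
    calc c / (CK K n * (P : ℝ) ^ e * C1) * E * (A : ℝ) ^ (e * V)
        = (c * (B : ℝ) ^ (e * (n + 1))) * (Z' ^ e / CK K n) *
          ((A : ℝ) ^ (e * V) / (C1 * ((A : ℝ) * (B : ℝ) ^ (r * m)) ^ e)) := by
          rw [hE, hE0, hZ', div_pow, div_pow, mul_pow ((B : ℝ) ^ (n + 1)),
            ← pow_mul (B : ℝ) (n + 1) e, mul_comm (n + 1) e]
          field_simp
      _ ≤ ((GG K B H 4 (0 : Fin (n + 1))).card : ℝ) * ((OBox K Z').card : ℝ) *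
          ((A : ℝ) ^ (e * V) / (C1 * ((A : ℝ) * (B : ℝ) ^ (r * m)) ^ e)) := by
          refine mul_le_mul_of_nonneg_right ?_ (by positivity)
          refine mul_le_mul hG h4 (by positivity) (Nat.cast_nonneg _)
  have hN2 : 2 * ∑ p ∈ GP K B H 4 Z (0 : Fin (n + 1)), ∑ p' ∈ GP K B H 4 Z (0 : Fin (n + 1)),
        sl (r * m) A p.1 p'.1 (p.2 ^ r) (p'.2 ^ r) ≤ 6 * C2 * (A : ℝ) ^ (e * V) * E := by
    have h3 : E + E ^ 2 * (1 + ((Nat.log 2 B : ℝ) + 2) ^ e *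
        Lam n B H Q Z ^ e) ≤ 3 * E := by
      have h5 : E ^ 2 * (1 + ((Nat.log 2 B : ℝ) + 2) ^ e *
        Lam n B H Q Z ^ e) ≤ E ^ 2 * 2 :=
        mul_le_mul_of_nonneg_left (by linarith) (by positivity)
      have h6 : E ^ 2 ≤ E := by
        rw [sq]
        exact mul_le_of_le_one_left hEpos.le hE1
      linarith
    have h7 := mul_le_mul_of_nonneg_left h3 (by positivity : 0 ≤ C2 * (A : ℝ) ^ (e * V))
    linarith
  have hfin := PosAY_ar _ _ _ ((A : ℝ) ^ (e * V)) E C2 (c / (CK K n * (P : ℝ) ^ e * C1)) hEpos hC2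
    (by positivity) (by positivity) hN1 hN2 hcs (Nat.cast_nonneg _)
  refine le_trans ?_ hfin
  calc (c / (CK K n * (P : ℝ) ^ e * C1)) ^ 2 * (1 / 2 ^ D0) ^ e / (6 * C2) * (A : ℝ) ^ (e * V)
      = (1 / 2 ^ D0) ^ e * ((c / (CK K n * (P : ℝ) ^ e * C1)) ^ 2 * (A : ℝ) ^ (e * V) / (6 * C2)) := by
        ring
    _ ≤ E * ((c / (CK K n * (P : ℝ) ^ e * C1)) ^ 2 * (A : ℝ) ^ (e * V) / (6 * C2)) :=
        mul_le_mul_of_nonneg_right hElow (by positivity)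
    _ = _ := by ring

theorem posY (K : Type) [Field K] [NumberField K] (r n m : ℕ) (hr : 2 ≤ r) (hn : 2 ≤ n)
    (hm : 1 ≤ m) (hmn : (r - 1) * m ≤ n) : PosY K n r m := by
  obtain ⟨δ, hδ, s0, hs0, hsq⟩ := PosAY_sq K r n m hr hn hm hmn
  obtain ⟨V, hV⟩ : ∃ V : ℕ, V = eK K * (n + 1) ^ (r * m) := ⟨_, rfl⟩
  refine ⟨δ / (2 ^ r) ^ V, by positivity, (s0 + 1) ^ r, fun A hA => ?_⟩
  obtain ⟨s, hs⟩ : ∃ s : ℕ, s = Nat.findGreatest (fun s => s ^ r ≤ A) A := ⟨_, rfl⟩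
  have hle : s0 + 1 ≤ A := (Nat.le_self_pow (by omega) _).trans hA
  have h1 : s0 + 1 ≤ s := by
    rw [hs]
    exact Nat.le_findGreatest hle hA
  have h2 : s ^ r ≤ A := by
    rw [hs]
    exact Nat.findGreatest_spec (P := fun s => s ^ r ≤ A) hle hA
  have h3 : A ≤ 2 ^ r * s ^ r := by
    have h4 : A < (s + 1) ^ r := by
      by_contra h5
      have h6 : (s + 1) ^ r ≤ A := not_lt.1 h5
      have h7 : s + 1 ≤ A := (Nat.le_self_pow (by omega) _).trans h6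
      have h8 : s + 1 ≤ Nat.findGreatest (fun s => s ^ r ≤ A) A := Nat.le_findGreatest h7 h6
      omega
    rw [← mul_pow]
    exact h4.le.trans (Nat.pow_le_pow_left (by omega) r)
  have h4 := hsq s (by omega)
  rw [← hV] at h4 ⊢
  have h3r : (A : ℝ) ≤ 2 ^ r * ((s ^ r : ℕ) : ℝ) := by exact_mod_cast h3
  have h2r : ((s ^ r : ℕ) : ℝ) ≤ (A : ℝ) := by exact_mod_cast h2
  calc δ / (2 ^ r) ^ V * (A : ℝ) ^ V ≤ δ / (2 ^ r) ^ V * (2 ^ r * ((s ^ r : ℕ) : ℝ)) ^ V :=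
        mul_le_mul_of_nonneg_left (pow_le_pow_left₀ (Nat.cast_nonneg _) h3r V) (by positivity)
    _ = δ * ((s ^ r : ℕ) : ℝ) ^ V := by
        rw [mul_pow (2 ^ r : ℝ)]
        field_simp
    _ ≤ _ := h4
    _ ≤ _ := by
        have h5 : ((Box K n (r * m) ((s ^ r : ℕ) : ℝ)).filter fun a => ∃ (x : Vc n (𝓞 K)) (w : 𝓞 K),
            x ≠ 0 ∧ ev a x = w ^ r) ⊆ ((Box K n (r * m) A).filter fun a => ∃ (x : Vc n (𝓞 K))
            (w : 𝓞 K), x ≠ 0 ∧ ev a x = w ^ r) := by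
          intro a ha
          obtain ⟨h6, h7⟩ := Finset.mem_filter.1 ha
          refine Finset.mem_filter.2 ⟨?_, h7⟩
          rw [mem_Box_iff_tn] at h6 ⊢
          linarith
        exact_mod_cast Finset.card_le_card h5

end Pool.Agent.Lib.MP_1ad228_ntY
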