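import Pool.Agent.Lib.MP_1ad228_ntY.Defs
import Pool.Agent.Lib.MP_1ad228_ntQ.RRob

/-!
LEAF RRobY.  Tensors which are soluble but not robust at the place `v`.  Model: `Lib/MP_1ad228_ntQ/RRob.lean`.
PROOF.  `robAnyY`: `v` is complex or `r` is odd: every element of `KK v` has an `r`-th root in `KK v` (complex: algebraically closed; real and `r` odd: real
root, with the sign).  `ξ = e_0 / 2`: `β = em v (a (0,..,0)) / A * (1/2)^(rm)`, `ω^r = β`; if `‖ω‖ ≥ 2 ρ` then `RobY`; so `‖β‖ < (2ρ)^r ≤ 2^r ρ`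
(`ρ ≤ 1/4`, `r ≥ 1`).
`robRealY`: `v` real, `r` even, `r m` even: as in the model; `ω = f(x')^(1/r)` if `f(x') ≥ (2ρ)^r`; `(2ρ)^r ≤ 2^r ρ`,
`|f(x) - f(x')| ≤ r m (n+1)^(rm) 4 ρ`.
-/

namespace Pool.Agent.Lib.MP_1ad228_ntY

open NumberField Classical
open Pool.Agent.Lib.MP_1ad228_ntN
open Pool.Agent.Lib.MP_1ad228_ntQ (HiQ)

set_option linter.unusedSectionVars false

variable {K : Type} [Field K] [NumberField K]

private theorem RRob_e0 {n d : ℕ} (α : Ten n d ℂ) (c : ℂ) :
    ev α (fun l : Fin (n + 1) => if l = 0 then c else 0) = α (fun _ => 0) * c ^ d := by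
  unfold ev
  rw [Finset.sum_eq_single (fun _ => 0)]
  · simp
  · intro s _ hs
    have : ∃ k, s k ≠ 0 := by
      by_contra h
      push Not at h
      exact hs (funext h)
    obtain ⟨k, hk⟩ := this
    rw [Finset.prod_eq_zero (Finset.mem_univ k) (if_neg hk), mul_zero]
  · intro h
    exact absurd (Finset.mem_univ _) h

private theorem RRobY_pow {r : ℕ} (hr : 2 ≤ r) {ρ : ℝ} (hρ : 0 < ρ) (hρ1 : ρ ≤ 1 / 4) :
    (2 * ρ) ^ r ≤ 2 ^ r * ρ := by
  rw [mul_pow]
  refine mul_le_mul_of_nonneg_left ?_ (by positivity)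
  calc ρ ^ r ≤ ρ ^ 1 := pow_le_pow_of_le_one hρ.le (by linarith) (by omega)
    _ = ρ := pow_one ρ

private theorem RRobY_root {r : ℕ} (hr : 2 ≤ r) (ho : Odd r) (b : ℝ) : ∃ c : ℝ, c ^ r = b := by
  rcases le_total 0 b with h | h
  · exact ⟨b ^ ((r : ℝ)⁻¹), Real.rpow_inv_natCast_pow h (by omega)⟩
  · refine ⟨-((-b) ^ ((r : ℝ)⁻¹)), ?_⟩
    rw [ho.neg_pow, Real.rpow_inv_natCast_pow (by linarith) (by omega), neg_neg]

private theorem RRobY_any {r : ℕ} (hr : 2 ≤ r) (v : InfinitePlace K) (hv : ¬ v.IsReal ∨ Odd r)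
    (β : ℂ) (hβ : β ∈ KK v) : ∃ ω : ℂ, ω ∈ KK v ∧ ω ^ r = β := by
  by_cases hr' : v.IsReal
  · have ho : Odd r := by
      rcases hv with h | h
      · exact absurd hr' h
      · exact h
    obtain ⟨c, hc⟩ := RRobY_root hr ho β.re
    refine ⟨(c : ℂ), fun _ => Complex.ofReal_im _, ?_⟩
    rw [← Complex.ofReal_pow, hc]
    exact Complex.ext rfl (by rw [Complex.ofReal_im]; exact (hβ hr').symm)
  · obtain ⟨ω, hω⟩ := IsAlgClosed.exists_pow_nat_eq β (n := r) (by omega)
    exact ⟨ω, fun h => absurd h hr', hω⟩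

theorem robAnyY {r n m : ℕ} (hr : 2 ≤ r) (v : InfinitePlace K) (hv : ¬ v.IsReal ∨ Odd r) (A : ℕ)
    (hA : 1 ≤ A) (ρ : ℝ) (hρ : 0 < ρ) (hρ1 : ρ ≤ 1 / 4) (a : Ten n (r * m) (𝓞 K))
    (h : ¬ RobY r v 0 ρ (scQ v A a)) :
    v (a (fun _ => 0) : K) ≤ 2 ^ (r * m + r) * ρ * A := by
  have hA' : (0 : ℝ) < A := by exact_mod_cast hA
  obtain ⟨β, hβ⟩ : ∃ β : ℂ, β = scQ v A a (fun _ => 0) * (1 / 2 : ℂ) ^ (r * m) := ⟨_, rfl⟩
  have hβn : ‖β‖ = v (a (fun _ => 0) : K) / A * (1 / 2 : ℝ) ^ (r * m) := by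
    rw [hβ, norm_mul, norm_pow]
    unfold scQ
    rw [norm_div, norm_em, Complex.norm_natCast]
    congr 2
    norm_num
  have hβK : β ∈ KK v := by
    intro hvr
    have h1 : (em v (a (fun _ => 0))).im = 0 := em_mem_KK v _ hvr
    have h2 : β = (((em v (a (fun _ => 0))).re / A * (1 / 2) ^ (r * m) : ℝ) : ℂ) := by
      rw [hβ]
      unfold scQ
      have h3 : em v (a (fun _ => 0)) = (((em v (a (fun _ => 0))).re : ℝ) : ℂ) := Complex.ext rfl h1
      conv_lhs => rw [h3]
      push_cast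
      ring
    rw [h2]
    exact Complex.ofReal_im _
  obtain ⟨ω, hωK, hω⟩ := RRobY_any hr v hv β hβK
  have hlt : ‖β‖ < (2 * ρ) ^ r := by
    by_contra hcon
    rw [not_lt] at hcon
    refine h ⟨fun l => if l = 0 then (1 / 2 : ℂ) else 0, ω, fun l hr => ?_, hωK, fun l => ?_, ?_, ?_, ?_⟩
    · dsimp only
      by_cases hl : l = 0
      · rw [if_pos hl]
        norm_num
      · rw [if_neg hl]
        norm_num
    · dsimp only
      by_cases hl : l = 0
      · rw [if_pos hl]
        norm_num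
      · rw [if_neg hl]
        norm_num
    · dsimp only
      rw [if_pos rfl]
      norm_num
      linarith
    · refine (pow_le_pow_iff_left₀ (by positivity) (norm_nonneg _) (by omega : r ≠ 0)).1 ?_
      rw [← norm_pow, hω]
      exact hcon
    · rw [hω, hβ]
      exact RRob_e0 _ _
  rw [hβn] at hlt
  have h2 := hlt.le.trans (RRobY_pow hr hρ hρ1)
  have h3 : (2 : ℝ) ^ (r * m) * (1 / 2) ^ (r * m) = 1 := by rw [← mul_pow]; norm_num
  calc v (a (fun _ => 0) : K) = (v (a (fun _ => 0) : K) / A * (1 / 2 : ℝ) ^ (r * m)) * (2 ^ (r * m) * A) := by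
        have : v (a (fun _ => 0) : K) / A * (1 / 2 : ℝ) ^ (r * m) * (2 ^ (r * m) * A) =
          (v (a (fun _ => 0) : K) / A * A) * (2 ^ (r * m) * (1 / 2) ^ (r * m)) := by ring
        rw [this, h3, mul_one, div_mul_cancel₀ _ hA'.ne']
    _ ≤ (2 ^ r * ρ) * (2 ^ (r * m) * A) := mul_le_mul_of_nonneg_right h2 (by positivity)
    _ = 2 ^ (r * m + r) * ρ * A := by rw [pow_add]; ring

/-- The real tensor. -/
private noncomputable def RRob_al {n d : ℕ} (v : InfinitePlace K) (A : ℕ) (a : Ten n d (𝓞 K)) : Ten n d ℝ :=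
  fun s => (em v (a s)).re / A

private theorem RRob_ev {n d : ℕ} {v : InfinitePlace K} (hv : v.IsReal) (A : ℕ) (a : Ten n d (𝓞 K))
    (x : Fin (n + 1) → ℝ) :
    ev (scQ v A a) (fun l => (x l : ℂ)) = ((ev (RRob_al v A a) x : ℝ) : ℂ) := by
  have h := ev_map Complex.ofRealHom (RRob_al v A a) x
  have h2 : scQ v A a = fun s => Complex.ofRealHom (RRob_al v A a s) := by
    funext s
    unfold scQ RRob_al
    have h3 := em_mem_KK v (a s) hv
    rw [Complex.ofRealHom_eq_coe, Complex.ofReal_div, Complex.ofReal_natCast]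
    congr 1
    exact Complex.ext rfl h3
  rw [h2]
  exact h

private theorem RRob_prod {ι : Type*} (s : Finset ι) (f g : ι → ℝ) (hf : ∀ i, |f i| ≤ 1) (hg : ∀ i, |g i| ≤ 1)
    (c : ℝ) (h : ∀ i, |f i - g i| ≤ c) : |∏ i ∈ s, f i - ∏ i ∈ s, g i| ≤ s.card * c := by
  induction s using Finset.induction_on with
  | empty => simp
  | insert i s hi ih =>
    rw [Finset.prod_insert hi, Finset.prod_insert hi, Finset.card_insert_of_notMem hi]
    have h1 : f i * ∏ j ∈ s, f j - g i * ∏ j ∈ s, g j =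
        f i * (∏ j ∈ s, f j - ∏ j ∈ s, g j) + (f i - g i) * ∏ j ∈ s, g j := by ring
    have h2 : |∏ j ∈ s, g j| ≤ 1 := by
      rw [Finset.abs_prod]
      exact Finset.prod_le_one (fun _ _ => abs_nonneg _) fun j _ => hg j
    have hc : 0 ≤ c := (abs_nonneg _).trans (h i)
    rw [h1]
    refine (abs_add_le _ _).trans ?_
    rw [abs_mul, abs_mul]
    have h3 : |f i| * |∏ j ∈ s, f j - ∏ j ∈ s, g j| ≤ 1 * (s.card * c) :=
      mul_le_mul (hf i) ih (abs_nonneg _) zero_le_one
    have h4 : |f i - g i| * |∏ j ∈ s, g j| ≤ c * 1 := mul_le_mul (h i) h2 (abs_nonneg _) hc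
    push_cast
    linarith

theorem robRealY {r n m : ℕ} (hr : 2 ≤ r) (hr2 : Even r) (v : InfinitePlace K) (hv : v.IsReal)
    (A : ℕ) (hA : 1 ≤ A) (ρ : ℝ) (hρ : 0 < ρ) (hρ1 : ρ ≤ 1 / 4) (a : Ten n (r * m) (𝓞 K))
    (ha : a ∈ Box K n (r * m) A) (hs : RSolY r v a) (h : ¬ RobY r v 0 ρ (scQ v A a)) :
    HiQ v A ((2 ^ r + 4 * (r * m) * (n + 1) ^ (r * m)) * ρ) a := by
  have hρr : (2 * ρ) ^ r ≤ 2 ^ r * ρ := RRobY_pow hr hρ hρ1
  have hA' : (0 : ℝ) < A := by exact_mod_cast hA
  have hal : ∀ s, |RRob_al v A a s| ≤ 1 := by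
    intro s
    unfold RRob_al
    rw [abs_div, abs_of_pos hA', div_le_one hA']
    exact (Complex.abs_re_le_norm _).trans ((norm_em v (a s)).le.trans (mem_Box.1 ha s v))
  refine ⟨?_, ?_⟩
  · obtain ⟨x, w, hx, hx0, hw, hxw⟩ := hs
    have hxr : ∀ l, x l = ((x l).re : ℂ) := fun l => Complex.ext rfl (by simpa using hx l hv)
    have hwr : w = (w.re : ℂ) := Complex.ext rfl (by simpa using hw hv)
    obtain ⟨l0, -, hl0⟩ := Finset.exists_max_image Finset.univ (fun l => |(x l).re|) Finset.univ_nonempty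
    set M : ℝ := |(x l0).re| with hM
    have hM0 : 0 < M := by
      rcases (abs_nonneg (x l0).re).lt_or_eq with h1 | h1
      · exact h1
      · exfalso
        refine hx0 (funext fun l => ?_)
        have h2 := hl0 l (Finset.mem_univ l)
        rw [hxr l]
        have h3 : (x l).re = 0 := by
          rw [← abs_eq_zero]
          refine le_antisymm ?_ (abs_nonneg _)
          rw [h1]
          exact h2
        rw [h3]
        simp
    refine ⟨fun l => 1 / (2 * M) * (x l).re, fun l => ?_, ⟨l0, ?_⟩, ?_⟩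
    · rw [abs_mul, abs_of_pos (by positivity), one_div_mul_eq_div, div_le_div_iff₀ (by positivity) (by norm_num)]
      have := hl0 l (Finset.mem_univ l)
      linarith
    · rw [abs_mul, abs_of_pos (by positivity), ← hM]
      field_simp
    · have e1 : (fun l => ((1 / (2 * M) * (x l).re : ℝ) : ℂ)) = fun l => ((1 / (2 * M) : ℝ) : ℂ) * x l := by
        funext l
        conv_rhs => rw [hxr l]
        push_cast
        ring
      have e2 : ev (scQ v A a) x = (((w.re) ^ r / A : ℝ) : ℂ) := by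
        have e3 : scQ v A a = fun s => ((1 / (A : ℝ) : ℝ) : ℂ) * tmap (em v) a s := by
          funext s
          unfold scQ tmap
          push_cast
          ring
        rw [e3, ev_smul, hxw]
        conv_lhs => rw [hwr]
        push_cast
        ring
      rw [e1, ev_scale, e2, ← Complex.ofReal_pow, ← Complex.ofReal_mul, Complex.ofReal_re]
      have e4 : 0 ≤ w.re ^ r := hr2.pow_nonneg _
      positivity
  · intro x hx
    set x' : Fin (n + 1) → ℝ := fun l => if l = 0 ∧ |x l| < 2 * ρ then 2 * ρ else x l with hx'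
    have h1 : ∀ l, |x' l| ≤ 1 / 2 := by
      intro l
      rw [hx']
      dsimp only
      split_ifs with hl
      · rw [abs_of_pos (by positivity)]
        linarith
      · exact hx l
    have h2 : ∀ l, |x l - x' l| ≤ 4 * ρ := by
      intro l
      rw [hx']
      dsimp only
      split_ifs with hl
      · have := hl.2
        rw [abs_lt] at this
        rw [abs_le]
        constructor <;> linarith
      · rw [sub_self, abs_zero]
        positivity
    have h3 : 2 * ρ ≤ |x' 0| := by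
      rw [hx']
      dsimp only
      split_ifs with hl
      · exact le_abs_self _
      · rw [not_and, not_lt] at hl
        exact hl rfl
    have h4 : ev (RRob_al v A a) x' < (2 * ρ) ^ r := by
      by_contra hcon
      rw [not_lt] at hcon
      have h5 : 0 ≤ ev (RRob_al v A a) x' := le_trans (by positivity) hcon
      have h50 : ((ev (RRob_al v A a) x') ^ ((r : ℝ)⁻¹)) ^ r = ev (RRob_al v A a) x' :=
        Real.rpow_inv_natCast_pow h5 (by omega)
      refine h ⟨fun l => (x' l : ℂ), (((ev (RRob_al v A a) x') ^ ((r : ℝ)⁻¹) : ℝ) : ℂ), fun l _ => Complex.ofReal_im _,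
        fun _ => Complex.ofReal_im _, fun l => ?_, ?_, ?_, ?_⟩
      · rw [Complex.norm_real]
        exact h1 l
      · rw [Complex.norm_real]
        exact h3
      · rw [Complex.norm_real, Real.norm_eq_abs, abs_of_nonneg (Real.rpow_nonneg h5 _)]
        refine (pow_le_pow_iff_left₀ (by positivity) (Real.rpow_nonneg h5 _) (by omega : r ≠ 0)).1 ?_
        rw [h50]
        exact hcon
      · rw [RRob_ev hv, ← Complex.ofReal_pow, h50]
    have h6 : |ev (RRob_al v A a) x - ev (RRob_al v A a) x'| ≤ (n + 1) ^ (r * m) * ((r * m : ℕ) * (4 * ρ)) := by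
      have e1 : ev (RRob_al v A a) x - ev (RRob_al v A a) x' =
          ∑ s : Fin (r * m) → Fin (n + 1), RRob_al v A a s * (∏ k, x (s k) - ∏ k, x' (s k)) := by
        unfold ev
        rw [← Finset.sum_sub_distrib]
        exact Finset.sum_congr rfl fun s _ => by ring
      rw [e1]
      refine (Finset.abs_sum_le_sum_abs _ _).trans ?_
      have e2 : ∀ s ∈ (Finset.univ : Finset (Fin (r * m) → Fin (n + 1))),
          |RRob_al v A a s * (∏ k, x (s k) - ∏ k, x' (s k))| ≤ (r * m : ℕ) * (4 * ρ) := by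
        intro s _
        rw [abs_mul]
        have e3 := RRob_prod Finset.univ (fun k => x (s k)) (fun k => x' (s k))
          (fun k => (hx (s k)).trans (by norm_num)) (fun k => (h1 (s k)).trans (by norm_num)) (4 * ρ)
          (fun k => h2 (s k))
        rw [Finset.card_univ, Fintype.card_fin] at e3
        calc |RRob_al v A a s| * |∏ k, x (s k) - ∏ k, x' (s k)| ≤ 1 * ((r * m : ℕ) * (4 * ρ)) :=
              mul_le_mul (hal s) e3 (abs_nonneg _) zero_le_one
          _ = _ := one_mul _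
      refine (Finset.sum_le_sum e2).trans (le_of_eq ?_)
      rw [Finset.sum_const, Finset.card_univ, Fintype.card_fun, Fintype.card_fin, Fintype.card_fin, nsmul_eq_mul]
      push_cast
      ring
    rw [RRob_ev hv, Complex.ofReal_re]
    have h7 := (abs_le.1 h6).2
    push_cast at h7
    have h8 : (2 ^ r + 4 * (r * m) * (n + 1) ^ (r * m)) * ρ =
      2 ^ r * ρ + ((n : ℝ) + 1) ^ (r * m) * (r * m * (4 * ρ)) := by ring
    rw [h8]
    linarith

end Pool.Agent.Lib.MP_1ad228_ntY
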