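import Pool.Agent.Lib.MP_1ad228_ntY.Defs
import Pool.Agent.Lib.MP_1ad228_ntY.EulerI
import Pool.Agent.Lib.MP_1ad228_ntN.LD_Base
import Pool.Agent.Lib.MP_1ad228_ntN.LD_Split

/-!
LEAF RtUp.  The number of `r`-th roots modulo an ideal.
PROOF.  `𝓞 K ⧸ I` is finite, so the supremum defining `rt` is over a finite set: `rtLe`.  `rtPos`: `0 ^ r = 0` (`r ≥ 1`), the element `t = 0`
has the root 0.
`rtMono`: let `t` mod `J` have the maximal number `ρ` of roots mod `J`.  The `z` mod `I` with `z ^ r ≡ t` mod `J` are the classes over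
these roots: `ρ * N(I)/N(J)` of them; their powers `z ^ r` take at most `N(I)/N(J)` values mod `I`; so some value has at
least `ρ` roots mod `I`.  (All fibres of `𝓞 K ⧸ I → 𝓞 K ⧸ J` have `N(I)/N(J)` elements.)
`rtUp`: let `R = ∏ P` over the primes `P ∈ T` with `vI P I ≥ 1` (the radical; `I ≤ R`).  If `z ^ r ≡ t` mod `I` then `z ^ r ≡ t` mod each such
`P`, and `𝓞 K ⧸ P` is a field, so there are at most `r` classes mod `P` (`r ≥ 1`: the roots of `X ^ r - t`,
`Polynomial.card_roots'`), hence at most `r ^ #` classes mod `R` (Chinese remainder theorem: an element mod `R` is determined by its classes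
mod the `P`), and at most `r ^ # * N(I)/N(R)` classes mod `I`.  `N(I) = ∏ N(P) ^ vI P I`.
-/

namespace Pool.Agent.Lib.MP_1ad228_ntY

open NumberField Classical
open Pool.Agent.Lib.MP_1ad228_ntN

set_option linter.unusedSectionVars false

variable {K : Type} [Field K] [NumberField K]

/-- The preimage of a set under a surjective homomorphism of finite groups. -/
private theorem RtUp_fib {G H : Type*} [AddCommGroup G] [AddCommGroup H] [Finite G] (f : G →+ H)
    (hf : Function.Surjective f) (p : H → Prop) :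
    Nat.card {z : G // p (f z)} = Nat.card {y : H // p y} * Nat.card f.ker := by
  rw [← Nat.card_prod]
  obtain ⟨s, hs⟩ := hf.hasRightInverse
  refine Nat.card_congr
    { toFun := fun z => (⟨f z.1, z.2⟩, ⟨z.1 - s (f z.1), ?_⟩)
      invFun := fun w => ⟨s w.1.1 + w.2.1, ?_⟩
      left_inv := ?_
      right_inv := ?_ }
  · rw [AddMonoidHom.mem_ker, map_sub, hs, sub_self]
  · rw [map_add, hs, (AddMonoidHom.mem_ker).1 w.2.2, add_zero]
    exact w.1.2
  · intro z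
    apply Subtype.ext
    simp
  · intro w
    have h2 : f w.2.1 = 0 := (AddMonoidHom.mem_ker).1 w.2.2
    have h1 : f (s w.1.1 + w.2.1) = w.1.1 := by rw [map_add, hs, h2, add_zero]
    refine Prod.ext (Subtype.ext ?_) (Subtype.ext ?_)
    · exact h1
    · change s w.1.1 + w.2.1 - s (f (s w.1.1 + w.2.1)) = w.2.1
      rw [h1]
      abel

private theorem RtUp_bdd {r : ℕ} {I : Ideal (𝓞 K)} (hI : I ≠ ⊥) :
    BddAbove (Set.range fun t : 𝓞 K ⧸ I => Nat.card {z : 𝓞 K ⧸ I // z ^ r = t}) := by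
  have := finite_quot hI
  exact (Set.finite_range _).bddAbove

theorem rtLe {r : ℕ} {I : Ideal (𝓞 K)} (hI : I ≠ ⊥) (t : 𝓞 K ⧸ I) :
    Nat.card {z : 𝓞 K ⧸ I // z ^ r = t} ≤ rt r I :=
  le_csSup (RtUp_bdd hI) ⟨t, rfl⟩

private theorem RtUp_ex (r : ℕ) {I : Ideal (𝓞 K)} (hI : I ≠ ⊥) :
    ∃ t : 𝓞 K ⧸ I, Nat.card {z : 𝓞 K ⧸ I // z ^ r = t} = rt r I :=
  Nat.sSup_mem (Set.range_nonempty _) (RtUp_bdd (r := r) hI)

theorem rtPos {r : ℕ} (hr : 1 ≤ r) {I : Ideal (𝓞 K)} (hI : I ≠ ⊥) : 1 ≤ rt r I := by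
  have := finite_quot hI
  refine le_trans ?_ (rtLe (r := r) hI 0)
  have : Nonempty {z : 𝓞 K ⧸ I // z ^ r = 0} := ⟨⟨0, zero_pow (by omega)⟩⟩
  exact Nat.one_le_iff_ne_zero.2 Nat.card_pos.ne'

/-- The map between the quotients as a homomorphism of groups. -/
private noncomputable def RtUp_pi {I J : Ideal (𝓞 K)} (h : I ≤ J) : 𝓞 K ⧸ I →+ 𝓞 K ⧸ J :=
  (Ideal.Quotient.factor h).toAddMonoidHom

private theorem RtUp_pi_pow {I J : Ideal (𝓞 K)} (h : I ≤ J) (z : 𝓞 K ⧸ I) (r : ℕ) :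
    RtUp_pi h (z ^ r) = RtUp_pi h z ^ r := map_pow (Ideal.Quotient.factor h) z r

private theorem RtUp_pi_surj {I J : Ideal (𝓞 K)} (h : I ≤ J) : Function.Surjective (RtUp_pi h) :=
  Ideal.Quotient.factor_surjective h

private theorem RtUp_ker {I J : Ideal (𝓞 K)} (hI : I ≠ ⊥) (h : I ≤ J) :
    Ideal.absNorm I = Ideal.absNorm J * Nat.card (RtUp_pi h).ker := by
  have := finite_quot hI
  have h1 := RtUp_fib (RtUp_pi h) (RtUp_pi_surj h) (fun _ => True)
  rw [Nat.card_congr (Equiv.subtypeUnivEquiv fun _ => trivial),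
    Nat.card_congr (Equiv.subtypeUnivEquiv fun _ => trivial), card_quotO, card_quotO] at h1
  exact h1

theorem rtMono {r : ℕ} {I J : Ideal (𝓞 K)} (hI : I ≠ ⊥) (h : I ≤ J) : rt r J ≤ rt r I := by
  have hJ : J ≠ ⊥ := by
    rintro rfl
    exact hI (le_bot_iff.1 h)
  have := finite_quot hI
  have := finite_quot hJ
  obtain ⟨t₀, ht₀⟩ := RtUp_ex r hJ
  have h1 := RtUp_fib (RtUp_pi h) (RtUp_pi_surj h) (fun y => y ^ r = t₀)
  have h2 := RtUp_fib (RtUp_pi h) (RtUp_pi_surj h) (fun y => y = t₀)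
  rw [ht₀] at h1
  have hone : Nat.card {y : 𝓞 K ⧸ J // y = t₀} = 1 := by
    rw [Nat.card_eq_one_iff_unique]
    exact ⟨⟨fun a b => Subtype.ext (a.2.trans b.2.symm)⟩, ⟨⟨t₀, rfl⟩⟩⟩
  rw [hone, one_mul] at h2
  -- the fibres of `z ↦ z ^ r`
  let S : Type := {z : 𝓞 K ⧸ I // RtUp_pi h z ^ r = t₀}
  let U : Type := {z : 𝓞 K ⧸ I // RtUp_pi h z = t₀}
  let g : S → U := fun z => ⟨z.1 ^ r, by rw [RtUp_pi_pow]; exact z.2⟩
  have : Finite S := Subtype.finite
  have : Finite U := Subtype.finite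
  have hfU : Fintype U := Fintype.ofFinite U
  have h3 : Nat.card S ≤ Nat.card U * rt r I := by
    have e : S ≃ Σ u : U, {z : S // g z = u} := (Equiv.sigmaFiberEquiv g).symm
    rw [Nat.card_congr e, Nat.card_sigma, Nat.card_eq_fintype_card (α := U), ← Finset.card_univ, ← smul_eq_mul]
    refine Finset.sum_le_card_nsmul _ _ _ fun u _ => ?_
    refine le_trans ?_ (rtLe (r := r) hI u.1)
    refine Nat.card_le_card_of_injective
      (fun z : {z : S // g z = u} => (⟨z.1.1, congrArg Subtype.val z.2⟩ : {z : 𝓞 K ⧸ I // z ^ r = u.1})) ?_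
    intro a b hab
    apply Subtype.ext
    apply Subtype.ext
    exact Subtype.mk.inj hab
  have h4 : rt r J * Nat.card (RtUp_pi h).ker ≤ Nat.card (RtUp_pi h).ker * rt r I := by
    rw [← h1]
    calc Nat.card {z : 𝓞 K ⧸ I // RtUp_pi h z ^ r = t₀} ≤ Nat.card U * rt r I := h3
      _ = Nat.card (RtUp_pi h).ker * rt r I := by rw [← h2]
  rw [mul_comm] at h4
  exact Nat.le_of_mul_le_mul_left h4 Nat.card_pos

private theorem RtUp_prod {I : Ideal (𝓞 K)} (hI : I ≠ ⊥) (T : Finset (Ideal (𝓞 K)))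
    (hIT : ∀ P : Ideal (𝓞 K), P.IsPrime → P ≠ ⊥ → I ≤ P → P ∈ T) :
    I = ∏ P ∈ T, P ^ vI P I := by
  have hsub : (UniqueFactorizationMonoid.normalizedFactors I).toFinset ⊆ T := by
    intro P hP
    rw [Multiset.mem_toFinset] at hP
    have hp := UniqueFactorizationMonoid.prime_of_normalized_factor P hP
    exact hIT P (Ideal.isPrime_of_prime hp) hp.ne_zero
      (Ideal.dvd_iff_le.1 (UniqueFactorizationMonoid.dvd_of_mem_normalizedFactors hP))
  calc I = (UniqueFactorizationMonoid.normalizedFactors I).prod :=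
        (Ideal.prod_normalizedFactors_eq_self hI).symm
    _ = ∏ P ∈ T, P ^ vI P I := Finset.prod_multiset_count_of_subset _ T hsub

/-- The roots modulo a squarefree ideal. -/
private theorem RtUp_rad {r : ℕ} (hr : 1 ≤ r) (T : Finset (Ideal (𝓞 K)))
    (hT : ∀ P ∈ T, P.IsPrime ∧ P ≠ ⊥) (t : 𝓞 K ⧸ (∏ P ∈ T, P)) :
    Nat.card {z : 𝓞 K ⧸ (∏ P ∈ T, P) // z ^ r = t} ≤ r ^ T.card := by
  have hle : ∀ P : T, (∏ P ∈ T, P) ≤ P.1 := fun P => Ideal.dvd_iff_le.1 (Finset.dvd_prod_of_mem _ P.2)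
  have hroots : ∀ P : T, ∀ c : 𝓞 K ⧸ P.1, Finite {u : 𝓞 K ⧸ P.1 // u ^ r = c} ∧
      Nat.card {u : 𝓞 K ⧸ P.1 // u ^ r = c} ≤ r := by
    intro P c
    have := finite_quot (hT P.1 P.2).2
    have := (hT P.1 P.2).1
    have : IsDomain (𝓞 K ⧸ P.1) := Ideal.Quotient.isDomain P.1
    refine ⟨inferInstance, ?_⟩
    have h1 : ∀ u : {u : 𝓞 K ⧸ P.1 // u ^ r = c}, u.1 ∈ (Polynomial.nthRoots r c).toFinset := by
      intro u
      rw [Multiset.mem_toFinset, Polynomial.mem_nthRoots (by omega)]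
      exact u.2
    have h2 : Nat.card {u : 𝓞 K ⧸ P.1 // u ^ r = c} ≤ Nat.card (Polynomial.nthRoots r c).toFinset :=
      Nat.card_le_card_of_injective (fun u => (⟨u.1, h1 u⟩ : (Polynomial.nthRoots r c).toFinset))
        (fun a b hab => Subtype.ext (Subtype.mk.inj hab))
    refine h2.trans ?_
    rw [Nat.card_eq_fintype_card, Fintype.card_coe]
    exact (Multiset.toFinset_card_le _).trans (Polynomial.card_nthRoots r c)
  have hfin : ∀ P : T, Finite {u : 𝓞 K ⧸ P.1 // u ^ r = RtUp_pi (hle P) t} := fun P => (hroots P _).1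
  have hinj : Nat.card {z : 𝓞 K ⧸ (∏ P ∈ T, P) // z ^ r = t} ≤
      Nat.card ((P : T) → {u : 𝓞 K ⧸ P.1 // u ^ r = RtUp_pi (hle P) t}) := by
    refine Nat.card_le_card_of_injective (fun z P => ⟨RtUp_pi (hle P) z.1, by
      rw [← RtUp_pi_pow, z.2]⟩) ?_
    intro a b hab
    apply Subtype.ext
    obtain ⟨x, hx⟩ := Ideal.Quotient.mk_surjective a.1
    obtain ⟨y, hy⟩ := Ideal.Quotient.mk_surjective b.1
    rw [← hx, ← hy, Ideal.Quotient.eq]
    have h1 : ∀ P ∈ T, x - y ∈ P := by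
      intro P hP
      have h2 := congrArg Subtype.val (congrFun hab ⟨P, hP⟩)
      change Ideal.Quotient.factor (hle ⟨P, hP⟩) a.1 = Ideal.Quotient.factor (hle ⟨P, hP⟩) b.1 at h2
      rw [← hx, ← hy, Ideal.Quotient.factor_mk, Ideal.Quotient.factor_mk, Ideal.Quotient.eq] at h2
      exact h2
    have h3 := IsDedekindDomain.inf_pow_eq_prod_of_prime T (fun P : Ideal (𝓞 K) => P) (fun _ => 1)
      (fun P hP => Ideal.prime_of_isPrime (hT P hP).2 (hT P hP).1) (fun _ _ _ _ h => h)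
    simp only [pow_one] at h3
    rw [← h3, Submodule.mem_finsetInf]
    exact h1
  refine hinj.trans ?_
  rw [Nat.card_pi]
  refine (Finset.prod_le_pow_card _ _ r fun P _ => (hroots P _).2).trans (le_of_eq ?_)
  rw [Finset.card_univ, Fintype.card_coe]

theorem rtUp {r : ℕ} (hr : 1 ≤ r) {I : Ideal (𝓞 K)} (hI : I ≠ ⊥) (T : Finset (Ideal (𝓞 K)))
    (hT : ∀ P ∈ T, P.IsPrime ∧ P ≠ ⊥)
    (hIT : ∀ P : Ideal (𝓞 K), P.IsPrime → P ≠ ⊥ → I ≤ P → P ∈ T) :
    (Ideal.absNorm I : ℝ) = ∏ P ∈ T, (Ideal.absNorm P : ℝ) ^ vI P I ∧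
    (rt r I : ℝ) ≤ ∏ P ∈ T, (if vI P I = 0 then 1
      else (r : ℝ) * (Ideal.absNorm P : ℝ) ^ (vI P I - 1)) := by
  have hprod := RtUp_prod hI T hIT
  have hnorm : Ideal.absNorm I = ∏ P ∈ T, Ideal.absNorm P ^ vI P I := by
    calc Ideal.absNorm I = Ideal.absNorm (∏ P ∈ T, P ^ vI P I) := by rw [← hprod]
      _ = _ := by
        rw [map_prod]
        exact Finset.prod_congr rfl fun P _ => map_pow _ _ _
  refine ⟨by rw [hnorm]; push_cast; rfl, ?_⟩
  set T' : Finset (Ideal (𝓞 K)) := T.filter (fun P => vI P I ≠ 0) with hT'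
  set R : Ideal (𝓞 K) := ∏ P ∈ T', P with hR
  have hT'T : ∀ P ∈ T', P.IsPrime ∧ P ≠ ⊥ := fun P hP => hT P (Finset.mem_filter.1 hP).1
  have hIR : I ≤ R := by
    rw [← Ideal.dvd_iff_le]
    have h1 : R ∣ ∏ P ∈ T', P ^ vI P I :=
      Finset.prod_dvd_prod_of_dvd _ _ fun P hP => dvd_pow_self P (Finset.mem_filter.1 hP).2
    have h2 : (∏ P ∈ T', P ^ vI P I) ∣ ∏ P ∈ T, P ^ vI P I :=
      Finset.prod_dvd_prod_of_subset _ _ _ (Finset.filter_subset _ _)
    rw [← hprod] at h2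
    exact h1.trans h2
  have hR0 : R ≠ ⊥ := by
    intro h
    apply hI
    rw [h] at hIR
    exact le_bot_iff.1 hIR
  have := finite_quot hI
  have hbound : rt r I ≤ r ^ T'.card * Nat.card (RtUp_pi hIR).ker := by
    obtain ⟨t, ht⟩ := RtUp_ex r hI
    rw [← ht]
    have h1 := RtUp_fib (RtUp_pi hIR) (RtUp_pi_surj hIR) (fun y => y ^ r = RtUp_pi hIR t)
    have h2 : Nat.card {z : 𝓞 K ⧸ I // z ^ r = t} ≤
        Nat.card {z : 𝓞 K ⧸ I // RtUp_pi hIR z ^ r = RtUp_pi hIR t} :=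
      Nat.card_le_card_of_injective (fun z => ⟨z.1, by rw [← RtUp_pi_pow, z.2]⟩)
        (fun a b hab => Subtype.ext (Subtype.mk.inj hab))
    refine h2.trans ?_
    rw [h1]
    exact Nat.mul_le_mul_right _ (RtUp_rad hr T' hT'T _)
  have hker := RtUp_ker hI hIR
  have hNR : Ideal.absNorm R = ∏ P ∈ T', Ideal.absNorm P := by rw [hR, map_prod]
  have hNpos : ∀ P ∈ T, 0 < Ideal.absNorm P := by
    intro P hP
    rw [Nat.pos_iff_ne_zero]
    intro h0
    exact (hT P hP).2 (Ideal.absNorm_eq_zero_iff.1 h0)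
  have hNI : Ideal.absNorm I = ∏ P ∈ T', Ideal.absNorm P ^ vI P I := by
    rw [hnorm]
    symm
    apply Finset.prod_subset (Finset.filter_subset _ _)
    intro P hP hP'
    have h1 : vI P I = 0 := by
      by_contra h2
      exact hP' (Finset.mem_filter.2 ⟨hP, h2⟩)
    rw [h1, pow_zero]
  have hk : Nat.card (RtUp_pi hIR).ker = ∏ P ∈ T', Ideal.absNorm P ^ (vI P I - 1) := by
    have h1 : (∏ P ∈ T', Ideal.absNorm P) * Nat.card (RtUp_pi hIR).ker =
        (∏ P ∈ T', Ideal.absNorm P) * ∏ P ∈ T', Ideal.absNorm P ^ (vI P I - 1) := by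
      rw [← hNR, ← hker, hNI, hNR, ← Finset.prod_mul_distrib]
      refine Finset.prod_congr rfl fun P hP => ?_
      have h2 : vI P I ≠ 0 := (Finset.mem_filter.1 hP).2
      rw [← pow_succ']
      congr 1
      omega
    have h3 : 0 < ∏ P ∈ T', Ideal.absNorm P :=
      Finset.prod_pos fun P hP => hNpos P (Finset.mem_filter.1 hP).1
    exact Nat.eq_of_mul_eq_mul_left h3 h1
  have hfin : ((r ^ T'.card * Nat.card (RtUp_pi hIR).ker : ℕ) : ℝ) =
      ∏ P ∈ T, (if vI P I = 0 then 1 else (r : ℝ) * (Ideal.absNorm P : ℝ) ^ (vI P I - 1)) := by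
    rw [hk]
    push_cast
    rw [← Finset.prod_const, ← Finset.prod_mul_distrib, hT', Finset.prod_filter]
    refine Finset.prod_congr rfl fun P _ => ?_
    by_cases h : vI P I = 0
    · simp [h]
    · simp [h]
  rw [← hfin]
  exact_mod_cast hbound

end Pool.Agent.Lib.MP_1ad228_ntY
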