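import Pool.Agent.Lib.MP_1ad228_ntY.PCnt
import Pool.Agent.Lib.MP_1ad228_ntQ.Compat
import Pool.Agent.Lib.MP_1ad228_ntQ.SlSum
import Pool.Agent.Lib.MP_1ad228_ntN.GGf
import Pool.Agent.Lib.MP_1ad228_ntN.EEle

/-!
LEAF SlSumY.  Sum of the slices over the `r`-th powers.  Model: `Lib/MP_1ad228_ntQ/SlSum.lean`.
PROOF.  `exLam` gives `lam`; `lam ^ (r m) w ^ r = (lam ^ m) ^ r w ^ r`.  `slCompat`, `slice`, and `pCnt` with `c = lam ^ m`, `I = Dd x y`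
(`nD x y` is by definition `absNorm (Dd x y)`).
-/

namespace Pool.Agent.Lib.MP_1ad228_ntY

open NumberField Classical
open Pool.Agent.Lib.MP_1ad228_ntN
open Pool.Agent.Lib.MP_1ad228_ntQ (exLam slCompat nDle)
open Pool.Agent.Lib.MP_219881_nt (mn)

set_option linter.unusedSectionVars false

variable {K : Type} [Field K] [NumberField K]

variable (K) in
theorem slSumY (r n m q : ℕ) (hr : 1 ≤ r) : ∃ C : ℝ, 1 ≤ C ∧
    ∀ (B H A Z : ℕ) (o : Fin (n + 1)), 1 ≤ B → 1 ≤ A → 1 ≤ Z →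
    ∀ x ∈ GG K B H q o, ∀ y ∈ GG K B H q o, ¬ Prp x y →
    ∑ w ∈ OBox K (Z : ℝ), ∑ z ∈ OBox K (Z : ℝ), sl (r * m) A x y (w ^ r) (z ^ r) ≤
      C * (n2 (r * m) x y A : ℝ) *
        ((rt r (Dd x y) : ℝ) * ((Z : ℝ) ^ eK K + ((Z : ℝ) ^ eK K) ^ 2 / nD x y)) := by
  obtain ⟨C1, hC1, h1, -⟩ := slice (K := K) n (r * m)
  obtain ⟨C2, hC2, h2⟩ := pCnt K r hr
  refine ⟨C1 * C2, one_le_mul_of_one_le_of_one_le hC1 hC2, ?_⟩
  intro B H A Z o hB hA hZ x hx y hy hp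
  obtain ⟨lam, lam', hl, hll⟩ := exLam (GG_uni hx) (GG_uni hy)
  have hcard := h2 (Dd x y) Z (lam ^ m) (Dd_ne_bot hp) hZ
  have hn2 : (0 : ℝ) ≤ C1 * (n2 (r * m) x y A : ℝ) := by positivity
  have hsum : ∑ w ∈ OBox K (Z : ℝ), ∑ z ∈ OBox K (Z : ℝ), sl (r * m) A x y (w ^ r) (z ^ r) =
      ∑ p ∈ (OBox K (Z : ℝ) ×ˢ OBox K (Z : ℝ)).filter
        (fun p => p.2 ^ r - (lam ^ m) ^ r * p.1 ^ r ∈ Dd x y),
        sl (r * m) A x y (p.1 ^ r) (p.2 ^ r) := by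
    rw [← Finset.sum_product' (OBox K (Z : ℝ)) (OBox K (Z : ℝ))
      (fun w z => sl (r * m) A x y (w ^ r) (z ^ r))]
    symm
    refine Finset.sum_subset (Finset.filter_subset _ _) ?_
    intro p hpm hnp
    by_contra h0
    refine hnp (Finset.mem_filter.2 ⟨hpm, ?_⟩)
    have h3 := slCompat hl h0
    rwa [mul_comm r m, pow_mul] at h3
  rw [hsum]
  calc _ ≤ ∑ _p ∈ (OBox K (Z : ℝ) ×ˢ OBox K (Z : ℝ)).filter
        (fun p => p.2 ^ r - (lam ^ m) ^ r * p.1 ^ r ∈ Dd x y),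
        C1 * (n2 (r * m) x y A : ℝ) := Finset.sum_le_sum fun p _ => h1 A hA x y _ _
    _ = (((OBox K (Z : ℝ) ×ˢ OBox K (Z : ℝ)).filter
        (fun p => p.2 ^ r - (lam ^ m) ^ r * p.1 ^ r ∈ Dd x y)).card : ℝ) *
        (C1 * (n2 (r * m) x y A : ℝ)) := by
        rw [Finset.sum_const, nsmul_eq_mul]
    _ ≤ (C2 * (rt r (Dd x y) : ℝ) * ((Z : ℝ) ^ eK K +
        ((Z : ℝ) ^ eK K) ^ 2 / Ideal.absNorm (Dd x y))) *
        (C1 * (n2 (r * m) x y A : ℝ)) := mul_le_mul_of_nonneg_right hcard hn2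
    _ = _ := by
        unfold nD
        ring

end Pool.Agent.Lib.MP_1ad228_ntY
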