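import Pool.Agent.Lib.MP_1ad228_ntY.SlSumY
import Pool.Agent.Lib.MP_1ad228_ntQ.MsCls

/-!
LEAF UuSumY.  Sum of the averaged slices over the `r`-th powers.  Model: `Lib/MP_1ad228_ntQ/UuSum.lean`.
PROOF.  As in the model with `G = Dd x y ⊔ (W)`: the average over `m' ∈ MS y` is at most `C n2 (N(G)/N(Dd))` and vanishes unless
`z^r - lam^(rm) w^r ∈ G`.  Count the pairs with `pCnt` for `G`: `≤ C rt(G) (Z^e + Z^(2e)/N(G))`, and `N(G) ≤ N((W)) = W^e ≤ Z^e`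
(`absNorm_natCast`; `W ≤ Z`), so `Z^e ≤ Z^(2e)/N(G)`.  With `rtMono`: `≤ C n2 rt(Dd) Z^(2e)/N(Dd)`.
The hypothesis of `msCls`: `N(Dd) ≤ (2B^2)^e ≤ ((A B^d)/(κ W))^e` (`nDle`, `C ≥ 2`).  `eeSumY`: `TTy, TSy ≥ 0`, so `EEy ≤ sl + UUy`.
-/

namespace Pool.Agent.Lib.MP_1ad228_ntY

open NumberField Classical
open Pool.Agent.Lib.MP_1ad228_ntN
open Pool.Agent.Lib.MP_1ad228_ntQ (exLam slCompat nDle msLow msCls)
open Pool.Agent.Lib.MP_219881_nt (mn)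

set_option linter.unusedSectionVars false

variable {K : Type} [Field K] [NumberField K]

/-- An average is at most the bound. -/
theorem UuSumY_avg (s : Finset (𝓞 K)) (f : 𝓞 K → ℝ) {C : ℝ} (hC : 0 ≤ C)
    (h : ∑ μ ∈ s, f μ ≤ C * (s.card : ℝ)) : (1 / (s.card : ℝ)) * ∑ μ ∈ s, f μ ≤ C := by
  rcases Nat.eq_zero_or_pos s.card with hc | hc
  · rw [hc, Nat.cast_zero, div_zero, zero_mul]
    exact hC
  · have hc' : (0 : ℝ) < (s.card : ℝ) := by exact_mod_cast hc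
    rw [one_div, inv_mul_le_iff₀ hc', mul_comm]
    exact h

/-- Pointwise bound. -/
theorem UuSumY_pt {r n m A W κ : ℕ} {o : Fin (n + 1)} {x y : Vc n (𝓞 K)} {lam : 𝓞 K}
    (hl : ∀ i, y i - lam * x i ∈ Dd x y) {E1 E2 : ℝ} (hE1 : 0 ≤ E1) (hE2 : 0 ≤ E2)
    (h1 : ∀ s t, sl (r * m) A x y s t ≤ E1)
    (h2 : ∀ c : 𝓞 K, (((MS (r * m) W κ A o y).filter fun μ => μ - c ∈ Dd x y).card : ℝ) ≤
      E2 * ((MS (r * m) W κ A o y).card : ℝ)) (w z : 𝓞 K) :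
    UUy r (r * m) o W κ A (x, w) (y, z) ≤
      if z ^ r - (lam ^ m) ^ r * w ^ r ∈ Dd x y ⊔ Ideal.span {(W : 𝓞 K)} then E1 * E2 else 0 := by
  have e2 : UUy r (r * m) o W κ A (x, w) (y, z) =
      (1 / ((MS (r * m) W κ A o x).card : ℝ)) * ∑ μ ∈ MS (r * m) W κ A o x,
        ((1 / ((MS (r * m) W κ A o y).card : ℝ)) * ∑ μ' ∈ MS (r * m) W κ A o y,
          sl (r * m) A x y (w ^ r + μ) (z ^ r + μ')) := by
    unfold UUy
    rw [← Finset.mul_sum]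
    ring
  have hE : 0 ≤ E1 * E2 := mul_nonneg hE1 hE2
  have hcomp : ∀ μ μ' : 𝓞 K, sl (r * m) A x y (w ^ r + μ) (z ^ r + μ') ≠ 0 →
      (z ^ r + μ') - (lam ^ m) ^ r * (w ^ r + μ) ∈ Dd x y := by
    intro μ μ' h0
    have h3 := slCompat hl h0
    rwa [mul_comm r m, pow_mul] at h3
  split_ifs with hG
  · rw [e2]
    refine UuSumY_avg _ _ hE ?_
    rw [mul_comm (E1 * E2), ← nsmul_eq_mul]
    refine Finset.sum_le_card_nsmul _ _ _ fun μ _ => ?_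
    refine UuSumY_avg _ _ hE ?_
    have h4 : ∑ μ' ∈ MS (r * m) W κ A o y, sl (r * m) A x y (w ^ r + μ) (z ^ r + μ') =
        ∑ μ' ∈ (MS (r * m) W κ A o y).filter
          (fun μ' => μ' - ((lam ^ m) ^ r * (w ^ r + μ) - z ^ r) ∈ Dd x y),
          sl (r * m) A x y (w ^ r + μ) (z ^ r + μ') := by
      symm
      refine Finset.sum_subset (Finset.filter_subset _ _) ?_
      intro μ' hm hn
      by_contra h0
      refine hn (Finset.mem_filter.2 ⟨hm, ?_⟩)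
      have h5 := hcomp μ μ' h0
      have e5 : (z ^ r + μ') - (lam ^ m) ^ r * (w ^ r + μ) =
          μ' - ((lam ^ m) ^ r * (w ^ r + μ) - z ^ r) := by ring
      rwa [e5] at h5
    rw [h4]
    calc _ ≤ ((((MS (r * m) W κ A o y).filter
          (fun μ' => μ' - ((lam ^ m) ^ r * (w ^ r + μ) - z ^ r) ∈ Dd x y)).card : ℕ) : ℝ) * E1 := by
          rw [← nsmul_eq_mul]
          exact Finset.sum_le_card_nsmul _ _ _ fun μ' _ => h1 _ _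
      _ ≤ (E2 * ((MS (r * m) W κ A o y).card : ℝ)) * E1 :=
          mul_le_mul_of_nonneg_right (h2 _) hE1
      _ = _ := by ring
  · have h6 : UUy r (r * m) o W κ A (x, w) (y, z) = 0 := by
      rw [e2]
      refine mul_eq_zero_of_right _ (Finset.sum_eq_zero fun μ hμ => ?_)
      refine mul_eq_zero_of_right _ (Finset.sum_eq_zero fun μ' hμ' => ?_)
      by_contra h0
      apply hG
      have h5 := hcomp μ μ' h0
      have hI : (z ^ r + μ') - (lam ^ m) ^ r * (w ^ r + μ) ∈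
          Dd x y ⊔ Ideal.span {(W : 𝓞 K)} := Ideal.mem_sup_left h5
      have hm : μ ∈ Dd x y ⊔ Ideal.span {(W : 𝓞 K)} :=
        Ideal.mem_sup_right (Ideal.mem_span_singleton.2 (Finset.mem_filter.1 hμ).2.1)
      have hm' : μ' ∈ Dd x y ⊔ Ideal.span {(W : 𝓞 K)} :=
        Ideal.mem_sup_right (Ideal.mem_span_singleton.2 (Finset.mem_filter.1 hμ').2.1)
      have h7 := Ideal.add_mem _ (Ideal.sub_mem _ hI hm')
        (Ideal.mul_mem_left _ ((lam ^ m) ^ r) hm)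
      have e7 : (z ^ r + μ') - (lam ^ m) ^ r * (w ^ r + μ) - μ' + (lam ^ m) ^ r * μ =
          z ^ r - (lam ^ m) ^ r * w ^ r := by ring
      rwa [e7] at h7
    rw [h6]

variable (K) in
theorem uuSumY (r n m q : ℕ) (hr : 1 ≤ r) (hq : 1 ≤ q) : ∃ C : ℝ, 1 ≤ C ∧
    ∀ (B H A Z W κ : ℕ) (o : Fin (n + 1)), 1 ≤ B → 1 ≤ A → 1 ≤ W → 1 ≤ κ → W ≤ Z →
    C * (κ * W * (B : ℝ) ^ 2) ≤ (A : ℝ) * (B : ℝ) ^ (r * m) →
    ∀ x ∈ GG K B H q o, ∀ y ∈ GG K B H q o, ¬ Prp x y →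
    ∑ w ∈ OBox K (Z : ℝ), ∑ z ∈ OBox K (Z : ℝ), UUy r (r * m) o W κ A (x, w) (y, z) ≤
      C * (n2 (r * m) x y A : ℝ) *
        ((rt r (Dd x y) : ℝ) * ((Z : ℝ) ^ eK K + ((Z : ℝ) ^ eK K) ^ 2 / nD x y)) := by
  obtain ⟨C1, hC1, h1, -⟩ := slice (K := K) n (r * m)
  obtain ⟨C2, hC2, h2⟩ := pCnt K r hr
  obtain ⟨C3, hC3, h3⟩ := msCls K n (r * m) q hq
  have hC12 : 1 ≤ C1 * C2 := one_le_mul_of_one_le_of_one_le hC1 hC2
  have hC123 : 1 ≤ C1 * C2 * C3 := one_le_mul_of_one_le_of_one_le hC12 hC3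
  refine ⟨2 * (C1 * C2 * C3) + C3 + 2, by linarith, ?_⟩
  intro B H A Z W κ o hB hA hW hκ hWZ hC x hx y hy hp
  obtain ⟨lam, lam', hl, hll⟩ := exLam (GG_uni hx) (GG_uni hy)
  have hB1 : (1 : ℝ) ≤ (B : ℝ) := by exact_mod_cast hB
  have hB2 : (1 : ℝ) ≤ (B : ℝ) ^ 2 := one_le_pow₀ hB1
  have hW1 : (1 : ℝ) ≤ (W : ℝ) := by exact_mod_cast hW
  have hκ1 : (1 : ℝ) ≤ (κ : ℝ) := by exact_mod_cast hκ
  have hκW : (0 : ℝ) < (κ : ℝ) * W := by positivity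
  have hZ : 1 ≤ Z := hW.trans hWZ
  have hWZ' : (W : ℝ) ≤ (Z : ℝ) := by exact_mod_cast hWZ
  have hZ1 : (1 : ℝ) ≤ (Z : ℝ) := by exact_mod_cast hZ
  have hI : Dd x y ≠ ⊥ := Dd_ne_bot hp
  have hle : Dd x y ≤ Dd x y ⊔ Ideal.span {(W : 𝓞 K)} := le_sup_left
  have hG : Dd x y ⊔ Ideal.span {(W : 𝓞 K)} ≠ ⊥ := fun h => hI (le_bot_iff.1 (h ▸ hle))
  have hNI : (1 : ℝ) ≤ (Ideal.absNorm (Dd x y) : ℝ) := one_le_absNorm hI
  have hNG : (1 : ℝ) ≤ (Ideal.absNorm (Dd x y ⊔ Ideal.span {(W : 𝓞 K)}) : ℝ) :=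
    one_le_absNorm hG
  have hNGW : (Ideal.absNorm (Dd x y ⊔ Ideal.span {(W : 𝓞 K)}) : ℝ) ≤ (Z : ℝ) ^ eK K := by
    have h4 : Ideal.absNorm (Dd x y ⊔ Ideal.span {(W : 𝓞 K)}) ∣
        Ideal.absNorm (Ideal.span {(W : 𝓞 K)}) :=
      Ideal.absNorm_dvd_absNorm_of_le le_sup_right
    have h6 : (Ideal.absNorm (Ideal.span {(W : 𝓞 K)}) : ℝ) = (W : ℝ) ^ eK K := absNorm_natCast W
    have h5 : 0 < Ideal.absNorm (Ideal.span {(W : 𝓞 K)}) := by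
      have : (0 : ℝ) < (Ideal.absNorm (Ideal.span {(W : 𝓞 K)}) : ℝ) := by
        rw [h6]
        positivity
      exact_mod_cast this
    have h7 : (Ideal.absNorm (Dd x y ⊔ Ideal.span {(W : 𝓞 K)}) : ℝ) ≤
        (Ideal.absNorm (Ideal.span {(W : 𝓞 K)}) : ℝ) := by exact_mod_cast Nat.le_of_dvd h5 h4
    rw [h6] at h7
    exact h7.trans (pow_le_pow_left₀ (by positivity) hWZ' _)
  -- the two consequences of the hypothesis
  have hk1 : C3 * ((κ : ℝ) * W) ≤ (A : ℝ) * (B : ℝ) ^ (r * m) := by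
    refine le_trans ?_ hC
    have h4 : C3 ≤ 2 * (C1 * C2 * C3) + C3 + 2 := by linarith
    calc C3 * ((κ : ℝ) * W) ≤ (2 * (C1 * C2 * C3) + C3 + 2) * ((κ : ℝ) * W) :=
          mul_le_mul_of_nonneg_right h4 hκW.le
      _ = (2 * (C1 * C2 * C3) + C3 + 2) * ((κ : ℝ) * W * 1) := by ring
      _ ≤ (2 * (C1 * C2 * C3) + C3 + 2) * ((κ : ℝ) * W * (B : ℝ) ^ 2) := by gcongr
  have hk2 : 2 * (B : ℝ) ^ 2 ≤ ((A : ℝ) * (B : ℝ) ^ (r * m)) / (κ * W) := by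
    rw [le_div_iff₀ hκW]
    refine le_trans ?_ hC
    have h4 : 2 ≤ 2 * (C1 * C2 * C3) + C3 + 2 := by linarith
    calc 2 * (B : ℝ) ^ 2 * ((κ : ℝ) * W) = 2 * ((κ : ℝ) * W * (B : ℝ) ^ 2) := by ring
      _ ≤ _ := mul_le_mul_of_nonneg_right h4 (by positivity)
  have hk3 : (Ideal.absNorm (Dd x y) : ℝ) ≤
      (((A : ℝ) * (B : ℝ) ^ (r * m)) / (κ * W)) ^ eK K :=
    (nDle hB hx hy hp).trans (pow_le_pow_left₀ (by positivity) hk2 _)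
  have hms := h3 W κ A B o hW hκ hB hk1 y (Finset.mem_filter.1 hy).1 (GG_pivot hy)
  have hn2 : (0 : ℝ) ≤ C1 * (n2 (r * m) x y A : ℝ) := by positivity
  have hE2 : (0 : ℝ) ≤ C3 * ((Ideal.absNorm (Dd x y ⊔ Ideal.span {(W : 𝓞 K)}) : ℝ) /
      Ideal.absNorm (Dd x y)) := by positivity
  have hpt := UuSumY_pt (r := r) (m := m) (A := A) (W := W) (κ := κ) (o := o) hl hn2 hE2
    (fun s t => h1 A hA x y s t) (fun c => hms (Dd x y) c hI hk3)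
  have hcard := h2 (Dd x y ⊔ Ideal.span {(W : 𝓞 K)}) Z (lam ^ m) hG hZ
  have hrt : (rt r (Dd x y ⊔ Ideal.span {(W : 𝓞 K)}) : ℝ) ≤ (rt r (Dd x y) : ℝ) := by
    exact_mod_cast rtMono hI hle
  have hZe : (1 : ℝ) ≤ (Z : ℝ) ^ eK K := one_le_pow₀ hZ1
  -- the short term is dominated by the long one
  have hshort : (Z : ℝ) ^ eK K + ((Z : ℝ) ^ eK K) ^ 2 /
      (Ideal.absNorm (Dd x y ⊔ Ideal.span {(W : 𝓞 K)}) : ℝ) ≤
      2 * (((Z : ℝ) ^ eK K) ^ 2 /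
        (Ideal.absNorm (Dd x y ⊔ Ideal.span {(W : 𝓞 K)}) : ℝ)) := by
    have h4 : (Z : ℝ) ^ eK K ≤ ((Z : ℝ) ^ eK K) ^ 2 /
        (Ideal.absNorm (Dd x y ⊔ Ideal.span {(W : 𝓞 K)}) : ℝ) := by
      rw [le_div_iff₀ (by linarith), sq]
      exact mul_le_mul_of_nonneg_left hNGW (by linarith)
    linarith
  rw [← Finset.sum_product' (OBox K (Z : ℝ)) (OBox K (Z : ℝ))
    (fun w z => UUy r (r * m) o W κ A (x, w) (y, z))]
  calc _ ≤ ∑ p ∈ OBox K (Z : ℝ) ×ˢ OBox K (Z : ℝ),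
        (if p.2 ^ r - (lam ^ m) ^ r * p.1 ^ r ∈ Dd x y ⊔ Ideal.span {(W : 𝓞 K)} then
          (C1 * (n2 (r * m) x y A : ℝ)) *
            (C3 * ((Ideal.absNorm (Dd x y ⊔ Ideal.span {(W : 𝓞 K)}) : ℝ) /
              Ideal.absNorm (Dd x y))) else 0) := Finset.sum_le_sum fun p _ => hpt p.1 p.2
    _ = (((OBox K (Z : ℝ) ×ˢ OBox K (Z : ℝ)).filter
        (fun p => p.2 ^ r - (lam ^ m) ^ r * p.1 ^ r ∈
          Dd x y ⊔ Ideal.span {(W : 𝓞 K)})).card : ℝ) *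
        ((C1 * (n2 (r * m) x y A : ℝ)) *
            (C3 * ((Ideal.absNorm (Dd x y ⊔ Ideal.span {(W : 𝓞 K)}) : ℝ) /
              Ideal.absNorm (Dd x y)))) := by
        rw [← Finset.sum_filter, Finset.sum_const, nsmul_eq_mul]
    _ ≤ (C2 * (rt r (Dd x y ⊔ Ideal.span {(W : 𝓞 K)}) : ℝ) * ((Z : ℝ) ^ eK K +
          ((Z : ℝ) ^ eK K) ^ 2 / Ideal.absNorm (Dd x y ⊔ Ideal.span {(W : 𝓞 K)}))) *
        ((C1 * (n2 (r * m) x y A : ℝ)) *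
            (C3 * ((Ideal.absNorm (Dd x y ⊔ Ideal.span {(W : 𝓞 K)}) : ℝ) /
              Ideal.absNorm (Dd x y)))) :=
        mul_le_mul_of_nonneg_right hcard (mul_nonneg hn2 hE2)
    _ ≤ (C2 * (rt r (Dd x y) : ℝ) * (2 *
          (((Z : ℝ) ^ eK K) ^ 2 / Ideal.absNorm (Dd x y ⊔ Ideal.span {(W : 𝓞 K)})))) *
        ((C1 * (n2 (r * m) x y A : ℝ)) *
            (C3 * ((Ideal.absNorm (Dd x y ⊔ Ideal.span {(W : 𝓞 K)}) : ℝ) /
              Ideal.absNorm (Dd x y)))) := by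
        refine mul_le_mul_of_nonneg_right ?_ (mul_nonneg hn2 hE2)
        refine mul_le_mul ?_ hshort (by positivity) (by positivity)
        exact mul_le_mul_of_nonneg_left hrt (by linarith)
    _ = (2 * (C1 * C2 * C3)) * (n2 (r * m) x y A : ℝ) * ((rt r (Dd x y) : ℝ) *
        (((Z : ℝ) ^ eK K) ^ 2 / Ideal.absNorm (Dd x y))) := by
        have hg : (Ideal.absNorm (Dd x y ⊔ Ideal.span {(W : 𝓞 K)}) : ℝ) ≠ 0 := by linarith
        have hi : (Ideal.absNorm (Dd x y) : ℝ) ≠ 0 := by linarith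
        field_simp
    _ ≤ (2 * (C1 * C2 * C3) + C3 + 2) * (n2 (r * m) x y A : ℝ) * ((rt r (Dd x y) : ℝ) *
        ((Z : ℝ) ^ eK K + ((Z : ℝ) ^ eK K) ^ 2 / nD x y)) := by
        unfold nD
        have h4 : 2 * (C1 * C2 * C3) ≤ 2 * (C1 * C2 * C3) + C3 + 2 := by linarith
        have h5 : ((Z : ℝ) ^ eK K) ^ 2 / (Ideal.absNorm (Dd x y) : ℝ) ≤
            (Z : ℝ) ^ eK K + ((Z : ℝ) ^ eK K) ^ 2 / (Ideal.absNorm (Dd x y) : ℝ) := by linarith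
        gcongr

variable (K) in
theorem eeSumY (r n m q : ℕ) (hr : 1 ≤ r) (hq : 1 ≤ q) : ∃ C : ℝ, 1 ≤ C ∧
    ∀ (B H A Z W κ : ℕ) (o : Fin (n + 1)), 1 ≤ B → 1 ≤ A → 1 ≤ W → 1 ≤ κ → W ≤ Z →
    C * (κ * W * (B : ℝ) ^ 2) ≤ (A : ℝ) * (B : ℝ) ^ (r * m) →
    ∀ x ∈ GG K B H q o, ∀ y ∈ GG K B H q o, ¬ Prp x y →
    ∑ w ∈ OBox K (Z : ℝ), ∑ z ∈ OBox K (Z : ℝ), EEy r (r * m) o W κ A (x, w) (y, z) ≤
      C * (n2 (r * m) x y A : ℝ) *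
        ((rt r (Dd x y) : ℝ) * ((Z : ℝ) ^ eK K + ((Z : ℝ) ^ eK K) ^ 2 / nD x y)) := by
  obtain ⟨C1, hC1, h1⟩ := slSumY K r n m q hr
  obtain ⟨C2, hC2, h2⟩ := uuSumY K r n m q hr hq
  refine ⟨C1 + C2, by linarith, ?_⟩
  intro B H A Z W κ o hB hA hW hκ hWZ hC x hx y hy hp
  have hC' : C2 * (κ * W * (B : ℝ) ^ 2) ≤ (A : ℝ) * (B : ℝ) ^ (r * m) := by
    refine le_trans ?_ hC
    exact mul_le_mul_of_nonneg_right (by linarith) (by positivity)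
  have hs := h1 B H A Z o hB hA (hW.trans hWZ) x hx y hy hp
  have hu := h2 B H A Z W κ o hB hA hW hκ hWZ hC' x hx y hy hp
  have hpt : ∀ w z : 𝓞 K, EEy r (r * m) o W κ A (x, w) (y, z) ≤
      sl (r * m) A x y (w ^ r) (z ^ r) + UUy r (r * m) o W κ A (x, w) (y, z) := by
    intro w z
    have hT : 0 ≤ TTy r (r * m) o W κ A (x, w) (y, z) :=
      mul_nonneg (by positivity) (Finset.sum_nonneg fun μ _ => sl_nonneg _ _ _ _ _ _)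
    have hS : 0 ≤ TSy r (r * m) o W κ A (x, w) (y, z) :=
      mul_nonneg (by positivity) (Finset.sum_nonneg fun μ _ => sl_nonneg _ _ _ _ _ _)
    unfold EEy
    linarith
  calc _ ≤ ∑ w ∈ OBox K (Z : ℝ), ∑ z ∈ OBox K (Z : ℝ),
        (sl (r * m) A x y (w ^ r) (z ^ r) + UUy r (r * m) o W κ A (x, w) (y, z)) :=
        Finset.sum_le_sum fun w _ => Finset.sum_le_sum fun z _ => hpt w z
    _ = ∑ w ∈ OBox K (Z : ℝ), ∑ z ∈ OBox K (Z : ℝ), sl (r * m) A x y (w ^ r) (z ^ r) +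
        ∑ w ∈ OBox K (Z : ℝ), ∑ z ∈ OBox K (Z : ℝ), UUy r (r * m) o W κ A (x, w) (y, z) := by
        rw [← Finset.sum_add_distrib]
        exact Finset.sum_congr rfl fun w _ => Finset.sum_add_distrib
    _ ≤ _ := by
        refine (add_le_add hs hu).trans (le_of_eq ?_)
        ring

end Pool.Agent.Lib.MP_1ad228_ntY
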