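import Pool.Agent.Lib.MP_1ad228_ntY.PairY
import Pool.Agent.Lib.MP_1ad228_ntY.UuSumY
import Pool.Agent.Lib.MP_1ad228_ntY.GoodSumY
import Pool.Agent.Lib.MP_1ad228_ntY.DiagY
import Pool.Agent.Lib.MP_1ad228_ntY.ExpandY
import Pool.Agent.Lib.MP_1ad228_ntN.N1
import Pool.Agent.Lib.MP_1ad228_ntN.N2

/-!
LEAF VarY.  The variance (assembly).  Model: `Lib/MP_1ad228_ntQ/VarD.lean`.
PROOF.  As in the model with `d = r m`, `E = (B^(n+1) Z/(A B^d))^e`.  For non proportional `x, y`: `N2` and `eeSumY`: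
`∑_(w,z) EEy ≤ C A^(eV) (B^2/(A B^d)^2)^e (nD/pn Del) rt (Z^e + Z^(2e)/nD) = C A^(eV) (B^2 Z^2/(A B^d)^2)^e (rt/pn Del) (1 + nD/Z^e)`.
Good pairs: the same with `1/k` (and `1 ≤ 1 + nD/Z^e`).  Sum with `psAllY`, `psBadY`; multiply by `#GG ≤ C B^(e(n+1))`:
`B^(e(n+1)) (B Z/(A B^d))^(2e) B^(e(n-1)) X = E^2 X`.
-/

namespace Pool.Agent.Lib.MP_1ad228_ntY

open NumberField Classical
open Pool.Agent.Lib.MP_1ad228_ntN
open Pool.Agent.Lib.MP_219881_nt (mn)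

set_option linter.unusedSectionVars false

variable {K : Type} [Field K] [NumberField K]

private theorem VarY_alg (k s E X D Z U L Lh A0 CKn CKq Cd Ce C1 C2 Ca Cb Cg : ℝ) (hk : 1 ≤ k)
    (hs : 1 / k ≤ s) (hE : 0 ≤ E) (hLh : 0 ≤ Lh) (hA0 : 0 ≤ A0) (hCKn : 0 ≤ CKn) (hCKq : 0 ≤ CKq)
    (hCd : 0 ≤ Cd) (hCe : 0 ≤ Ce) (hC1 : 0 ≤ C1) (hC2 : 0 ≤ C2) (hCa : 0 ≤ Ca) (hCb : 0 ≤ Cb)
    (hCg : 0 ≤ Cg)
    (e1 : X * D = E) (e2 : X * (Z * U) = E ^ 2) (e3 : X * (Z * L) = E ^ 2 * Lh) :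
    CKn * X * (CKq * (Cd * (C1 * A0 * D)) + Cg / k * (C2 * A0 * Z) * (Ca * (U + L))
      + Ce * (C2 * A0 * Z) * (Cb * (U * s + L))) ≤
      CKn * (CKq * Cd * C1 + Cg * C2 * Ca + Ce * C2 * Cb) * A0 * (E + E ^ 2 * (s + Lh)) := by
  have hk0 : 0 < k := by linarith
  have hk1 : 1 / k ≤ 1 := by rw [div_le_one hk0]; exact hk
  have hk2 : 0 ≤ 1 / k := by positivity
  have hs0 : 0 ≤ s := hk2.trans hs
  have e4 : CKn * X * (CKq * (Cd * (C1 * A0 * D)) + Cg / k * (C2 * A0 * Z) * (Ca * (U + L))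
      + Ce * (C2 * A0 * Z) * (Cb * (U * s + L))) =
      CKn * A0 * (CKq * Cd * C1 * (X * D) + Cg * C2 * Ca * (1 / k * (X * (Z * U) + X * (Z * L)))
        + Ce * C2 * Cb * (X * (Z * U) * s + X * (Z * L))) := by
    ring
  rw [e4, e1, e2, e3]
  have f0 : 0 ≤ E ^ 2 * (s + Lh) := by positivity
  have f1 : E ≤ E + E ^ 2 * (s + Lh) := by linarith
  have f2 : 1 / k * (E ^ 2 + E ^ 2 * Lh) ≤ E + E ^ 2 * (s + Lh) := by
    have g2 : 1 / k * Lh ≤ 1 * Lh := mul_le_mul_of_nonneg_right hk1 hLh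
    have g3 : E ^ 2 * (1 / k + 1 / k * Lh) ≤ E ^ 2 * (s + Lh) :=
      mul_le_mul_of_nonneg_left (by linarith) (sq_nonneg _)
    have g1 : 1 / k * (E ^ 2 + E ^ 2 * Lh) = E ^ 2 * (1 / k + 1 / k * Lh) := by ring
    rw [g1]
    linarith
  have f3 : E ^ 2 * s + E ^ 2 * Lh ≤ E + E ^ 2 * (s + Lh) := by
    have g1 : E ^ 2 * s + E ^ 2 * Lh = E ^ 2 * (s + Lh) := by ring
    rw [g1]
    linarith
  have m1 := mul_le_mul_of_nonneg_left f1 (show 0 ≤ CKq * Cd * C1 by positivity)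
  have m2 := mul_le_mul_of_nonneg_left f2 (show 0 ≤ Cg * C2 * Ca by positivity)
  have m3 := mul_le_mul_of_nonneg_left f3 (show 0 ≤ Ce * C2 * Cb by positivity)
  calc CKn * A0 * (CKq * Cd * C1 * E + Cg * C2 * Ca * (1 / k * (E ^ 2 + E ^ 2 * Lh))
        + Ce * C2 * Cb * (E ^ 2 * s + E ^ 2 * Lh))
      ≤ CKn * A0 * (CKq * Cd * C1 * (E + E ^ 2 * (s + Lh)) + Cg * C2 * Ca * (E + E ^ 2 * (s + Lh))
        + Ce * C2 * Cb * (E + E ^ 2 * (s + Lh))) :=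
        mul_le_mul_of_nonneg_left (by linarith) (mul_nonneg hCKn hA0)
    _ = _ := by ring

/-- One row. -/
private theorem VarY_row {n : ℕ} (B H q : ℕ) (o : Fin (n + 1)) (x : Vc n (𝓞 K))
    (F : Vc n (𝓞 K) → ℝ) (good : Vc n (𝓞 K) → Prop) (ρ : Vc n (𝓞 K) → ℝ) (hrn : ∀ y, 0 ≤ ρ y) (D0 Zg Zb CQ SA SB : ℝ)
    (hD0 : 0 ≤ D0) (hZg : 0 ≤ Zg) (hZb : 0 ≤ Zb)
    (hdiag : ∀ y ∈ GG K B H q o, Prp x y → F y ≤ D0)
    (hgood : ∀ y ∈ GG K B H q o, ¬ Prp x y → good y → F y ≤ Zg * ρ y)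
    (hbad : ∀ y ∈ GG K B H q o, ¬ Prp x y → ¬ good y →
      F y ≤ Zb * ρ y)
    (hcard : (((GG K B H q o).filter fun y => Prp x y).card : ℝ) ≤ CQ)
    (hSA : ∑ y ∈ (GG K B H q o).filter (fun y => ¬ Prp x y),
      ρ y ≤ SA)
    (Sb : Finset (Vc n (𝓞 K))) (hSb : ∀ y, y ∈ Sb ↔ y ∈ GG K B H q o ∧ ¬ Prp x y ∧ ¬ good y)
    (hSB : ∑ y ∈ Sb, ρ y ≤ SB) :
    ∑ y ∈ GG K B H q o, F y ≤ CQ * D0 + Zg * SA + Zb * SB := by
  have hSbe : Sb = (GG K B H q o).filter (fun y => ¬ Prp x y ∧ ¬ good y) := by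
    ext y
    rw [hSb, Finset.mem_filter]
  rw [hSbe] at hSB
  rw [← Finset.sum_filter_add_sum_filter_not (GG K B H q o) (fun y => Prp x y) F]
  have h1 : ∑ y ∈ (GG K B H q o).filter (fun y => Prp x y), F y ≤ CQ * D0 := by
    have h2 : ∀ y ∈ (GG K B H q o).filter (fun y => Prp x y), F y ≤ D0 := by
      intro y hy
      obtain ⟨hy1, hy2⟩ := Finset.mem_filter.1 hy
      exact hdiag y hy1 hy2
    refine (Finset.sum_le_sum h2).trans ?_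
    rw [Finset.sum_const, nsmul_eq_mul]
    exact mul_le_mul_of_nonneg_right hcard hD0
  have h2 : ∑ y ∈ (GG K B H q o).filter (fun y => ¬ Prp x y), F y ≤
      Zg * ∑ y ∈ (GG K B H q o).filter (fun y => ¬ Prp x y), ρ y
      + Zb * ∑ y ∈ (GG K B H q o).filter (fun y => ¬ Prp x y ∧ ¬ good y),
        ρ y := by
    have h3 : ∑ y ∈ (GG K B H q o).filter (fun y => ¬ Prp x y ∧ ¬ good y),
        ρ y =
        ∑ y ∈ (GG K B H q o).filter (fun y => ¬ Prp x y),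
          (if ¬ good y then ρ y else 0) := by
      rw [← Finset.filter_filter, Finset.sum_filter]
    rw [h3, Finset.mul_sum, Finset.mul_sum, ← Finset.sum_add_distrib]
    refine Finset.sum_le_sum fun y hy => ?_
    obtain ⟨hy1, hy2⟩ := Finset.mem_filter.1 hy
    by_cases hg : good y
    · rw [if_neg (not_not.2 hg), mul_zero, add_zero]
      exact hgood y hy1 hy2 hg
    · rw [if_pos hg]
      have h4 := hbad y hy1 hy2 hg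
      have h5 : 0 ≤ Zg * ρ y := mul_nonneg hZg (hrn y)
      linarith
  have h3 := mul_le_mul_of_nonneg_left hSA hZg
  have h4 := mul_le_mul_of_nonneg_left hSB hZb
  linarith

private theorem VarY_id {e n : ℕ} {B Z P : ℝ} (hn : 1 ≤ n) (hP : 0 < P) :
    (B ^ (n + 1)) ^ e * (Z ^ e / P ^ e) = (B ^ (n + 1) * Z / P) ^ e ∧
    (B ^ (n + 1)) ^ e * (((B ^ 2 / P ^ 2) ^ e * (Z ^ e) ^ 2) * (B ^ (n - 1)) ^ e) =
      ((B ^ (n + 1) * Z / P) ^ e) ^ 2 ∧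
    ∀ l h : ℝ, (B ^ (n + 1)) ^ e * (((B ^ 2 / P ^ 2) ^ e * (Z ^ e) ^ 2) * (l * (B ^ (n - 1) * h) ^ e)) =
      ((B ^ (n + 1) * Z / P) ^ e) ^ 2 * (l * h ^ e) := by
  have hsq : ∀ a : ℝ, (a ^ e) ^ 2 = (a ^ 2) ^ e := fun a => by rw [← pow_mul, ← pow_mul, mul_comm]
  obtain ⟨j, rfl⟩ : ∃ j, n = j + 1 := ⟨n - 1, by omega⟩
  have hj : j + 1 - 1 = j := by omega
  rw [hj]
  have key : B ^ (j + 1 + 1) * (B ^ 2 / P ^ 2 * Z ^ 2) * B ^ j = (B ^ (j + 1 + 1) * Z / P) ^ 2 := by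
    rw [div_pow, mul_pow]
    field_simp
    ring
  refine ⟨?_, ?_, fun l h => ?_⟩
  · rw [← div_pow, ← mul_pow, mul_div_assoc]
  · rw [hsq, hsq, ← mul_pow, ← mul_pow, ← mul_pow, ← key]
    congr 1
    ring
  · rw [hsq, hsq, ← key, mul_pow (B ^ j) h, mul_pow _ (B ^ j), mul_pow _ (B ^ 2 / P ^ 2 * Z ^ 2),
      mul_pow (B ^ 2 / P ^ 2) (Z ^ 2)]
    ring

private theorem VarY_sum {n B H q Z : ℕ} {o : Fin (n + 1)}
    (F : Vc n (𝓞 K) × 𝓞 K → Vc n (𝓞 K) × 𝓞 K → ℝ) :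
    ∑ p ∈ GP K B H q Z o, ∑ p' ∈ GP K B H q Z o, F p p' =
      ∑ x ∈ GG K B H q o, ∑ y ∈ GG K B H q o, ∑ w ∈ OBox K (Z : ℝ), ∑ z ∈ OBox K (Z : ℝ),
        F (x, w) (y, z) := by
  unfold GP
  rw [Finset.sum_product]
  refine Finset.sum_congr rfl fun x _ => ?_
  rw [Finset.sum_comm]
  rw [← Finset.sum_product']
  rw [Finset.sum_product, Finset.sum_product]
  exact Finset.sum_congr rfl fun y _ => Finset.sum_comm

private theorem VarY_n2 {N Y D P T Z : ℝ} (hN0 : 0 ≤ N) (hN : N ≤ Y * (D / P)) (hD : 0 < D) (hP : 0 < P)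
    (hT : 0 ≤ T) (hZ : 0 < Z) : N * (T * (Z + Z ^ 2 / D)) ≤ Y * Z ^ 2 * (T / P * (1 + D / Z)) ∧
    N * (T * (Z ^ 2 / D)) ≤ Y * Z ^ 2 * (T / P * (1 + D / Z)) := by
  have h1 : N * (T * (Z + Z ^ 2 / D)) ≤ Y * Z ^ 2 * (T / P * (1 + D / Z)) := by
    have h2 : N * (T * (Z + Z ^ 2 / D)) ≤ Y * (D / P) * (T * (Z + Z ^ 2 / D)) :=
      mul_le_mul_of_nonneg_right hN (by positivity)
    refine h2.trans (le_of_eq ?_)
    field_simp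
    ring
  refine ⟨h1, le_trans ?_ h1⟩
  refine mul_le_mul_of_nonneg_left (mul_le_mul_of_nonneg_left ?_ hT) hN0
  linarith

variable (K) in
theorem varY (r n m q R : ℕ) (hr : 2 ≤ r) (hn : 2 ≤ n) (hm : 1 ≤ m) (hq : 1 ≤ q) :
    ∃ C : ℝ, 1 ≤ C ∧
    ∀ (o : Fin (n + 1)) (k w B H A W Z Q : ℕ), 1 ≤ k → 1 ≤ B → 1 ≤ H → H ≤ B → 1 ≤ W → 1 ≤ Q →
    H * B ≤ Q ^ 4 → (∀ m, 1 ≤ m → m ≤ w → m ∣ W) → C * (H : ℝ) ^ 2 * k ≤ A → k ^ 2 * W ≤ Z →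
    (Z : ℝ) ^ r ≤ R * ((A : ℝ) * (B : ℝ) ^ (r * m)) →
    C * ((k : ℝ) ^ 2 * W * (B : ℝ) ^ 2) ≤ (A : ℝ) * (B : ℝ) ^ (r * m) →
    Qy K r n (r * m) B H q Z o W (k ^ 2) A ≤
      C * (A : ℝ) ^ (eK K * (n + 1) ^ (r * m)) *
        (((B : ℝ) ^ (n + 1) * Z / ((A : ℝ) * (B : ℝ) ^ (r * m))) ^ eK K
        + (((B : ℝ) ^ (n + 1) * Z / ((A : ℝ) * (B : ℝ) ^ (r * m))) ^ eK K) ^ 2 *
            (1 / k + 1 / ((Nat.sqrt w : ℝ) + 1) +
              ((Nat.log 2 B : ℝ) + 2) ^ eK K * Lam n B H Q Z ^ eK K)) := by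
  obtain ⟨Cd, hCd, hDi⟩ := diagY K r n m q R hr hq
  obtain ⟨Cg, hCg, hGo⟩ := goodSumY K r n m q hr hm
  obtain ⟨Ce, hCe, hBa⟩ := eeSumY K r n m q (by omega) hq
  obtain ⟨C1, hC1, hN1⟩ := N1 (K := K) n (r * m) q hq
  obtain ⟨C2, hC2, hN2⟩ := N2 (K := K) n (r * m) q (by nlinarith) hq
  obtain ⟨Ca, hCa, hSa⟩ := psAllY K n q r hn hq (by omega)
  obtain ⟨Cb, hCb, hSb⟩ := psBadY K n q r hn hq (by omega)
  have hCK := CK_one_le K n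
  have hCK0 : 0 ≤ CK K n := by linarith
  have t0 : 0 ≤ Cd := by linarith
  have t1 : 0 ≤ Ce := by linarith
  have t2 : 0 ≤ Cg := by linarith
  have t3 : 0 ≤ C1 := by linarith
  have t4 : 0 ≤ C2 := by linarith
  have t5 : 0 ≤ Ca := by linarith
  have t6 : 0 ≤ Cb := by linarith
  obtain ⟨M, hM⟩ : ∃ M, M = CK K n ^ (n + 1) *
      (CK K n * (q : ℝ) ^ eK K * Cd * C1 + Cg * C2 * Ca + Ce * C2 * Cb) := ⟨_, rfl⟩
  have hM0 : 0 ≤ M := by rw [hM]; positivity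
  refine ⟨M + C1 + C2 + Cg + Cd + Ce, by linarith, ?_⟩
  intro o k w B H A W Z Q hk hB hH hHB hW1 hQ1 hHQ hW hA hkZ hZR hP
  have hk1 : (1 : ℝ) ≤ k := by exact_mod_cast hk
  have hH1 : (1 : ℝ) ≤ H := by exact_mod_cast hH
  have hB1 : (1 : ℝ) ≤ B := by exact_mod_cast hB
  have hB0 : (0 : ℝ) < B := by linarith
  have hW1' : (1 : ℝ) ≤ W := by exact_mod_cast hW1
  have hWZ : W ≤ Z := le_trans (Nat.le_mul_of_pos_left W (by positivity)) hkZ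
  have hZ1 : 1 ≤ Z := hW1.trans hWZ
  have hZ0 : (0 : ℝ) < Z := by exact_mod_cast hZ1
  have hLm : 0 ≤ Lam n B H Q Z := by unfold Lam; positivity
  have hH2 : (1 : ℝ) ≤ (H : ℝ) ^ 2 := one_le_pow₀ hH1
  have hHk : (1 : ℝ) ≤ (H : ℝ) ^ 2 * k := one_le_mul_of_one_le_of_one_le hH2 hk1
  have hle : ∀ c : ℝ, 0 ≤ c → c ≤ M + C1 + C2 + Cg + Cd + Ce → c * ((H : ℝ) ^ 2 * k) ≤ A := by
    intro c _ hc
    refine le_trans (mul_le_mul_of_nonneg_right hc (by linarith)) ?_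
    rw [← mul_assoc]
    exact hA
  have hleP : ∀ c : ℝ, 0 ≤ c → c ≤ M + C1 + C2 + Cg + Cd + Ce →
      c * ((k : ℝ) ^ 2 * W * (B : ℝ) ^ 2) ≤ (A : ℝ) * (B : ℝ) ^ (r * m) := by
    intro c _ hc
    exact le_trans (mul_le_mul_of_nonneg_right hc (by positivity)) hP
  have hg := hle Cg t2 (by linarith)
  have h1 := hle C1 t3 (by linarith)
  have h2 := hle C2 t4 (by linarith)
  have hA1R : (1 : ℝ) ≤ A := by
    refine le_trans ?_ hg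
    exact one_le_mul_of_one_le_of_one_le hCg hHk
  have hA1 : 1 ≤ A := by exact_mod_cast hA1R
  have hA0 : (0 : ℝ) < A := by linarith
  have hgA : Cg * (H : ℝ) ^ 2 * k ≤ A := by rw [mul_assoc]; exact hg
  have hHH : (H : ℝ) ≤ (H : ℝ) ^ 2 * k := by
    have h3 : (H : ℝ) ≤ (H : ℝ) ^ 2 := by
      rw [sq]
      exact le_mul_of_one_le_left (by linarith) hH1
    exact h3.trans (le_mul_of_one_le_right (by linarith) hk1)
  have h1A : C1 * (H : ℝ) ≤ A := le_trans (mul_le_mul_of_nonneg_left hHH t3) h1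
  have h2A : C2 ≤ A := le_trans (le_mul_of_one_le_right t4 hHk) h2
  have h2B : C2 * (H : ℝ) ^ 2 ≤ A := by
    refine le_trans (mul_le_mul_of_nonneg_left ?_ t4) h2
    exact le_mul_of_one_le_right (by linarith) hk1
  have heP : Ce * (((k ^ 2 : ℕ) : ℝ) * W * (B : ℝ) ^ 2) ≤ (A : ℝ) * (B : ℝ) ^ (r * m) := by
    push_cast
    exact hleP Ce t1 (by linarith)
  have hdP : Cd * (((k ^ 2 : ℕ) : ℝ) * W) ≤ (A : ℝ) * (B : ℝ) ^ (r * m) := by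
    push_cast
    refine le_trans ?_ (hleP Cd t0 (by linarith))
    refine mul_le_mul_of_nonneg_left ?_ t0
    exact le_mul_of_one_le_right (by positivity) (one_le_pow₀ hB1)
  rw [expandY r n (r * m) B H q Z o W (k ^ 2) A (Nat.one_le_pow _ _ hk), VarY_sum]
  obtain ⟨A0, hA0'⟩ : ∃ A0, A0 = (A : ℝ) ^ (eK K * (n + 1) ^ (r * m)) := ⟨_, rfl⟩
  have hA00 : 0 ≤ A0 := by rw [hA0']; positivity
  obtain ⟨P, hP'⟩ : ∃ P, P = (A : ℝ) * (B : ℝ) ^ (r * m) := ⟨_, rfl⟩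
  have hP0 : 0 < P := by rw [hP']; positivity
  rw [← hA0', ← hP']
  have hrow : ∀ x ∈ GG K B H q o, ∑ y ∈ GG K B H q o, ∑ w ∈ OBox K (Z : ℝ), ∑ z ∈ OBox K (Z : ℝ),
        EEy r (r * m) o W (k ^ 2) A (x, w) (y, z) ≤
      (CK K n * (q : ℝ) ^ eK K) * (Cd * (C1 * A0 * ((Z : ℝ) ^ eK K / P ^ eK K))) +
        (Cg / k * (C2 * A0 * (((B : ℝ) ^ 2 / P ^ 2) ^ eK K * ((Z : ℝ) ^ eK K) ^ 2))) *
          (Ca * (((B : ℝ) ^ (n - 1)) ^ eK K + ((Nat.log 2 B : ℝ) + 2) ^ eK K *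
            ((B : ℝ) ^ (n - 1) * Lam n B H Q Z) ^ eK K)) +
        (Ce * (C2 * A0 * (((B : ℝ) ^ 2 / P ^ 2) ^ eK K * ((Z : ℝ) ^ eK K) ^ 2))) *
          (Cb * (((B : ℝ) ^ (n - 1)) ^ eK K * (1 / (k : ℝ) + 1 / ((Nat.sqrt w : ℝ) + 1)) +
            ((Nat.log 2 B : ℝ) + 2) ^ eK K * ((B : ℝ) ^ (n - 1) * Lam n B H Q Z) ^ eK K)) := by
    intro x hx
    have hxo := GG_ne hB hx
    have hnn : ∀ y ∈ GG K B H q o, ¬ Prp x y → ∀ c : ℝ, 0 ≤ c →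
        c * (n2 (r * m) x y A : ℝ) * ((rt r (Dd x y) : ℝ) * ((Z : ℝ) ^ eK K + ((Z : ℝ) ^ eK K) ^ 2 / nD x y)) ≤
        c * (C2 * A0 * (((B : ℝ) ^ 2 / P ^ 2) ^ eK K * ((Z : ℝ) ^ eK K) ^ 2)) *
          ((rt r (Dd x y) : ℝ) / pn (Del o x y) * (1 + nD x y / (Z : ℝ) ^ eK K)) ∧
        c * (n2 (r * m) x y A : ℝ) * ((rt r (Dd x y) : ℝ) * (((Z : ℝ) ^ eK K) ^ 2 / nD x y)) ≤
        c * (C2 * A0 * (((B : ℝ) ^ 2 / P ^ 2) ^ eK K * ((Z : ℝ) ^ eK K) ^ 2)) *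
          ((rt r (Dd x y) : ℝ) / pn (Del o x y) * (1 + nD x y / (Z : ℝ) ^ eK K)) := by
      intro y hy hp c hc
      have h3 := hN2 B H A o hB h2A h2B x hx y hy hp
      rw [← hA0', ← hP'] at h3
      have h4 : (0 : ℝ) < nD x y := by
        rw [nD]
        exact lt_of_lt_of_le one_pos (one_le_absNorm (Dd_ne_bot hp))
      have h5 : 0 < pn (Del o x y) := lt_of_lt_of_le one_pos (one_le_pn_Del hxo hp)
      obtain ⟨h6, h7⟩ := VarY_n2 (T := (rt r (Dd x y) : ℝ)) (Z := (Z : ℝ) ^ eK K) (Nat.cast_nonneg _) h3 h4 h5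
        (Nat.cast_nonneg _) (by positivity)
      refine ⟨?_, ?_⟩
      · refine le_trans (le_of_eq (mul_assoc _ _ _)) ((mul_le_mul_of_nonneg_left h6 hc).trans (le_of_eq ?_))
        ring
      · refine le_trans (le_of_eq (mul_assoc _ _ _)) ((mul_le_mul_of_nonneg_left h7 hc).trans (le_of_eq ?_))
        ring
    refine VarY_row B H q o x _ (fun y => ((W : ℕ) : 𝓞 K) ∈ Dd x y ∧
      ∀ v, (B : ℝ) ^ 2 ≤ k * Del o x y v)
      (fun y => (rt r (Dd x y) : ℝ) / pn (Del o x y) * (1 + nD x y / (Z : ℝ) ^ eK K)) ?_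
      (Cd * (C1 * A0 * ((Z : ℝ) ^ eK K / P ^ eK K))) _ _ _ _ _
      (by positivity) (by positivity) (by positivity) ?_ ?_ ?_ (card_Prp hB hx)
      (hSa B H Q Z o hB hH hHB hQ1 hZ1 hHQ x hx) _ ?_ (hSb B H Q Z k w W o hB hH hHB hQ1 hZ1 hHQ hk hW x hx)
    · intro y
      have h4 : (0 : ℝ) ≤ nD x y := by
        rw [nD]
        exact Nat.cast_nonneg _
      exact mul_nonneg (div_nonneg (Nat.cast_nonneg _) (pn_nonneg fun v => Del_nonneg o x y v)) (by positivity)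
    · intro y hy hp
      have h3 := hDi B H A Z W (k ^ 2) o hB hA1 hW1 (Nat.one_le_pow _ _ hk) hZ1 hkZ hZR hdP x hx y hy hp
      have h4 := hN1 B H A o hB hA1 h1A x hx
      rw [← hA0', ← hP'] at h4
      refine h3.trans ?_
      calc Cd * (n1 (r * m) x A : ℝ) * (Z : ℝ) ^ eK K
          ≤ Cd * (C1 * A0 / P ^ eK K) * (Z : ℝ) ^ eK K :=
            mul_le_mul_of_nonneg_right (mul_le_mul_of_nonneg_left h4 t0) (by positivity)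
        _ = _ := by ring
    · intro y hy hp hgd
      refine (hGo B H A Z W k o hB hk hA1 hW1 hWZ hgA x hx y hy hp hgd.1 hgd.2).trans ?_
      exact (hnn y hy hp (Cg / (k : ℝ)) (by positivity)).2
    · intro y hy hp _
      refine (hBa B H A Z W (k ^ 2) o hB hA1 hW1 (Nat.one_le_pow _ _ hk) hWZ heP x hx y hy hp).trans ?_
      exact (hnn y hy hp Ce t1).1
    · intro y
      rw [Finset.mem_filter]
  refine (Finset.sum_le_sum hrow).trans ?_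
  rw [Finset.sum_const, nsmul_eq_mul]
  obtain ⟨i1, i2, i3⟩ := VarY_id (e := eK K) (n := n) (B := (B : ℝ)) (Z := (Z : ℝ)) (by omega) hP0
  have hcard := card_GG_le (K := K) n H q o hB
  have hXe : (B : ℝ) ^ (eK K * (n + 1)) = ((B : ℝ) ^ (n + 1)) ^ eK K := by
    rw [← pow_mul, mul_comm]
  rw [hXe] at hcard
  refine (mul_le_mul_of_nonneg_right hcard (by positivity)).trans ?_
  have hs : 1 / (k : ℝ) ≤ 1 / (k : ℝ) + 1 / ((Nat.sqrt w : ℝ) + 1) := by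
    have : 0 ≤ 1 / ((Nat.sqrt w : ℝ) + 1) := by positivity
    linarith
  have hfin := VarY_alg k (1 / (k : ℝ) + 1 / ((Nat.sqrt w : ℝ) + 1))
    (((B : ℝ) ^ (n + 1) * Z / P) ^ eK K) (((B : ℝ) ^ (n + 1)) ^ eK K) ((Z : ℝ) ^ eK K / P ^ eK K)
    (((B : ℝ) ^ 2 / P ^ 2) ^ eK K * ((Z : ℝ) ^ eK K) ^ 2) (((B : ℝ) ^ (n - 1)) ^ eK K)
    (((Nat.log 2 B : ℝ) + 2) ^ eK K * ((B : ℝ) ^ (n - 1) * Lam n B H Q Z) ^ eK K)
    (((Nat.log 2 B : ℝ) + 2) ^ eK K * Lam n B H Q Z ^ eK K)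
    A0 (CK K n ^ (n + 1)) (CK K n * (q : ℝ) ^ eK K) Cd Ce C1 C2 Ca Cb Cg hk1 hs (by positivity)
    (by positivity) hA00 (by positivity) (by positivity) t0 t1 t3 t4 t5 t6 t2 i1 i2 (i3 _ _)
  rw [← hM] at hfin
  refine hfin.trans ?_
  refine mul_le_mul_of_nonneg_right (mul_le_mul_of_nonneg_right (by linarith) hA00) ?_
  positivity

variable (K) in
theorem pairSlY (r n m q : ℕ) (hr : 2 ≤ r) (hn : 2 ≤ n) (hm : 1 ≤ m) (hq : 1 ≤ q) :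
    ∃ C : ℝ, 1 ≤ C ∧
    ∀ (o : Fin (n + 1)) (B H A Z Q : ℕ), 1 ≤ B → 1 ≤ H → H ≤ B → 1 ≤ Z → 1 ≤ Q → H * B ≤ Q ^ 4 →
    C * (H : ℝ) ^ 2 ≤ A →
    ∑ p ∈ GP K B H q Z o, ∑ p' ∈ GP K B H q Z o, sl (r * m) A p.1 p'.1 (p.2 ^ r) (p'.2 ^ r) ≤
      C * (A : ℝ) ^ (eK K * (n + 1) ^ (r * m)) *
        (((B : ℝ) ^ (n + 1) * Z / ((A : ℝ) * (B : ℝ) ^ (r * m))) ^ eK K
        + (((B : ℝ) ^ (n + 1) * Z / ((A : ℝ) * (B : ℝ) ^ (r * m))) ^ eK K) ^ 2 *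
            (1 + ((Nat.log 2 B : ℝ) + 2) ^ eK K * Lam n B H Q Z ^ eK K)) := by
  obtain ⟨Cd, hCd, hDi⟩ := diagSlY K r n m q hr
  obtain ⟨Ce, hCe, hSl⟩ := slSumY K r n m q (by omega)
  obtain ⟨C1, hC1, hN1⟩ := N1 (K := K) n (r * m) q hq
  obtain ⟨C2, hC2, hN2⟩ := N2 (K := K) n (r * m) q (by nlinarith) hq
  obtain ⟨Ca, hCa, hSa⟩ := psAllY K n q r hn hq (by omega)
  have hCK := CK_one_le K n
  have hCK0 : 0 ≤ CK K n := by linarith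
  have t0 : 0 ≤ Cd := by linarith
  have t1 : 0 ≤ Ce := by linarith
  have t3 : 0 ≤ C1 := by linarith
  have t4 : 0 ≤ C2 := by linarith
  have t5 : 0 ≤ Ca := by linarith
  obtain ⟨M, hM⟩ : ∃ M, M = CK K n ^ (n + 1) *
      (CK K n * (q : ℝ) ^ eK K * Cd * C1 + 0 * C2 * Ca + Ce * C2 * Ca) := ⟨_, rfl⟩
  have hM0 : 0 ≤ M := by rw [hM]; positivity
  refine ⟨M + C1 + C2, by linarith, ?_⟩
  intro o B H A Z Q hB hH hHB hZ1 hQ1 hHQ hA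
  have hH1 : (1 : ℝ) ≤ H := by exact_mod_cast hH
  have hB1 : (1 : ℝ) ≤ B := by exact_mod_cast hB
  have hB0 : (0 : ℝ) < B := by linarith
  have hZ0 : (0 : ℝ) < Z := by exact_mod_cast hZ1
  have hLm : 0 ≤ Lam n B H Q Z := by unfold Lam; positivity
  have hH2 : (1 : ℝ) ≤ (H : ℝ) ^ 2 := one_le_pow₀ hH1
  have hle : ∀ c : ℝ, 0 ≤ c → c ≤ M + C1 + C2 → c * (H : ℝ) ^ 2 ≤ A := by
    intro c _ hc
    exact le_trans (mul_le_mul_of_nonneg_right hc (by linarith)) hA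
  have h1 := hle C1 t3 (by linarith)
  have h2B := hle C2 t4 (by linarith)
  have hA1R : (1 : ℝ) ≤ A := by
    refine le_trans ?_ h1
    exact one_le_mul_of_one_le_of_one_le hC1 hH2
  have hA1 : 1 ≤ A := by exact_mod_cast hA1R
  have hA0 : (0 : ℝ) < A := by linarith
  have hHH : (H : ℝ) ≤ (H : ℝ) ^ 2 := by
    rw [sq]
    exact le_mul_of_one_le_left (by linarith) hH1
  have h1A : C1 * (H : ℝ) ≤ A := le_trans (mul_le_mul_of_nonneg_left hHH t3) h1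
  have h2A : C2 ≤ A := le_trans (le_mul_of_one_le_right t4 hH2) h2B
  rw [VarY_sum (fun p p' => sl (r * m) A p.1 p'.1 (p.2 ^ r) (p'.2 ^ r))]
  obtain ⟨A0, hA0'⟩ : ∃ A0, A0 = (A : ℝ) ^ (eK K * (n + 1) ^ (r * m)) := ⟨_, rfl⟩
  have hA00 : 0 ≤ A0 := by rw [hA0']; positivity
  obtain ⟨P, hP'⟩ : ∃ P, P = (A : ℝ) * (B : ℝ) ^ (r * m) := ⟨_, rfl⟩
  have hP0 : 0 < P := by rw [hP']; positivity
  rw [← hA0', ← hP']
  have hrow : ∀ x ∈ GG K B H q o, ∑ y ∈ GG K B H q o, ∑ w ∈ OBox K (Z : ℝ), ∑ z ∈ OBox K (Z : ℝ),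
        sl (r * m) A x y (w ^ r) (z ^ r) ≤
      (CK K n * (q : ℝ) ^ eK K) * (Cd * (C1 * A0 * ((Z : ℝ) ^ eK K / P ^ eK K))) +
        (0 / 1 * (C2 * A0 * (((B : ℝ) ^ 2 / P ^ 2) ^ eK K * ((Z : ℝ) ^ eK K) ^ 2))) *
          (Ca * (((B : ℝ) ^ (n - 1)) ^ eK K + ((Nat.log 2 B : ℝ) + 2) ^ eK K *
            ((B : ℝ) ^ (n - 1) * Lam n B H Q Z) ^ eK K)) +
        (Ce * (C2 * A0 * (((B : ℝ) ^ 2 / P ^ 2) ^ eK K * ((Z : ℝ) ^ eK K) ^ 2))) *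
          (Ca * (((B : ℝ) ^ (n - 1)) ^ eK K * 1 +
            ((Nat.log 2 B : ℝ) + 2) ^ eK K * ((B : ℝ) ^ (n - 1) * Lam n B H Q Z) ^ eK K)) := by
    intro x hx
    have hxo := GG_ne hB hx
    have hSx := hSa B H Q Z o hB hH hHB hQ1 hZ1 hHQ x hx
    refine VarY_row B H q o x _ (fun _ => False)
      (fun y => (rt r (Dd x y) : ℝ) / pn (Del o x y) * (1 + nD x y / (Z : ℝ) ^ eK K)) ?_
      (Cd * (C1 * A0 * ((Z : ℝ) ^ eK K / P ^ eK K))) _ _ _ _ _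
      (by positivity) (by positivity) (by positivity) ?_ ?_ ?_ (card_Prp hB hx) hSx
      ((GG K B H q o).filter (fun y => ¬ Prp x y)) ?_ ?_
    · intro y
      have h4 : (0 : ℝ) ≤ nD x y := by
        rw [nD]
        exact Nat.cast_nonneg _
      exact mul_nonneg (div_nonneg (Nat.cast_nonneg _) (pn_nonneg fun v => Del_nonneg o x y v)) (by positivity)
    · intro y hy hp
      have h3 := hDi B H A Z o hB hA1 hZ1 x hx y hy hp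
      have h4 := hN1 B H A o hB hA1 h1A x hx
      rw [← hA0', ← hP'] at h4
      refine h3.trans ?_
      calc Cd * (n1 (r * m) x A : ℝ) * (Z : ℝ) ^ eK K
          ≤ Cd * (C1 * A0 / P ^ eK K) * (Z : ℝ) ^ eK K :=
            mul_le_mul_of_nonneg_right (mul_le_mul_of_nonneg_left h4 t0) (by positivity)
        _ = _ := by ring
    · intro y hy hp hgd
      exact hgd.elim
    · intro y hy hp _
      refine (hSl B H A Z o hB hA1 hZ1 x hx y hy hp).trans ?_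
      have h3 := hN2 B H A o hB h2A h2B x hx y hy hp
      rw [← hA0', ← hP'] at h3
      have h4 : (0 : ℝ) < nD x y := by
        rw [nD]
        exact lt_of_lt_of_le one_pos (one_le_absNorm (Dd_ne_bot hp))
      have h5 : 0 < pn (Del o x y) := lt_of_lt_of_le one_pos (one_le_pn_Del hxo hp)
      obtain ⟨h6, -⟩ := VarY_n2 (T := (rt r (Dd x y) : ℝ)) (Z := (Z : ℝ) ^ eK K) (Nat.cast_nonneg _) h3 h4 h5
        (Nat.cast_nonneg _) (by positivity)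
      refine le_trans (le_of_eq (mul_assoc _ _ _)) ((mul_le_mul_of_nonneg_left h6 t1).trans (le_of_eq ?_))
      ring
    · intro y
      rw [Finset.mem_filter]
      exact ⟨fun h => ⟨h.1, h.2, id⟩, fun h => ⟨h.1, h.2.1⟩⟩
    · rw [mul_one]
      exact hSx
  refine (Finset.sum_le_sum hrow).trans ?_
  rw [Finset.sum_const, nsmul_eq_mul]
  obtain ⟨i1, i2, i3⟩ := VarY_id (e := eK K) (n := n) (B := (B : ℝ)) (Z := (Z : ℝ)) (by omega) hP0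
  have hcard := card_GG_le (K := K) n H q o hB
  have hXe : (B : ℝ) ^ (eK K * (n + 1)) = ((B : ℝ) ^ (n + 1)) ^ eK K := by
    rw [← pow_mul, mul_comm]
  rw [hXe] at hcard
  refine (mul_le_mul_of_nonneg_right hcard (by positivity)).trans ?_
  have hfin := VarY_alg 1 1
    (((B : ℝ) ^ (n + 1) * Z / P) ^ eK K) (((B : ℝ) ^ (n + 1)) ^ eK K) ((Z : ℝ) ^ eK K / P ^ eK K)
    (((B : ℝ) ^ 2 / P ^ 2) ^ eK K * ((Z : ℝ) ^ eK K) ^ 2) (((B : ℝ) ^ (n - 1)) ^ eK K)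
    (((Nat.log 2 B : ℝ) + 2) ^ eK K * ((B : ℝ) ^ (n - 1) * Lam n B H Q Z) ^ eK K)
    (((Nat.log 2 B : ℝ) + 2) ^ eK K * Lam n B H Q Z ^ eK K)
    A0 (CK K n ^ (n + 1)) (CK K n * (q : ℝ) ^ eK K) Cd Ce C1 C2 Ca Ca 0 le_rfl (by norm_num)
    (by positivity) (by positivity) hA00 (by positivity) (by positivity) t0 t1 t3 t4 t5 t5 le_rfl
    i1 i2 (i3 _ _)
  rw [← hM] at hfin
  refine hfin.trans ?_
  refine mul_le_mul_of_nonneg_right (mul_le_mul_of_nonneg_right (by linarith) hA00) ?_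
  positivity

end Pool.Agent.Lib.MP_1ad228_ntY
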